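import Pool.Agent.MTate.Base
/-!
# MODULE TwistSum (finite fields)
`∑_x χ(x^3 - 2x^2 - 4x) = χ(-2) S1 p` for odd `p`: twist by `-2` and a 2-isogeny.

Proof. Substitute `x = -2u`: `x^3 - 2x^2 - 4x = -8 (u^3 + u^2 - u)` and `χ(-8) = χ(-2)`.  For `u ≠ 0`,
`u^3 + u^2 - u = u^2 (u + 1 - 1/u)`, so `∑_u χ(u^3+u^2-u) = ∑_{u ≠ 0} χ(u + 1 - 1/u)
= ∑_X χ(X) #{u ≠ 0 : u + 1 - 1/u = X}`.  The condition is `u^2 - (X - 1) u - 1 = 0` (which forces `u ≠ 0`), it has
`1 + χ((X-1)^2 + 4)` solutions, `(X-1)^2 + 4 = X^2 - 2X + 5`.  Hence the sum is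
`∑_X χ(X) + ∑_X χ(X^3 - 2X^2 + 5X) = 0 + S1 p`.
-/
namespace Pool.Agent.MTate

open Finset

theorem twist_two_ne {p : ℕ} [Fact p.Prime] (h2 : p ≠ 2) : (2 : ZMod p) ≠ 0 := by
  have h : ((2 : ℕ) : ZMod p) ≠ 0 := by
    rw [Ne, ZMod.natCast_eq_zero_iff]
    intro h
    exact h2 ((Nat.prime_dvd_prime_iff_eq Fact.out Nat.prime_two).1 h)
  exact_mod_cast h

theorem twist_ringChar {p : ℕ} [Fact p.Prime] (h2 : p ≠ 2) : ringChar (ZMod p) ≠ 2 := by
  rw [ZMod.ringChar_zmod_n]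
  exact h2

/-- The number of square roots as a sum of indicators. -/
theorem twist_count {p : ℕ} [Fact p.Prime] (h2 : p ≠ 2) (a : ZMod p) :
    ∑ w : ZMod p, (if w ^ 2 = a then (1 : ℤ) else 0) = quadraticChar (ZMod p) a + 1 := by
  rw [← quadraticChar_card_sqrts (twist_ringChar h2) a, Finset.sum_boole]
  congr 2
  ext x
  simp

/-- The number of solutions of `u^2 - (X - 1) u - 1 = 0`. -/
theorem twist_count' {p : ℕ} [Fact p.Prime] (h2 : p ≠ 2) (X : ZMod p) :
    ∑ u : ZMod p, (if u ^ 2 - (X - 1) * u - 1 = 0 then (1 : ℤ) else 0) =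
      quadraticChar (ZMod p) (X ^ 2 - 2 * X + 5) + 1 := by
  have h20 := twist_two_ne h2
  rw [← twist_count h2]
  refine Fintype.sum_equiv ((Equiv.mulLeft₀ (2 : ZMod p) h20).trans (Equiv.subRight (X - 1))) _ _ ?_
  intro u
  have h : ((Equiv.mulLeft₀ (2 : ZMod p) h20).trans (Equiv.subRight (X - 1))) u = 2 * u - (X - 1) := rfl
  rw [h]
  have hiff : (u ^ 2 - (X - 1) * u - 1 = 0) ↔ ((2 * u - (X - 1)) ^ 2 = X ^ 2 - 2 * X + 5) := by
    constructor
    · intro h
      linear_combination 4 * h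
    · intro h
      have h4 : (2 : ZMod p) * 2 ≠ 0 := mul_ne_zero h20 h20
      apply mul_left_cancel₀ h4
      linear_combination h
  by_cases hc : u ^ 2 - (X - 1) * u - 1 = 0
  · rw [if_pos hc, if_pos (hiff.1 hc)]
  · rw [if_neg hc, if_neg (fun h => hc (hiff.2 h))]

theorem twist_isog {p : ℕ} [Fact p.Prime] (h2 : p ≠ 2) :
    ∑ u : ZMod p, quadraticChar (ZMod p) (u ^ 3 + u ^ 2 - u) = S1 p := by
  have e1 : ∀ u : ZMod p, quadraticChar (ZMod p) (u ^ 3 + u ^ 2 - u) =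
      ∑ X : ZMod p, quadraticChar (ZMod p) X *
        (if u ^ 2 - (X - 1) * u - 1 = 0 then (1 : ℤ) else 0) := by
    intro u
    by_cases hu : u = 0
    · subst hu
      simp
    · have hX : ∀ X : ZMod p, (u ^ 2 - (X - 1) * u - 1 = 0) ↔ (X = u + 1 - u⁻¹) := by
        intro X
        constructor
        · intro h
          apply mul_left_cancel₀ hu
          rw [mul_sub, mul_inv_cancel₀ hu]
          linear_combination -h
        · intro h
          subst h
          have := mul_inv_cancel₀ hu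
          linear_combination this
      have e2 : u ^ 3 + u ^ 2 - u = u ^ 2 * (u + 1 - u⁻¹) := by
        have := mul_inv_cancel₀ hu
        linear_combination u * this
      rw [e2, map_mul, quadraticChar_sq_one' hu, one_mul]
      have e3 : ∀ X : ZMod p, quadraticChar (ZMod p) X *
        (if u ^ 2 - (X - 1) * u - 1 = 0 then (1 : ℤ) else 0) =
          if X = u + 1 - u⁻¹ then quadraticChar (ZMod p) X else 0 := by
        intro X
        by_cases h : X = u + 1 - u⁻¹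
        · rw [if_pos h, if_pos ((hX X).2 h), mul_one]
        · rw [if_neg h, if_neg (fun h' => h ((hX X).1 h')), mul_zero]
      rw [Finset.sum_congr rfl (fun X _ => e3 X), Finset.sum_ite_eq' Finset.univ (u + 1 - u⁻¹),
        if_pos (Finset.mem_univ _)]
  rw [Finset.sum_congr rfl (fun u _ => e1 u), Finset.sum_comm]
  have e4 : ∀ X : ZMod p, ∑ u : ZMod p, quadraticChar (ZMod p) X *
        (if u ^ 2 - (X - 1) * u - 1 = 0 then (1 : ℤ) else 0) =
      quadraticChar (ZMod p) (X ^ 3 - 2 * X ^ 2 + 5 * X) + quadraticChar (ZMod p) X := by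
    intro X
    rw [← Finset.mul_sum, twist_count' h2, mul_add, mul_one, ← map_mul]
    congr 2
    ring
  rw [Finset.sum_congr rfl (fun X _ => e4 X), Finset.sum_add_distrib,
    quadraticChar_sum_zero (twist_ringChar h2), add_zero]
  rfl

theorem twist_sum {p : ℕ} [Fact p.Prime] (h2 : p ≠ 2) :
    ∑ x : ZMod p, quadraticChar (ZMod p) (x ^ 3 - 2 * x ^ 2 - 4 * x) =
      quadraticChar (ZMod p) (-2) * S1 p := by
  have h20 := twist_two_ne h2
  have h20' : (-2 : ZMod p) ≠ 0 := neg_ne_zero.2 h20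
  rw [← twist_isog h2, Finset.mul_sum]
  refine (Fintype.sum_equiv (Equiv.mulLeft₀ (-2 : ZMod p) h20') _ _ ?_).symm
  intro u
  have h : (Equiv.mulLeft₀ (-2 : ZMod p) h20') u = -2 * u := rfl
  rw [h]
  have e : (-2 * u) ^ 3 - 2 * (-2 * u) ^ 2 - 4 * (-2 * u) =
      (-2 : ZMod p) * (2 ^ 2 * (u ^ 3 + u ^ 2 - u)) := by ring
  rw [e, map_mul, map_mul, quadraticChar_sq_one' h20, one_mul]

/-- `(-2/p) = χ_{-8}(p)`. -/
theorem char_neg_two {p : ℕ} [Fact p.Prime] (h2 : p ≠ 2) :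
    quadraticChar (ZMod p) (-2) = chi p := by
  rw [quadraticChar_neg_two (twist_ringChar h2), ZMod.card, ZMod.χ₈'_nat_eq_if_mod_eight]
  have hodd : p % 2 = 1 := (Nat.Prime.eq_two_or_odd Fact.out).resolve_left h2
  unfold chi
  rw [if_neg (by omega)]
  by_cases h : p % 8 = 1 ∨ p % 8 = 3
  · rw [if_pos h, if_pos h]
  · rw [if_neg h, if_neg h, if_pos (by omega)]

end Pool.Agent.MTate
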