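import Pool.Agent.MTate.Defs
import Pool.Agent.MTate.TwistSum
/-!
# MODULE ApE (counting points)
`a_p` of `E : y^2 = x^3 - 2x^2 - 4x`.

Proof. For odd `p`: the affine solutions over `x` are the square roots of `x^3 - 2x^2 - 4x`, `1 + χ` of them
(`quadraticChar_card_sqrts`), so `ap E p = -∑_x χ(x^3 - 2x^2 - 4x) = -χ(-2) S1 p`.
`p = 2`: the solutions of `y^2 = x^3` over `F_2` are `(0,0), (1,1)`: `ap = 0`.  `p = 3`: 5 solutions, `ap = -2`;
`p = 5`: 4 solutions, `ap = 1` (finite computations, `decide`).  `E.Δ = 5120 = 2^10 · 5`.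
-/
set_option linter.all false

namespace Pool.Agent.MTate

theorem red_eq_iff (p : ℕ) (x y : ZMod p) :
    (red E p).toAffine.Equation x y ↔ y ^ 2 = x ^ 3 - 2 * x ^ 2 - 4 * x := by
  rw [WeierstrassCurve.Affine.equation_iff]
  have h1 : (red E p).a₁ = 0 := by simp [red, E]
  have h2 : (red E p).a₂ = -2 := by simp [red, E]
  have h3 : (red E p).a₃ = 0 := by simp [red, E]
  have h4 : (red E p).a₄ = -4 := by simp [red, E]
  have h6 : (red E p).a₆ = 0 := by simp [red, E]
  rw [h1, h2, h3, h4, h6]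
  constructor
  · intro h
    linear_combination h
  · intro h
    linear_combination h

theorem card_sol (p : ℕ) [NeZero p] :
    Nat.card {P : ZMod p × ZMod p // (red E p).toAffine.Equation P.1 P.2} =
      ((Finset.univ : Finset (ZMod p × ZMod p)).filter
        (fun P => P.2 ^ 2 = P.1 ^ 3 - 2 * P.1 ^ 2 - 4 * P.1)).card := by
  rw [← Fintype.card_subtype, ← Nat.card_eq_fintype_card]
  refine Nat.card_congr (Equiv.subtypeEquivRight fun P => ?_)
  exact red_eq_iff p P.1 P.2

theorem ap_E {p : ℕ} [Fact p.Prime] (h2 : p ≠ 2) : ap E p = -(chi p * S1 p) := by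
  have hchar : ringChar (ZMod p) ≠ 2 := by
    rw [ZMod.ringChar_zmod_n]
    exact h2
  have h1 : (((Finset.univ : Finset (ZMod p × ZMod p)).filter
        (fun P => P.2 ^ 2 = P.1 ^ 3 - 2 * P.1 ^ 2 - 4 * P.1)).card : ℤ) =
      ∑ x : ZMod p, (quadraticChar (ZMod p) (x ^ 3 - 2 * x ^ 2 - 4 * x) + 1) := by
    rw [Finset.card_filter, Fintype.sum_prod_type]
    push_cast
    refine Finset.sum_congr rfl fun x _ => ?_
    rw [← quadraticChar_card_sqrts hchar, Set.toFinset_card, Fintype.card_subtype,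
      Finset.card_filter]
    push_cast
    rfl
  unfold ap
  rw [card_sol, h1, Finset.sum_add_distrib, twist_sum h2, char_neg_two h2]
  simp only [Finset.sum_const, Finset.card_univ, ZMod.card, nsmul_eq_mul, mul_one]
  ring

theorem ap_E_two : ap E 2 = 0 := by
  unfold ap
  rw [card_sol]
  decide

theorem ap_E_three : ap E 3 = -2 := by
  unfold ap
  rw [card_sol]
  decide

theorem ap_E_five : ap E 5 = 1 := by
  unfold ap
  rw [card_sol]
  decide

theorem E_disc : E.Δ = 5120 := by
  simp only [WeierstrassCurve.Δ, WeierstrassCurve.b₂, WeierstrassCurve.b₄, WeierstrassCurve.b₆,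
    WeierstrassCurve.b₈, E]
  norm_num

theorem E_good {p : ℕ} (hp : p.Prime) : (p : ℤ) ∣ E.Δ ↔ p = 2 ∨ p = 5 := by
  rw [E_disc]
  have h1 : ((p : ℤ) ∣ 5120) ↔ p ∣ 5120 := by
    exact_mod_cast Int.natCast_dvd_natCast (m := p) (n := 5120)
  rw [h1]
  constructor
  · intro h
    have h3 : (5120 : ℕ) = 2 ^ 10 * 5 := by norm_num
    rw [h3, hp.dvd_mul] at h
    rcases h with h | h
    · left
      exact (Nat.prime_dvd_prime_iff_eq hp Nat.prime_two).1 (hp.dvd_of_dvd_pow h)
    · right
      exact (Nat.prime_dvd_prime_iff_eq hp Nat.prime_five).1 h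
  · rintro (rfl | rfl)
    · norm_num
    · norm_num

end Pool.Agent.MTate
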