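import Mathlib

/-!
# Base definitions for the modular part of the proof (project MTate, MP_b13df7_nt)

Formal side: integer power series in `q`.
* `P k = ∏_{n ≥ 1} (1 - q^(k n))`, `fs = q P_2^2 P_10^2` (the newform of level 20), `b n` its
  coefficients;
* `Ns / Ds = q^-2 ...` is the q-expansion of the function `X`, `NGs / DGs` that of `G`.
Analytic side: functions `ℂ → ℂ`, only meaningful for `0 < im z`.
* `f0 z = η(2z)^2 η(10z)^2`, `X0 = η(4z)^4 η(10z)^2 / (η(2z)^2 η(20z)^4)`,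
  `G0 = η(4z) η(5z)^5 / (η(z) η(20z)^5)`, `Y0 = X0' / (4 π i f0)`.
Facts to be proved in the project: `Y0^2 = X0^3 - 2 X0^2 + 5 X0`, `G0 = X0 + 1 - Y0`.
-/

namespace Pool.Agent.MTate

open Complex PowerSeries

noncomputable section

/-- Euler product `∏_{n≥1} (1 - q^(k n))` (for `k ≥ 1`), as a formal power series: the coefficient of
`q^m` is that of the finite product over `n ≤ m + 1`. -/
def P (k : ℕ) : PowerSeries ℤ :=
  PowerSeries.mk fun m => coeff m (∏ n ∈ Finset.range (m + 1), (1 - X ^ (k * (n + 1)) : PowerSeries ℤ))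

/-- `θ = q d/dq`. -/
def th {R : Type*} [CommRing R] (a : PowerSeries R) : PowerSeries R :=
  PowerSeries.mk fun n => (n : R) * coeff n a

/-- `q P_2^2 P_10^2`. -/
def fs : PowerSeries ℤ := X * P 2 ^ 2 * P 10 ^ 2
/-- the coefficients of the newform of level 20. -/
def b (n : ℕ) : ℤ := coeff n fs
/-- numerator of `X`. -/
def Ns : PowerSeries ℤ := P 4 ^ 4 * P 10 ^ 2
/-- denominator of `X`. -/
def Ds : PowerSeries ℤ := X ^ 2 * P 2 ^ 2 * P 20 ^ 4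
/-- numerator of `G`. -/
def NGs : PowerSeries ℤ := P 4 * P 5 ^ 5
/-- denominator of `G`. -/
def DGs : PowerSeries ℤ := X ^ 3 * P 1 * P 20 ^ 5

/-- `4 f^2 D^4 (Y^2 - (X^3 - 2 X^2 + 5 X))`. -/
def Wr : PowerSeries ℤ :=
  (th Ns * Ds - Ns * th Ds) ^ 2 - 4 * fs ^ 2 * Ns * (Ns ^ 2 - 2 * Ns * Ds + 5 * Ds ^ 2) * Ds

/-- `2 f D^2 DG (X + 1 - Y - G)`. -/
def Gr : PowerSeries ℤ :=
  2 * fs * Ds * DGs * Ns + 2 * fs * Ds ^ 2 * DGs - 2 * fs * Ds ^ 2 * NGs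
    - (th Ns * Ds - Ns * th Ds) * DGs

/-- Absolute convergence of an integer power series on the open unit disc. -/
def Conv (a : PowerSeries ℤ) : Prop :=
  ∀ q : ℂ, ‖q‖ < 1 → Summable fun n : ℕ => ‖((coeff n a : ℤ) : ℂ) * q ^ n‖

/-- Evaluation at a complex number. -/
def ev (a : PowerSeries ℤ) (q : ℂ) : ℂ := ∑' n : ℕ, ((coeff n a : ℤ) : ℂ) * q ^ n

/-- `exp (2 π i z)`. -/
def qq (z : ℂ) : ℂ := exp (2 * Real.pi * I * z)

/-- Dedekind's eta function. -/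
abbrev eta : ℂ → ℂ := ModularForm.eta

/-- `η(2z)^2 η(10z)^2`. -/
def f0 (z : ℂ) : ℂ := eta (2 * z) ^ 2 * eta (10 * z) ^ 2
/-- `η(4z)^4 η(10z)^2 / (η(2z)^2 η(20z)^4)`. -/
def X0 (z : ℂ) : ℂ := eta (4 * z) ^ 4 * eta (10 * z) ^ 2 / (eta (2 * z) ^ 2 * eta (20 * z) ^ 4)
/-- `η(4z) η(5z)^5 / (η(z) η(20z)^5)`. -/
def G0 (z : ℂ) : ℂ := eta (4 * z) * eta (5 * z) ^ 5 / (eta z * eta (20 * z) ^ 5)
/-- `X0' / (4 π i f0)`. -/
def Y0 (z : ℂ) : ℂ := deriv X0 z / (4 * Real.pi * I * f0 z)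

/-- `f` is invariant of weight `k` under `Γ_0(N)`. -/
def Inv (N : ℕ) (k : ℤ) (f : ℂ → ℂ) : Prop :=
  ∀ a b c d : ℤ, a * d - b * c = 1 → (N : ℤ) ∣ c → ∀ z : ℂ, 0 < z.im →
    f ((a * z + b) / (c * z + d)) = (c * z + d) ^ k * f z

/-- The open upper half plane as a subset of `ℂ`. -/
abbrev HH : Set ℂ := {z : ℂ | 0 < z.im}

/-- The filter `im z → ∞` (uniformly in `re z`) on `ℂ`. -/
def imInf : Filter ℂ := Filter.comap Complex.im Filter.atTop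

/-- The integer `ψ(γ)` with `η(γ z)^2 = exp (2 π i ψ(γ) / 12) (c z + d) η(z)^2`. -/
def psi12 (a b c d : ℤ) : ℤ :=
  (1 - c ^ 2) * (b * d + 3 * (c - 1) * d + c + 3) + c * (a + d - 3)

/-- Hecke operator of weight 2 at a prime not dividing the level. -/
def Tp (p : ℕ) (f : ℂ → ℂ) (z : ℂ) : ℂ :=
  p * f (p * z) + (1 / p) * ∑ u ∈ Finset.range p, f ((z + u) / p)

/-- Hecke operator of weight 2 at a prime dividing the level. -/
def Up (p : ℕ) (f : ℂ → ℂ) (z : ℂ) : ℂ :=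
  (1 / p) * ∑ u ∈ Finset.range p, f ((z + u) / p)

/-- Width of the cusp `a/c` on `X_0(20)`: `20 / gcd(c^2, 20)`. -/
def hc (c : ℤ) : ℕ := 20 / Int.gcd (c ^ 2) 20

/-- The vertical period `2 π ∫_0^∞ f0(r + i t) dt = 2 π i ∫_{i∞}^r f0(z) dz`. -/
def Psi (r : ℝ) : ℂ := 2 * Real.pi * ∫ t in Set.Ioi (0 : ℝ), f0 (r + t * I)

/-- The primitive `∑ (b_n / n) q^n` of `2 π i f0`. -/
def Phi (z : ℂ) : ℂ := ∑' n : ℕ, ((b n : ℂ) / n) * qq z ^ n

/-- The sum of quadratic residue symbols `∑_x ((x^3 - 2 x^2 + 5 x) / p)`. -/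
def S1 (p : ℕ) [Fact p.Prime] : ℤ :=
  ∑ x : ZMod p, quadraticChar (ZMod p) (x ^ 3 - 2 * x ^ 2 + 5 * x)

/-- The character `χ_{-8}`. -/
def chi (n : ℕ) : ℤ :=
  if n % 8 = 1 ∨ n % 8 = 3 then 1 else if n % 8 = 5 ∨ n % 8 = 7 then -1 else 0

end

end Pool.Agent.MTate
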