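import Pool.Agent.MTate.Base
/-!
# MODULE BoundF0 (modular forms, Mathlib API)
`im z ‖f0 z‖` is bounded on the upper half plane, and not identically zero.

Proof. `‖Δ(τ)‖ ≤ C / (im τ)^6` for all `τ ∈ ℍ` (`CuspFormClass.exists_bound` for `CuspForm.discriminant`,
weight 12) and `‖η(τ)‖^24 = ‖Δ(τ)‖`.  Hence
`(im z ‖f0 z‖)^12 = (im z)^12 ‖Δ(2z)‖ ‖Δ(10z)‖ ≤ (im z)^12 C^2/((2 im z)^6 (10 im z)^6)`.
-/
namespace Pool.Agent.MTate
open Complex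

theorem eta_bound : ∃ C : ℝ, 0 ≤ C ∧ ∀ z : ℂ, 0 < z.im → ‖eta z‖ ^ 24 * z.im ^ 6 ≤ C := by
  obtain ⟨C, hC⟩ := CuspFormClass.exists_bound CuspForm.discriminant
  refine ⟨max C 0, le_max_right _ _, ?_⟩
  intro z hz
  have h := hC ⟨z, hz⟩
  have h1 : ‖CuspForm.discriminant ⟨z, hz⟩‖ = ‖eta z‖ ^ 24 := by
    show ‖ModularForm.discriminant ⟨z, hz⟩‖ = ‖eta z‖ ^ 24
    unfold ModularForm.discriminant
    rw [norm_pow]
  have h2 : ((⟨z, hz⟩ : UpperHalfPlane).im) = z.im := rfl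
  rw [h1, h2] at h
  have h3 : z.im ^ (((12 : ℤ) : ℝ) / 2 : ℝ) = z.im ^ 6 := by
    rw [show (((12 : ℤ) : ℝ) / 2 : ℝ) = ((6 : ℕ) : ℝ) by norm_num, Real.rpow_natCast]
  rw [h3, le_div_iff₀ (by positivity)] at h
  exact h.trans (le_max_left _ _)

theorem f0_bound : ∃ C : ℝ, ∀ z : ℂ, 0 < z.im → z.im * ‖f0 z‖ ≤ C := by
  obtain ⟨C, hC0, hC⟩ := eta_bound
  refine ⟨1 + C ^ 2, ?_⟩
  intro z hz
  have i2 : (2 * z).im = 2 * z.im := by simp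
  have i10 : (10 * z).im = 10 * z.im := by simp
  have h2 := hC (2 * z) (by rw [i2]; linarith)
  have h10 := hC (10 * z) (by rw [i10]; linarith)
  rw [i2] at h2
  rw [i10] at h10
  have hpos : 0 ≤ ‖eta (10 * z)‖ ^ 24 * (10 * z.im) ^ 6 := by positivity
  have h := mul_le_mul h2 h10 hpos hC0
  have e1 : ‖eta (2 * z)‖ ^ 24 * (2 * z.im) ^ 6 * (‖eta (10 * z)‖ ^ 24 * (10 * z.im) ^ 6) =
      20 ^ 6 * (z.im * ‖f0 z‖) ^ 12 := by
    unfold f0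
    rw [norm_mul, norm_pow, norm_pow]
    ring
  rw [e1] at h
  have h0 : 0 ≤ (z.im * ‖f0 z‖) ^ 12 := by positivity
  have h3 : (z.im * ‖f0 z‖) ^ 12 ≤ (1 + C ^ 2) ^ 12 := by
    have h4 : (1 + C ^ 2) ^ 1 ≤ (1 + C ^ 2) ^ 12 := pow_le_pow_right₀ (by nlinarith) (by norm_num)
    nlinarith
  exact le_of_pow_le_pow_left₀ (by norm_num) (by positivity) h3

end Pool.Agent.MTate
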