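import Pool.Agent.MTate.Base
/-!
# MODULE CharPow (finite fields)
`∑_x ((x^3 - 2x^2 + 5x)/p) ≡ - coeff_{p-1} (X^3 - 2X^2 + 5X)^((p-1)/2) mod p` for odd `p`.

Proof. Euler's criterion: `χ(a) = a^((p-1)/2)` in `F_p` (`quadraticChar_eq_pow_of_char_ne_two'`).
`∑_{x ∈ F_p} x^j = -1` if `j > 0` and `p - 1 ∣ j`, and `0` for the other `j < 2(p-1)` (including `j = 0`)
(`FiniteField.sum_pow_lt_card_sub_one`, `FiniteField.sum_pow_units`).  The polynomial has degree
`3(p-1)/2 < 2(p-1)`, so only `j = p - 1` contributes.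
-/
namespace Pool.Agent.MTate

namespace CharPowAux

open Finset Polynomial

lemma sum_pow_eq {p : ℕ} [Fact p.Prime] {j : ℕ} (hj : j ≠ 0) :
    ∑ x : ZMod p, x ^ j = if p - 1 ∣ j then -1 else 0 := by
  classical
  have h1 := FiniteField.sum_pow_units (K := ZMod p) j
  rw [ZMod.card] at h1
  rw [← h1]
  let φ : (ZMod p)ˣ ↪ ZMod p := ⟨fun x => x, Units.val_injective⟩
  have h2 : univ.map φ = univ \ {0} := by
    ext x
    have h3 : (∃ a : (ZMod p)ˣ, (a : ZMod p) = x) ↔ ¬ x = 0 := isUnit_iff_ne_zero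
    simpa only [mem_map, mem_univ, Function.Embedding.coeFn_mk, true_and, mem_sdiff,
      mem_singleton, φ] using h3
  have h3 : ∑ x : ZMod p, x ^ j = ∑ x ∈ univ \ {(0 : ZMod p)}, x ^ j := by
    rw [← Finset.sum_sdiff (Finset.subset_univ {(0 : ZMod p)}), Finset.sum_singleton,
      zero_pow hj, add_zero]
  rw [h3, ← h2, Finset.sum_map]
  rfl

lemma sum_pow_zero {p : ℕ} [Fact p.Prime] : ∑ x : ZMod p, x ^ 0 = 0 := by
  simp

end CharPowAux

open CharPowAux

theorem char_pow {p : ℕ} [Fact p.Prime] (h2 : p ≠ 2) :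
    ((S1 p : ℤ) : ZMod p) =
      -((Polynomial.X ^ 3 - 2 * Polynomial.X ^ 2 + 5 * Polynomial.X : Polynomial (ZMod p))
        ^ ((p - 1) / 2)).coeff (p - 1) := by
  classical
  have hp : p.Prime := Fact.out
  have hodd : p % 2 = 1 := hp.eq_two_or_odd.resolve_left h2
  have hp3 : 3 ≤ p := by
    have := hp.two_le
    omega
  have hchar : ringChar (ZMod p) ≠ 2 := by
    rw [ZMod.ringChar_zmod_n]
    exact h2
  set f : Polynomial (ZMod p) :=
    Polynomial.X ^ 3 - 2 * Polynomial.X ^ 2 + 5 * Polynomial.X with hf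
  set F := f ^ ((p - 1) / 2) with hF
  have hhalf : p / 2 = (p - 1) / 2 := by omega
  have hdeg : F.natDegree < 2 * (p - 1) := by
    have h3 : f.natDegree ≤ 3 := by
      have e1 : f = Polynomial.X ^ 3 - Polynomial.C 2 * Polynomial.X ^ 2 +
          Polynomial.C 5 * Polynomial.X := by
        rw [hf]
        simp only [map_ofNat]
      rw [e1]
      compute_degree
    have h4 : F.natDegree ≤ (p - 1) / 2 * 3 := by
      rw [hF]
      exact (Polynomial.natDegree_pow_le).trans (Nat.mul_le_mul_left _ h3)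
    omega
  have h1 : ((S1 p : ℤ) : ZMod p) = ∑ x : ZMod p, F.eval x := by
    unfold S1
    rw [Int.cast_sum]
    apply Finset.sum_congr rfl
    intro x _
    rw [quadraticChar_eq_pow_of_char_ne_two' hchar, ZMod.card, hhalf, hF, Polynomial.eval_pow]
    congr 1
    simp [hf]
  have h3 : ∀ x : ZMod p, F.eval x = ∑ j ∈ Finset.range (2 * (p - 1)), F.coeff j * x ^ j :=
    fun x => Polynomial.eval_eq_sum_range' hdeg x
  rw [h1, Finset.sum_congr rfl (fun x _ => h3 x), Finset.sum_comm]
  have h4 : ∀ j ∈ Finset.range (2 * (p - 1)), ∑ x : ZMod p, F.coeff j * x ^ j =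
      if j = p - 1 then -F.coeff (p - 1) else 0 := by
    intro j hj
    rw [Finset.mem_range] at hj
    rw [← Finset.mul_sum]
    by_cases hj0 : j = 0
    · subst hj0
      rw [sum_pow_zero, mul_zero, if_neg (by omega)]
    · rw [sum_pow_eq hj0]
      by_cases hj1 : j = p - 1
      · subst hj1
        rw [if_pos (dvd_refl _), if_pos rfl]
        ring
      · rw [if_neg hj1, if_neg, mul_zero]
        rintro ⟨k, hk⟩
        have hk2 : k < 2 := by
          by_contra hcon
          rw [not_lt] at hcon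
          have := Nat.mul_le_mul_left (p - 1) hcon
          omega
        interval_cases k
        · exact hj0 (by omega)
        · exact hj1 (by omega)
  rw [Finset.sum_congr rfl h4, Finset.sum_ite_eq', if_pos (by rw [Finset.mem_range]; omega)]

end Pool.Agent.MTate
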