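import Pool.Agent.MTate.EtaCusp
/-!
# MODULE Cusp20 (asymptotics at the six cusps of `X_0(20)`)
Let `σ = (a b; c d) ∈ SL(2,ℤ)`, `g_δ = gcd(δ, c)`.  Multiplying the statements of `etaSq_cusp`:
* `‖f0(σz)‖/‖cz+d‖^2 · exp(π (g_2^2/2 + g_10^2/10) im z/6)` tends to `(g_2/2)(g_10/10) > 0`, and
  `(g_2^2/2 + g_10^2/10)/6 = 2/hc c` with `hc c = 20/gcd(c^2,20)`: the classes of `c`
  (`c` odd/even, `5 ∤ c`/`5 ∣ c`) give `(1/2+1/10)/6 = 2/20`, `(2 + 4/10)/6 = 2/5`, `(1/2+25/10)/6 = 2/4`,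
  `(2+10)/6 = 2/1`.
* `‖X0(σz)‖ exp(π E im z/12)` tends to a positive constant, `E = g_4^2 + g_10^2/5 - g_2^2 - g_20^2/5`; for
  `20 ∤ c` one has `E = 0` except for `4 ∣ c, 5 ∤ c` where `E = 16 + 4/5 - 4 - 16/5 = 48/5 > 0`.
* `‖G0(σz)^2‖ exp(π E' im z/6)` with `E' = g_4^2/4 + g_5^2 - g_1^2 - g_20^2/4`; for `20 ∤ c`: `E' = 0`, except for
  `c` odd, `5 ∣ c`, where `E' = 1/4 + 25 - 1 - 25/4 = 18 > 0`.
The gcd's depend only on `c mod 20`; do the case distinction on `c % 20`.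
-/
namespace Pool.Agent.MTate
open Complex Filter Topology

namespace Cusp20

theorem gcd_red {δ : ℕ} (hδ : (δ : ℤ) ∣ 20) (c : ℤ) : Int.gcd (δ : ℤ) c = Int.gcd (δ : ℤ) (c % 20) := by
  have h1 : (δ : ℤ) ∣ (c - c % 20) := dvd_trans hδ (Int.dvd_self_sub_emod)
  obtain ⟨k, hk⟩ := h1
  have : c = c % 20 + δ * k := by linarith
  conv_lhs => rw [this]
  simp

theorem gcd_red2 (c : ℤ) : Int.gcd (c ^ 2) 20 = Int.gcd ((c % 20) ^ 2) 20 := by
  have h1 : (20 : ℤ) ∣ (c - c % 20) := (Int.dvd_self_sub_emod)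
  obtain ⟨k, hk⟩ := h1
  have : c ^ 2 = (c % 20) ^ 2 + 20 * (k * (c + c % 20)) := by
    have : c ^ 2 - (c % 20) ^ 2 = (c - c % 20) * (c + c % 20) := by ring
    rw [hk] at this
    linarith
  rw [this]
  simp

/-- The normalised size. -/
noncomputable def A (δ : ℕ) (a b c d : ℤ) (z : ℂ) : ℝ :=
  ‖eta (δ * ((a * z + b) / (c * z + d))) ^ 2‖ / ‖(c * z + d : ℂ)‖

noncomputable def ex (δ : ℕ) (c : ℤ) : ℝ := Real.pi * (Int.gcd δ c : ℝ) ^ 2 / (6 * δ)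

noncomputable def kc (δ : ℕ) (c : ℤ) : ℝ := (Int.gcd δ c : ℝ) / δ

theorem kc_pos {δ : ℕ} (hδ : 0 < δ) (c : ℤ) : 0 < kc δ c := by
  have : 0 < Int.gcd (δ : ℤ) c := Int.gcd_pos_of_ne_zero_left _ (by exact_mod_cast hδ.ne')
  have h1 : (0 : ℝ) < (Int.gcd (δ : ℤ) c : ℝ) := by exact_mod_cast this
  have h2 : (0 : ℝ) < (δ : ℝ) := by exact_mod_cast hδ
  exact div_pos h1 h2

theorem tendsto_A {δ : ℕ} (hδ : 0 < δ) {a b c d : ℤ} (h : a * d - b * c = 1) :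
    Tendsto (fun z : ℂ => A δ a b c d z * Real.exp (ex δ c * z.im)) imInf (𝓝 (kc δ c)) := by
  have := etaSq_cusp hδ h
  unfold kc
  refine this.congr (fun z => ?_)
  unfold A ex
  congr 2
  ring

theorem cz_ne {a b c d : ℤ} (h : a * d - b * c = 1) {z : ℂ} (hz : 0 < z.im) : (c * z + d : ℂ) ≠ 0 := by
  intro h0
  have him := congrArg Complex.im h0
  simp at him
  rcases him with hc | hz0
  · subst hc
    have hre := congrArg Complex.re h0
    simp at hre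
    subst hre
    simp at h
  · exact hz.ne' hz0

theorem ev_pos : ∀ᶠ z in imInf, 0 < z.im := by
  unfold imInf
  exact (tendsto_comap.eventually (eventually_gt_atTop 0))

theorem f0_eq_cusp {a b c d : ℤ} (h : a * d - b * c = 1) {z : ℂ} (hz : 0 < z.im) :
    ‖f0 ((a * z + b) / (c * z + d))‖ / ‖(c * z + d : ℂ)‖ ^ 2 = A 2 a b c d z * A 10 a b c d z := by
  have hn : ‖(c * z + d : ℂ)‖ ≠ 0 := norm_ne_zero_iff.mpr (cz_ne h hz)
  unfold f0 A
  rw [norm_mul]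
  push_cast
  generalize ‖(c * z + d : ℂ)‖ = n at hn ⊢
  field_simp

theorem X0_eq_cusp {a b c d : ℤ} (h : a * d - b * c = 1) {z : ℂ} (hz : 0 < z.im) :
    ‖X0 ((a * z + b) / (c * z + d))‖ = A 4 a b c d z ^ 2 * A 10 a b c d z /
      (A 2 a b c d z * A 20 a b c d z ^ 2) := by
  have hn : ‖(c * z + d : ℂ)‖ ≠ 0 := norm_ne_zero_iff.mpr (cz_ne h hz)
  unfold X0 A
  rw [norm_div, norm_mul, norm_mul]
  simp only [norm_pow]
  push_cast
  generalize ‖(c * z + d : ℂ)‖ = n at hn ⊢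
  generalize ‖eta (4 * (_ / _))‖ = x4
  generalize ‖eta (10 * (_ / _))‖ = x10
  generalize ‖eta (2 * (_ / _))‖ = x2
  generalize ‖eta (20 * (_ / _))‖ = x20
  field_simp

theorem G0_eq_cusp {a b c d : ℤ} (h : a * d - b * c = 1) {z : ℂ} (hz : 0 < z.im) :
    ‖G0 ((a * z + b) / (c * z + d)) ^ 2‖ = A 4 a b c d z * A 5 a b c d z ^ 5 /
      (A 1 a b c d z * A 20 a b c d z ^ 5) := by
  have hn : ‖(c * z + d : ℂ)‖ ≠ 0 := norm_ne_zero_iff.mpr (cz_ne h hz)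
  unfold G0 A
  rw [norm_pow, norm_div, norm_mul, norm_mul]
  simp only [norm_pow]
  push_cast
  rw [one_mul]
  generalize ‖(c * z + d : ℂ)‖ = n at hn ⊢
  generalize ‖eta (4 * (_ / _))‖ = x4
  generalize ‖eta (5 * (_ / _))‖ = x5
  generalize ‖eta (20 * (_ / _))‖ = x20
  generalize ‖eta (_ / _)‖ = x1
  field_simp

theorem cases20 (c : ℤ) : c % 20 = 0 ∨ c % 20 = 1 ∨ c % 20 = 2 ∨ c % 20 = 3 ∨ c % 20 = 4 ∨ c % 20 = 5 ∨
    c % 20 = 6 ∨ c % 20 = 7 ∨ c % 20 = 8 ∨ c % 20 = 9 ∨ c % 20 = 10 ∨ c % 20 = 11 ∨ c % 20 = 12 ∨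
    c % 20 = 13 ∨ c % 20 = 14 ∨ c % 20 = 15 ∨ c % 20 = 16 ∨ c % 20 = 17 ∨ c % 20 = 18 ∨ c % 20 = 19 := by
  omega

theorem expo_f0 (c : ℤ) : ex 2 c + ex 10 c = 2 * Real.pi / hc c := by
  unfold ex hc
  rw [gcd_red (δ := 2) (by norm_num) c, gcd_red (δ := 10) (by norm_num) c, gcd_red2 c]
  rcases cases20 c with hr | hr | hr | hr | hr | hr | hr | hr | hr | hr | hr | hr | hr | hr | hr | hr |
    hr | hr | hr | hr <;> rw [hr] <;> norm_num [Int.gcd] <;> ring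

/-- the exponent of `X0` -/
theorem expo_X0 {c : ℤ} (h20 : ¬ (20 : ℤ) ∣ c) :
    0 ≤ 2 * ex 4 c + ex 10 c - ex 2 c - 2 * ex 20 c := by
  unfold ex
  have hpi := Real.pi_pos
  rw [gcd_red (δ := 2) (by norm_num) c, gcd_red (δ := 10) (by norm_num) c, gcd_red (δ := 4) (by norm_num) c,
    gcd_red (δ := 20) (by norm_num) c]
  rcases cases20 c with hr | hr | hr | hr | hr | hr | hr | hr | hr | hr | hr | hr | hr | hr | hr | hr |
    hr | hr | hr | hr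
  · exact absurd (Int.dvd_of_emod_eq_zero hr) h20
  all_goals rw [hr]; norm_num [Int.gcd]; nlinarith

theorem expo_X0_pos {c : ℤ} (h20 : ¬ (20 : ℤ) ∣ c) (h4 : (4 : ℤ) ∣ c) :
    0 < 2 * ex 4 c + ex 10 c - ex 2 c - 2 * ex 20 c := by
  unfold ex
  have hpi := Real.pi_pos
  have h4' := Int.emod_eq_zero_of_dvd h4
  rw [gcd_red (δ := 2) (by norm_num) c, gcd_red (δ := 10) (by norm_num) c, gcd_red (δ := 4) (by norm_num) c,
    gcd_red (δ := 20) (by norm_num) c]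
  rcases cases20 c with hr | hr | hr | hr | hr | hr | hr | hr | hr | hr | hr | hr | hr | hr | hr | hr |
    hr | hr | hr | hr
  · exact absurd (Int.dvd_of_emod_eq_zero hr) h20
  all_goals first
    | (exfalso; omega)
    | (rw [hr]; norm_num [Int.gcd]; nlinarith)

theorem expo_G0 {c : ℤ} (h20 : ¬ (20 : ℤ) ∣ c) :
    0 ≤ ex 4 c + 5 * ex 5 c - ex 1 c - 5 * ex 20 c := by
  unfold ex
  have hpi := Real.pi_pos
  rw [gcd_red (δ := 1) (by norm_num) c, gcd_red (δ := 5) (by norm_num) c, gcd_red (δ := 4) (by norm_num) c,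
    gcd_red (δ := 20) (by norm_num) c]
  rcases cases20 c with hr | hr | hr | hr | hr | hr | hr | hr | hr | hr | hr | hr | hr | hr | hr | hr |
    hr | hr | hr | hr
  · exact absurd (Int.dvd_of_emod_eq_zero hr) h20
  all_goals rw [hr]; norm_num [Int.gcd]; nlinarith

end Cusp20
open Cusp20

theorem f0_cusp {a b c d : ℤ} (h : a * d - b * c = 1) :
    ∃ κ : ℝ, 0 < κ ∧ Tendsto (fun z : ℂ => ‖f0 ((a * z + b) / (c * z + d))‖ / ‖(c * z + d : ℂ)‖ ^ 2 *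
        Real.exp (2 * Real.pi * z.im / hc c)) imInf (𝓝 κ) := by
  refine ⟨kc 2 c * kc 10 c, mul_pos (kc_pos (by norm_num) c) (kc_pos (by norm_num) c), ?_⟩
  have h2 := tendsto_A (δ := 2) (by norm_num) h
  have h10 := tendsto_A (δ := 10) (by norm_num) h
  refine (h2.mul h10).congr' ?_
  filter_upwards [ev_pos] with z hz
  rw [f0_eq_cusp h hz]
  have : 2 * Real.pi * z.im / hc c = ex 2 c * z.im + ex 10 c * z.im := by
    rw [← add_mul, expo_f0]; ring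
  rw [this, Real.exp_add]
  ring

theorem X0_lim {a b c d : ℤ} (h : a * d - b * c = 1) :
    Tendsto (fun z : ℂ => ‖X0 ((a * z + b) / (c * z + d))‖ *
      Real.exp ((2 * ex 4 c + ex 10 c - ex 2 c - 2 * ex 20 c) * z.im)) imInf
      (𝓝 (kc 4 c ^ 2 * kc 10 c / (kc 2 c * kc 20 c ^ 2))) := by
  have h2 := tendsto_A (δ := 2) (by norm_num) h
  have h4 := tendsto_A (δ := 4) (by norm_num) h
  have h10 := tendsto_A (δ := 10) (by norm_num) h
  have h20 := tendsto_A (δ := 20) (by norm_num) h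
  have hne : kc 2 c * kc 20 c ^ 2 ≠ 0 :=
    (mul_pos (kc_pos (by norm_num) c) (pow_pos (kc_pos (by norm_num) c) 2)).ne'
  refine (((h4.pow 2).mul h10).div (h2.mul (h20.pow 2)) hne).congr' ?_
  filter_upwards [ev_pos] with z hz
  rw [X0_eq_cusp h hz]
  have e1 : (2 * ex 4 c + ex 10 c - ex 2 c - 2 * ex 20 c) * z.im =
      (ex 4 c * z.im + ex 4 c * z.im + ex 10 c * z.im) - (ex 2 c * z.im + ex 20 c * z.im + ex 20 c * z.im) := by
    ring
  rw [e1, Real.exp_sub, Real.exp_add, Real.exp_add, Real.exp_add, Real.exp_add]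
  simp only [Pi.div_apply]
  rw [div_mul_div_comm]
  congr 1 <;> ring

theorem G0_lim {a b c d : ℤ} (h : a * d - b * c = 1) :
    Tendsto (fun z : ℂ => ‖G0 ((a * z + b) / (c * z + d)) ^ 2‖ *
      Real.exp ((ex 4 c + 5 * ex 5 c - ex 1 c - 5 * ex 20 c) * z.im)) imInf
      (𝓝 (kc 4 c * kc 5 c ^ 5 / (kc 1 c * kc 20 c ^ 5))) := by
  have h1 := tendsto_A (δ := 1) (by norm_num) h
  have h4 := tendsto_A (δ := 4) (by norm_num) h
  have h5 := tendsto_A (δ := 5) (by norm_num) h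
  have h20 := tendsto_A (δ := 20) (by norm_num) h
  have hne : kc 1 c * kc 20 c ^ 5 ≠ 0 :=
    (mul_pos (kc_pos (by norm_num) c) (pow_pos (kc_pos (by norm_num) c) 5)).ne'
  refine ((h4.mul (h5.pow 5)).div (h1.mul (h20.pow 5)) hne).congr' ?_
  filter_upwards [ev_pos] with z hz
  rw [G0_eq_cusp h hz]
  have e1 : (ex 4 c + 5 * ex 5 c - ex 1 c - 5 * ex 20 c) * z.im =
      (ex 4 c * z.im + (5 : ℕ) * (ex 5 c * z.im)) - (ex 1 c * z.im + (5 : ℕ) * (ex 20 c * z.im)) := by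
    push_cast; ring
  rw [e1, Real.exp_sub, Real.exp_add, Real.exp_add, Real.exp_nat_mul, Real.exp_nat_mul]
  simp only [Pi.div_apply]
  rw [div_mul_div_comm]
  congr 1 <;> ring

theorem bdd_of_lim {f : ℂ → ℝ} (hf : ∀ z, 0 ≤ f z) {e κ : ℝ} (he : 0 ≤ e)
    (h : Tendsto (fun z : ℂ => f z * Real.exp (e * z.im)) imInf (𝓝 κ)) :
    ∃ M : ℝ, ∀ᶠ z in imInf, f z ≤ M := by
  refine ⟨κ + 1, ?_⟩
  have h1 : ∀ᶠ z in imInf, f z * Real.exp (e * z.im) < κ + 1 :=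
    h.eventually (gt_mem_nhds (by linarith))
  filter_upwards [h1, ev_pos] with z hz hp
  have : 1 ≤ Real.exp (e * z.im) := Real.one_le_exp (mul_nonneg he hp.le)
  nlinarith [hf z]

theorem X0_cusp {a b c d : ℤ} (h : a * d - b * c = 1) (hc : ¬ (20 : ℤ) ∣ c) :
    ∃ M : ℝ, ∀ᶠ z in imInf, ‖X0 ((a * z + b) / (c * z + d))‖ ≤ M :=
  bdd_of_lim (fun _ => norm_nonneg _) (expo_X0 hc) (X0_lim h)

theorem X0_cusp_zero {a b c d : ℤ} (h : a * d - b * c = 1) (hc : ¬ (20 : ℤ) ∣ c) (h4 : (4 : ℤ) ∣ c) :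
    Tendsto (fun z : ℂ => X0 ((a * z + b) / (c * z + d))) imInf (𝓝 0) := by
  rw [tendsto_zero_iff_norm_tendsto_zero]
  have hpos := expo_X0_pos hc h4
  set e := 2 * ex 4 c + ex 10 c - ex 2 c - 2 * ex 20 c with he
  have h1 := X0_lim h
  rw [← he] at h1
  have him : Tendsto (fun z : ℂ => z.im) imInf atTop := tendsto_comap
  have h2 : Tendsto (fun z : ℂ => Real.exp (-(e * z.im))) imInf (𝓝 0) :=
    Real.tendsto_exp_neg_atTop_nhds_zero.comp (him.const_mul_atTop hpos)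
  have h3 := h1.mul h2
  rw [mul_zero] at h3
  refine h3.congr (fun z => ?_)
  rw [mul_assoc, ← Real.exp_add, add_neg_cancel, Real.exp_zero, mul_one]

theorem G0_cusp {a b c d : ℤ} (h : a * d - b * c = 1) (hc : ¬ (20 : ℤ) ∣ c) :
    ∃ M : ℝ, ∀ᶠ z in imInf, ‖G0 ((a * z + b) / (c * z + d)) ^ 2‖ ≤ M :=
  bdd_of_lim (fun _ => norm_nonneg _) (expo_G0 hc) (G0_lim h)

end Pool.Agent.MTate
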