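import Pool.Agent.MTate.PhiDef
import Pool.Agent.MTate.Cusp20
/-!
# MODULE CuspVal (values of the primitive at the cusps)
`Phi(σ z)` has a limit as `im z → ∞` along every vertical line, the same for all lines, and for `c ≠ 0`
it is `Psi(a/c)`.

Proof. `g(z) = f0(σz)/(cz+d)^2` satisfies `‖g z‖ ≤ K exp(-2 π im z/20)` for `im z ≥ Y` (`f0_cusp`; `hc c ≤ 20`),
and `d/dz Phi(σz) = 2 π i g(z)`.  So along `x + i s` the function is Cauchy as `s → ∞`, and the difference
between two vertical lines at height `s` is at most `2 π |x - x'| K exp(-2 π s/20) → 0`.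
For `c ≠ 0` : `a/c + i t = σ(-d/c + i/(c^2 t))` and `cz + d = i/(c t)`·(..): with `z = -d/c + i s`,
`s = 1/(c^2 t)`, `c z + d = i c s`, so `f0(a/c + i t) = -c^2 s^2 g(z)`, of size `≤ K' exp(-π s/20)` as `t → 0`, and
`f0(a/c + i t) = O(exp(-2 π t))` as `t → ∞` (`f0_le`): integrable on `(0, ∞)`.
`d/dt Phi(a/c + i t) = -2 π f0(a/c + i t)`, so `2 π ∫_ε^T f0(a/c+it) dt = Phi(a/c + i ε) - Phi(a/c + i T)`;
let `T → ∞` (`Phi_le`) and `ε → 0`.
-/
namespace Pool.Agent.MTate
open Complex Filter Topology MeasureTheory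

theorem hc_pos' (c : ℤ) : 0 < hc c := by
  unfold hc
  apply Nat.div_pos
  · exact Nat.le_of_dvd (by norm_num) (Int.natAbs_dvd_natAbs.2 (Int.gcd_dvd_right (c ^ 2) 20))
  · exact Int.gcd_pos_of_ne_zero_right _ (by norm_num)

theorem hc_le' (c : ℤ) : hc c ≤ 20 := Nat.div_le_self _ _

theorem cusp_bound {a b c d : ℤ} (h : a * d - b * c = 1) :
    ∃ K Y : ℝ, 0 < K ∧ 1 ≤ Y ∧ ∀ z : ℂ, Y ≤ z.im →
      ‖f0 ((a * z + b) / (c * z + d)) / (c * z + d) ^ 2‖ ≤ K * Real.exp (-(Real.pi / 10) * z.im) := by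
  obtain ⟨κ, hκ, ht⟩ := f0_cusp h
  have h1 : ∀ᶠ z in imInf, ‖f0 ((a * z + b) / (c * z + d))‖ / ‖(c * z + d : ℂ)‖ ^ 2 *
        Real.exp (2 * Real.pi * z.im / hc c) < κ + 1 :=
    ht.eventually (Iio_mem_nhds (by linarith))
  rw [imInf, Filter.eventually_comap] at h1
  obtain ⟨Y, hY⟩ := Filter.eventually_atTop.1 h1
  refine ⟨κ + 1, max Y 1, by linarith, le_max_right _ _, fun z hz => ?_⟩
  have h2 := hY z.im (le_trans (le_max_left _ _) hz) z rfl
  have hz0 : 0 ≤ z.im := le_trans zero_le_one (le_trans (le_max_right _ _) hz)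
  rw [norm_div, norm_pow]
  have hcp : (0:ℝ) < hc c := by exact_mod_cast hc_pos' c
  have h3 : Real.exp (Real.pi / 10 * z.im) ≤ Real.exp (2 * Real.pi * z.im / hc c) := by
    apply Real.exp_le_exp.2
    rw [le_div_iff₀ hcp]
    have h20 : (hc c : ℝ) ≤ 20 := by exact_mod_cast hc_le' c
    have e1 : 0 ≤ Real.pi * z.im := mul_nonneg Real.pi_pos.le hz0
    nlinarith
  rw [show -(Real.pi / 10) * z.im = -(Real.pi / 10 * z.im) by ring, Real.exp_neg, ← div_eq_mul_inv,
    le_div_iff₀ (Real.exp_pos _)]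
  refine le_trans ?_ h2.le
  gcongr

theorem Phi_smul_hasDerivAt {a b c d : ℤ} (h : a * d - b * c = 1) {z : ℂ} (hz : 0 < z.im) :
    HasDerivAt (fun z : ℂ => Phi ((a * z + b) / (c * z + d)))
      (2 * Real.pi * I * (f0 ((a * z + b) / (c * z + d)) / (c * z + d) ^ 2)) z := by
  have hne := den_ne h hz
  have h1 : HasDerivAt (fun z : ℂ => (a * z + b) / (c * z + d)) (1 / (c * z + d) ^ 2) z := by
    have e1 : HasDerivAt (fun z : ℂ => (a * z + b : ℂ)) a z := by
      simpa using ((hasDerivAt_id z).const_mul (a : ℂ)).add_const (b : ℂ)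
    have e2 : HasDerivAt (fun z : ℂ => (c * z + d : ℂ)) c z := by
      simpa using ((hasDerivAt_id z).const_mul (c : ℂ)).add_const (d : ℂ)
    have e3 := e1.div e2 hne
    have hdet : (a : ℂ) * d - b * c = 1 := by exact_mod_cast h
    have e4 : ((a : ℂ) * (c * z + d) - (a * z + b) * c) / (c * z + d) ^ 2 = 1 / (c * z + d) ^ 2 := by
      rw [← hdet]; ring
    rw [e4] at e3
    exact e3
  have h2 := (Phi_hasDerivAt (im_smul_pos h hz)).comp z h1
  have e5 : 2 * (Real.pi : ℂ) * I * f0 ((a * z + b) / (c * z + d)) * (1 / (c * z + d) ^ 2) =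
      2 * Real.pi * I * (f0 ((a * z + b) / (c * z + d)) / (c * z + d) ^ 2) := by ring
  rw [e5] at h2
  exact h2

theorem im_line (x s : ℝ) : ((x : ℂ) + s * I).im = s := by simp

theorem line_hasDerivAt (x s : ℝ) : HasDerivAt (fun s : ℝ => (x : ℂ) + s * I) I s := by
  have h1 : HasDerivAt (fun s : ℝ => (s : ℂ)) 1 s := Complex.ofRealCLM.hasDerivAt
  simpa using (h1.mul_const I).const_add (x : ℂ)

theorem Phi_line_hasDerivAt {a b c d : ℤ} (h : a * d - b * c = 1) (x : ℝ) {s : ℝ} (hs : 0 < s) :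
    HasDerivAt (fun s : ℝ => Phi ((a * (x + s * I) + b) / (c * (x + s * I) + d)))
      (-(2 * Real.pi) * (f0 ((a * (x + s * I) + b) / (c * (x + s * I) + d)) /
        (c * (x + s * I) + d) ^ 2)) s := by
  have hz : 0 < ((x : ℂ) + s * I).im := by rw [im_line]; exact hs
  have h1 := HasDerivAt.scomp s (Phi_smul_hasDerivAt h hz) (line_hasDerivAt x s)
  have e : I • (2 * (Real.pi : ℂ) * I * (f0 ((a * ((x : ℂ) + s * I) + b) / (c * ((x : ℂ) + s * I) + d)) /
        (c * ((x : ℂ) + s * I) + d) ^ 2)) = (-(2 * Real.pi) * (f0 ((a * (x + s * I) + b) /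
        (c * (x + s * I) + d)) / (c * (x + s * I) + d) ^ 2)) := by
    rw [smul_eq_mul]
    linear_combination (2 * (Real.pi : ℂ) * (f0 ((a * ((x : ℂ) + s * I) + b) /
      (c * ((x : ℂ) + s * I) + d)) / (c * ((x : ℂ) + s * I) + d) ^ 2)) * Complex.I_mul_I
  rw [e] at h1
  exact h1

theorem isOpen_HH : IsOpen HH := isOpen_lt continuous_const Complex.continuous_im

theorem cont_line {a b c d : ℤ} (h : a * d - b * c = 1) (x : ℝ) :
    ContinuousOn (fun s : ℝ => f0 ((a * (x + s * I) + b) / (c * (x + s * I) + d)) /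
      (c * (x + s * I) + d) ^ 2) (Set.Ioi 0) := by
  intro s hs
  have hz : 0 < ((x : ℂ) + s * I).im := by rw [im_line]; exact hs
  have hne := den_ne h hz
  have hp : ((a * ((x : ℂ) + s * I) + b) / (c * (x + s * I) + d)) ∈ HH := im_smul_pos h hz
  have e1 : ContinuousAt f0 ((a * ((x : ℂ) + s * I) + b) / (c * (x + s * I) + d)) :=
    (f0_diff.differentiableAt (isOpen_HH.mem_nhds hp)).continuousAt
  have e2 : ContinuousAt (fun s : ℝ => ((c : ℂ) * ((x : ℂ) + s * I) + d)) s := by fun_prop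
  have e3 : ContinuousAt (fun s : ℝ => ((a * ((x : ℂ) + s * I) + b) / (c * (x + s * I) + d))) s := by
    apply ContinuousAt.div (by fun_prop) e2 hne
  apply ContinuousAt.continuousWithinAt
  apply ContinuousAt.div
  · exact ContinuousAt.comp (g := f0) e1 e3
  · exact e2.pow 2
  · exact pow_ne_zero 2 hne

theorem int_line {a b c d : ℤ} (h : a * d - b * c = 1) {K Y : ℝ} (hY : 1 ≤ Y)
    (hb : ∀ z : ℂ, Y ≤ z.im →
      ‖f0 ((a * z + b) / (c * z + d)) / (c * z + d) ^ 2‖ ≤ K * Real.exp (-(Real.pi / 10) * z.im))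
    (x : ℝ) :
    IntegrableOn (fun s : ℝ => -(2 * Real.pi) * (f0 ((a * (x + s * I) + b) / (c * (x + s * I) + d)) /
        (c * (x + s * I) + d) ^ 2)) (Set.Ioi Y) := by
  have h1 : IntegrableOn (fun s : ℝ => K * Real.exp (-(Real.pi / 10) * s)) (Set.Ioi Y) :=
    (exp_neg_integrableOn_Ioi Y (by positivity)).const_mul K
  apply Integrable.const_mul
  refine Integrable.mono' h1 ?_ ?_
  · exact ((cont_line h x).mono (Set.Ioi_subset_Ioi (by linarith))).aestronglyMeasurable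
      measurableSet_Ioi
  · refine (ae_restrict_iff' measurableSet_Ioi).2 (Eventually.of_forall fun s hs => ?_)
    have := hb (x + s * I) (by rw [im_line]; exact le_of_lt hs)
    rwa [im_line] at this

theorem line_limit {a b c d : ℤ} (h : a * d - b * c = 1) :
    ∃ L : ℂ, ∀ x : ℝ, Tendsto (fun s : ℝ => Phi ((a * (x + s * I) + b) / (c * (x + s * I) + d)))
        atTop (𝓝 L) := by
  obtain ⟨K, Y, hK, hY, hb⟩ := cusp_bound h
  have hlim : ∀ x : ℝ, ∃ L : ℂ, Tendsto (fun s : ℝ => Phi ((a * (x + s * I) + b) /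
      (c * (x + s * I) + d))) atTop (𝓝 L) := fun x =>
    ⟨_, tendsto_limUnder_of_hasDerivAt_of_integrableOn_Ioi
      (fun s hs => Phi_line_hasDerivAt h x (by
        have : Y < s := hs
        linarith)) (int_line h hY hb x)⟩
  obtain ⟨L, hL⟩ := hlim 0
  refine ⟨L, fun x => ?_⟩
  -- difference
  have hdiff : Tendsto (fun s : ℝ => Phi ((a * ((x : ℂ) + s * I) + b) / (c * (x + s * I) + d)) -
      Phi ((a * (((0 : ℝ) : ℂ) + s * I) + b) / (c * (((0 : ℝ) : ℂ) + s * I) + d))) atTop (𝓝 0) := by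
    have hbd : ∀ᶠ s : ℝ in atTop, ‖Phi ((a * ((x : ℂ) + s * I) + b) / (c * (x + s * I) + d)) -
      Phi ((a * (((0 : ℝ) : ℂ) + s * I) + b) / (c * (((0 : ℝ) : ℂ) + s * I) + d))‖ ≤
        2 * Real.pi * (K * Real.exp (-(Real.pi / 10) * s)) * |x| := by
      filter_upwards [eventually_ge_atTop Y] with s hs
      have hconv : Convex ℝ {z : ℂ | s ≤ z.im} := convex_halfSpace_im_ge s
      have h1 := hconv.norm_image_sub_le_of_norm_hasDerivWithin_le
        (f := fun z : ℂ => Phi ((a * z + b) / (c * z + d)))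
        (f' := fun z : ℂ => 2 * Real.pi * I * (f0 ((a * z + b) / (c * z + d)) / (c * z + d) ^ 2))
        (C := 2 * Real.pi * (K * Real.exp (-(Real.pi / 10) * s)))
        (x := ((0 : ℝ) : ℂ) + s * I) (y := (x : ℂ) + s * I)
        (fun z hz => (Phi_smul_hasDerivAt h (by
          have : s ≤ z.im := hz
          linarith)).hasDerivWithinAt)
        (fun z hz => by
          have hz' : s ≤ z.im := hz
          have e := hb z (hs.trans hz')
          rw [norm_mul]
          have e2 : ‖(2 * (Real.pi : ℂ) * I)‖ = 2 * Real.pi := by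
            simp [abs_of_pos Real.pi_pos]
          rw [e2]
          have e3 : Real.exp (-(Real.pi / 10) * z.im) ≤ Real.exp (-(Real.pi / 10) * s) := by
            apply Real.exp_le_exp.2
            nlinarith [Real.pi_pos]
          have e4 : K * Real.exp (-(Real.pi / 10) * z.im) ≤ K * Real.exp (-(Real.pi / 10) * s) := by
            gcongr
          have : 0 ≤ 2 * Real.pi := by positivity
          exact mul_le_mul_of_nonneg_left (e.trans e4) this)
        (by
          show s ≤ (((0 : ℝ) : ℂ) + s * I).im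
          rw [im_line])
        (by
          show s ≤ ((x : ℂ) + s * I).im
          rw [im_line])
      refine h1.trans (le_of_eq ?_)
      congr 1
      have e5 : ((x : ℂ) + s * I) - (((0 : ℝ) : ℂ) + s * I) = ((x : ℝ) : ℂ) := by
        push_cast; ring
      rw [e5, Complex.norm_real, Real.norm_eq_abs]
    refine squeeze_zero_norm' hbd ?_
    have e1 : Tendsto (fun s : ℝ => Real.exp (-(Real.pi / 10) * s)) atTop (𝓝 0) := by
      apply Real.tendsto_exp_atBot.comp
      exact tendsto_id.const_mul_atTop_of_neg (by have := Real.pi_pos; linarith)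
    have e2 := (((e1.const_mul K).const_mul (2 * Real.pi)).mul_const |x|)
    simpa using e2
  have := hdiff.add hL
  simpa using this

/-- `a/c + i t = σ (-d/c + i/(c^2 t))`. -/
theorem smul_line {a b c d : ℤ} (h : a * d - b * c = 1) (hc : c ≠ 0) {t : ℝ} (ht : t ≠ 0) :
    ((a : ℂ) * (((-(d : ℝ) / c : ℝ) : ℂ) + ((1 / ((c : ℝ) ^ 2 * t) : ℝ) : ℂ) * I) + b) /
      (c * (((-(d : ℝ) / c : ℝ) : ℂ) + ((1 / ((c : ℝ) ^ 2 * t) : ℝ) : ℂ) * I) + d) =
      (((a : ℝ) / c : ℝ) : ℂ) + t * I := by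
  have hdet : (a : ℂ) * d - b * c = 1 := by exact_mod_cast h
  have hc' : (c : ℂ) ≠ 0 := by exact_mod_cast hc
  have ht' : (t : ℂ) ≠ 0 := by exact_mod_cast ht
  have hI : (I : ℂ) ≠ 0 := I_ne_zero
  have e1 : (c : ℂ) * (((-(d : ℝ) / c : ℝ) : ℂ) + ((1 / ((c : ℝ) ^ 2 * t) : ℝ) : ℂ) * I) + d =
      I / (c * t) := by
    push_cast
    field_simp
    ring
  have e2 : (a : ℂ) * (((-(d : ℝ) / c : ℝ) : ℂ) + ((1 / ((c : ℝ) ^ 2 * t) : ℝ) : ℂ) * I) + b =
      (-(c * t) + a * I) / (c ^ 2 * t) := by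
    push_cast
    field_simp
    linear_combination (-(c : ℂ) * t) * hdet
  rw [e1, e2]
  push_cast
  field_simp
  linear_combination (-(c : ℂ) * t) * Complex.I_sq

theorem den_line {c d : ℤ} (hc : c ≠ 0) {t : ℝ} (ht : t ≠ 0) :
    (c * (((-(d : ℝ) / c : ℝ) : ℂ) + ((1 / ((c : ℝ) ^ 2 * t) : ℝ) : ℂ) * I) + d : ℂ) =
      I / (c * t) := by
  have hc' : (c : ℂ) ≠ 0 := by exact_mod_cast hc
  have ht' : (t : ℂ) ≠ 0 := by exact_mod_cast ht
  push_cast
  field_simp
  ring

theorem f0_small {a b c d : ℤ} (h : a * d - b * c = 1) (hc : c ≠ 0) :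
    ∃ M δ : ℝ, 0 < δ ∧ δ ≤ 1 ∧ ∀ t : ℝ, 0 < t → t ≤ δ →
      ‖f0 ((((a : ℝ) / c : ℝ) : ℂ) + t * I)‖ ≤ M := by
  obtain ⟨K, Y, hK, hY, hb⟩ := cusp_bound h
  have hcR : (c : ℝ) ≠ 0 := by exact_mod_cast hc
  have hc2 : 1 ≤ (c : ℝ) ^ 2 := by
    have : 1 ≤ c ^ 2 := by
      have := sq_pos_of_ne_zero hc  
      omega
    exact_mod_cast this
  refine ⟨K * (c ^ 2 * (2 / (Real.pi / 10) ^ 2)), 1 / (c ^ 2 * Y), by positivity, ?_, ?_⟩
  · rw [div_le_one (by positivity)]
    nlinarith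
  intro t ht htd
  have hu : Y ≤ 1 / ((c : ℝ) ^ 2 * t) := by
    rw [le_div_iff₀ (by positivity)] at htd ⊢
    nlinarith
  set u : ℝ := 1 / ((c : ℝ) ^ 2 * t) with hudef
  have hu0 : 0 < u := by linarith
  have h1 := hb (((-(d : ℝ) / c : ℝ) : ℂ) + (u : ℂ) * I) (by rw [im_line]; exact hu)
  rw [im_line, hudef, smul_line h hc ht.ne', den_line hc ht.ne', ← hudef, norm_div, norm_pow,
    norm_div, norm_I, norm_mul, Complex.norm_real, Complex.norm_intCast] at h1
  have e1 : (1 / (|(c : ℝ)| * ‖t‖)) ^ 2 = c ^ 2 * u ^ 2 := by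
    rw [hudef, Real.norm_eq_abs, div_pow, mul_pow, sq_abs, sq_abs]
    field_simp
  rw [e1] at h1
  have hp : 0 < (c : ℝ) ^ 2 * u ^ 2 := by positivity
  rw [div_le_iff₀ hp] at h1
  refine h1.trans ?_
  have e2 : u ^ 2 * Real.exp (-(Real.pi / 10) * u) ≤ 2 / (Real.pi / 10) ^ 2 := by
    have e3 := Real.quadratic_le_exp_of_nonneg (x := Real.pi / 10 * u) (by positivity)
    rw [show -(Real.pi / 10) * u = -(Real.pi / 10 * u) by ring, Real.exp_neg, ← div_eq_mul_inv,
      div_le_div_iff₀ (Real.exp_pos _) (by positivity)]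
    have : 0 ≤ Real.pi / 10 * u := by positivity
    nlinarith
  calc K * Real.exp (-(Real.pi / 10) * u) * (c ^ 2 * u ^ 2)
      = K * (c ^ 2 * (u ^ 2 * Real.exp (-(Real.pi / 10) * u))) := by ring
    _ ≤ K * (c ^ 2 * (2 / (Real.pi / 10) ^ 2)) := by gcongr

theorem f0_vert_cont (r : ℝ) : ContinuousOn (fun t : ℝ => f0 ((r : ℂ) + t * I)) (Set.Ioi 0) := by
  have h : (1 : ℤ) * 1 - 0 * 0 = 1 := by norm_num
  have := cont_line h r
  simpa using this

theorem f0_vert_int {a b c d : ℤ} (h : a * d - b * c = 1) (hc : c ≠ 0) :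
    IntegrableOn (fun t : ℝ => f0 ((((a : ℝ) / c : ℝ) : ℂ) + t * I)) (Set.Ioi 0) := by
  obtain ⟨M, δ, hδ, hδ1, hM⟩ := f0_small h hc
  obtain ⟨K, hK⟩ := f0_le
  set r : ℝ := (a : ℝ) / c with hr
  have hcont := f0_vert_cont r
  have e : Set.Ioi (0 : ℝ) = Set.Ioc 0 δ ∪ (Set.Icc δ 1 ∪ Set.Ioi 1) := by
    ext t
    simp only [Set.mem_Ioi, Set.mem_union, Set.mem_Ioc, Set.mem_Icc]
    constructor
    · intro ht
      rcases le_total t δ with h1 | h1
      · exact Or.inl ⟨ht, h1⟩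
      · rcases le_or_gt t 1 with h2 | h2
        · exact Or.inr (Or.inl ⟨h1, h2⟩)
        · exact Or.inr (Or.inr h2)
    · rintro (h1 | h1 | h1) <;> linarith
  rw [e]
  refine IntegrableOn.union ?_ (IntegrableOn.union ?_ ?_)
  · have h1 : IntegrableOn (fun _ : ℝ => M) (Set.Ioc 0 δ) := integrableOn_const (by simp) (by simp)
    refine Integrable.mono' h1 ?_ ?_
    · exact (hcont.mono Set.Ioc_subset_Ioi_self).aestronglyMeasurable measurableSet_Ioc
    · exact (ae_restrict_iff' measurableSet_Ioc).2 (Eventually.of_forall fun t ht => hM t ht.1 ht.2)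
  · exact (hcont.mono (fun t ht => lt_of_lt_of_le hδ ht.1)).integrableOn_Icc
  · have h1 : IntegrableOn (fun s : ℝ => K * Real.exp (-(2 * Real.pi) * s)) (Set.Ioi 1) :=
      (exp_neg_integrableOn_Ioi 1 (by positivity)).const_mul K
    refine Integrable.mono' h1 ?_ ?_
    · exact (hcont.mono (Set.Ioi_subset_Ioi (by norm_num))).aestronglyMeasurable
        measurableSet_Ioi
    · refine (ae_restrict_iff' measurableSet_Ioi).2 (Eventually.of_forall fun s hs => ?_)
      have hs' : (1 : ℝ) < s := hs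
      have := hK (r + s * I) (by rw [im_line]; linarith)
      rw [im_line] at this
      rw [show -(2 * Real.pi) * s = -(2 * Real.pi * s) by ring]
      exact this

theorem Phi_vert_hasDerivAt (r : ℝ) {t : ℝ} (ht : 0 < t) :
    HasDerivAt (fun t : ℝ => Phi ((r : ℂ) + t * I)) (-(2 * Real.pi) * f0 ((r : ℂ) + t * I)) t := by
  have h : (1 : ℤ) * 1 - 0 * 0 = 1 := by norm_num
  have := Phi_line_hasDerivAt h r ht
  simpa using this

theorem Phi_vert_atTop (r : ℝ) : Tendsto (fun t : ℝ => Phi ((r : ℂ) + t * I)) atTop (𝓝 0) := by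
  obtain ⟨K, hK⟩ := Phi_le
  have hbd : ∀ᶠ t : ℝ in atTop, ‖Phi ((r : ℂ) + t * I)‖ ≤ K * Real.exp (-(2 * Real.pi * t)) := by
    filter_upwards [eventually_ge_atTop 1] with t ht
    have := hK (r + t * I) (by rw [im_line]; exact ht)
    rwa [im_line] at this
  refine squeeze_zero_norm' hbd ?_
  have e1 : Tendsto (fun s : ℝ => Real.exp (-(2 * Real.pi * s))) atTop (𝓝 0) := by
    apply Real.tendsto_exp_atBot.comp
    apply tendsto_neg_atTop_atBot.comp
    exact tendsto_id.const_mul_atTop (by positivity)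
  simpa using e1.const_mul K

theorem Psi_eq_limit {a b c d : ℤ} (h : a * d - b * c = 1) (hc : c ≠ 0) {L : ℂ}
    (hL : ∀ x : ℝ, Tendsto (fun s : ℝ => Phi ((a * (x + s * I) + b) / (c * (x + s * I) + d)))
        atTop (𝓝 L)) : Psi ((a : ℝ) / c) = L := by
  have hcR : (c : ℝ) ≠ 0 := by exact_mod_cast hc
  set r : ℝ := (a : ℝ) / c with hr
  have h0 : Tendsto (fun t : ℝ => Phi ((r : ℂ) + t * I)) (𝓝[>] 0) (𝓝 L) := by
    have e1 : Tendsto (fun t : ℝ => 1 / ((c : ℝ) ^ 2 * t)) (𝓝[>] 0) atTop := by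
      have e2 : Tendsto (fun t : ℝ => t⁻¹) (𝓝[>] 0) atTop := tendsto_inv_nhdsGT_zero
      have e3 := e2.const_mul_atTop (show 0 < ((c : ℝ) ^ 2)⁻¹ by positivity)
      refine e3.congr fun t => ?_
      rw [one_div, mul_inv]
    have e4 := (hL (-(d : ℝ) / c)).comp e1
    refine e4.congr' ?_
    filter_upwards [self_mem_nhdsWithin] with t ht
    have ht' : (0 : ℝ) < t := ht
    simp only [Function.comp]
    rw [smul_line h hc ht'.ne']
  -- extended primitive
  set F : ℝ → ℂ := Function.update (fun t : ℝ => Phi ((r : ℂ) + t * I)) 0 L with hF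
  have hFpos : ∀ t : ℝ, t ≠ 0 → F t = Phi ((r : ℂ) + t * I) := fun t ht => by
    rw [hF, Function.update_of_ne ht]
  have hF0 : F 0 = L := by rw [hF, Function.update_self]
  have hcont : ContinuousWithinAt F (Set.Ici 0) 0 := by
    rw [← continuousWithinAt_Ioi_iff_Ici]
    rw [ContinuousWithinAt, hF0]
    refine h0.congr' ?_
    filter_upwards [self_mem_nhdsWithin] with t ht
    exact (hFpos t (ne_of_gt ht)).symm
  have hderiv : ∀ t ∈ Set.Ioi (0 : ℝ), HasDerivAt F (-(2 * Real.pi) * f0 ((r : ℂ) + t * I)) t := by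
    intro t ht
    refine (Phi_vert_hasDerivAt r ht).congr_of_eventuallyEq ?_
    filter_upwards [Ioi_mem_nhds ht] with s hs
    exact hFpos s (ne_of_gt hs)
  have hint : IntegrableOn (fun t : ℝ => -(2 * Real.pi) * f0 ((r : ℂ) + t * I)) (Set.Ioi 0) :=
    (f0_vert_int h hc).const_mul _
  have htop : Tendsto F atTop (𝓝 0) := by
    refine (Phi_vert_atTop r).congr' ?_
    filter_upwards [eventually_gt_atTop 0] with t ht
    exact (hFpos t ht.ne').symm
  have key := integral_Ioi_of_hasDerivAt_of_tendsto hcont hderiv hint htop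
  rw [hF0, zero_sub, integral_const_mul] at key
  unfold Psi
  linear_combination -key

theorem cusp_val {a b c d : ℤ} (h : a * d - b * c = 1) :
    ∃ L : ℂ, (∀ x : ℝ, Tendsto (fun s : ℝ => Phi ((a * (x + s * I) + b) / (c * (x + s * I) + d)))
        atTop (𝓝 L)) ∧
      (c ≠ 0 → IntegrableOn (fun t : ℝ => f0 ((((a : ℝ) / c : ℝ) : ℂ) + t * I)) (Set.Ioi 0) ∧
        Psi ((a : ℝ) / c) = L) := by
  obtain ⟨L, hL⟩ := line_limit h
  exact ⟨L, hL, fun hc => ⟨f0_vert_int h hc, Psi_eq_limit h hc hL⟩⟩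

end Pool.Agent.MTate
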