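import Mathlib

/-!
# MP_b13df7_nt: vanishing order of Mazur-Tate elements -- definitions and statement

The curve is given by a global minimal integral Weierstrass equation `W`.  `ap W p` is
`p + 1 - #W(F_p)` (all points of the reduced equation, the singular one included),
`an W n` the coefficient of the Hasse-Weil L-series, `fW W z = ∑ an W n exp (2 pi i n z)` the
weight 2 newform attached to the curve by modularity.
-/

namespace Pool.Agent.MTate

open Complex

noncomputable section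

/-- The reduction of an integral Weierstrass equation modulo `p`. -/
def red (W : WeierstrassCurve ℤ) (p : ℕ) : WeierstrassCurve (ZMod p) :=
  W.map (Int.castRingHom (ZMod p))

/-- The same equation over `ℚ`. -/
def overQ (W : WeierstrassCurve ℤ) : WeierstrassCurve ℚ :=
  W.map (Int.castRingHom ℚ)

/-- `W` is a global minimal equation of an elliptic curve over `ℚ`: its discriminant is nonzero
and smallest in absolute value among all integral equations of the same curve. -/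
def IsGlobalMinimal (W : WeierstrassCurve ℤ) : Prop :=
  W.Δ ≠ 0 ∧ ∀ (W' : WeierstrassCurve ℤ) (C : WeierstrassCurve.VariableChange ℚ),
    C • overQ W = overQ W' → |W.Δ| ≤ |W'.Δ|

/-- Split multiplicative reduction at `p`: the reduced equation has a singular point `(x, y)` in
`F_p` whose tangent cone `Y^2 + a₁ X Y - (3 x + a₂) X^2` is a product of two different lines
`(Y - s X) (Y - t X)` over `F_p`. -/
def HasSplitMult (W : WeierstrassCurve ℤ) (p : ℕ) : Prop :=
  ∃ x y s t : ZMod p, (red W p).toAffine.Equation x y ∧ ¬ (red W p).toAffine.Nonsingular x y ∧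
    s ≠ t ∧ s + t = -(red W p).a₁ ∧ s * t = -(3 * x + (red W p).a₂)

/-- `a_p = p + 1 - #W(F_p)`, where `W(F_p)` consists of the point at infinity and of all affine
solutions of the reduced (possibly singular) equation. -/
def ap (W : WeierstrassCurve ℤ) (p : ℕ) : ℤ :=
  (p : ℤ) - (Nat.card {P : ZMod p × ZMod p // (red W p).toAffine.Equation P.1 P.2} : ℤ)

/-- The coefficient of the L-series at `p^k`: `1, a_p, ..., a_p u_(k+1) - ε(p) p u_k` with
`ε(p) = 0` at the bad primes and `1` at the good ones. -/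
def apow (W : WeierstrassCurve ℤ) (p : ℕ) : ℕ → ℤ
  | 0 => 1
  | 1 => ap W p
  | (k + 2) => ap W p * apow W p (k + 1) - (if (p : ℤ) ∣ W.Δ then 0 else (p : ℤ)) * apow W p k

/-- The `n`-th coefficient of the Hasse-Weil L-series (`0` for `n = 0`). -/
def an (W : WeierstrassCurve ℤ) (n : ℕ) : ℤ :=
  if n = 0 then 0 else ∏ p ∈ n.primeFactors, apow W p (n.factorization p)

/-- The newform of weight 2 attached to `W`, `∑ a_n exp (2 π i n z)`. -/
def fW (W : WeierstrassCurve ℤ) (z : ℂ) : ℂ :=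
  ∑' n : ℕ, (an W n : ℂ) * exp (2 * Real.pi * I * n * z)

/-- The polynomial `(2 y + a₁ x + a₃)^2 = 4 x^3 + b₂ x^2 + 2 b₄ x + b₆`. -/
def psi2 (W : WeierstrassCurve ℤ) (x : ℝ) : ℝ :=
  4 * x ^ 3 + (W.b₂ : ℝ) * x ^ 2 + 2 * (W.b₄ : ℝ) * x + (W.b₆ : ℝ)

/-- `Ω = (1/2) ∫_{E(ℝ)} |dx / (2 y + a₁ x + a₃)|`: every real `x` with `psi2 x > 0` carries two real
points, so this is the integral of `1/√psi2` over `{psi2 > 0}`. -/
def Omega (W : WeierstrassCurve ℤ) : ℝ :=
  ∫ x in {x : ℝ | 0 < psi2 W x}, 1 / √(psi2 W x)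

/-- `∫_{i∞}^{r} f(z) dz` along the vertical line. -/
def vint (f : ℂ → ℂ) (r : ℝ) : ℂ :=
  -(I * ∫ t in Set.Ioi (0 : ℝ), f (r + t * I))

/-- The plus modular symbol `λ(a,b) = (π i / Ω) (∫_{i∞}^{a/b} f dz + ∫_{i∞}^{-a/b} f dz)`. -/
def lam (W : WeierstrassCurve ℤ) (a b : ℤ) : ℂ :=
  Real.pi * I / (Omega W : ℂ) * (vint (fW W) ((a : ℝ) / b) + vint (fW W) (-((a : ℝ) / b)))

/-- `G_M = (ℤ/M)ˣ / ⟨-1⟩`. -/
abbrev GM (M : ℕ) : Type := (ZMod M)ˣ ⧸ Subgroup.zpowers (-1 : (ZMod M)ˣ)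

/-- The smallest subring of `ℚ` containing the values of `l`. -/
abbrev RR {M : ℕ} (l : GM M → ℚ) : Subring ℚ := Subring.closure (Set.range l)

/-- The element `∑_{g ∈ G_M} l(g) [g]` of `R[G_M]`. -/
def theta {M : ℕ} (l : GM M → ℚ) : MonoidAlgebra (RR l) (GM M) :=
  ∑ᶠ g : GM M, MonoidAlgebra.single g (⟨l g, Subring.subset_closure ⟨g, rfl⟩⟩ : RR l)

/-- The augmentation ideal, the kernel of `R[G] → R`, `[g] ↦ 1`. -/
def augI (R : Type) [CommRing R] (G : Type) [CommGroup G] : Ideal (MonoidAlgebra R G) :=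
  RingHom.ker (MonoidAlgebra.lift R R G (1 : G →* R)).toRingHom

/-- `l` is the function on `G_M` given by the modular symbols `λ(a,M)`. -/
def IsLam (W : WeierstrassCurve ℤ) {M : ℕ} (l : GM M → ℚ) : Prop :=
  ∀ u : (ZMod M)ˣ, ((l (QuotientGroup.mk u) : ℚ) : ℂ) = lam W ((u : ZMod M).val : ℤ) (M : ℤ)

/-- Q1: for every elliptic curve over `ℚ` (global minimal equation `W`), every finite set `S` of
primes of split multiplicative reduction and all exponents `e p ≥ 1`, with `M = ∏ p ^ e p`: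
`θ_M ∈ I^(r + n)` for `r = #S` and all natural numbers `n ≤ rank E(ℚ)`,
i.e. `ord θ_M ≥ r + rank E(ℚ)`. -/
def MazurTate : Prop :=
  ∀ W : WeierstrassCurve ℤ, IsGlobalMinimal W →
  ∀ (S : Finset ℕ) (e : ℕ → ℕ), (∀ p ∈ S, p.Prime ∧ HasSplitMult W p ∧ 1 ≤ e p) →
  ∀ l : GM (∏ p ∈ S, p ^ e p) → ℚ, IsLam W l →
  ∀ n : ℕ, (n : Cardinal) ≤ Module.rank ℤ (overQ W).toAffine.Point →
    theta l ∈ augI (RR l) (GM (∏ p ∈ S, p ^ e p)) ^ (S.card + n)

/-- The curve `y^2 = x^3 - 2 x^2 - 4 x` (conductor 320). -/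
def E : WeierstrassCurve ℤ := ⟨0, -2, 0, -4, 0⟩

end

end Pool.Agent.MTate
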