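import Pool.Agent.MTate.EtaMul
/-!
# MODULE EtaConj (modular forms, elementary number theory)
`η(δ · σz)^2` for `σ ∈ SL(2,ℤ)`.

Proof. Let `g = gcd(δ, c)`, `D = δ/g`.  Since `gcd(a, c) = 1` we have `gcd(δ a, c) = g`, and the matrix
`(δa δb; c d)` of determinant `δ` equals `γ' (g B; 0 D)` with `γ' = (δa/g, *; c/g, *) ∈ SL(2,ℤ)`, `B ∈ ℤ`:
choose `u, v` with `(δa/g) v - u (c/g) = 1`, `γ' = (δa/g, u; c/g, v)`; then
`γ'^{-1} (δa δb; c d) = (g, B; 0, D)` with `B = v δ b - u d`.  Hence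
`δ σz = γ' w`, `w = (g z + B)/D`, and by `etaSq_mul` `η(γ' w)^2 = v' (c' w + d') η(w)^2` with
`c' w + d' = (c z + d)/D = (g/δ)(c z + d)` (bottom row of the matrix identity) and `‖v'‖ = 1`.
-/
namespace Pool.Agent.MTate
open Complex

theorem etaSq_conj {δ : ℕ} (hδ : 0 < δ) {a b c d : ℤ} (h : a * d - b * c = 1) :
    ∃ (B : ℤ) (v : ℂ), ‖v‖ = 1 ∧ ∀ z : ℂ, 0 < z.im →
      eta (δ * ((a * z + b) / (c * z + d))) ^ 2 =
        v * ((Int.gcd δ c : ℂ) / δ) * (c * z + d) *
          eta (((Int.gcd δ c : ℂ) * z + B) / ((δ / Int.gcd δ c : ℕ) : ℂ)) ^ 2 := by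
  obtain ⟨g, hg⟩ : ∃ g : ℕ, g = Int.gcd δ c := ⟨_, rfl⟩
  rw [← hg]
  have hδz : (δ : ℤ) ≠ 0 := by exact_mod_cast hδ.ne'
  have hg0 : 0 < g := by
    rw [hg]
    exact Int.gcd_pos_of_ne_zero_left _ hδz
  have h1 : (g : ℤ) ∣ δ := by rw [hg]; exact Int.gcd_dvd_left _ _
  have h2 : (g : ℤ) ∣ c := by rw [hg]; exact Int.gcd_dvd_right _ _
  obtain ⟨D, hD⟩ : g ∣ δ := by exact_mod_cast h1
  obtain ⟨c', hc'⟩ := h2
  have hD0 : 0 < D := by
    rcases Nat.eq_zero_or_pos D with h0 | h0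
    · rw [h0, mul_zero] at hD
      omega
    · exact h0
  have hdiv : δ / g = D := by rw [hD]; exact Nat.mul_div_cancel_left _ hg0
  rw [hdiv]
  have hcop1 : IsCoprime (D : ℤ) c' := by
    rw [Int.isCoprime_iff_gcd_eq_one]
    have h3 : g = g * Int.gcd D c' := by
      have h4 : Int.gcd ((g : ℤ) * D) ((g : ℤ) * c') = (g : ℤ).natAbs * Int.gcd D c' :=
        Int.gcd_mul_left _ _ _
      rw [Int.natAbs_natCast] at h4
      rw [← h4, ← hc']
      have h5 : ((g : ℤ) * D) = (δ : ℤ) := by rw [hD]; push_cast; ring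
      rw [h5]
      exact hg
    have h6 : g * Int.gcd D c' = g * 1 := by rw [← h3, mul_one]
    exact Nat.eq_of_mul_eq_mul_left hg0 h6
  have hcop2 : IsCoprime a c' := ⟨d, -(b * g), by rw [← h, hc']; ring⟩
  obtain ⟨x, y, hxy⟩ := hcop1.mul_left hcop2
  -- `γ' = (D a, -y; c', x)`
  have hdet : (D * a) * x - (-y) * c' = 1 := by linarith
  have hδD : (δ : ℤ) = g * D := by rw [hD]; push_cast; ring
  set B : ℤ := x * δ * b + y * d with hB
  have e1 : D * a * B - y * D = δ * b := by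
    have : D * a * B - y * D = D * b * (g * (x * (D * a) + y * c')) := by
      rw [hB, hδD]
      have h3 : a * d = 1 + b * (g * c') := by rw [← hc']; linarith
      linear_combination (D * y) * h3
    rw [this, hxy, hδD]
    ring
  have e2 : c' * B + x * D = d := by
    have h3 : a * d = 1 + b * (g * c') := by rw [← hc']; linarith
    rw [hB, hδD]
    linear_combination d * hxy - (D * x) * h3
  refine ⟨B, exp (2 * Real.pi * I * ((psi12 (D * a) (-y) c' x : ℤ) : ℂ) / 12), ?_, ?_⟩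
  · have h3 : (2 * Real.pi * I * ((psi12 (D * a) (-y) c' x : ℤ) : ℂ) / 12)
        = ((2 * Real.pi * (psi12 (D * a) (-y) c' x : ℤ) / 12 : ℝ) : ℂ) * I := by
      push_cast
      ring
    rw [h3, Complex.norm_exp_ofReal_mul_I]
  · intro z hz
    have hDc : (D : ℂ) ≠ 0 := by exact_mod_cast hD0.ne'
    have hgc : (g : ℂ) ≠ 0 := by exact_mod_cast hg0.ne'
    set w : ℂ := ((g : ℂ) * z + B) / (D : ℂ) with hw
    have hwim : 0 < w.im := by
      have h3 : w = ((g / D : ℝ) : ℂ) * z + ((B / D : ℝ) : ℂ) := by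
        rw [hw]
        push_cast
        field_simp
      have h4 : w.im = (g / D : ℝ) * z.im := by
        rw [h3, Complex.add_im, Complex.ofReal_im, add_zero, Complex.im_ofReal_mul]
      rw [h4]
      positivity
    have hmul := etaSq_mul hdet hwim
    have hcz : (c : ℂ) * z + d ≠ 0 := den_ne h hz
    have e1' : (D : ℂ) * a * B - y * D = δ * b := by exact_mod_cast e1
    have e2' : (c' : ℂ) * B + x * D = d := by exact_mod_cast e2
    have ec : (c : ℂ) = g * c' := by rw [hc']; push_cast; ring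
    have eδ : (δ : ℂ) = g * D := by rw [hD]; push_cast; ring
    have hden : (c' : ℂ) * w + x = (c * z + d) / D := by
      rw [hw, ← e2', ec]
      field_simp
      ring
    have hnum : (((D * a : ℤ) : ℂ)) * w + ((-y : ℤ) : ℂ) = δ * (a * z + b) / D := by
      have h5 : (δ : ℂ) * (a * z + b) = δ * a * z + (D * a * B - y * D) := by rw [e1']; ring
      rw [h5, hw, eδ]
      push_cast
      field_simp
      ring
    have harg : (((D * a : ℤ) : ℂ) * w + ((-y : ℤ) : ℂ)) / ((c' : ℂ) * w + x)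
        = δ * ((a * z + b) / (c * z + d)) := by
      rw [hnum, hden]
      field_simp
    rw [harg] at hmul
    rw [hmul, hden, eδ]
    field_simp

end Pool.Agent.MTate
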