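import Pool.Agent.MTate.EtaConj
/-!
# MODULE EtaCusp (modular forms, asymptotics)
Size of `η(δ σz)^2` as `im z → ∞`.

Proof. By `etaSq_conj` the quotient `‖η(δσz)^2‖/‖cz+d‖` is `(g/δ) ‖η(w)‖^2`, `w = (g z + B)/D`, `D = δ/g`,
`im w = g im z / D = g^2 im z/δ`.  `‖η(w)‖ = exp(-2 π im w / 24) ‖∏'(1 - e(w)^(n+1))‖` and the product
tends to `1` as `im w → ∞` (see `ModularForm.tendsto_atImInfty_tprod_one_sub_eta_q_pow` in Mathlib,
same proof without the 24-th power, or take the 24-th root of norms).  So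
`‖η(w)‖^2 exp(π g^2 im z/(6 δ)) → 1`.
-/
namespace Pool.Agent.MTate
open Complex Filter Topology

lemma tendsto_im_imInf : Tendsto Complex.im imInf atTop := tendsto_comap

lemma eventually_im_pos : ∀ᶠ z in imInf, 0 < z.im :=
  tendsto_im_imInf.eventually (eventually_gt_atTop 0)

lemma tendsto_prod_imInf :
    Tendsto (fun w : ℂ => ∏' n : ℕ, (1 - ModularForm.eta_q n w)) imInf (𝓝 1) := by
  have h1 : Tendsto (fun q : ℂ => ∏' n : ℕ, (1 - q ^ (n + 1))) (𝓝 0) (𝓝 1) := by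
    have h2 : ContinuousAt (fun q : ℂ => ∏' n : ℕ, (1 - q ^ (n + 1))) 0 :=
      ModularForm.differentiableOn_tprod_one_sub_pow.continuousOn.continuousAt
        (Metric.ball_mem_nhds 0 one_pos)
    have h3 : (∏' n : ℕ, (1 - (0 : ℂ) ^ (n + 1))) = 1 := by simp
    have h4 := h2.tendsto
    rw [h3] at h4
    exact h4
  have h2 : Tendsto (fun w : ℂ => Function.Periodic.qParam 1 w) imInf (𝓝 0) := by
    rw [tendsto_zero_iff_norm_tendsto_zero]
    have h3 : (fun w : ℂ => ‖Function.Periodic.qParam 1 w‖) =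
        fun w => Real.exp (-(2 * Real.pi * w.im)) := by
      funext w
      rw [Function.Periodic.norm_qParam]
      congr 1
      ring
    rw [h3]
    apply Real.tendsto_exp_neg_atTop_nhds_zero.comp
    exact tendsto_im_imInf.const_mul_atTop (by positivity)
  exact h1.comp h2

lemma norm_eta (w : ℂ) : ‖eta w‖ = Real.exp (-(Real.pi * w.im / 12)) *
    ‖∏' n : ℕ, (1 - ModularForm.eta_q n w)‖ := by
  unfold eta ModularForm.eta
  rw [norm_mul, Function.Periodic.norm_qParam]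
  congr 2
  ring

theorem etaSq_cusp {δ : ℕ} (hδ : 0 < δ) {a b c d : ℤ} (h : a * d - b * c = 1) :
    Tendsto (fun z : ℂ => ‖eta (δ * ((a * z + b) / (c * z + d))) ^ 2‖ / ‖(c * z + d : ℂ)‖ *
        Real.exp (Real.pi * (Int.gcd δ c : ℝ) ^ 2 * z.im / (6 * δ))) imInf
      (𝓝 ((Int.gcd δ c : ℝ) / δ)) := by
  obtain ⟨B, v, hv, hconj⟩ := etaSq_conj hδ h
  set g : ℕ := Int.gcd δ c with hg
  have hgpos : 0 < g := Int.gcd_pos_of_ne_zero_left _ (by exact_mod_cast hδ.ne')
  have hgd : g ∣ δ := by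
    have : (g : ℤ) ∣ (δ : ℤ) := Int.gcd_dvd_left _ _
    exact_mod_cast this
  set D : ℕ := δ / g with hD
  have hDg : D * g = δ := Nat.div_mul_cancel hgd
  have hDpos : 0 < D := by
    rcases Nat.eq_zero_or_pos D with h0 | h0
    · rw [h0, zero_mul] at hDg; omega
    · exact h0
  have hgR : (0 : ℝ) < g := by exact_mod_cast hgpos
  have hDR : (0 : ℝ) < D := by exact_mod_cast hDpos
  have hδR : (0 : ℝ) < δ := by exact_mod_cast hδ
  have hDgR : (D : ℝ) * g = δ := by exact_mod_cast hDg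
  set w : ℂ → ℂ := fun z => ((g : ℂ) * z + B) / (D : ℂ) with hw
  have him : ∀ z, (w z).im = g * z.im / D := by
    intro z
    simp only [hw]
    rw [Complex.div_natCast_im]
    simp
  have hwt : Tendsto w imInf imInf := by
    rw [imInf, tendsto_comap_iff]
    have : (Complex.im ∘ w) = fun z => (g / D : ℝ) * z.im := by
      funext z
      simp only [Function.comp]
      rw [him]
      ring
    rw [this]
    exact tendsto_im_imInf.const_mul_atTop (by positivity)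
  have h1 : Tendsto (fun z => (g : ℝ) / δ * ‖∏' n : ℕ, (1 - ModularForm.eta_q n (w z))‖ ^ 2) imInf
      (𝓝 ((g : ℝ) / δ * ‖(1 : ℂ)‖ ^ 2)) :=
    (((tendsto_prod_imInf.comp hwt).norm).pow 2).const_mul _
  rw [norm_one, one_pow, mul_one] at h1
  refine h1.congr' ?_
  filter_upwards [eventually_im_pos] with z hz
  have hne := den_ne h hz
  rw [hconj z hz]
  change _ = ‖v * ((g : ℂ) / δ) * (c * z + d) * eta (w z) ^ 2‖ / ‖(c * z + d : ℂ)‖ * _
  rw [norm_mul, norm_mul, norm_mul, hv, one_mul, norm_pow, norm_eta, him, mul_pow,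
    ← Real.exp_nat_mul]
  have e1 : ‖((g : ℂ) / δ)‖ = (g : ℝ) / δ := by
    rw [norm_div, Complex.norm_natCast, Complex.norm_natCast]
  rw [e1]
  have e2 : ((2 : ℕ) : ℝ) * -(Real.pi * (g * z.im / D) / 12) =
      -(Real.pi * (g : ℝ) ^ 2 * z.im / (6 * δ)) := by
    rw [← hDgR]
    push_cast
    field_simp
    ring
  rw [e2]
  have hne' : ‖(c * z + d : ℂ)‖ ≠ 0 := norm_ne_zero_iff.2 hne
  have e3 : Real.exp (-(Real.pi * (g : ℝ) ^ 2 * z.im / (6 * δ))) *
      Real.exp (Real.pi * (g : ℝ) ^ 2 * z.im / (6 * δ)) = 1 := by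
    rw [← Real.exp_add]
    simp
  set X := Real.exp (-(Real.pi * (g : ℝ) ^ 2 * z.im / (6 * δ))) with hX
  set Y := Real.exp (Real.pi * (g : ℝ) ^ 2 * z.im / (6 * δ)) with hY
  set Q := ‖∏' n : ℕ, (1 - ModularForm.eta_q n (w z))‖ with hQ
  calc (g : ℝ) / δ * Q ^ 2 = (g : ℝ) / δ * Q ^ 2 * (X * Y) := by rw [e3, mul_one]
    _ = (g : ℝ) / δ * ‖(c * z + d : ℂ)‖ * (X * Q ^ 2) / ‖(c * z + d : ℂ)‖ * Y := by
        field_simp

end Pool.Agent.MTate
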