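import Pool.Agent.MTate.Base
/-!
# MODULE EtaMul (modular forms)
Multiplier of `η^2`: for `a d - b c = 1`,
`η((az+b)/(cz+d))^2 = exp(2 π i ψ/12) (c z + d) η(z)^2`, `ψ = psi12 a b c d`.

Proof. Induction over the generators `S`, `T` of `SL(2,ℤ)` (`Matrix.SpecialLinearGroup`: closure of
`{S, T}` is everything, see `SpecialLinearGroup.SL2Z_generators` / `ModularGroup` induction lemmas):
the set of `γ` for which the formula holds (for all `z`) contains `1` and is stable under
`γ ↦ γ T^{±1}`, `γ ↦ γ S^{±1}`, because `η(z+1)^2 = exp(2 π i/12) η(z)^2` (definition of `eta`),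
`η(-1/z)^2 = -i z η(z)^2` (square of `ModularForm.eta_comp_eq_csqrt_I_inv`, `sqrt(z)^2 = z`),
`(c, d)`-cocycle: `j(γ γ', z) = j(γ, γ' z) j(γ', z)`, and because of the congruences mod 12
`ψ(a, a+b, c, c+d) ≡ ψ(a,b,c,d) + 1`, `ψ(b, -a, d, -c) ≡ ψ(a,b,c,d) - 3` whenever `ad - bc = 1`.
Only residues mod 12 matter in `exp(2 π i ψ/12)`; check the two congruences by `decide` in
`ZMod 3` (81 cases) and `ZMod 4` (256 cases).
-/
namespace Pool.Agent.MTate
open Complex

theorem den_ne {a b c d : ℤ} (h : a * d - b * c = 1) {z : ℂ} (hz : 0 < z.im) :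
    (c * z + d : ℂ) ≠ 0 := by
  intro h0
  have him := congrArg Complex.im h0
  simp at him
  rcases him with hc | hc
  · subst hc
    simp at h0
    subst h0
    simp at h
  · linarith

/-- `im (γ z) = im z / |cz+d|^2`, in particular `γ z` is in the upper half plane. -/
theorem im_smul {a b c d : ℤ} (h : a * d - b * c = 1) {z : ℂ} (hz : 0 < z.im) :
    ((a * z + b) / (c * z + d)).im = z.im / ‖(c * z + d : ℂ)‖ ^ 2 := by
  have h' : (a : ℝ) * d - b * c = 1 := by exact_mod_cast h
  rw [Complex.div_im, ← Complex.normSq_eq_norm_sq, ← sub_div]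
  congr 1
  simp
  linear_combination z.im * h'

theorem im_smul_pos {a b c d : ℤ} (h : a * d - b * c = 1) {z : ℂ} (hz : 0 < z.im) :
    0 < ((a * z + b) / (c * z + d)).im := by
  rw [im_smul h hz]
  have := den_ne h hz
  positivity

/-! ### the two generators -/

lemma eta_add_one (z : ℂ) : eta (z + 1) = exp (2 * Real.pi * I / 24) * eta z := by
  have h1 : ∀ n : ℕ, ModularForm.eta_q n (z + 1) = ModularForm.eta_q n z := by
    intro n
    rw [ModularForm.eta_q_eq_pow, ModularForm.eta_q_eq_pow]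
    congr 1
    rw [mul_add, mul_one, Complex.exp_add, Complex.exp_two_pi_mul_I, mul_one]
  unfold eta ModularForm.eta
  simp_rw [h1]
  rw [← mul_assoc]
  congr 1
  unfold Function.Periodic.qParam
  rw [← Complex.exp_add]
  congr 1
  push_cast
  ring

lemma etaSq_add_one (z : ℂ) : eta (z + 1) ^ 2 = exp (2 * Real.pi * I / 12) * eta z ^ 2 := by
  rw [eta_add_one, mul_pow, ← Complex.exp_nat_mul]
  congr 2
  push_cast
  ring

lemma etaSq_neg_inv {z : ℂ} (hz : 0 < z.im) : eta (-1 / z) ^ 2 = -I * z * eta z ^ 2 := by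
  have h := ModularForm.eta_comp_eq_csqrt_I_inv (show z ∈ UpperHalfPlane.upperHalfPlaneSet from hz)
  have h2 : eta (-1 / z) = (sqrt I)⁻¹ * (sqrt z * eta z) := by
    simpa using h
  have hz0 : z ≠ 0 := by
    intro h0
    rw [h0] at hz
    simp at hz
  have hs : ∀ w : ℂ, w ≠ 0 → sqrt w ^ 2 = w := by
    intro w hw
    rw [sqrt_eq_exp hw, ← exp_nat_mul]
    push_cast
    rw [mul_div_cancel₀ _ (two_ne_zero), exp_log hw]
  rw [h2, mul_pow, mul_pow, inv_pow, hs I I_ne_zero, hs z hz0, inv_I]
  ring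

/-! ### the congruences -/

lemma psi_T3 : ∀ a b c d : ZMod 3, a * d - b * c = 1 →
    (1 - c ^ 2) * ((a + b) * (c + d) + 3 * (c - 1) * (c + d) + c + 3) + c * (a + (c + d) - 3) =
    (1 - c ^ 2) * (b * d + 3 * (c - 1) * d + c + 3) + c * (a + d - 3) + 1 := by
  decide

lemma psi_T4 : ∀ a b c d : ZMod 4, a * d - b * c = 1 →
    (1 - c ^ 2) * ((a + b) * (c + d) + 3 * (c - 1) * (c + d) + c + 3) + c * (a + (c + d) - 3) =
    (1 - c ^ 2) * (b * d + 3 * (c - 1) * d + c + 3) + c * (a + d - 3) + 1 := by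
  decide

lemma psi_S3 : ∀ a b c d : ZMod 3, a * d - b * c = 1 →
    (1 - d ^ 2) * (-a * -c + 3 * (d - 1) * -c + d + 3) + d * (b + -c - 3) =
    (1 - c ^ 2) * (b * d + 3 * (c - 1) * d + c + 3) + c * (a + d - 3) - 3 := by
  decide

lemma psi_S4 : ∀ a b c d : ZMod 4, a * d - b * c = 1 →
    (1 - d ^ 2) * (-a * -c + 3 * (d - 1) * -c + d + 3) + d * (b + -c - 3) =
    (1 - c ^ 2) * (b * d + 3 * (c - 1) * d + c + 3) + c * (a + d - 3) - 3 := by
  decide

lemma dvd12 {x : ℤ} (h3 : ((x : ℤ) : ZMod 3) = 0) (h4 : ((x : ℤ) : ZMod 4) = 0) : (12 : ℤ) ∣ x := by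
  have e3 : (3 : ℤ) ∣ x := (ZMod.intCast_zmod_eq_zero_iff_dvd x 3).1 h3
  have e4 : (4 : ℤ) ∣ x := (ZMod.intCast_zmod_eq_zero_iff_dvd x 4).1 h4
  omega

lemma psi_T {a b c d : ℤ} (h : a * d - b * c = 1) :
    ∃ k : ℤ, psi12 a (a + b) c (c + d) = psi12 a b c d + 1 + 12 * k := by
  have h1 : (12 : ℤ) ∣ psi12 a (a + b) c (c + d) - (psi12 a b c d + 1) := by
    apply dvd12
    · have h' : ((a : ZMod 3)) * d - b * c = 1 := by
        have := congrArg (fun x : ℤ => (x : ZMod 3)) h
        push_cast at this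
        exact this
      have := psi_T3 a b c d h'
      unfold psi12
      push_cast
      rw [sub_eq_zero]
      exact this
    · have h' : ((a : ZMod 4)) * d - b * c = 1 := by
        have := congrArg (fun x : ℤ => (x : ZMod 4)) h
        push_cast at this
        exact this
      have := psi_T4 a b c d h'
      unfold psi12
      push_cast
      rw [sub_eq_zero]
      exact this
  obtain ⟨k, hk⟩ := h1
  exact ⟨k, by linarith⟩

lemma psi_S {a b c d : ℤ} (h : a * d - b * c = 1) :
    ∃ k : ℤ, psi12 b (-a) d (-c) = psi12 a b c d - 3 + 12 * k := by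
  have h1 : (12 : ℤ) ∣ psi12 b (-a) d (-c) - (psi12 a b c d - 3) := by
    apply dvd12
    · have h' : ((a : ZMod 3)) * d - b * c = 1 := by
        have := congrArg (fun x : ℤ => (x : ZMod 3)) h
        push_cast at this
        exact this
      have := psi_S3 a b c d h'
      unfold psi12
      push_cast
      rw [sub_eq_zero]
      exact this
    · have h' : ((a : ZMod 4)) * d - b * c = 1 := by
        have := congrArg (fun x : ℤ => (x : ZMod 4)) h
        push_cast at this
        exact this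
      have := psi_S4 a b c d h'
      unfold psi12
      push_cast
      rw [sub_eq_zero]
      exact this
  obtain ⟨k, hk⟩ := h1
  exact ⟨k, by linarith⟩

lemma exp_add_twelve (x : ℂ) (k : ℤ) :
    exp (2 * Real.pi * I * (x + 12 * k) / 12) = exp (2 * Real.pi * I * x / 12) := by
  rw [show 2 * Real.pi * I * (x + 12 * k) / 12 =
    2 * Real.pi * I * x / 12 + k * (2 * Real.pi * I) by ring, Complex.exp_add,
    Complex.exp_int_mul_two_pi_mul_I, mul_one]

lemma exp_neg_three : exp (2 * Real.pi * I * (-3) / 12) = -I := by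
  rw [show 2 * Real.pi * I * (-3) / 12 = -(Real.pi / 2 * I) by ring, Complex.exp_neg,
    Complex.exp_pi_div_two_mul_I, inv_I]

/-! ### the induction -/

/-- the transformation formula -/
def EF (a b c d : ℤ) : Prop := ∀ z : ℂ, 0 < z.im →
  eta ((a * z + b) / (c * z + d)) ^ 2 =
      exp (2 * Real.pi * I * ((psi12 a b c d : ℤ) : ℂ) / 12) * (c * z + d) * eta z ^ 2

lemma EF_T {a b c d : ℤ} (h : a * d - b * c = 1) (hF : EF a b c d) : EF a (a + b) c (c + d) := by
  intro z hz
  have h1 := hF (z + 1) (by simpa using hz)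
  obtain ⟨k, hk⟩ := psi_T h
  rw [hk, etaSq_add_one] at *
  rw [show ((a : ℂ) * z + ((a + b : ℤ) : ℂ)) / (c * z + ((c + d : ℤ) : ℂ)) =
    (a * (z + 1) + b) / (c * (z + 1) + d) by push_cast; ring_nf, h1]
  push_cast
  rw [exp_add_twelve]
  rw [show 2 * (Real.pi : ℂ) * I * ((psi12 a b c d : ℂ) + 1) / 12 =
    2 * Real.pi * I * (psi12 a b c d : ℂ) / 12 + 2 * Real.pi * I / 12 by ring, Complex.exp_add]
  ring

lemma EF_Tinv {a b c d : ℤ} (h : a * d - b * c = 1) (hF : EF a b c d) :
    EF a (-a + b) c (-c + d) := by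
  intro z hz
  have h1 := hF (z - 1) (by simpa using hz)
  have h' : a * (-c + d) - (-a + b) * c = 1 := by linarith
  obtain ⟨k, hk⟩ := psi_T h'
  rw [add_neg_cancel_left, add_neg_cancel_left] at hk
  have h2 := etaSq_add_one (z - 1)
  rw [sub_add_cancel] at h2
  rw [show ((a : ℂ) * z + ((-a + b : ℤ) : ℂ)) / (c * z + ((-c + d : ℤ) : ℂ)) =
    (a * (z - 1) + b) / (c * (z - 1) + d) by push_cast; ring_nf, h1, hk, h2]
  push_cast
  rw [exp_add_twelve]
  rw [show 2 * (Real.pi : ℂ) * I * ((psi12 a (-a + b) c (-c + d) : ℂ) + 1) / 12 =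
    2 * Real.pi * I * (psi12 a (-a + b) c (-c + d) : ℂ) / 12 + 2 * Real.pi * I / 12 by ring,
    Complex.exp_add]
  ring

lemma EF_S {a b c d : ℤ} (h : a * d - b * c = 1) (hF : EF a b c d) : EF b (-a) d (-c) := by
  intro z hz
  have hz0 : z ≠ 0 := by
    intro h0
    rw [h0] at hz
    simp at hz
  have him : 0 < (-1 / z).im := by
    rw [neg_div, Complex.neg_im, one_div, Complex.inv_im, neg_div, neg_neg]
    have := Complex.normSq_pos.2 hz0
    positivity
  have h1 := hF (-1 / z) him
  obtain ⟨k, hk⟩ := psi_S h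
  rw [etaSq_neg_inv hz] at h1
  have e1 : ((b : ℂ) * z + ((-a : ℤ) : ℂ)) / (d * z + ((-c : ℤ) : ℂ)) =
      (a * (-1 / z) + b) / (c * (-1 / z) + d) := by
    rw [show (a : ℂ) * (-1 / z) + b = (b * z + ((-a : ℤ) : ℂ)) / z by
        push_cast; field_simp; ring,
      show (c : ℂ) * (-1 / z) + d = (d * z + ((-c : ℤ) : ℂ)) / z by
        push_cast; field_simp; ring, div_div_div_cancel_right₀ hz0]
  rw [e1, h1, hk]
  push_cast
  rw [exp_add_twelve]
  rw [show 2 * (Real.pi : ℂ) * I * ((psi12 a b c d : ℂ) - 3) / 12 =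
    2 * Real.pi * I * (psi12 a b c d : ℂ) / 12 + 2 * Real.pi * I * (-3) / 12 by ring,
    Complex.exp_add, exp_neg_three]
  field_simp
  ring

lemma EF_Sinv {a b c d : ℤ} (h : a * d - b * c = 1) (hF : EF a b c d) : EF (-b) a (-d) c := by
  intro z hz
  have hz0 : z ≠ 0 := by
    intro h0
    rw [h0] at hz
    simp at hz
  have him : 0 < (-1 / z).im := by
    rw [neg_div, Complex.neg_im, one_div, Complex.inv_im, neg_div, neg_neg]
    have := Complex.normSq_pos.2 hz0
    positivity
  have h1 := hF (-1 / z) him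
  have h' : (-b) * c - a * (-d) = 1 := by linarith
  obtain ⟨k, hk⟩ := psi_S h'
  rw [neg_neg, neg_neg] at hk
  rw [etaSq_neg_inv hz, hk] at h1
  have e1 : (((-b : ℤ) : ℂ) * z + (a : ℂ)) / (((-d : ℤ) : ℂ) * z + (c : ℂ)) =
      (a * (-1 / z) + b) / (c * (-1 / z) + d) := by
    rw [show (a : ℂ) * (-1 / z) + b = -(((-b : ℤ) : ℂ) * z + (a : ℂ)) / z by
        push_cast; field_simp; ring,
      show (c : ℂ) * (-1 / z) + d = -(((-d : ℤ) : ℂ) * z + (c : ℂ)) / z by
        push_cast; field_simp; ring, div_div_div_cancel_right₀ hz0, neg_div_neg_eq]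
  rw [e1, h1]
  push_cast
  rw [exp_add_twelve]
  rw [show 2 * (Real.pi : ℂ) * I * ((psi12 (-b) a (-d) c : ℂ) - 3) / 12 =
    2 * Real.pi * I * (psi12 (-b) a (-d) c : ℂ) / 12 + 2 * Real.pi * I * (-3) / 12 by ring,
    Complex.exp_add, exp_neg_three]
  have hI : I * I = -1 := I_mul_I
  field_simp
  linear_combination (eta z ^ 2 * (d * z - c)) * hI

open Matrix in
theorem etaSq_mul {a b c d : ℤ} (h : a * d - b * c = 1) {z : ℂ} (hz : 0 < z.im) :
    eta ((a * z + b) / (c * z + d)) ^ 2 =
      exp (2 * Real.pi * I * ((psi12 a b c d : ℤ) : ℂ) / 12) * (c * z + d) * eta z ^ 2 := by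
  have key : ∀ g : SpecialLinearGroup (Fin 2) ℤ, EF (g.1 0 0) (g.1 0 1) (g.1 1 0) (g.1 1 1) := by
    intro g
    have hg : g ∈ Subgroup.closure {ModularGroup.S, ModularGroup.T} := by
      rw [SpecialLinearGroup.SL2Z_generators]
      exact Subgroup.mem_top _
    have hdet : ∀ x : SpecialLinearGroup (Fin 2) ℤ,
        x.1 0 0 * x.1 1 1 - x.1 0 1 * x.1 1 0 = 1 := by
      intro x
      have := x.2
      rw [Matrix.det_fin_two] at this
      exact this
    induction hg using Subgroup.closure_induction_right with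
    | one =>
      intro w hw
      simp [psi12]
    | mul_right x hx y hy ih =>
      rcases hy with hy | hy
      · subst hy
        have e := EF_S (hdet x) ih
        have e00 : (x * ModularGroup.S).1 0 0 = x.1 0 1 := by
          simp [ModularGroup.S, Matrix.mul_apply, Fin.sum_univ_two]
        have e01 : (x * ModularGroup.S).1 0 1 = -x.1 0 0 := by
          simp [ModularGroup.S, Matrix.mul_apply, Fin.sum_univ_two]
        have e10 : (x * ModularGroup.S).1 1 0 = x.1 1 1 := by
          simp [ModularGroup.S, Matrix.mul_apply, Fin.sum_univ_two]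
        have e11 : (x * ModularGroup.S).1 1 1 = -x.1 1 0 := by
          simp [ModularGroup.S, Matrix.mul_apply, Fin.sum_univ_two]
        rw [e00, e01, e10, e11]
        exact e
      · have hy' : y = ModularGroup.T := hy
        subst hy'
        have e := EF_T (hdet x) ih
        have e00 : (x * ModularGroup.T).1 0 0 = x.1 0 0 := by
          simp [ModularGroup.T, Matrix.mul_apply, Fin.sum_univ_two]
        have e01 : (x * ModularGroup.T).1 0 1 = x.1 0 0 + x.1 0 1 := by
          simp [ModularGroup.T, Matrix.mul_apply, Fin.sum_univ_two]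
        have e10 : (x * ModularGroup.T).1 1 0 = x.1 1 0 := by
          simp [ModularGroup.T, Matrix.mul_apply, Fin.sum_univ_two]
        have e11 : (x * ModularGroup.T).1 1 1 = x.1 1 0 + x.1 1 1 := by
          simp [ModularGroup.T, Matrix.mul_apply, Fin.sum_univ_two]
        rw [e00, e01, e10, e11]
        exact e
    | mul_inv_cancel x hx y hy ih =>
      rcases hy with hy | hy
      · subst hy
        have e := EF_Sinv (hdet x) ih
        have e00 : (x * ModularGroup.S⁻¹).1 0 0 = -x.1 0 1 := by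
          simp [ModularGroup.S, Matrix.mul_apply, Fin.sum_univ_two, SpecialLinearGroup.coe_inv,
            Matrix.adjugate_fin_two]
        have e01 : (x * ModularGroup.S⁻¹).1 0 1 = x.1 0 0 := by
          simp [ModularGroup.S, Matrix.mul_apply, Fin.sum_univ_two, SpecialLinearGroup.coe_inv,
            Matrix.adjugate_fin_two]
        have e10 : (x * ModularGroup.S⁻¹).1 1 0 = -x.1 1 1 := by
          simp [ModularGroup.S, Matrix.mul_apply, Fin.sum_univ_two, SpecialLinearGroup.coe_inv,
            Matrix.adjugate_fin_two]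
        have e11 : (x * ModularGroup.S⁻¹).1 1 1 = x.1 1 0 := by
          simp [ModularGroup.S, Matrix.mul_apply, Fin.sum_univ_two, SpecialLinearGroup.coe_inv,
            Matrix.adjugate_fin_two]
        rw [e00, e01, e10, e11]
        exact e
      · have hy' : y = ModularGroup.T := hy
        subst hy'
        have e := EF_Tinv (hdet x) ih
        have e00 : (x * ModularGroup.T⁻¹).1 0 0 = x.1 0 0 := by
          simp [ModularGroup.T, Matrix.mul_apply, Fin.sum_univ_two, SpecialLinearGroup.coe_inv,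
            Matrix.adjugate_fin_two]
        have e01 : (x * ModularGroup.T⁻¹).1 0 1 = -x.1 0 0 + x.1 0 1 := by
          simp [ModularGroup.T, Matrix.mul_apply, Fin.sum_univ_two, SpecialLinearGroup.coe_inv,
            Matrix.adjugate_fin_two]
        have e10 : (x * ModularGroup.T⁻¹).1 1 0 = x.1 1 0 := by
          simp [ModularGroup.T, Matrix.mul_apply, Fin.sum_univ_two, SpecialLinearGroup.coe_inv,
            Matrix.adjugate_fin_two]
        have e11 : (x * ModularGroup.T⁻¹).1 1 1 = -x.1 1 0 + x.1 1 1 := by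
          simp [ModularGroup.T, Matrix.mul_apply, Fin.sum_univ_two, SpecialLinearGroup.coe_inv,
            Matrix.adjugate_fin_two]
        rw [e00, e01, e10, e11]
        exact e
  have hd : (!![a, b; c, d] : Matrix (Fin 2) (Fin 2) ℤ).det = 1 := by
    rw [Matrix.det_fin_two]
    simpa using h
  have := key ⟨!![a, b; c, d], hd⟩ z hz
  simpa using this

end Pool.Agent.MTate
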