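import Pool.Agent.MTate.SerP
/-!
# MODULE EvBasic (elementary analysis of power series on the unit disc)
Evaluation `ev` of integer power series that converge absolutely on the open unit disc is a ring
homomorphism; `ev (th a) = q d/dq ev a`; order estimates; identity theorem.

Proofs: Cauchy products (`Summable.mul_norm`/`tsum_mul_tsum_eq_tsum_sum_antidiagonal_of_summable_norm`);
`conv_th`: `n ‖q‖^n ≤ C r^n` for `‖q‖ < r < 1`; derivative: power series are differentiated termwise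
inside the disc (`HasFPowerSeriesOnBall`, or `hasDerivAt_tsum`).  `ev_isBigO`: `a = X^m a'`, and
`‖ev a' q‖ ≤ ∑ |a'_n| 2^{-n}`.  `ev_lower`: `a = X^m (a_m + X a'')`.
`ev_inj`: uniqueness of power series expansions.
-/
namespace Pool.Agent.MTate
open PowerSeries Filter Topology

theorem conv_add {a c : PowerSeries ℤ} (ha : Conv a) (hc : Conv c) : Conv (a + c) := by
  intro q hq
  refine Summable.of_nonneg_of_le (fun _ => norm_nonneg _) (fun n => ?_) ((ha q hq).add (hc q hq))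
  rw [map_add, Int.cast_add, add_mul]
  exact norm_add_le _ _

theorem conv_neg {a : PowerSeries ℤ} (ha : Conv a) : Conv (-a) := by
  intro q hq
  have h := ha q hq
  simpa only [map_neg, Int.cast_neg, neg_mul, norm_neg] using h

theorem conv_sub {a c : PowerSeries ℤ} (ha : Conv a) (hc : Conv c) : Conv (a - c) := by
  rw [sub_eq_add_neg]
  exact conv_add ha (conv_neg hc)

lemma coeff_mul_pow (a c : PowerSeries ℤ) (q : ℂ) (n : ℕ) :
    ((coeff n (a * c) : ℤ) : ℂ) * q ^ n = ∑ kl ∈ Finset.HasAntidiagonal.antidiagonal n,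
      (((coeff kl.1 a : ℤ) : ℂ) * q ^ kl.1) * (((coeff kl.2 c : ℤ) : ℂ) * q ^ kl.2) := by
  rw [coeff_mul, Int.cast_sum, Finset.sum_mul]
  refine Finset.sum_congr rfl fun kl hkl => ?_
  rw [Finset.HasAntidiagonal.mem_antidiagonal] at hkl
  rw [← hkl, pow_add]
  push_cast
  ring

theorem conv_mul {a c : PowerSeries ℤ} (ha : Conv a) (hc : Conv c) : Conv (a * c) := by
  intro q hq
  have h := summable_norm_sum_mul_antidiagonal_of_summable_norm (ha q hq) (hc q hq)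
  refine h.congr fun n => ?_
  rw [coeff_mul_pow]

theorem conv_C (n : ℤ) : Conv (C n : PowerSeries ℤ) := by
  intro q _
  apply summable_of_ne_finset_zero (s := {0})
  intro k hk
  rw [Finset.mem_singleton] at hk
  rw [coeff_C, if_neg hk]
  simp

theorem conv_X : Conv (X : PowerSeries ℤ) := by
  intro q _
  apply summable_of_ne_finset_zero (s := {1})
  intro k hk
  rw [Finset.mem_singleton] at hk
  rw [coeff_X, if_neg hk]
  simp

theorem conv_ofNat (n : ℕ) : Conv ((n : ℕ) : PowerSeries ℤ) := by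
  have h := conv_C (n : ℤ)
  rwa [map_natCast] at h

theorem conv_pow {a : PowerSeries ℤ} (ha : Conv a) (n : ℕ) : Conv (a ^ n) := by
  induction n with
  | zero =>
    have h := conv_C 1
    rwa [map_one, ← pow_zero a] at h
  | succ n ih =>
    rw [pow_succ]
    exact conv_mul ih ha

theorem conv_th {a : PowerSeries ℤ} (ha : Conv a) : Conv (th a) := by
  intro q hq
  obtain ⟨r, hqr, hr1⟩ := exists_between hq
  have hr0 : 0 < r := lt_of_le_of_lt (norm_nonneg q) hqr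
  have hs := ha (r : ℂ) (by rw [Complex.norm_real, Real.norm_of_nonneg hr0.le]; exact hr1)
  have hlim := tendsto_self_mul_const_pow_of_lt_one (r := ‖q‖ / r) (by positivity)
    ((div_lt_one hr0).2 hqr)
  obtain ⟨K, hK⟩ := hlim.bddAbove_range
  refine Summable.of_nonneg_of_le (fun _ => norm_nonneg _) (fun n => ?_) (hs.mul_left K)
  have h1 : (n : ℝ) * (‖q‖ / r) ^ n ≤ K := hK ⟨n, rfl⟩
  rw [div_pow, ← mul_div_assoc, div_le_iff₀ (by positivity)] at h1
  rw [coeff_th]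
  push_cast
  rw [norm_mul, norm_mul, norm_mul, norm_pow, norm_pow, Complex.norm_real,
    Real.norm_of_nonneg hr0.le, Complex.norm_natCast]
  calc (n : ℝ) * ‖((coeff n a : ℤ) : ℂ)‖ * ‖q‖ ^ n
      = ‖((coeff n a : ℤ) : ℂ)‖ * (n * ‖q‖ ^ n) := by ring
    _ ≤ ‖((coeff n a : ℤ) : ℂ)‖ * (K * r ^ n) :=
        mul_le_mul_of_nonneg_left h1 (norm_nonneg _)
    _ = K * (‖((coeff n a : ℤ) : ℂ)‖ * r ^ n) := by ring

theorem ev_add {a c : PowerSeries ℤ} (ha : Conv a) (hc : Conv c) {q : ℂ} (hq : ‖q‖ < 1) :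
    ev (a + c) q = ev a q + ev c q := by
  unfold ev
  rw [← (ha q hq).of_norm.tsum_add (hc q hq).of_norm]
  refine tsum_congr fun n => ?_
  rw [map_add, Int.cast_add, add_mul]

theorem ev_neg {a : PowerSeries ℤ} (ha : Conv a) {q : ℂ} (hq : ‖q‖ < 1) :
    ev (-a) q = -ev a q := by
  unfold ev
  rw [← tsum_neg]
  refine tsum_congr fun n => ?_
  rw [map_neg, Int.cast_neg, neg_mul]

theorem ev_sub {a c : PowerSeries ℤ} (ha : Conv a) (hc : Conv c) {q : ℂ} (hq : ‖q‖ < 1) :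
    ev (a - c) q = ev a q - ev c q := by
  rw [sub_eq_add_neg, ev_add ha (conv_neg hc) hq, ev_neg hc hq, ← sub_eq_add_neg]

theorem ev_mul {a c : PowerSeries ℤ} (ha : Conv a) (hc : Conv c) {q : ℂ} (hq : ‖q‖ < 1) :
    ev (a * c) q = ev a q * ev c q := by
  unfold ev
  rw [tsum_mul_tsum_eq_tsum_sum_antidiagonal_of_summable_norm (ha q hq) (hc q hq)]
  exact tsum_congr fun n => coeff_mul_pow a c q n

theorem ev_C (n : ℤ) (q : ℂ) : ev (C n) q = n := by
  unfold ev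
  rw [tsum_eq_single 0]
  · simp
  · intro k hk
    rw [coeff_C, if_neg hk]
    simp

theorem ev_X (q : ℂ) : ev X q = q := by
  unfold ev
  rw [tsum_eq_single 1]
  · simp
  · intro k hk
    rw [coeff_X, if_neg hk]
    simp

theorem ev_natCast (n : ℕ) (q : ℂ) : ev ((n : ℕ) : PowerSeries ℤ) q = n := by
  have h := ev_C (n : ℤ) q
  rwa [map_natCast, Int.cast_natCast] at h

theorem ev_pow {a : PowerSeries ℤ} (ha : Conv a) (n : ℕ) {q : ℂ} (hq : ‖q‖ < 1) :
    ev (a ^ n) q = ev a q ^ n := by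
  induction n with
  | zero =>
    have h := ev_C 1 q
    rw [map_one, Int.cast_one] at h
    rw [pow_zero, pow_zero, h]
  | succ n ih => rw [pow_succ, ev_mul (conv_pow ha n) ha hq, ih, pow_succ]

theorem ev_hasSum {a : PowerSeries ℤ} (ha : Conv a) {q : ℂ} (hq : ‖q‖ < 1) :
    HasSum (fun n : ℕ => ((coeff n a : ℤ) : ℂ) * q ^ n) (ev a q) :=
  (ha q hq).of_norm.hasSum

lemma ev_dom {a : PowerSeries ℤ} (ha : Conv a) {q : ℂ} (hq : ‖q‖ < 1) : ∃ r : ℝ, ‖q‖ < r ∧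
    Summable (fun n : ℕ => ‖((coeff n a : ℤ) : ℂ) * (r : ℂ) ^ n‖) ∧
    ∀ (n : ℕ) (w : ℂ), w ∈ Metric.ball (0 : ℂ) r →
      ‖((coeff n a : ℤ) : ℂ) * w ^ n‖ ≤ ‖((coeff n a : ℤ) : ℂ) * (r : ℂ) ^ n‖ := by
  obtain ⟨r, hqr, hr1⟩ := exists_between hq
  have hr0 : 0 < r := lt_of_le_of_lt (norm_nonneg q) hqr
  have hr : ‖(r : ℂ)‖ = r := by rw [Complex.norm_real, Real.norm_of_nonneg hr0.le]
  refine ⟨r, hqr, ha (r : ℂ) (by rw [hr]; exact hr1), fun n w hw => ?_⟩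
  rw [mem_ball_zero_iff] at hw
  rw [norm_mul, norm_mul, norm_pow, norm_pow, hr]
  exact mul_le_mul_of_nonneg_left (pow_le_pow_left₀ (norm_nonneg _) hw.le n) (norm_nonneg _)

theorem ev_differentiableAt {a : PowerSeries ℤ} (ha : Conv a) {q : ℂ} (hq : ‖q‖ < 1) :
    DifferentiableAt ℂ (ev a) q := by
  obtain ⟨r, hqr, hs, hle⟩ := ev_dom ha hq
  have h := Complex.differentiableOn_tsum_of_summable_norm
    (F := fun (n : ℕ) (w : ℂ) => ((coeff n a : ℤ) : ℂ) * w ^ n) hs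
    (fun n => by fun_prop) Metric.isOpen_ball hle
  exact (h q (mem_ball_zero_iff.2 hqr)).differentiableAt
    (Metric.isOpen_ball.mem_nhds (mem_ball_zero_iff.2 hqr))

theorem ev_th {a : PowerSeries ℤ} (ha : Conv a) {q : ℂ} (hq : ‖q‖ < 1) :
    ev (th a) q = q * deriv (ev a) q := by
  obtain ⟨r, hqr, hs, hle⟩ := ev_dom ha hq
  have h := Complex.hasSum_deriv_of_summable_norm
    (F := fun (n : ℕ) (w : ℂ) => ((coeff n a : ℤ) : ℂ) * w ^ n) hs
    (fun n => by fun_prop) Metric.isOpen_ball hle (mem_ball_zero_iff.2 hqr)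
  have h1 := (h.mul_left q).tsum_eq
  change _ = q * deriv (ev a) q at h1
  rw [← h1]
  unfold ev
  refine tsum_congr fun n => ?_
  rw [coeff_th]
  have h2 : deriv (fun w : ℂ => ((coeff n a : ℤ) : ℂ) * w ^ n) q =
      ((coeff n a : ℤ) : ℂ) * (n * q ^ (n - 1)) := by
    rw [deriv_const_mul _ (by fun_prop)]
    simp
  rw [h2]
  cases n with
  | zero => simp
  | succ n =>
    rw [Nat.add_sub_cancel, pow_succ]
    push_cast
    ring

theorem ev_isBigO {a : PowerSeries ℤ} (ha : Conv a) {m : ℕ} (hm : ∀ n < m, coeff n a = 0) :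
    ∃ K : ℝ, ∀ q : ℂ, ‖q‖ ≤ 1 / 2 → ‖ev a q‖ ≤ K * ‖q‖ ^ m := by
  have h2 : ‖((1 / 2 : ℝ) : ℂ)‖ = 1 / 2 := by
    rw [Complex.norm_real]; norm_num
  have hs := ha ((1 / 2 : ℝ) : ℂ) (by rw [h2]; norm_num)
  refine ⟨∑' n : ℕ, 2 ^ m * ‖((coeff n a : ℤ) : ℂ) * ((1 / 2 : ℝ) : ℂ) ^ n‖, fun q hq => ?_⟩
  have hq1 : ‖q‖ < 1 := lt_of_le_of_lt hq (by norm_num)
  have hle : ∀ n : ℕ, ‖((coeff n a : ℤ) : ℂ) * q ^ n‖ ≤
      2 ^ m * ‖((coeff n a : ℤ) : ℂ) * ((1 / 2 : ℝ) : ℂ) ^ n‖ * ‖q‖ ^ m := by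
    intro n
    by_cases hn : n < m
    · rw [hm n hn]
      simp
    · push Not at hn
      obtain ⟨k, rfl⟩ := Nat.exists_eq_add_of_le hn
      rw [norm_mul, norm_mul, norm_pow, norm_pow, h2]
      have h3 : ‖q‖ ^ k ≤ (1 / 2) ^ k := pow_le_pow_left₀ (norm_nonneg _) hq k
      have h4 : ‖q‖ ^ (m + k) ≤ 2 ^ m * (1 / 2) ^ (m + k) * ‖q‖ ^ m := by
        have h5 : (2 : ℝ) ^ m * (1 / 2) ^ (m + k) = (1 / 2) ^ k := by
          rw [pow_add, ← mul_assoc, ← mul_pow]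
          norm_num
        rw [h5, pow_add, mul_comm]
        exact mul_le_mul_of_nonneg_right h3 (by positivity)
      calc ‖((coeff (m + k) a : ℤ) : ℂ)‖ * ‖q‖ ^ (m + k)
          ≤ ‖((coeff (m + k) a : ℤ) : ℂ)‖ * (2 ^ m * (1 / 2) ^ (m + k) * ‖q‖ ^ m) :=
            mul_le_mul_of_nonneg_left h4 (norm_nonneg _)
        _ = 2 ^ m * (‖((coeff (m + k) a : ℤ) : ℂ)‖ * (1 / 2) ^ (m + k)) * ‖q‖ ^ m := by ring
  unfold ev
  rw [← tsum_mul_right]
  exact (norm_tsum_le_tsum_norm (ha q hq1)).trans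
    ((ha q hq1).tsum_le_tsum hle ((hs.mul_left _).mul_right _))

theorem ev_lower {a : PowerSeries ℤ} (ha : Conv a) {m : ℕ} (hm : ∀ n < m, coeff n a = 0)
    (h : coeff m a ≠ 0) :
    ∃ κ r : ℝ, 0 < κ ∧ 0 < r ∧ ∀ q : ℂ, ‖q‖ ≤ r → κ * ‖q‖ ^ m ≤ ‖ev a q‖ := by
  have hc : Conv (C (coeff m a) * X ^ m : PowerSeries ℤ) := conv_mul (conv_C _) (conv_pow conv_X m)
  obtain ⟨K, hK⟩ := ev_isBigO (m := m + 1) (conv_sub ha hc) (by
    intro n hn
    rw [map_sub, coeff_C_mul, coeff_X_pow]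
    rcases lt_or_eq_of_le (Nat.le_of_lt_succ hn) with h1 | h1
    · rw [hm n h1, if_neg h1.ne]
      simp
    · rw [h1, if_pos rfl]
      simp)
  refine ⟨1 / 2, min (1 / 2) (1 / (2 * (|K| + 1))), by norm_num, by positivity, fun q hq => ?_⟩
  have hq2 : ‖q‖ ≤ 1 / 2 := hq.trans (min_le_left _ _)
  have hq3 : ‖q‖ ≤ 1 / (2 * (|K| + 1)) := hq.trans (min_le_right _ _)
  have hq1 : ‖q‖ < 1 := lt_of_le_of_lt hq2 (by norm_num)
  have h1 := hK q hq2
  rw [ev_sub ha hc hq1, ev_mul (conv_C _) (conv_pow conv_X m) hq1, ev_C, ev_pow conv_X m hq1,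
    ev_X] at h1
  have h2 : (1 : ℝ) ≤ ‖((coeff m a : ℤ) : ℂ)‖ := by
    rw [Complex.norm_intCast]
    have := Int.one_le_abs h
    exact_mod_cast this
  have h3 : ‖((coeff m a : ℤ) : ℂ) * q ^ m‖ ≤ ‖ev a q‖ + ‖ev a q - ((coeff m a : ℤ) : ℂ) * q ^ m‖ := by
    have := norm_sub_le (ev a q) (ev a q - ((coeff m a : ℤ) : ℂ) * q ^ m)
    rwa [sub_sub_cancel] at this
  rw [norm_mul, norm_pow] at h3
  have h4 : K * ‖q‖ ^ (m + 1) ≤ 1 / 2 * ‖q‖ ^ m := by
    have h5 : |K| * ‖q‖ ≤ 1 / 2 := by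
      have h6 : (|K| + 1) * ‖q‖ ≤ 1 / 2 := by
        rw [le_div_iff₀ (by positivity)] at hq3
        linarith
      nlinarith [norm_nonneg q]
    calc K * ‖q‖ ^ (m + 1) ≤ |K| * ‖q‖ ^ (m + 1) :=
          mul_le_mul_of_nonneg_right (le_abs_self K) (by positivity)
      _ = |K| * ‖q‖ * ‖q‖ ^ m := by ring
      _ ≤ 1 / 2 * ‖q‖ ^ m := mul_le_mul_of_nonneg_right h5 (by positivity)
  have h7 : ‖q‖ ^ m ≤ ‖((coeff m a : ℤ) : ℂ)‖ * ‖q‖ ^ m :=
    le_mul_of_one_le_left (by positivity) h2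
  linarith

/-- identity theorem: it suffices to know that `ev a` vanishes on the punctured unit disc. -/
theorem ev_inj {a : PowerSeries ℤ} (ha : Conv a) (h : ∀ q : ℂ, ‖q‖ < 1 → q ≠ 0 → ev a q = 0) :
    a = 0 := by
  by_contra hne
  have hex : ∃ n, coeff n a ≠ 0 := by
    by_contra h1
    push Not at h1
    exact hne (PowerSeries.ext fun n => by rw [h1 n, map_zero])
  classical
  obtain ⟨κ, r, hκ, hr, hle⟩ := ev_lower ha (m := Nat.find hex)
    (fun n hn => not_not.1 (Nat.find_min hex hn)) (Nat.find_spec hex)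
  have hs : 0 < min r (1 / 2) := by positivity
  have hn : ‖((min r (1 / 2) : ℝ) : ℂ)‖ = min r (1 / 2) := by
    rw [Complex.norm_real, Real.norm_of_nonneg hs.le]
  have h1 := hle ((min r (1 / 2) : ℝ) : ℂ) (by rw [hn]; exact min_le_left _ _)
  rw [h _ (by rw [hn]; exact lt_of_le_of_lt (min_le_right _ _) (by norm_num))
    (by rw [← norm_pos_iff, hn]; exact hs), norm_zero, hn] at h1
  have h2 : 0 < κ * min r (1 / 2) ^ Nat.find hex := by positivity
  linarith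

end Pool.Agent.MTate
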