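import Pool.Agent.MTate.EvBasic
/-!
# MODULE EvP (analysis)
`P k` converges on the unit disc and evaluates to the infinite product.

Proof. Absolute convergence: `|coeff m (P k)| ≤ coeff m (∏_{n ≤ m} (1 + X^(k(n+1))))`, a series with
nonnegative coefficients, and `∑_m coeff m (∏_{n<M} (1 + X^(k(n+1)))) r^m = ∏_{n<M} (1 + r^(k(n+1))) ≤
exp (∑ r^(k(n+1))) ≤ exp (r/(1-r))` for every `M` and `0 ≤ r < 1`.  Value: for `‖q‖ < 1` the finite
products `Q_M(q) = ∏_{n<M} (1 - q^(k(n+1)))` have the expansions `∑_m coeff m Q_M q^m`, with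
`coeff m Q_M = coeff m (P k)` for `m < M`, and the same majorant, so `Q_M(q) → ev (P k) q`
(dominated convergence for series, `tendsto_tsum_of_dominated_convergence`); also
`Q_M(q) → ∏' n, (1 - q^(k(n+1)))` (`ModularForm.multipliable_one_sub_pow` applied to `q^k`).
-/
set_option linter.all false

namespace Pool.Agent.MTate
open PowerSeries

/-- The finite product. -/
noncomputable def QM (k M : ℕ) : PowerSeries ℤ :=
  ∏ n ∈ Finset.range M, (1 - X ^ (k * (n + 1)) : PowerSeries ℤ)

/-- The majorant. -/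
noncomputable def AM (k M : ℕ) : PowerSeries ℤ :=
  ∏ n ∈ Finset.range M, (1 + X ^ (k * (n + 1)) : PowerSeries ℤ)

theorem QM_succ (k M : ℕ) : QM k (M + 1) = QM k M * (1 - X ^ (k * (M + 1))) := by
  unfold QM
  rw [Finset.prod_range_succ]

theorem AM_succ (k M : ℕ) : AM k (M + 1) = AM k M * (1 + X ^ (k * (M + 1))) := by
  unfold AM
  rw [Finset.prod_range_succ]

theorem coeff_one_add (A : PowerSeries ℤ) (m j : ℕ) :
    coeff m (A * (1 + X ^ j)) = coeff m A + if j ≤ m then coeff (m - j) A else 0 := by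
  rw [mul_add, mul_one, map_add, coeff_mul_X_pow']

theorem coeff_one_sub (A : PowerSeries ℤ) (m j : ℕ) :
    coeff m (A * (1 - X ^ j)) = coeff m A - if j ≤ m then coeff (m - j) A else 0 := by
  rw [mul_sub, mul_one, map_sub, coeff_mul_X_pow']

theorem AM_nonneg (k M : ℕ) : ∀ m, 0 ≤ coeff m (AM k M) := by
  induction M with
  | zero =>
    intro m
    unfold AM
    rw [Finset.prod_range_zero, coeff_one]
    split_ifs <;> norm_num
  | succ M ih =>
    intro m
    rw [AM_succ, coeff_one_add]
    have h1 := ih m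
    split_ifs
    · exact add_nonneg h1 (ih _)
    · exact add_nonneg h1 le_rfl

theorem abs_QM_le (k M : ℕ) : ∀ m, |coeff m (QM k M)| ≤ coeff m (AM k M) := by
  induction M with
  | zero =>
    intro m
    unfold AM QM
    rw [Finset.prod_range_zero, Finset.prod_range_zero, coeff_one]
    split_ifs <;> norm_num
  | succ M ih =>
    intro m
    rw [AM_succ, QM_succ, coeff_one_add, coeff_one_sub]
    have h1 := ih m
    split_ifs
    · exact (abs_sub _ _).trans (add_le_add h1 (ih _))
    · rw [sub_zero, add_zero]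
      exact h1

theorem AM_mono (k : ℕ) (m : ℕ) : Monotone fun M => coeff m (AM k M) := by
  refine monotone_nat_of_le_succ fun M => ?_
  rw [AM_succ, coeff_one_add]
  have h1 := AM_nonneg k M (m - k * (M + 1))
  split_ifs
  · linarith
  · linarith

theorem AM_stable {k : ℕ} (hk : 0 < k) {m M : ℕ} (h : m ≤ M) :
    coeff m (AM k M) = coeff m (AM k m) := by
  induction M, h using Nat.le_induction with
  | base => rfl
  | succ M hM ih =>
    rw [AM_succ, coeff_one_add, ih, if_neg, add_zero]
    have : M + 1 ≤ k * (M + 1) := Nat.le_mul_of_pos_left _ hk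
    omega

theorem AM_le {k : ℕ} (hk : 0 < k) (m M : ℕ) : coeff m (AM k M) ≤ coeff m (AM k m) := by
  rcases le_total m M with h | h
  · exact (AM_stable hk h).le
  · exact AM_mono k m h

theorem QM_stable {k : ℕ} (hk : 0 < k) {m M : ℕ} (h : m < M) :
    coeff m (QM k M) = coeff m (P k) := by
  obtain ⟨M', rfl⟩ : ∃ M', M = M' + 1 := ⟨M - 1, by omega⟩
  rw [coeff_P hk (show m ≤ M' by omega)]
  rfl

theorem sum_AM_le (k M : ℕ) {r : ℝ} (hr : 0 ≤ r) (N : ℕ) :
    ∑ m ∈ Finset.range N, ((coeff m (AM k M) : ℤ) : ℝ) * r ^ m ≤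
      ∏ n ∈ Finset.range M, (1 + r ^ (k * (n + 1))) := by
  induction M with
  | zero =>
    unfold AM
    rw [Finset.prod_range_zero, Finset.prod_range_zero]
    cases N with
    | zero => simp
    | succ N =>
      rw [Finset.sum_range_succ', Finset.sum_eq_zero]
      · simp
      · intro m _
        rw [coeff_one, if_neg (Nat.succ_ne_zero m)]
        simp
  | succ M ih =>
    rw [AM_succ, Finset.prod_range_succ]
    set j := k * (M + 1) with hj
    have h0 : ∀ m, 0 ≤ ((coeff m (AM k M) : ℤ) : ℝ) * r ^ m := fun m =>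
      mul_nonneg (by exact_mod_cast AM_nonneg k M m) (pow_nonneg hr m)
    have h1 : ∑ m ∈ Finset.range N, ((coeff m (AM k M * (1 + X ^ j)) : ℤ) : ℝ) * r ^ m =
        ∑ m ∈ Finset.range N, ((coeff m (AM k M) : ℤ) : ℝ) * r ^ m +
        ∑ m ∈ Finset.range N, (if j ≤ m then r ^ j *
          (((coeff (m - j) (AM k M) : ℤ) : ℝ) * r ^ (m - j)) else 0) := by
      rw [← Finset.sum_add_distrib]
      refine Finset.sum_congr rfl fun m _ => ?_
      rw [coeff_one_add]
      split_ifs with h
      · have : r ^ m = r ^ j * r ^ (m - j) := by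
          rw [← pow_add]
          congr 1
          omega
        push_cast
        rw [this]
        ring
      · simp
    have h2 : ∑ m ∈ Finset.range N, (if j ≤ m then r ^ j *
          (((coeff (m - j) (AM k M) : ℤ) : ℝ) * r ^ (m - j)) else 0) ≤
        r ^ j * ∑ m ∈ Finset.range N, ((coeff m (AM k M) : ℤ) : ℝ) * r ^ m := by
      rw [← Finset.sum_filter, Finset.mul_sum]
      have h3 : ∑ m ∈ (Finset.range N).filter (fun m => j ≤ m), r ^ j *
          (((coeff (m - j) (AM k M) : ℤ) : ℝ) * r ^ (m - j)) =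
          ∑ m ∈ Finset.range (N - j), r ^ j * (((coeff m (AM k M) : ℤ) : ℝ) * r ^ m) := by
        refine Finset.sum_bij (fun m _ => m - j) ?_ ?_ ?_ ?_
        · intro m hm
          rw [Finset.mem_filter, Finset.mem_range] at hm
          rw [Finset.mem_range]
          omega
        · intro m hm m' hm' h
          rw [Finset.mem_filter, Finset.mem_range] at hm hm'
          omega
        · intro m hm
          rw [Finset.mem_range] at hm
          exact ⟨m + j, by rw [Finset.mem_filter, Finset.mem_range]; omega, by omega⟩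
        · intro m _
          rfl
      rw [h3]
      refine Finset.sum_le_sum_of_subset_of_nonneg ?_ fun m _ _ =>
        mul_nonneg (pow_nonneg hr j) (h0 m)
      intro m hm
      rw [Finset.mem_range] at hm ⊢
      omega
    rw [h1]
    have hrj : 0 ≤ 1 + r ^ j := by positivity
    calc _ ≤ ∑ m ∈ Finset.range N, ((coeff m (AM k M) : ℤ) : ℝ) * r ^ m +
        r ^ j * ∑ m ∈ Finset.range N, ((coeff m (AM k M) : ℤ) : ℝ) * r ^ m := by linarith
      _ = (∑ m ∈ Finset.range N, ((coeff m (AM k M) : ℤ) : ℝ) * r ^ m) * (1 + r ^ j) := by ring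
      _ ≤ _ := mul_le_mul_of_nonneg_right ih hrj

theorem prod_le {k : ℕ} (hk : 0 < k) {r : ℝ} (hr : 0 ≤ r) (hr1 : r < 1) (M : ℕ) :
    ∏ n ∈ Finset.range M, (1 + r ^ (k * (n + 1))) ≤ Real.exp (1 / (1 - r)) := by
  have h1 : ∏ n ∈ Finset.range M, (1 + r ^ (k * (n + 1))) ≤
      ∏ n ∈ Finset.range M, Real.exp (r ^ n) := by
    refine Finset.prod_le_prod (fun n _ => by positivity) fun n _ => ?_
    have h2 : r ^ (k * (n + 1)) ≤ r ^ n := by
      refine pow_le_pow_of_le_one hr hr1.le ?_
      have : n + 1 ≤ k * (n + 1) := Nat.le_mul_of_pos_left _ hk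
      omega
    have h3 := Real.add_one_le_exp (r ^ n)
    linarith
  rw [← Real.exp_sum] at h1
  refine h1.trans (Real.exp_le_exp.2 ?_)
  have h2 := (summable_geometric_of_lt_one hr hr1).sum_le_tsum (Finset.range M)
    (fun n _ => pow_nonneg hr n)
  rw [tsum_geometric_of_lt_one hr hr1] at h2
  rw [one_div]
  exact h2

theorem summable_AM {k : ℕ} (hk : 0 < k) {r : ℝ} (hr : 0 ≤ r) (hr1 : r < 1) :
    Summable fun m : ℕ => ((coeff m (AM k m) : ℤ) : ℝ) * r ^ m := by
  refine summable_of_sum_range_le (c := Real.exp (1 / (1 - r))) (fun m => ?_) fun N => ?_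
  · exact mul_nonneg (by exact_mod_cast AM_nonneg k m m) (pow_nonneg hr m)
  · have h1 : ∑ m ∈ Finset.range N, ((coeff m (AM k m) : ℤ) : ℝ) * r ^ m =
        ∑ m ∈ Finset.range N, ((coeff m (AM k N) : ℤ) : ℝ) * r ^ m := by
      refine Finset.sum_congr rfl fun m hm => ?_
      rw [Finset.mem_range] at hm
      rw [AM_stable hk hm.le]
    rw [h1]
    exact (sum_AM_le k N hr N).trans (prod_le hk hr hr1 N)

theorem norm_term_le {k : ℕ} (hk : 0 < k) (q : ℂ) (m M : ℕ) :
    ‖((coeff m (QM k M) : ℤ) : ℂ) * q ^ m‖ ≤ ((coeff m (AM k m) : ℤ) : ℝ) * ‖q‖ ^ m := by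
  rw [norm_mul, norm_pow]
  refine mul_le_mul_of_nonneg_right ?_ (pow_nonneg (norm_nonneg q) m)
  rw [Complex.norm_intCast]
  have h := (abs_QM_le k M m).trans (AM_le hk m M)
  exact_mod_cast h

theorem conv_P {k : ℕ} (hk : 0 < k) : Conv (P k) := by
  intro q hq
  refine Summable.of_nonneg_of_le (fun m => norm_nonneg _) (fun m => ?_)
    (summable_AM hk (norm_nonneg q) hq)
  rw [← QM_stable hk (Nat.lt_succ_self m)]
  exact norm_term_le hk q m (m + 1)

theorem conv_one_sub (j : ℕ) : Conv (1 - X ^ j : PowerSeries ℤ) := by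
  have h1 : Conv (1 : PowerSeries ℤ) := by
    have := conv_ofNat 1
    rwa [Nat.cast_one] at this
  exact conv_sub h1 (conv_pow conv_X j)

theorem ev_one_sub (j : ℕ) {q : ℂ} (hq : ‖q‖ < 1) :
    ev (1 - X ^ j : PowerSeries ℤ) q = 1 - q ^ j := by
  have h1 : Conv (1 : PowerSeries ℤ) := by
    have := conv_ofNat 1
    rwa [Nat.cast_one] at this
  have h2 : ev (1 : PowerSeries ℤ) q = 1 := by
    have := ev_natCast 1 q
    rwa [Nat.cast_one, Nat.cast_one] at this
  rw [ev_sub h1 (conv_pow conv_X j) hq, ev_pow conv_X j hq, ev_X, h2]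

theorem conv_QM (k M : ℕ) : Conv (QM k M) := by
  induction M with
  | zero =>
    have := conv_ofNat 1
    rw [Nat.cast_one] at this
    unfold QM
    rwa [Finset.prod_range_zero]
  | succ M ih =>
    rw [QM_succ]
    exact conv_mul ih (conv_one_sub _)

theorem ev_QM (k M : ℕ) {q : ℂ} (hq : ‖q‖ < 1) :
    ev (QM k M) q = ∏ n ∈ Finset.range M, (1 - q ^ (k * (n + 1))) := by
  induction M with
  | zero =>
    have := ev_natCast 1 q
    rw [Nat.cast_one, Nat.cast_one] at this
    unfold QM
    rw [Finset.prod_range_zero, Finset.prod_range_zero, this]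
  | succ M ih =>
    rw [QM_succ, ev_mul (conv_QM k M) (conv_one_sub _) hq, ih, ev_one_sub _ hq,
      Finset.prod_range_succ]

theorem ev_P {k : ℕ} (hk : 0 < k) {q : ℂ} (hq : ‖q‖ < 1) :
    ev (P k) q = ∏' n : ℕ, (1 - q ^ (k * (n + 1))) := by
  have h1 : Filter.Tendsto (fun M => ev (QM k M) q) Filter.atTop (nhds (ev (P k) q)) := by
    unfold ev
    refine tendsto_tsum_of_dominated_convergence (summable_AM hk (norm_nonneg q) hq)
      (fun m => ?_) (Filter.Eventually.of_forall fun M m => norm_term_le hk q m M)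
    refine tendsto_const_nhds.congr' ?_
    filter_upwards [Filter.eventually_gt_atTop m] with M hM
    rw [QM_stable hk hM]
  have hqk : ‖q ^ k‖ < 1 := by
    rw [norm_pow]
    exact pow_lt_one₀ (norm_nonneg q) hq hk.ne'
  have h2 : Multipliable fun n : ℕ => (1 - q ^ (k * (n + 1))) := by
    refine (ModularForm.multipliable_one_sub_pow hqk).congr fun n => ?_
    rw [pow_mul]
  have h3 := h2.hasProd.tendsto_prod_nat
  refine tendsto_nhds_unique h1 (h3.congr fun M => ?_)
  rw [ev_QM k M hq]

end Pool.Agent.MTate
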