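import Pool.Agent.MTate.Defs
/-!
# MODULE GroupRing (algebra)
If `l : G_5 → ℚ` has values `l(1) = l(4) = 1`, `l(2) = l(3) = -1`, then `θ = [1] - [2] ∉ I^2`.
-/
namespace Pool.Agent.MTate

/-- the quadratic character of `(ℤ/5)ˣ` with integer values. -/
noncomputable def eps5 : (ZMod 5)ˣ →* ℤ where
  toFun u := if (u : ZMod 5).val = 1 ∨ (u : ZMod 5).val = 4 then 1 else -1
  map_one' := by decide
  map_mul' := by decide

/-- the same character on `G_5`. -/
noncomputable def chi5 : GM 5 →* ℤ :=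
  QuotientGroup.lift (Subgroup.zpowers (-1 : (ZMod 5)ˣ)) eps5 (by
    intro x hx
    rw [Subgroup.mem_zpowers_iff] at hx
    obtain ⟨k, rfl⟩ := hx
    have h1 : eps5 (-1) = 1 := by
      change (if ((-1 : (ZMod 5)ˣ) : ZMod 5).val = 1 ∨ ((-1 : (ZMod 5)ˣ) : ZMod 5).val = 4
        then (1 : ℤ) else -1) = 1
      decide
    have h2 : (-1 : (ZMod 5)ˣ) ^ k = 1 ∨ (-1 : (ZMod 5)ˣ) ^ k = -1 := by
      rcases Int.even_or_odd k with h | h
      · left; exact h.neg_one_zpow
      · right; exact h.neg_one_zpow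
    rcases h2 with h2 | h2
    · rw [h2]; exact map_one _
    · rw [h2]; exact h1)

theorem chi5_mk (u : (ZMod 5)ˣ) :
    chi5 (QuotientGroup.mk u) = if (u : ZMod 5).val = 1 ∨ (u : ZMod 5).val = 4 then 1 else -1 := rfl

theorem chi5_sq (g : GM 5) : chi5 g * chi5 g = 1 := by
  induction g using QuotientGroup.induction_on with
  | H u => rw [chi5_mk]; split_ifs <;> norm_num

theorem chi5_even (g : GM 5) : (2 : ℤ) ∣ chi5 g - 1 := by
  induction g using QuotientGroup.induction_on with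
  | H u => rw [chi5_mk]; split_ifs <;> norm_num

theorem card_GM5 : Nat.card (GM 5) = 2 := by
  have h := Subgroup.card_eq_card_quotient_mul_card_subgroup (Subgroup.zpowers (-1 : (ZMod 5)ˣ))
  have h1 : Nat.card (ZMod 5)ˣ = 4 := by
    rw [Nat.card_eq_fintype_card]; decide
  have h2 : Nat.card (Subgroup.zpowers (-1 : (ZMod 5)ˣ)) = 2 := by
    rw [Nat.card_zpowers]
    refine orderOf_eq_prime (by norm_num) (by decide)
  rw [h1, h2] at h
  have h' : 4 = Nat.card (GM 5) * 2 := h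
  omega

theorem not_mem_aux (l : GM 5 → ℚ) (h : ∀ g, l g = (chi5 g : ℚ)) {k : ℕ} (hk : 2 ≤ k) :
    theta l ∉ augI (RR l) (GM 5) ^ k := by
  intro hmem
  set R := RR l
  -- elements of `R` are integers
  have hR : ∀ r ∈ R, ∃ m : ℤ, r = (m : ℚ) := by
    intro r hr
    have : R ≤ (Int.castRingHom ℚ).range := by
      rw [Subring.closure_le]
      rintro _ ⟨g, rfl⟩
      exact ⟨chi5 g, by rw [h g]; simp⟩
    obtain ⟨m, hm⟩ := this hr
    exact ⟨m, by rw [← hm]; simp⟩
  let cR : GM 5 →* R := ((Int.castRingHom R : ℤ →+* R) : ℤ →* R).comp chi5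
  let φ : MonoidAlgebra R (GM 5) →ₐ[R] R := MonoidAlgebra.lift R R (GM 5) cR
  let ag : MonoidAlgebra R (GM 5) →ₐ[R] R := MonoidAlgebra.lift R R (GM 5) (1 : GM 5 →* R)
  have hcong : ∀ x, φ x - ag x ∈ Ideal.span {(2 : R)} := by
    intro x
    induction x using MonoidAlgebra.induction_on with
    | of g =>
      have h1 : φ (MonoidAlgebra.of R (GM 5) g) = ((chi5 g : ℤ) : R) := by
        simp [φ, cR]
      have h2 : ag (MonoidAlgebra.of R (GM 5) g) = 1 := by
        simp [ag]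
      rw [h1, h2, Ideal.mem_span_singleton]
      obtain ⟨m, hm⟩ := chi5_even g
      exact ⟨(m : R), by
        have := congrArg (Int.cast : ℤ → R) hm
        push_cast at this
        exact this⟩
    | add x y hx hy =>
      rw [map_add, map_add, add_sub_add_comm]
      exact Ideal.add_mem _ hx hy
    | smul r x hx =>
      rw [map_smul, map_smul, ← smul_sub]
      exact Ideal.mul_mem_left _ _ hx
  have hI : augI R (GM 5) ≤ Ideal.comap φ.toRingHom (Ideal.span {(2 : R)}) := by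
    intro x hx
    have hx0 : ag x = 0 := hx
    have := hcong x
    rw [hx0, sub_zero] at this
    exact this
  have h4 : φ (theta l) ∈ Ideal.span {(2 : R)} ^ 2 := by
    have h1 : theta l ∈ augI R (GM 5) ^ 2 := Ideal.pow_le_pow_right hk hmem
    have h2 : augI R (GM 5) ^ 2 ≤ Ideal.comap φ.toRingHom (Ideal.span {(2 : R)}) ^ 2 :=
      Ideal.pow_right_mono hI 2
    have h3 := Ideal.le_comap_pow φ.toRingHom (K := Ideal.span {(2 : R)}) 2
    exact h3 (h2 h1)
  rw [Ideal.span_singleton_pow, Ideal.mem_span_singleton] at h4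
  obtain ⟨r, hr⟩ := h4
  -- value of `φ θ`
  have : Finite (GM 5) := inferInstance
  have := Fintype.ofFinite (GM 5)
  have hval : φ (theta l) = 2 := by
    have : theta l = ∑ g : GM 5, MonoidAlgebra.single g
        (⟨l g, Subring.subset_closure ⟨g, rfl⟩⟩ : RR l) := by
      unfold theta
      rw [finsum_eq_sum_of_fintype]
    rw [this, map_sum]
    have h1 : ∀ g ∈ (Finset.univ : Finset (GM 5)), φ (MonoidAlgebra.single g
        (⟨l g, Subring.subset_closure ⟨g, rfl⟩⟩ : RR l)) = 1 := by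
      intro g _
      simp only [φ, MonoidAlgebra.lift_single]
      apply Subtype.ext
      have : ((cR g : R) : ℚ) = (chi5 g : ℚ) := by simp [cR]
      change l g * ((cR g : R) : ℚ) = 1
      rw [this, h g]
      exact_mod_cast chi5_sq g
    rw [Finset.sum_congr rfl h1]
    rw [Finset.sum_const, Finset.card_univ, ← Nat.card_eq_fintype_card, card_GM5]
    norm_num
  rw [hval] at hr
  obtain ⟨m, hm⟩ := hR r r.2
  have h5 : (2 : ℚ) = 2 ^ 2 * (m : ℚ) := by
    have := congrArg (Subtype.val : R → ℚ) hr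
    push_cast at this
    rw [hm] at this
    exact_mod_cast this
  have h6 : (2 : ℤ) = 4 * m := by
    have : (2 : ℚ) = ((4 * m : ℤ) : ℚ) := by rw [h5]; push_cast; ring
    exact_mod_cast this
  omega

theorem not_mem_gen (M : ℕ) (hM : M = 5) (l : GM M → ℚ)
    (h : ∀ u : (ZMod M)ˣ,
      l (QuotientGroup.mk u) = if (u : ZMod M).val = 1 ∨ (u : ZMod M).val = 4 then 1 else -1)
    {k : ℕ} (hk : 2 ≤ k) : theta l ∉ augI (RR l) (GM M) ^ k := by
  subst hM
  apply not_mem_aux l _ hk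
  intro g
  induction g using QuotientGroup.induction_on with
  | H u => rw [h u, chi5_mk]; split_ifs <;> norm_num

theorem exists_gen (M : ℕ) (hM : M = 5) : ∃ l : GM M → ℚ, ∀ u : (ZMod M)ˣ,
      l (QuotientGroup.mk u) = if (u : ZMod M).val = 1 ∨ (u : ZMod M).val = 4 then 1 else -1 := by
  subst hM
  refine ⟨fun g => (chi5 g : ℚ), fun u => ?_⟩
  change ((chi5 (QuotientGroup.mk u) : ℤ) : ℚ) = _
  rw [chi5_mk]; split_ifs <;> norm_num

theorem not_mem (l : GM (∏ p ∈ ({5} : Finset ℕ), p ^ (fun _ => 1 : ℕ → ℕ) p) → ℚ)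
    (h : ∀ u : (ZMod (∏ p ∈ ({5} : Finset ℕ), p ^ (fun _ => 1 : ℕ → ℕ) p))ˣ,
      l (QuotientGroup.mk u) =
        if (u : ZMod (∏ p ∈ ({5} : Finset ℕ), p ^ (fun _ => 1 : ℕ → ℕ) p)).val = 1 ∨
           (u : ZMod (∏ p ∈ ({5} : Finset ℕ), p ^ (fun _ => 1 : ℕ → ℕ) p)).val = 4 then 1 else -1)
    {k : ℕ} (hk : 2 ≤ k) :
    theta l ∉ augI (RR l) (GM (∏ p ∈ ({5} : Finset ℕ), p ^ (fun _ => 1 : ℕ → ℕ) p)) ^ k :=
  not_mem_gen _ (by simp) l h hk

/-- such an `l` exists. -/
theorem exists_l : ∃ l : GM (∏ p ∈ ({5} : Finset ℕ), p ^ (fun _ => 1 : ℕ → ℕ) p) → ℚ,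
    ∀ u : (ZMod (∏ p ∈ ({5} : Finset ℕ), p ^ (fun _ => 1 : ℕ → ℕ) p))ˣ,
      l (QuotientGroup.mk u) =
        if (u : ZMod (∏ p ∈ ({5} : Finset ℕ), p ^ (fun _ => 1 : ℕ → ℕ) p)).val = 1 ∨
           (u : ZMod (∏ p ∈ ({5} : Finset ℕ), p ^ (fun _ => 1 : ℕ → ℕ) p)).val = 4 then 1 else -1 :=
  exists_gen _ (by simp)

end Pool.Agent.MTate
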