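import Pool.Agent.MTate.Defs
/-!
# MODULE MinSplit (Weierstrass equations)
`E` is global minimal and has split multiplicative reduction at 5.

Proof. `Δ = 5120 = 2^10 · 5`.  If `C • E_ℚ = W'_ℚ` with `C = (u, r, s, t)` then `Δ' = u^{-12} Δ`
(`WeierstrassCurve.variableChange_Δ`), `u = m/n` in lowest terms: `m^12 Δ' = n^12 · 5120`, so
`m^12 ∣ 5120` and `|m| = 1` (`2^12 = 4096` does not divide `5120`), `|Δ'| = n^12 · 5120 ≥ 5120`.
Reduction mod 5: `y^2 = x^3 + 3x^2 + x = x (x - 1)^2`, singular point `(1, 0)`, tangent cone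
`Y^2 - (3 + a₂) X^2 = Y^2 - X^2 = (Y - X)(Y + X)`: `s = 1`, `t = -1`, `s + t = 0 = -a₁`,
`s t = -1 = -(3·1 - 2)`.
-/
namespace Pool.Agent.MTate

theorem E_Delta : E.Δ = 5120 := by
  simp only [E, WeierstrassCurve.Δ, WeierstrassCurve.b₂, WeierstrassCurve.b₄, WeierstrassCurve.b₆,
    WeierstrassCurve.b₈]
  norm_num

theorem overQ_Delta (W : WeierstrassCurve ℤ) : (overQ W).Δ = (W.Δ : ℚ) := by
  simp [overQ, WeierstrassCurve.map_Δ]

theorem E_minimal : IsGlobalMinimal E := by
  refine ⟨by rw [E_Delta]; norm_num, ?_⟩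
  intro W' C hC
  have h1 : (W'.Δ : ℚ) = ((C.u⁻¹ : ℚˣ) : ℚ) ^ 12 * 5120 := by
    rw [← overQ_Delta W', ← hC, WeierstrassCurve.variableChange_Δ, overQ_Delta, E_Delta]
    norm_num
  set v : ℚ := ((C.u⁻¹ : ℚˣ) : ℚ) with hv
  have hv0 : v ≠ 0 := Units.ne_zero _
  -- the denominator of v is 1
  have h2 : (W'.Δ : ℤ) * (v.den : ℤ) ^ 12 = v.num ^ 12 * 5120 := by
    have h3 : (v.den : ℚ) ≠ 0 := by exact_mod_cast v.den_ne_zero
    have h4 : v = (v.num : ℚ) / (v.den : ℚ) := (Rat.num_div_den v).symm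
    have h5 : (W'.Δ : ℚ) * (v.den : ℚ) ^ 12 = (v.num : ℚ) ^ 12 * 5120 := by
      rw [h1]
      nth_rewrite 1 [h4]
      field_simp
    exact_mod_cast h5
  have hcop : IsCoprime ((v.den : ℤ) ^ 12) (v.num ^ 12) := by
    apply IsCoprime.pow
    have := v.reduced
    rw [Int.isCoprime_iff_nat_coprime]
    simpa [Int.natAbs_natCast] using this.symm
  have hdvd : ((v.den : ℤ) ^ 12) ∣ 5120 := by
    apply hcop.dvd_of_dvd_mul_left
    rw [← h2]
    exact Dvd.intro_left _ rfl
  have hden : v.den = 1 := by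
    have hd : v.den ^ 12 ∣ 5120 := by exact_mod_cast hdvd
    have hle : v.den ^ 12 ≤ 5120 := Nat.le_of_dvd (by norm_num) hd
    have hlt : v.den < 3 := by
      by_contra h
      push Not at h
      have : 3 ^ 12 ≤ v.den ^ 12 := Nat.pow_le_pow_left h 12
      norm_num at this
      omega
    have hpos := v.den_pos
    interval_cases hvd : v.den
    · rfl
    · exfalso
      revert hd
      norm_num
  rw [hden] at h2
  simp only [Nat.cast_one, one_pow, mul_one] at h2
  rw [E_Delta, h2, abs_mul]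
  have hnum : v.num ≠ 0 := by
    intro h
    exact hv0 (Rat.num_eq_zero.1 h)
  have h6 : 1 ≤ |v.num ^ 12| := Int.one_le_abs (pow_ne_zero _ hnum)
  have h7 : |(5120 : ℤ)| = 5120 := by norm_num
  rw [h7]
  nlinarith

theorem E_split : HasSplitMult E 5 := by
  refine ⟨1, 0, 1, -1, ?_, ?_, ?_, ?_, ?_⟩
  · rw [WeierstrassCurve.Affine.equation_iff]
    simp only [red, E, WeierstrassCurve.map]
    decide
  · rw [WeierstrassCurve.Affine.nonsingular_iff]
    rintro ⟨-, h⟩
    simp only [red, E, WeierstrassCurve.map] at h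
    revert h
    decide
  · decide
  · simp only [red, E, WeierstrassCurve.map]
    decide
  · simp only [red, E, WeierstrassCurve.map]
    decide

end Pool.Agent.MTate
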