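import Pool.Agent.MTate.Defs
/-!
# MODULE Rank1 (elliptic curves, Mathlib group law)
`E : y^2 = x^3 - 2x^2 - 4x` has positive rank over `ℚ`.

Proof. `P = (-1, 1)`.  For a point `(x, y)` with `y ≠ 0` the tangent slope is `λ = (3x^2 - 4x - 4)/(2y)` and
`x(2(x,y)) = λ^2 + 2 - 2x = (x^2 + 4)^2/(4 y^2) = (x^2+4)^2/(4 (x^3 - 2x^2 - 4x))`.  `x(2P) = 25/4`.
If `v_2(x) = -2k < 0` then `v_2((x^2+4)^2) = -8k`, `v_2(4(x^3 - 2x^2 - 4x)) = 2 - 6k` (in particular `y ≠ 0`), so
`v_2(x(2Q)) = -2k - 2`.  Hence `2^n P` (`n ≥ 1`) has `v_2(x) = -2n`: these points are pairwise different, so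
`P` has infinite order.  An element of infinite order `P` of a `ℤ`-module gives a linearly independent
family with one element, so `1 ≤ Module.rank ℤ`.
-/
namespace Pool.Agent.MTate

theorem eqn_E {x y : ℚ} (h : (overQ E).toAffine.Equation x y) :
    y ^ 2 = x ^ 3 - 2 * x ^ 2 - 4 * x := by
  rw [WeierstrassCurve.Affine.equation_iff] at h
  simp [overQ, E] at h
  linarith

theorem dbl_E {x y : ℚ} (h : (overQ E).toAffine.Nonsingular x y) (hy : y ≠ 0) :
    ∃ (x' y' : ℚ) (h' : (overQ E).toAffine.Nonsingular x' y'),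
      (2 : ℕ) • (WeierstrassCurve.Affine.Point.some x y h) = .some x' y' h' ∧
      x' * (4 * y ^ 2) = (x ^ 2 + 4) ^ 2 := by
  have he := eqn_E h.1
  have hn : (overQ E).toAffine.negY x y = - y := by
    simp [WeierstrassCurve.Affine.negY, overQ, E]
  have hy' : y ≠ (overQ E).toAffine.negY x y := by
    rw [hn]
    intro h2
    apply hy
    linarith
  refine ⟨_, _, _, (two_nsmul _).trans
    (WeierstrassCurve.Affine.Point.add_self_of_Y_ne (h₁ := h) hy'), ?_⟩
  rw [WeierstrassCurve.Affine.slope_of_Y_ne rfl hy', hn]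
  simp only [WeierstrassCurve.Affine.addX]
  simp [overQ, E]
  field_simp
  linear_combination (32 - 32 * x) * he

theorem norm_step {x y : ℚ} {k : ℕ} (hk : 1 ≤ k) (hx : padicNorm 2 x = 4 ^ k)
    (he : y ^ 2 = x ^ 3 - 2 * x ^ 2 - 4 * x) :
    y ≠ 0 ∧ ∀ x' : ℚ, x' * (4 * y ^ 2) = (x ^ 2 + 4) ^ 2 → padicNorm 2 x' = 4 ^ (k + 1) := by
  have h4 : (4 : ℚ) ≤ 4 ^ k := by
    calc (4 : ℚ) = 4 ^ 1 := by norm_num
      _ ≤ 4 ^ k := pow_le_pow_right₀ (by norm_num) hk
  have n2 : padicNorm 2 (2 : ℚ) = 1 / 2 := by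
    have := @padicNorm.padicNorm_p_of_prime 2 _
    simpa using this
  have n4 : padicNorm 2 (4 : ℚ) = 1 / 4 := by
    rw [show (4 : ℚ) = 2 * 2 by norm_num, padicNorm.mul, n2]
    norm_num
  have npow : ∀ n : ℕ, padicNorm 2 (x ^ n) = (4 ^ k) ^ n := by
    intro n
    induction n with
    | zero => simp
    | succ n ih => rw [pow_succ, padicNorm.mul, ih, hx, pow_succ]
  set A : ℚ := 4 ^ k with hA
  have e1 : padicNorm 2 (x ^ 2 + 4) = A ^ 2 := by
    rw [padicNorm.add_eq_max_of_ne, npow, n4, max_eq_left]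
    · nlinarith
    · rw [npow, n4]
      nlinarith
  have e2 : padicNorm 2 (y ^ 2) = A ^ 3 := by
    have a1 : padicNorm 2 (-2 * x ^ 2) = A ^ 2 / 2 := by
      rw [padicNorm.mul, npow, padicNorm.neg, n2]
      ring
    have a2 : padicNorm 2 (-4 * x) = A / 4 := by
      rw [padicNorm.mul, hx, padicNorm.neg, n4]
      ring
    have a3 : padicNorm 2 (x ^ 3 + -2 * x ^ 2) = A ^ 3 := by
      have : A ^ 2 / 2 < A ^ 3 := by nlinarith [sq_nonneg A]
      rw [padicNorm.add_eq_max_of_ne, npow, a1, max_eq_left this.le]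
      rw [npow, a1]
      exact this.ne'
    have : A / 4 < A ^ 3 := by nlinarith [sq_nonneg A, sq_nonneg (A - 4)]
    rw [he, show x ^ 3 - 2 * x ^ 2 - 4 * x = (x ^ 3 + -2 * x ^ 2) + -4 * x by ring,
      padicNorm.add_eq_max_of_ne, a3, a2, max_eq_left this.le]
    rw [a3, a2]
    exact this.ne'
  have hA0 : 0 < A := by linarith
  refine ⟨?_, ?_⟩
  · rintro rfl
    have : (0 : ℚ) < A ^ 3 := by positivity
    simp at e2
    linarith
  · intro x' hx'
    have := congrArg (padicNorm 2) hx'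
    rw [padicNorm.mul, padicNorm.mul, n4, e2, pow_two (x ^ 2 + 4), padicNorm.mul, e1] at this
    have h3 : (0 : ℚ) < A ^ 3 := by positivity
    have : padicNorm 2 x' * A ^ 3 = (4 * A) * A ^ 3 := by linear_combination 4 * this
    have := mul_right_cancel₀ h3.ne' this
    rw [this, pow_succ, ← hA]
    ring

theorem nonsing_P : (overQ E).toAffine.Nonsingular (-1) 1 := by
  rw [WeierstrassCurve.Affine.nonsingular_iff]
  refine ⟨?_, ?_⟩
  · rw [WeierstrassCurve.Affine.equation_iff]
    simp [overQ, E]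
    norm_num
  · simp [overQ, E]
    norm_num

/-- The point `(-1, 1)`. -/
noncomputable def PE : (overQ E).toAffine.Point := .some (-1) 1 nonsing_P

theorem pow_PE (n : ℕ) : ∃ (x y : ℚ) (h : (overQ E).toAffine.Nonsingular x y),
    (2 ^ (n + 1) : ℕ) • PE = .some x y h ∧ padicNorm 2 x = 4 ^ (n + 1) := by
  induction n with
  | zero =>
    obtain ⟨x', y', h', h1, h2⟩ := dbl_E nonsing_P one_ne_zero
    refine ⟨x', y', h', by simpa [PE] using h1, ?_⟩
    have hx : x' = 25 / 4 := by linarith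
    rw [hx, padicNorm.div]
    have n2 : padicNorm 2 (2 : ℚ) = 1 / 2 := by
      have := @padicNorm.padicNorm_p_of_prime 2 _
      simpa using this
    have n4 : padicNorm 2 (4 : ℚ) = 1 / 4 := by
      rw [show (4 : ℚ) = 2 * 2 by norm_num, padicNorm.mul, n2]
      norm_num
    have n25 : padicNorm 2 (25 : ℚ) = 1 := by
      have := (padicNorm.nat_eq_one_iff (p := 2) 25).2 (by norm_num)
      simpa using this
    rw [n4, n25]
    norm_num
  | succ n ih =>
    obtain ⟨x, y, h, h1, h2⟩ := ih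
    obtain ⟨hy, h3⟩ := norm_step (Nat.le_add_left 1 n) h2 (eqn_E h.1)
    obtain ⟨x', y', h', h4, h5⟩ := dbl_E h hy
    refine ⟨x', y', h', ?_, h3 x' h5⟩
    rw [pow_succ, mul_comm, mul_smul, h1, h4]

theorem not_fin_PE : ¬ IsOfFinAddOrder PE := by
  intro hf
  have hfin : Finite (AddSubgroup.zmultiples PE) := by
    exact hf.finite_zmultiples
  have hinj : Function.Injective (fun n : ℕ =>
      (⟨(2 ^ (n + 1) : ℕ) • PE, AddSubgroup.nsmul_mem_zmultiples _ _⟩ : AddSubgroup.zmultiples PE)) := by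
    intro m n hmn
    have hmn := congrArg Subtype.val hmn
    simp only at hmn
    obtain ⟨x, y, h, h1, h2⟩ := pow_PE m
    obtain ⟨x', y', h', h1', h2'⟩ := pow_PE n
    rw [h1, h1'] at hmn
    have : x = x' := by
      injection hmn
    rw [this, h2'] at h2
    have := (pow_right_injective₀ (a := (4 : ℚ)) (by norm_num) (by norm_num)) h2
    omega
  exact not_injective_infinite_finite _ hinj

theorem rank_E : (1 : Cardinal) ≤ Module.rank ℤ (overQ E).toAffine.Point := by
  have hli : LinearIndependent ℤ (fun _ : Unit => PE) := by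
    rw [Fintype.linearIndependent_iff]
    intro g hg i
    simp only [Finset.univ_unique, Finset.sum_singleton] at hg
    by_contra hne
    apply not_fin_PE
    rw [isOfFinAddOrder_iff_zsmul_eq_zero]
    exact ⟨g default, hne, hg⟩
  have := hli.cardinal_le_rank
  simpa using this

end Pool.Agent.MTate
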