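import Pool.Agent.MTate.LamVal
import Pool.Agent.MTate.Rank1
import Pool.Agent.MTate.MinSplit
import Pool.Agent.MTate.GroupRing
/-!
# Final assembly (helper25)
-/
namespace Pool.Agent.MTate
open Complex

theorem lam_key (M : ℕ) (hM : M = 5) (u : (ZMod M)ˣ) :
    (((if (u : ZMod M).val = 1 ∨ (u : ZMod M).val = 4 then (1 : ℚ) else -1) : ℚ) : ℂ)
      = lam E (((u : ZMod M).val : ℕ) : ℤ) (M : ℤ) := by
  subst hM
  have h : ∀ u : (ZMod 5)ˣ, (u : ZMod 5).val = 1 ∨ (u : ZMod 5).val = 2 ∨ (u : ZMod 5).val = 3 ∨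
      (u : ZMod 5).val = 4 := by decide
  rcases h u with h | h | h | h <;> rw [h]
  · simp [lam_E_one]
  · simp [lam_E_two]
  · simp [lam_E_three]
  · simp [lam_E_four]

theorem main : ¬ MazurTate := by
  intro H
  obtain ⟨l, hl⟩ := exists_l
  have hlam : IsLam E l := by
    intro u
    rw [hl u]
    exact lam_key _ (by simp) u
  have := H E E_minimal {5} (fun _ => 1) (by
    intro p hp
    obtain rfl : p = 5 := by simpa using hp
    exact ⟨by norm_num, E_split, le_refl _⟩) l hlam 1 (by simpa using rank_E)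
  exact not_mem l hl (by simp) this

end Pool.Agent.MTate
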