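import Pool.Agent.MTate.EtaMul
/-!
# MODULE HeckeT (modular forms, elementary)
The Hecke operator `T_p` preserves `Γ_0(N)`-invariance of weight 2 (`p ∤ N`).

Proof. For an integer matrix `M = (a b; c d)` of determinant `p` put
`(f|M)(z) = p (c z + d)^{-2} f((az+b)/(cz+d))`.  Then `f|(γM) = f|M` for `γ ∈ Γ_0(N)`, `(f|M)|γ = f|(Mγ)`, and
`Tp p f = f|diag(p,1) + ∑_{u mod p} f|(1 u; 0 p)` where `f|(1 u; 0 p)` depends only on `u mod p`.
For `γ = (a b; c d) ∈ Γ_0(N)` right multiplication permutes the `p+1` classes: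
* `(1 u; 0 p) γ = (a+uc, b+ud; pc, pd)`.  If `p ∤ a+uc` let `u' ≡ (a+uc)^{-1}(b+ud) mod p`; then it equals
  `(a+uc, (b+ud-(a+uc)u')/p; pc, d-cu') (1 u'; 0 p)`.  If `p ∣ a+uc` it equals
  `((a+uc)/p, b+ud; c, pd) diag(p,1)`.
* `diag(p,1) γ = (pa, pb; c, d)`.  If `p ∤ c` let `u' ≡ c^{-1} d`; it equals
  `(pa, b-au'; c, (d-cu')/p) (1 u'; 0 p)`.  If `p ∣ c` it equals `(a, pb; c/p, d) diag(p,1)` (`N ∣ c/p`).
All left factors are in `Γ_0(N)`, and `u ↦ u'` (with `∞` for `diag(p,1)`) is the Moebius action of `γ` on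
`P^1(F_p)`, a permutation.
-/
namespace Pool.Agent.MTate
open Complex

theorem sum_range_zmod (p : ℕ) [NeZero p] (g : ℕ → ℂ) :
    ∑ u ∈ Finset.range p, g u = ∑ u : ZMod p, g u.val := by
  refine Finset.sum_nbij' (fun k => (k : ZMod p)) (fun u => u.val) ?_ ?_ ?_ ?_ ?_
  · intro k _; exact Finset.mem_univ _
  · intro u _; exact Finset.mem_range.2 (ZMod.val_lt u)
  · intro k hk
    exact ZMod.val_cast_of_lt (Finset.mem_range.1 hk)
  · intro u _
    exact ZMod.natCast_zmod_val u
  · intro k hk
    show g k = g ((k : ZMod p)).val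
    rw [ZMod.val_cast_of_lt (Finset.mem_range.1 hk)]

/-- The terms of the Hecke operator, indexed by the projective line. -/
noncomputable def hterm (p : ℕ) (f : ℂ → ℂ) (z : ℂ) : Option (ZMod p) → ℂ
  | none => p * f (p * z)
  | some u => (1 / p) * f ((z + u.val) / p)

theorem Tp_eq (p : ℕ) [NeZero p] (f : ℂ → ℂ) (z : ℂ) :
    Tp p f z = ∑ x : Option (ZMod p), hterm p f z x := by
  rw [Fintype.sum_option]
  unfold Tp
  rw [sum_range_zmod p (fun u => f ((z + u) / p)), Finset.mul_sum]
  rfl

/-- The Moebius action on the projective line. -/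
noncomputable def moeb (p : ℕ) (a b c d : ℤ) [Fact p.Prime] : Option (ZMod p) → Option (ZMod p)
  | none => if (c : ZMod p) = 0 then none else some ((d : ZMod p) / c)
  | some u => if ((a : ZMod p) + u * c) = 0 then none else
      some (((b : ZMod p) + u * d) / ((a : ZMod p) + u * c))

theorem moeb_none (p : ℕ) (a b c d : ℤ) [Fact p.Prime] : moeb p a b c d none =
    if (c : ZMod p) = 0 then none else some ((d : ZMod p) / c) := rfl

theorem moeb_some (p : ℕ) (a b c d : ℤ) [Fact p.Prime] (u : ZMod p) :
    moeb p a b c d (some u) = if ((a : ZMod p) + u * c) = 0 then none else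
      some (((b : ZMod p) + u * d) / ((a : ZMod p) + u * c)) := rfl

theorem moeb_inj (p : ℕ) {a b c d : ℤ} [Fact p.Prime] (h : a * d - b * c = 1) :
    Function.Injective (moeb p a b c d) := by
  have hdet : (a : ZMod p) * d - b * c = 1 := by exact_mod_cast congrArg (Int.cast (R := ZMod p)) h
  intro x y hxy
  rcases x with _ | u <;> rcases y with _ | v
  · rfl
  · exfalso
    rw [moeb_none, moeb_some] at hxy
    by_cases h1 : (c : ZMod p) = 0
    · by_cases h2 : ((a : ZMod p) + v * c) = 0
      · rw [h1, mul_zero, add_zero] at h2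
        rw [h1, h2] at hdet
        simp at hdet
      · rw [if_pos h1, if_neg h2] at hxy
        exact absurd hxy (by simp)
    · by_cases h2 : ((a : ZMod p) + v * c) = 0
      · rw [if_neg h1, if_pos h2] at hxy
        exact absurd hxy (by simp)
      · rw [if_neg h1, if_neg h2, Option.some.injEq, div_eq_div_iff h1 h2] at hxy
        have : (a : ZMod p) * d - b * c = 0 := by linear_combination hxy
        rw [this] at hdet
        exact zero_ne_one hdet
  · exfalso
    rw [moeb_none, moeb_some] at hxy
    by_cases h1 : (c : ZMod p) = 0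
    · by_cases h2 : ((a : ZMod p) + u * c) = 0
      · rw [h1, mul_zero, add_zero] at h2
        rw [h1, h2] at hdet
        simp at hdet
      · rw [if_pos h1, if_neg h2] at hxy
        exact absurd hxy (by simp)
    · by_cases h2 : ((a : ZMod p) + u * c) = 0
      · rw [if_neg h1, if_pos h2] at hxy
        exact absurd hxy (by simp)
      · rw [if_neg h1, if_neg h2, Option.some.injEq, div_eq_div_iff h2 h1] at hxy
        have : (a : ZMod p) * d - b * c = 0 := by linear_combination (-1 : ZMod p) * hxy
        rw [this] at hdet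
        exact zero_ne_one hdet
  · rw [moeb_some, moeb_some] at hxy
    by_cases h1 : ((a : ZMod p) + u * c) = 0
    · by_cases h2 : ((a : ZMod p) + v * c) = 0
      · have hc : (c : ZMod p) ≠ 0 := by
          intro hc
          rw [hc, mul_zero, add_zero] at h1
          rw [hc, h1] at hdet
          simp at hdet
        have h3 : (u - v) * (c : ZMod p) = 0 := by linear_combination h1 - h2
        rcases mul_eq_zero.1 h3 with h4 | h4
        · rw [sub_eq_zero.1 h4]
        · exact absurd h4 hc
      · rw [if_pos h1, if_neg h2] at hxy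
        exact absurd hxy (by simp)
    · by_cases h2 : ((a : ZMod p) + v * c) = 0
      · rw [if_neg h1, if_pos h2] at hxy
        exact absurd hxy (by simp)
      · rw [if_neg h1, if_neg h2, Option.some.injEq, div_eq_div_iff h1 h2] at hxy
        have h3 : (u - v) * ((a : ZMod p) * d - b * c) = 0 := by linear_combination hxy
        rw [hdet, mul_one] at h3
        rw [sub_eq_zero.1 h3]

theorem hterm_moeb {N p : ℕ} [hpf : Fact p.Prime] (hN : ¬ p ∣ N) {f : ℂ → ℂ} (hf : Inv N 2 f)
    {a b c d : ℤ} (h : a * d - b * c = 1) (hNc : (N : ℤ) ∣ c) {z : ℂ} (hz : 0 < z.im)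
    (x : Option (ZMod p)) :
    hterm p f ((a * z + b) / (c * z + d)) x =
      (c * z + d) ^ (2 : ℤ) * hterm p f z (moeb p a b c d x) := by
  have hp0 : 0 < p := hpf.out.pos
  have hpC : (p : ℂ) ≠ 0 := by exact_mod_cast hp0.ne'
  have hpR : (0 : ℝ) < p := by exact_mod_cast hp0
  have hden := den_ne h hz
  have himp : 0 < ((p : ℂ) * z).im := by
    rw [← Complex.ofReal_natCast, Complex.im_ofReal_mul]
    positivity
  have himq : ∀ u : ℕ, 0 < ((z + u) / (p : ℂ)).im := by
    intro u
    rw [← Complex.ofReal_natCast p, Complex.div_ofReal_im, Complex.add_im, Complex.natCast_im,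
      add_zero]
    positivity
  rcases x with _ | u
  · by_cases hc : (c : ZMod p) = 0
    · -- (iv)
      have hm : moeb p a b c d none = none := by rw [moeb_none, if_pos hc]
      rw [hm]
      obtain ⟨c', hc'⟩ := (ZMod.intCast_zmod_eq_zero_iff_dvd c p).1 hc
      have hcop : IsCoprime (N : ℤ) (p : ℤ) := by
        rw [Nat.isCoprime_iff_coprime]
        exact ((Nat.Prime.coprime_iff_not_dvd hpf.out).2 hN).symm
      have hNc' : (N : ℤ) ∣ c' := by
        rw [hc'] at hNc
        exact hcop.dvd_of_dvd_mul_left hNc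
      have h1 := hf a (p * b) c' d (by rw [← h, hc']; ring) hNc' (p * z) himp
      show (p : ℂ) * f (p * ((a * z + b) / (c * z + d))) = (c * z + d) ^ (2 : ℤ) * (p * f (p * z))
      have e1 : ((a : ℂ) * (p * z) + ((p * b : ℤ) : ℂ)) / (c' * (p * z) + d) =
          p * ((a * z + b) / (c * z + d)) := by
        rw [hc']; push_cast; ring
      have e2 : (c' : ℂ) * (p * z) + d = c * z + d := by rw [hc']; push_cast; ring
      rw [e1, e2] at h1
      rw [h1]; ring
    · -- (iii)
      have hm : moeb p a b c d none = some ((d : ZMod p) / c) := by rw [moeb_none, if_neg hc]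
      rw [hm]
      set u' : ZMod p := (d : ZMod p) / c with hu'
      have hcu : ((d - c * (u'.val : ℤ) : ℤ) : ZMod p) = 0 := by
        push_cast
        rw [ZMod.natCast_zmod_val, hu']
        field_simp
        ring
      obtain ⟨e, he⟩ := (ZMod.intCast_zmod_eq_zero_iff_dvd _ p).1 hcu
      have h1 := hf (p * a) (b - a * u'.val) c e (by
        have : (p : ℤ) * a * e = a * (p * e) := by ring
        rw [this, ← he]; linear_combination h) hNc ((z + u'.val) / p) (himq _)
      show (p : ℂ) * f (p * ((a * z + b) / (c * z + d))) =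
        (c * z + d) ^ (2 : ℤ) * ((1 / p) * f ((z + u'.val) / p))
      have heC : (d : ℂ) - c * (u'.val : ℂ) = p * e := by
        have := congrArg (Int.cast (R := ℂ)) he
        push_cast at this
        exact this
      have e2 : (c : ℂ) * ((z + u'.val) / p) + e = (c * z + d) / p := by
        field_simp
        linear_combination (-1 : ℂ) * heC
      have e1 : (((p * a : ℤ) : ℂ) * ((z + u'.val) / p) + ((b - a * u'.val : ℤ) : ℂ)) /
          ((c : ℂ) * ((z + u'.val) / p) + e) = p * ((a * z + b) / (c * z + d)) := by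
        rw [e2]
        push_cast
        field_simp
        ring
      rw [e1, e2] at h1
      rw [h1, div_zpow]
      have e3 : (p : ℂ) ^ (2 : ℤ) = p * p := by norm_cast; ring
      rw [e3]
      field_simp
  · by_cases hA : ((a : ZMod p) + u * c) = 0
    · -- (ii)
      have hm : moeb p a b c d (some u) = none := by rw [moeb_some, if_pos hA]
      rw [hm]
      have hA' : ((a + (u.val : ℤ) * c : ℤ) : ZMod p) = 0 := by
        push_cast
        rw [ZMod.natCast_zmod_val]
        exact hA
      obtain ⟨e, he⟩ := (ZMod.intCast_zmod_eq_zero_iff_dvd _ p).1 hA'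
      have h1 := hf e (b + u.val * d) c (p * d) (by
        have : e * (p * d) = (p * e) * d := by ring
        rw [this, ← he]; linear_combination h) hNc (p * z) himp
      show (1 / (p : ℂ)) * f (((a * z + b) / (c * z + d) + u.val) / p) =
        (c * z + d) ^ (2 : ℤ) * (p * f (p * z))
      have heC : (a : ℂ) + (u.val : ℂ) * c = p * e := by
        have := congrArg (Int.cast (R := ℂ)) he
        push_cast at this
        exact this
      have e2 : (c : ℂ) * (p * z) + ((p * d : ℤ) : ℂ) = p * (c * z + d) := by push_cast; ring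
      have e1 : ((e : ℂ) * (p * z) + ((b + u.val * d : ℤ) : ℂ)) /
          ((c : ℂ) * (p * z) + ((p * d : ℤ) : ℂ)) =
          ((a * z + b) / (c * z + d) + u.val) / p := by
        have e0 : (e : ℂ) * (p * z) + ((b + u.val * d : ℤ) : ℂ) =
            (a * z + b) + u.val * (c * z + d) := by
          push_cast
          linear_combination (-z) * heC
        rw [e0, e2, mul_comm (p : ℂ), ← div_div, add_div, mul_div_assoc, div_self hden, mul_one]
      rw [e1, e2] at h1
      rw [h1, mul_zpow]
      have e3 : (p : ℂ) ^ (2 : ℤ) = p * p := by norm_cast; ring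
      rw [e3]
      field_simp
    · -- (i)
      have hm : moeb p a b c d (some u) =
          some (((b : ZMod p) + u * d) / ((a : ZMod p) + u * c)) := by
        rw [moeb_some, if_neg hA]
      rw [hm]
      set u' : ZMod p := ((b : ZMod p) + u * d) / ((a : ZMod p) + u * c) with hu'
      have hcu : ((b + (u.val : ℤ) * d - (a + (u.val : ℤ) * c) * (u'.val : ℤ) : ℤ) : ZMod p) =
          0 := by
        push_cast
        rw [ZMod.natCast_zmod_val, ZMod.natCast_zmod_val, hu']
        field_simp
        ring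
      obtain ⟨e, he⟩ := (ZMod.intCast_zmod_eq_zero_iff_dvd _ p).1 hcu
      have h1 := hf (a + u.val * c) e (p * c) (d - c * u'.val) (by
        have : e * (p * c) = (p * e) * c := by ring
        rw [this, ← he]; linear_combination h) (Dvd.dvd.mul_left hNc _)
        ((z + u'.val) / p) (himq _)
      show (1 / (p : ℂ)) * f (((a * z + b) / (c * z + d) + u.val) / p) =
        (c * z + d) ^ (2 : ℤ) * ((1 / p) * f ((z + u'.val) / p))
      have heC : (b : ℂ) + (u.val : ℂ) * d - (a + (u.val : ℂ) * c) * (u'.val : ℂ) = p * e := by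
        have := congrArg (Int.cast (R := ℂ)) he
        push_cast at this
        exact this
      have e2 : ((p * c : ℤ) : ℂ) * ((z + u'.val) / p) + ((d - c * u'.val : ℤ) : ℂ) =
          c * z + d := by
        push_cast
        field_simp
        ring
      have e1 : (((a + u.val * c : ℤ) : ℂ) * ((z + u'.val) / p) + (e : ℂ)) /
          (((p * c : ℤ) : ℂ) * ((z + u'.val) / p) + ((d - c * u'.val : ℤ) : ℂ)) =
          ((a * z + b) / (c * z + d) + u.val) / p := by
        rw [e2]
        push_cast
        field_simp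
        linear_combination (-1 : ℂ) * heC
      rw [e1, e2] at h1
      rw [h1]
      ring

theorem Tp_inv {N p : ℕ} (hp : p.Prime) (hN : ¬ p ∣ N) {f : ℂ → ℂ} (hf : Inv N 2 f) :
    Inv N 2 (Tp p f) := by
  have : Fact p.Prime := ⟨hp⟩
  have : NeZero p := ⟨hp.ne_zero⟩
  intro a b c d h hNc z hz
  rw [Tp_eq, Tp_eq, Finset.mul_sum]
  have hbij : Function.Bijective (moeb p a b c d) :=
    Finite.injective_iff_bijective.1 (moeb_inj p h)
  calc ∑ x : Option (ZMod p), hterm p f ((a * z + b) / (c * z + d)) x
      = ∑ x : Option (ZMod p), (c * z + d) ^ (2 : ℤ) * hterm p f z (moeb p a b c d x) :=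
        Finset.sum_congr rfl fun x _ => hterm_moeb hN hf h hNc hz x
    _ = ∑ x : Option (ZMod p), (c * z + d) ^ (2 : ℤ) * hterm p f z x :=
        hbij.sum_comp (fun x => (c * z + d) ^ (2 : ℤ) * hterm p f z x)

theorem Tp_diff {p : ℕ} (hp : p.Prime) {f : ℂ → ℂ} (hf : DifferentiableOn ℂ f HH) :
    DifferentiableOn ℂ (Tp p f) HH := by
  have hpR : (0 : ℝ) < p := by exact_mod_cast hp.pos
  unfold Tp
  apply DifferentiableOn.add
  · apply (differentiableOn_const _).mul
    apply hf.comp (differentiableOn_id.const_mul _)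
    intro z hz
    show 0 < ((p : ℂ) * z).im
    rw [← Complex.ofReal_natCast, Complex.im_ofReal_mul]
    have : 0 < z.im := hz
    positivity
  · apply (differentiableOn_const _).mul
    apply DifferentiableOn.fun_sum
    intro u _
    apply hf.comp ((differentiableOn_id.add_const _).div_const _)
    intro z hz
    show 0 < ((z + u) / (p : ℂ)).im
    rw [← Complex.ofReal_natCast p, Complex.div_ofReal_im, Complex.add_im, Complex.natCast_im,
      add_zero]
    have : 0 < z.im := hz
    positivity

/-- `im z |f z| ≤ C` for all `z` implies `im z |T_p f z| ≤ (p+1) C`. -/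
theorem Tp_bound {p : ℕ} (hp : p.Prime) {f : ℂ → ℂ} {C : ℝ}
    (hf : ∀ z : ℂ, 0 < z.im → z.im * ‖f z‖ ≤ C) (z : ℂ) (hz : 0 < z.im) :
    z.im * ‖Tp p f z‖ ≤ (p + 1) * C := by
  have hpR : (0 : ℝ) < p := by exact_mod_cast hp.pos
  have h1 : z.im * ‖(p : ℂ) * f (p * z)‖ ≤ C := by
    have h := hf (p * z) (by
      rw [← Complex.ofReal_natCast, Complex.im_ofReal_mul]; positivity)
    rw [← Complex.ofReal_natCast, Complex.im_ofReal_mul] at h
    rw [norm_mul, Complex.norm_natCast, ← Complex.ofReal_natCast]
    linarith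
  have h2 : ∀ u : ℕ, z.im * ‖f ((z + u) / p)‖ ≤ p * C := by
    intro u
    have h := hf ((z + u) / p) (by
      rw [← Complex.ofReal_natCast p, Complex.div_ofReal_im, Complex.add_im, Complex.natCast_im,
        add_zero]
      positivity)
    rw [← Complex.ofReal_natCast p, Complex.div_ofReal_im, Complex.add_im, Complex.natCast_im,
      add_zero] at h
    rw [← Complex.ofReal_natCast p]
    rw [div_mul_eq_mul_div, div_le_iff₀ hpR] at h
    linarith
  have h3 : z.im * ‖(1 / (p : ℂ)) * ∑ u ∈ Finset.range p, f ((z + u) / p)‖ ≤ p * C := by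
    rw [norm_mul, norm_div, norm_one, Complex.norm_natCast]
    have h4 : ‖∑ u ∈ Finset.range p, f ((z + u) / p)‖ ≤
        ∑ u ∈ Finset.range p, ‖f ((z + u) / p)‖ := norm_sum_le _ _
    have h5 : z.im * ∑ u ∈ Finset.range p, ‖f ((z + u) / p)‖ ≤ p * (p * C) := by
      rw [Finset.mul_sum]
      calc ∑ u ∈ Finset.range p, z.im * ‖f ((z + u) / p)‖ ≤ ∑ _u ∈ Finset.range p, p * C :=
            Finset.sum_le_sum fun u _ => h2 u
        _ = p * (p * C) := by rw [Finset.sum_const, Finset.card_range, nsmul_eq_mul]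
    have h6 : z.im * ‖∑ u ∈ Finset.range p, f ((z + u) / p)‖ ≤ p * (p * C) :=
      (mul_le_mul_of_nonneg_left h4 hz.le).trans h5
    have h7 : z.im * (1 / (p : ℝ) * ‖∑ u ∈ Finset.range p, f ((z + u) / p)‖) =
        (z.im * ‖∑ u ∈ Finset.range p, f ((z + u) / p)‖) / p := by ring
    rw [h7, div_le_iff₀ hpR]
    linarith
  calc z.im * ‖Tp p f z‖ ≤ z.im * (‖(p : ℂ) * f (p * z)‖ +
        ‖(1 / (p : ℂ)) * ∑ u ∈ Finset.range p, f ((z + u) / p)‖) :=
        mul_le_mul_of_nonneg_left (norm_add_le _ _) hz.le
    _ ≤ (p + 1) * C := by rw [mul_add]; linarith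

end Pool.Agent.MTate
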