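import Pool.Agent.MTate.EtaMul
/-!
# MODULE HeckeU (modular forms, elementary)
The operator `U_p` preserves `Γ_0(N)`-invariance of weight 2 (`p ∣ N`).

Proof. As for `T_p` (see module HeckeT) with only the matrices `(1 u; 0 p)`: for `γ = (a b; c d) ∈ Γ_0(N)`,
`p ∣ N ∣ c`, so `p ∤ a`, `a + u c ≡ a`, and `(1 u; 0 p) γ = (a+uc, (b+ud-(a+uc)u')/p; pc, d-cu') (1 u'; 0 p)`
with `u' ≡ a^{-1}(b + u d) mod p`; `u ↦ u'` is a permutation of `ℤ/p` (`p ∤ d`).  The left factor is in
`Γ_0(N)`.  `f((z+u)/p)` depends only on `u mod p` (invariance under `z ↦ z + 1`).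
-/
namespace Pool.Agent.MTate
open Complex

/-- the index `u'` of the coset containing `(1 u; 0 p) γ`. -/
private def sig_u (p : ℕ) (b d : ℤ) (u : ℕ) : ℕ := ((d * (b + u * d)) % (p : ℤ)).toNat

/-- the inverse map. -/
private def tau (p : ℕ) (a b : ℤ) (u : ℕ) : ℕ := ((a * (a * u - b)) % (p : ℤ)).toNat

private theorem toNat_emod {p : ℕ} (hp : 0 < p) (x : ℤ) : (((x % (p : ℤ)).toNat : ℕ) : ℤ) = x % (p : ℤ) :=
  Int.toNat_of_nonneg (Int.emod_nonneg _ (by exact_mod_cast hp.ne'))

private theorem toNat_emod_lt {p : ℕ} (hp : 0 < p) (x : ℤ) : (x % (p : ℤ)).toNat < p := by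
  have h1 := toNat_emod hp x
  have h2 := Int.emod_lt_of_pos x (show (0 : ℤ) < p by exact_mod_cast hp)
  omega

private theorem tau_sig {p : ℕ} (hp : 0 < p) {a b d : ℤ} (had : a * d ≡ 1 [ZMOD p]) {u : ℕ}
    (hu : u < p) : tau p a b (sig_u p b d u) = u := by
  have h1 := toNat_emod hp (d * (b + u * d))
  have h2 : ((tau p a b (sig_u p b d u) : ℕ) : ℤ) = (u : ℤ) := by
    rw [tau, toNat_emod hp, sig_u, h1]
    have h3 : a * (a * (d * (b + u * d) % (p : ℤ)) - b) ≡ (u : ℤ) [ZMOD p] := by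
      have h4 : d * (b + u * d) % (p : ℤ) ≡ d * (b + u * d) [ZMOD p] := Int.mod_modEq _ _
      calc a * (a * (d * (b + u * d) % (p : ℤ)) - b)
          ≡ a * (a * (d * (b + u * d)) - b) [ZMOD p] :=
            ((h4.mul_left a).sub_right b).mul_left a
        _ = a * ((a * d) * (b + u * d) - b) := by ring
        _ ≡ a * (1 * (b + u * d) - b) [ZMOD p] := ((had.mul_right _).sub_right b).mul_left a
        _ = (a * d) * u := by ring
        _ ≡ 1 * u [ZMOD p] := had.mul_right _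
        _ = (u : ℤ) := by ring
    have h5 : (u : ℤ) % (p : ℤ) = u := Int.emod_eq_of_lt (by positivity) (by exact_mod_cast hu)
    calc a * (a * (d * (b + u * d) % (p : ℤ)) - b) % (p : ℤ) = (u : ℤ) % (p : ℤ) := h3
      _ = u := h5
  exact_mod_cast h2

private theorem sig_tau {p : ℕ} (hp : 0 < p) {a b d : ℤ} (had : a * d ≡ 1 [ZMOD p]) {u : ℕ}
    (hu : u < p) : sig_u p b d (tau p a b u) = u := by
  have h1 := toNat_emod hp (a * (a * u - b))
  have h2 : ((sig_u p b d (tau p a b u) : ℕ) : ℤ) = (u : ℤ) := by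
    rw [sig_u, toNat_emod hp, tau, h1]
    have h3 : d * (b + (a * (a * u - b) % (p : ℤ)) * d) ≡ (u : ℤ) [ZMOD p] := by
      have h4 : a * (a * u - b) % (p : ℤ) ≡ a * (a * u - b) [ZMOD p] := Int.mod_modEq _ _
      calc d * (b + (a * (a * u - b) % (p : ℤ)) * d)
          ≡ d * (b + (a * (a * u - b)) * d) [ZMOD p] :=
            ((h4.mul_right d).add_left b).mul_left d
        _ = d * (b + (a * d) * (a * u - b)) := by ring
        _ ≡ d * (b + 1 * (a * u - b)) [ZMOD p] := ((had.mul_right _).add_left b).mul_left d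
        _ = (a * d) * u := by ring
        _ ≡ 1 * u [ZMOD p] := had.mul_right _
        _ = (u : ℤ) := by ring
    have h5 : (u : ℤ) % (p : ℤ) = u := Int.emod_eq_of_lt (by positivity) (by exact_mod_cast hu)
    calc d * (b + (a * (a * u - b) % (p : ℤ)) * d) % (p : ℤ) = (u : ℤ) % (p : ℤ) := h3
      _ = u := h5
  exact_mod_cast h2

theorem Up_inv {N p : ℕ} (hp : p.Prime) (hN : p ∣ N) {f : ℂ → ℂ} (hf : Inv N 2 f) :
    Inv N 2 (Up p f) := by
  intro a b c d hdet hc z hz
  have hp0 : 0 < p := hp.pos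
  have hpc : (p : ℂ) ≠ 0 := by exact_mod_cast hp0.ne'
  have hden : (c * z + d : ℂ) ≠ 0 := den_ne hdet hz
  have hpc' : (p : ℤ) ∣ c := (Int.natCast_dvd_natCast.2 hN).trans hc
  have had : a * d ≡ 1 [ZMOD p] := by
    have h1 : a * d = 1 + b * c := by linarith
    rw [h1]
    have h2 : b * c ≡ 0 [ZMOD p] := (Int.modEq_zero_iff_dvd).2 (hpc'.mul_left b)
    simpa using h2.add_left 1
  have key : ∀ u : ℕ, f (((a * z + b) / (c * z + d) + u) / p) =
      (c * z + d) ^ (2 : ℤ) * f ((z + (sig_u p b d u : ℕ)) / p) := by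
    intro u
    have h1 : (p : ℤ) ∣ b + u * d - (a + u * c) * (sig_u p b d u : ℕ) := by
      have h2 : ((sig_u p b d u : ℕ) : ℤ) ≡ d * (b + u * d) [ZMOD p] := by
        rw [sig_u, toNat_emod hp0]
        exact Int.mod_modEq _ _
      have h3 : c ≡ 0 [ZMOD p] := (Int.modEq_zero_iff_dvd).2 hpc'
      have h4 : (a + u * c) * ((sig_u p b d u : ℕ) : ℤ) ≡ b + u * d [ZMOD p] := by
        calc (a + u * c) * ((sig_u p b d u : ℕ) : ℤ)
            ≡ (a + u * 0) * (d * (b + u * d)) [ZMOD p] := ((h3.mul_left _).add_left a).mul h2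
          _ = (a * d) * (b + u * d) := by ring
          _ ≡ 1 * (b + u * d) [ZMOD p] := had.mul_right _
          _ = b + u * d := by ring
      exact (Int.modEq_iff_dvd).1 h4
    obtain ⟨B, hB⟩ := h1
    have h5 : (a + u * c) * (d - c * (sig_u p b d u : ℕ)) - B * (p * c) = 1 := by
      have h6 : B * (p * c) = (b + u * d - (a + u * c) * (sig_u p b d u : ℕ)) * c := by
        rw [hB]; ring
      rw [h6]
      linear_combination hdet
    have hz' : 0 < ((z + (sig_u p b d u : ℕ)) / p : ℂ).im := by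
      rw [Complex.div_natCast_im]
      have : 0 < (p : ℝ) := by exact_mod_cast hp0
      simp only [Complex.add_im, Complex.natCast_im, add_zero]
      positivity
    have h7 := hf (a + u * c) B (p * c) (d - c * (sig_u p b d u : ℕ)) h5 (hc.mul_left _) _ hz'
    have hBc : (p : ℂ) * B = b + u * d - (a + u * c) * (sig_u p b d u : ℕ) := by
      have := congrArg (fun n : ℤ => (n : ℂ)) hB
      push_cast at this
      linear_combination -this
    have e1 : ((p * c : ℤ) : ℂ) * ((z + (sig_u p b d u : ℕ)) / p) + ((d - c * (sig_u p b d u : ℕ) : ℤ) : ℂ) =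
        c * z + d := by
      push_cast
      field_simp
      ring
    have e2 : (((a + u * c : ℤ) : ℂ) * ((z + (sig_u p b d u : ℕ)) / p) + (B : ℂ)) / (c * z + d) =
        ((a * z + b) / (c * z + d) + u) / p := by
      have e3 : ((a + u * c : ℤ) : ℂ) * ((z + (sig_u p b d u : ℕ)) / p) + (B : ℂ) =
          ((a * z + b) + u * (c * z + d)) / p := by
        rw [eq_div_iff hpc, add_mul, mul_assoc, div_mul_cancel₀ _ hpc, mul_comm (B : ℂ), hBc]
        push_cast
        ring
      rw [e3, div_right_comm, add_div, mul_div_assoc, div_self hden, mul_one]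
    rw [e1, e2] at h7
    exact h7
  rw [Up, Up]
  rw [mul_left_comm]
  congr 1
  rw [Finset.mul_sum]
  refine Finset.sum_nbij' (sig_u p b d) (tau p a b) ?_ ?_ ?_ ?_ ?_
  · intro u _
    exact Finset.mem_range.2 (toNat_emod_lt hp0 _)
  · intro u _
    exact Finset.mem_range.2 (toNat_emod_lt hp0 _)
  · intro u hu
    exact tau_sig hp0 had (Finset.mem_range.1 hu)
  · intro u hu
    exact sig_tau hp0 had (Finset.mem_range.1 hu)
  · intro u _
    exact key u

private theorem im_shift {p : ℕ} (z : ℂ) (u : ℕ) : ((z + u) / p : ℂ).im = z.im / p := by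
  rw [Complex.div_natCast_im]
  simp

theorem Up_diff {p : ℕ} (hp : p.Prime) {f : ℂ → ℂ} (hf : DifferentiableOn ℂ f HH) :
    DifferentiableOn ℂ (Up p f) HH := by
  have hp0 : (0 : ℝ) < p := by exact_mod_cast hp.pos
  have h1 : ∀ u : ℕ, DifferentiableOn ℂ (fun z : ℂ => f ((z + u) / p)) HH := by
    intro u
    have h2 : DifferentiableOn ℂ (fun z : ℂ => (z + u) / p) HH := by fun_prop
    refine hf.comp h2 ?_
    intro z hz
    show 0 < ((z + u) / p : ℂ).im
    rw [im_shift]
    exact div_pos hz hp0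
  have h3 : DifferentiableOn ℂ (fun z : ℂ => ∑ u ∈ Finset.range p, f ((z + u) / p)) HH :=
    DifferentiableOn.fun_sum fun u _ => h1 u
  exact h3.const_mul _

theorem Up_bound {p : ℕ} (hp : p.Prime) {f : ℂ → ℂ} {C : ℝ}
    (hf : ∀ z : ℂ, 0 < z.im → z.im * ‖f z‖ ≤ C) (z : ℂ) (hz : 0 < z.im) :
    z.im * ‖Up p f z‖ ≤ p * C := by
  have hp0 : (0 : ℝ) < p := by exact_mod_cast hp.pos
  have h1 : ∀ u : ℕ, z.im * ‖f ((z + u) / p)‖ ≤ p * C := by
    intro u
    have h2 := hf ((z + u) / p) (by rw [im_shift]; exact div_pos hz hp0)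
    rw [im_shift, div_mul_eq_mul_div, div_le_iff₀ hp0] at h2
    linarith
  have h3 : ‖Up p f z‖ ≤ (1 / p) * ∑ u ∈ Finset.range p, ‖f ((z + u) / p)‖ := by
    rw [Up, norm_mul]
    have h4 : ‖(1 / p : ℂ)‖ = 1 / p := by simp
    rw [h4]
    exact mul_le_mul_of_nonneg_left (norm_sum_le _ _) (by positivity)
  calc z.im * ‖Up p f z‖ ≤ z.im * ((1 / p) * ∑ u ∈ Finset.range p, ‖f ((z + u) / p)‖) :=
        mul_le_mul_of_nonneg_left h3 hz.le
    _ = (1 / p) * ∑ u ∈ Finset.range p, z.im * ‖f ((z + u) / p)‖ := by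
        rw [← Finset.mul_sum]; ring
    _ ≤ (1 / p) * ∑ u ∈ Finset.range p, (p * C : ℝ) :=
        mul_le_mul_of_nonneg_left (Finset.sum_le_sum fun u _ => h1 u) (by positivity)
    _ = p * C := by
        rw [Finset.sum_const, Finset.card_range, nsmul_eq_mul]
        field_simp

end Pool.Agent.MTate
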