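import Pool.Agent.MTate.OneDim
import Pool.Agent.MTate.HeckeT
import Pool.Agent.MTate.HeckeU
import Pool.Agent.MTate.BoundF0
/-!
# MODULE HeckeCoef (modular forms)
Hecke relations for the coefficients `b n` and the elementary bound `|b p| ≤ p + 1`.

Proof. `T_p f0 = κ f0` by `one_dim` (`Tp_inv`, `Tp_diff`, `Tp_bound`, `f0_bound`, `f0_inv`, `f0_diff`).
q-expansions (`f0_hasSum`, `∑_{u<p} exp(2 π i n u/p) = p` or `0`):
`T_p f0 (z) = ∑_n (b(pn) + p b(n/p)) q^n`.  Uniqueness of coefficients gives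
`b(pn) + p b(n/p) = κ b(n)`; `n = 1`: `κ = b p` (`b_one`).
Bound: `S = sup im z ‖f0 z‖ ∈ (0, ∞)`; `|κ| im z ‖f0 z‖ = im z ‖T_p f0 z‖ ≤ (p+1) S` for all `z`, so
`|κ| S ≤ (p+1) S`.
`U_5 f0 = κ f0` in the same way (`Up_inv` with `N = 20`), `b(5n) = κ b(n)`, `κ = b 5 = -1` (`b_five'`).
-/
namespace Pool.Agent.MTate
open Complex Filter Topology

/-- Uniqueness of q-expansions without constant term. -/
theorem coeff_uniq (c : ℕ → ℂ) (h0 : c 0 = 0)
    (h : ∀ z : ℂ, 0 < z.im → HasSum (fun n : ℕ => c n * qq z ^ n) 0) : ∀ n, c n = 0 := by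
  have hps : HasFPowerSeriesAt (0 : ℂ → ℂ) (FormalMultilinearSeries.ofScalars ℂ c) 0 := by
    rw [hasFPowerSeriesAt_iff]
    filter_upwards [Metric.ball_mem_nhds (0 : ℂ) one_pos] with q hq
    have hq1 : ‖q‖ < 1 := by simpa using hq
    simp only [FormalMultilinearSeries.coeff_ofScalars, smul_eq_mul, Pi.zero_apply]
    by_cases hq0 : q = 0
    · subst hq0
      have : (fun n : ℕ => (0 : ℂ) ^ n * c n) = fun _ => 0 := by
        funext n
        rcases Nat.eq_zero_or_pos n with hn | hn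
        · subst hn; simp [h0]
        · simp [hn.ne']
      rw [this]
      exact hasSum_zero
    · obtain ⟨z, hz, hzq⟩ := exists_qq hq1 hq0
      have := h z hz
      rw [hzq] at this
      simpa [mul_comm] using this
  have h1 := hps.eq_zero
  intro n
  have h2 : (FormalMultilinearSeries.ofScalars ℂ c).coeff n = c n := by
    simp [FormalMultilinearSeries.coeff_ofScalars]
  rw [← h2, h1]
  rfl

theorem qq_nat_mul (p : ℕ) (z : ℂ) : qq (p * z) = qq z ^ p := by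
  unfold qq
  rw [← Complex.exp_nat_mul]
  congr 1
  ring

theorem sum_qq {p : ℕ} (hp : 0 < p) (z : ℂ) (n : ℕ) :
    ∑ u ∈ Finset.range p, qq ((z + u) / p) ^ n = if p ∣ n then (p : ℂ) * qq z ^ (n / p) else 0 := by
  have hp0 : (p : ℂ) ≠ 0 := by exact_mod_cast hp.ne'
  set ζ : ℂ := exp (2 * Real.pi * I / p) with hζ
  have hprim : IsPrimitiveRoot ζ p := Complex.isPrimitiveRoot_exp p hp.ne'
  have hterm : ∀ u : ℕ, qq ((z + u) / p) ^ n = qq (z / p) ^ n * (ζ ^ n) ^ u := by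
    intro u
    have h1 : qq ((z + u) / p) = qq (z / p) * ζ ^ u := by
      unfold qq
      rw [hζ, ← Complex.exp_nat_mul, ← Complex.exp_add]
      congr 1
      field_simp
    rw [h1, mul_pow]
    congr 1
    rw [← pow_mul, ← pow_mul, mul_comm]
  rw [Finset.sum_congr rfl (fun u _ => hterm u), ← Finset.mul_sum]
  split_ifs with hd
  · obtain ⟨k, rfl⟩ := hd
    have h1 : ζ ^ (p * k) = 1 := by rw [pow_mul, hprim.pow_eq_one, one_pow]
    rw [h1]
    simp only [one_pow, Finset.sum_const, Finset.card_range, nsmul_eq_mul, mul_one]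
    rw [Nat.mul_div_cancel_left k hp, pow_mul, ← qq_nat_mul]
    have : (p : ℂ) * (z / p) = z := by field_simp
    rw [this, mul_comm]
  · have h1 : ζ ^ n ≠ 1 := fun h => hd ((hprim.pow_eq_one_iff_dvd n).1 h)
    have h2 : (ζ ^ n - 1) * ∑ u ∈ Finset.range p, (ζ ^ n) ^ u = 0 := by
      rw [mul_geom_sum, ← pow_mul, mul_comm n p, pow_mul, hprim.pow_eq_one, one_pow, sub_self]
    rcases mul_eq_zero.1 h2 with h3 | h3
    · exact absurd (sub_eq_zero.1 h3) h1
    · rw [h3, mul_zero]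

/-- `(1/p) ∑_u f0((z+u)/p) = ∑_n b(pn) q^n`. -/
theorem Up_hasSum {p : ℕ} (hp : 0 < p) {z : ℂ} (hz : 0 < z.im) :
    HasSum (fun n : ℕ => ((b (p * n) : ℤ) : ℂ) * qq z ^ n) (Up p f0 z) := by
  have hp0 : (p : ℂ) ≠ 0 := by exact_mod_cast hp.ne'
  have hpr : (0 : ℝ) < p := by exact_mod_cast hp
  have him : ∀ u : ℕ, 0 < ((z + u) / p : ℂ).im := by
    intro u
    have h1 : ((z + u) / p : ℂ) = ((1 / p : ℝ) : ℂ) * (z + u) := by
      push_cast
      field_simp
    rw [h1, Complex.im_ofReal_mul]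
    have : (z + (u : ℂ)).im = z.im := by simp
    rw [this]
    positivity
  have h1 : HasSum (fun n : ℕ => ∑ u ∈ Finset.range p, ((b n : ℤ) : ℂ) * qq ((z + u) / p) ^ n)
      (∑ u ∈ Finset.range p, f0 ((z + u) / p)) :=
    hasSum_sum fun u _ => f0_hasSum (him u)
  have h2 := h1.mul_left (1 / (p : ℂ))
  have h3 : (fun n : ℕ => 1 / (p : ℂ) * ∑ u ∈ Finset.range p, ((b n : ℤ) : ℂ) * qq ((z + u) / p) ^ n)
      = fun n : ℕ => if p ∣ n then ((b n : ℤ) : ℂ) * qq z ^ (n / p) else 0 := by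
    funext n
    rw [← Finset.mul_sum, sum_qq hp]
    split_ifs
    · field_simp
    · simp
  rw [h3] at h2
  have hinj : Function.Injective (fun n : ℕ => p * n) := fun a b h => Nat.eq_of_mul_eq_mul_left hp h
  have h4 := (hinj.hasSum_iff (f := fun n : ℕ => if p ∣ n then ((b n : ℤ) : ℂ) * qq z ^ (n / p) else 0)
    (a := 1 / (p : ℂ) * ∑ u ∈ Finset.range p, f0 ((z + u) / p)) (by
      intro x hx
      have : ¬ p ∣ x := by
        rintro ⟨k, rfl⟩
        exact hx ⟨k, rfl⟩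
      simp [this])).2 h2
  have h5 : (fun n : ℕ => if p ∣ n then ((b n : ℤ) : ℂ) * qq z ^ (n / p) else 0) ∘ (fun n : ℕ => p * n)
      = fun n : ℕ => ((b (p * n) : ℤ) : ℂ) * qq z ^ n := by
    funext n
    simp [Nat.mul_div_cancel_left n hp]
  rw [h5] at h4
  exact h4

theorem Tp_hasSum {p : ℕ} (hp : 0 < p) {z : ℂ} (hz : 0 < z.im) :
    HasSum (fun n : ℕ => (((b (p * n) + (if p ∣ n then (p : ℤ) * b (n / p) else 0) : ℤ)) : ℂ) * qq z ^ n)
      (Tp p f0 z) := by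
  have hpr : (0 : ℝ) < p := by exact_mod_cast hp
  have hinj : Function.Injective (fun n : ℕ => p * n) := fun a b h => Nat.eq_of_mul_eq_mul_left hp h
  have him : 0 < ((p : ℂ) * z).im := by
    simp
    positivity
  have h1 := (f0_hasSum him).mul_left (p : ℂ)
  have h2 : (fun n : ℕ => (p : ℂ) * (((b n : ℤ) : ℂ) * qq (p * z) ^ n)) =
      (fun n : ℕ => if p ∣ n then (p : ℂ) * ((b (n / p) : ℤ) : ℂ) * qq z ^ n else 0) ∘ (fun n : ℕ => p * n) := by
    funext n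
    simp only [Function.comp_apply, dvd_mul_right, if_true, Nat.mul_div_cancel_left n hp, qq_nat_mul]
    rw [← pow_mul, mul_assoc]
  rw [h2] at h1
  have h3 := (hinj.hasSum_iff (by
      intro x hx
      have : ¬ p ∣ x := by
        rintro ⟨k, rfl⟩
        exact hx ⟨k, rfl⟩
      simp [this])).1 h1
  have h4 := h3.add (Up_hasSum hp hz)
  have h5 : Tp p f0 z = (p : ℂ) * f0 (p * z) + Up p f0 z := rfl
  rw [h5]
  refine h4.congr_fun ?_
  intro n
  split_ifs <;> push_cast <;> ring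

theorem Tp_eig {p : ℕ} (hp : p.Prime) (h20 : ¬ p ∣ 20) :
    ∃ κ : ℂ, ∀ z : ℂ, 0 < z.im → Tp p f0 z = κ * f0 z := by
  obtain ⟨C, hC⟩ := f0_bound
  refine one_dim _ (Tp_diff hp f0_diff) (Tp_inv hp h20 f0_inv) ⟨(p + 1) * C, ?_⟩
  intro z hz
  exact Tp_bound hp hC z hz

theorem Tp_eq_f0 {p : ℕ} (hp : p.Prime) (h20 : ¬ p ∣ 20) :
    (∀ n : ℕ, b (p * n) + (if p ∣ n then (p : ℤ) * b (n / p) else 0) = b p * b n) ∧
    ∀ z : ℂ, 0 < z.im → Tp p f0 z = (b p : ℂ) * f0 z := by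
  obtain ⟨κ, hκ⟩ := Tp_eig hp h20
  have hu : ∀ n : ℕ, (((b (p * n) + (if p ∣ n then (p : ℤ) * b (n / p) else 0) : ℤ)) : ℂ) - κ * (b n : ℂ) = 0 := by
    apply coeff_uniq
    · simp [b_zero]
    · intro z hz
      have h1 := (Tp_hasSum hp.pos hz).sub ((f0_hasSum hz).mul_left κ)
      rw [hκ z hz, sub_self] at h1
      refine h1.congr_fun ?_
      intro n
      ring
  have h1 : κ = (b p : ℂ) := by
    have := hu 1
    have hnd : ¬ p ∣ 1 := fun h => hp.one_lt.ne' (Nat.dvd_one.1 h)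
    rw [if_neg hnd] at this
    simp [b_one] at this
    exact (sub_eq_zero.1 this).symm
  constructor
  · intro n
    have := sub_eq_zero.1 (hu n)
    rw [h1] at this
    exact_mod_cast this
  · intro z hz
    rw [hκ z hz, h1]

theorem hecke_coef {p : ℕ} (hp : p.Prime) (h20 : ¬ p ∣ 20) (n : ℕ) :
    b (p * n) + (if p ∣ n then (p : ℤ) * b (n / p) else 0) = b p * b n :=
  (Tp_eq_f0 hp h20).1 n

theorem b_le {p : ℕ} (hp : p.Prime) (h20 : ¬ p ∣ 20) : |b p| ≤ p + 1 := by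
  obtain ⟨C, hC⟩ := f0_bound
  set A : Set ℝ := {x | ∃ z : ℂ, 0 < z.im ∧ x = z.im * ‖f0 z‖} with hA
  have hbdd : BddAbove A := ⟨C, by rintro x ⟨z, hz, rfl⟩; exact hC z hz⟩
  have hI : I.im * ‖f0 I‖ ∈ A := ⟨I, by simp, rfl⟩
  have hpos : 0 < I.im * ‖f0 I‖ := by
    have : f0 I ≠ 0 := f0_ne (by simp)
    simp [this]
  have hS : 0 < sSup A := lt_of_lt_of_le hpos (le_csSup hbdd hI)
  have hb : ∀ z : ℂ, 0 < z.im → z.im * ‖f0 z‖ ≤ sSup A := fun z hz => le_csSup hbdd ⟨z, hz, rfl⟩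
  have h1 : ∀ z : ℂ, 0 < z.im → |(b p : ℝ)| * (z.im * ‖f0 z‖) ≤ (p + 1) * sSup A := by
    intro z hz
    have h2 := Tp_bound hp hb z hz
    rw [(Tp_eq_f0 hp h20).2 z hz, norm_mul] at h2
    have h3 : ‖((b p : ℤ) : ℂ)‖ = |(b p : ℝ)| := by
      rw [Complex.norm_intCast]
    rw [h3] at h2
    linarith [h2, mul_comm z.im (|(b p : ℝ)| * ‖f0 z‖), mul_assoc (|(b p : ℝ)|) (‖f0 z‖) z.im,
      mul_comm (‖f0 z‖) z.im]
  have h4 : |(b p : ℝ)| ≤ p + 1 := by
    by_contra hcon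
    rw [not_le] at hcon
    have hp1 : (0 : ℝ) < p + 1 := by positivity
    have hbp : 0 < |(b p : ℝ)| := lt_trans hp1 hcon
    have h5 : sSup A ≤ (p + 1) * sSup A / |(b p : ℝ)| := by
      apply csSup_le ⟨_, hI⟩
      rintro x ⟨z, hz, rfl⟩
      rw [le_div_iff₀ hbp, mul_comm]
      exact h1 z hz
    rw [le_div_iff₀ hbp] at h5
    nlinarith
  exact_mod_cast h4

theorem b_five (n : ℕ) : b (5 * n) = -b n := by
  obtain ⟨C, hC⟩ := f0_bound
  have h5 : Nat.Prime 5 := by norm_num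
  obtain ⟨κ, hκ⟩ := one_dim _ (Up_diff h5 f0_diff) (Up_inv h5 (by norm_num : (5 : ℕ) ∣ 20) f0_inv)
    ⟨(5 : ℕ) * C, fun z hz => Up_bound h5 hC z hz⟩
  have hu : ∀ n : ℕ, ((b (5 * n) : ℤ) : ℂ) - κ * (b n : ℂ) = 0 := by
    apply coeff_uniq
    · simp [b_zero]
    · intro z hz
      have h1 := (Up_hasSum h5.pos hz).sub ((f0_hasSum hz).mul_left κ)
      rw [hκ z hz, sub_self] at h1
      refine h1.congr_fun ?_
      intro n
      ring
  have h1 : κ = -1 := by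
    have := hu 1
    simp [b_one, b_five'] at this
    linear_combination -this
  have := hu n
  rw [h1] at this
  have h2 : ((b (5 * n) : ℤ) : ℂ) = ((-b n : ℤ) : ℂ) := by
    push_cast
    linear_combination this
  exact_mod_cast h2

end Pool.Agent.MTate
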