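import Pool.Agent.MTate.EtaMul
/-!
# MODULE Liouville (modular forms, Mathlib API)
A `Γ_0(20)`-invariant holomorphic function bounded at all cusps is constant.

Proof. Restrict `u` to `ℍ`; it is a modular form of weight 0 for the image of
`CongruenceSubgroup.Gamma0 20` in `GL(2, ℝ)` (arithmetic; `bdd_at_cusps'` by
`OnePoint.isBoundedAt_iff_forall_SL2Z` and the hypothesis `hb`, weight 0 slash is composition;
holomorphy by `UpperHalfPlane.mdifferentiable_iff`), so it is constant by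
`ModularForm.eq_const_of_weight_zero`.
-/
namespace Pool.Agent.MTate
open Complex Filter Topology
open scoped MatrixGroups ModularForm UpperHalfPlane Manifold

private theorem coe_sl (g : SL(2, ℤ)) (z : ℍ) :
    ((g • z : ℍ) : ℂ) = (((g 0 0 : ℤ) : ℂ) * z + ((g 0 1 : ℤ) : ℂ)) /
      (((g 1 0 : ℤ) : ℂ) * z + ((g 1 1 : ℤ) : ℂ)) := by
  rw [UpperHalfPlane.coe_specialLinearGroup_apply]
  simp

private theorem det_sl (g : SL(2, ℤ)) : g 0 0 * g 1 1 - g 0 1 * g 1 0 = 1 := by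
  have h := g.det_coe
  rwa [Matrix.det_fin_two] at h

/-- the restriction of an invariant function to the upper half plane, as a modular form of
weight 0 -/
private noncomputable def toMF (u : ℂ → ℂ) (hu : DifferentiableOn ℂ u HH) (hinv : Inv 20 0 u)
    (hb : ∀ a b c d : ℤ, a * d - b * c = 1 →
      ∃ M : ℝ, ∀ᶠ z in imInf, ‖u ((a * z + b) / (c * z + d))‖ ≤ M) :
    ModularForm ((CongruenceSubgroup.Gamma0 20 : Subgroup SL(2, ℤ)) : Subgroup (GL (Fin 2) ℝ)) 0 where
  toFun z := u (z : ℂ)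
  slash_action_eq' := by
    rintro _ ⟨g, hg, rfl⟩
    have h0 : (20 : ℤ) ∣ g 1 0 := by
      have := CongruenceSubgroup.Gamma0_mem.mp hg
      exact (ZMod.intCast_zmod_eq_zero_iff_dvd _ 20).mp this
    have key : (fun z : ℍ => u (z : ℂ)) ∣[(0 : ℤ)] g = fun z : ℍ => u (z : ℂ) := by
      funext z
      rw [ModularForm.SL_slash_apply, neg_zero, zpow_zero, mul_one, coe_sl]
      have h1 := hinv (g 0 0) (g 0 1) (g 1 0) (g 1 1) (det_sl g) h0 (z : ℂ) z.im_pos
      rw [h1, zpow_zero, one_mul]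
    exact key
  holo' := by
    rw [UpperHalfPlane.mdifferentiable_iff]
    refine hu.congr ?_
    intro z hz
    show u ((UpperHalfPlane.ofComplex z : ℍ) : ℂ) = u z
    rw [UpperHalfPlane.ofComplex_apply_of_im_pos hz]
  bdd_at_cusps' := by
    intro c hc
    have hc' : IsCusp c 𝒮ℒ := (Subgroup.IsArithmetic.isCusp_iff_isCusp_SL2Z _).mp hc
    rw [OnePoint.isBoundedAt_iff_forall_SL2Z hc']
    intro g _
    obtain ⟨M, hM⟩ := hb (g 0 0) (g 0 1) (g 1 0) (g 1 1) (det_sl g)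
    rw [imInf, eventually_comap] at hM
    rw [UpperHalfPlane.isBoundedAtImInfty_iff]
    obtain ⟨A, hA⟩ := eventually_atTop.mp hM
    refine ⟨M, A, fun z hz => ?_⟩
    rw [ModularForm.SL_slash_apply, neg_zero, zpow_zero, mul_one, coe_sl]
    exact hA z.im hz (z : ℂ) rfl

theorem liouville (u : ℂ → ℂ) (hu : DifferentiableOn ℂ u HH) (hinv : Inv 20 0 u)
    (hb : ∀ a b c d : ℤ, a * d - b * c = 1 →
      ∃ M : ℝ, ∀ᶠ z in imInf, ‖u ((a * z + b) / (c * z + d))‖ ≤ M) :
    ∃ κ : ℂ, ∀ z : ℂ, 0 < z.im → u z = κ := by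
  obtain ⟨κ, hκ⟩ := ModularForm.eq_const_of_weight_zero (toMF u hu hinv hb)
  refine ⟨κ, fun z hz => ?_⟩
  exact congr_fun hκ ⟨z, hz⟩

end Pool.Agent.MTate
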