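import Pool.Agent.MTate.SerP
/-!
# MODULE SerTrW (finite computation with truncated power series)
The coefficients of `q^0, ..., q^10` of `Wr` vanish.

Data (mod `X^12`): `P 1 ≡ 1 - X - X^2 + X^5 + X^7`, `P 2 ≡ 1 - X^2 - X^4 + X^10`, `P 4 ≡ 1 - X^4 - X^8`,
`P 5 ≡ 1 - X^5 - X^10`, `P 10 ≡ 1 - X^10`, `P 20 ≡ 1`  (from `coeff_P`; `coeff_P_mul` and
`coeff_P_of_not_dvd` reduce everything to the first 12 coefficients of `P 1`).
`Wr` is a polynomial expression in these series and in their `θ`, so modulo `X^11` it is equal to the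
same expression in the truncations.

Method here: `Rep N a L` says that the first `N` coefficients of `a` are the entries of the list `L`;
truncated products etc. of lists are computed by the kernel.
-/
namespace Pool.Agent.MTate
open PowerSeries

namespace Tr

/-- the first `N` coefficients of `a` are the entries of `L` -/
def Rep (N : ℕ) (a : PowerSeries ℤ) (L : List ℤ) : Prop := ∀ n < N, coeff n a = L.getD n 0

def mulL (N : ℕ) (A B : List ℤ) : List ℤ :=
  (List.range N).map fun n => ((List.range (n + 1)).map fun i => A.getD i 0 * B.getD (n - i) 0).sum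

def addL (N : ℕ) (A B : List ℤ) : List ℤ :=
  (List.range N).map fun n => A.getD n 0 + B.getD n 0

def subL (N : ℕ) (A B : List ℤ) : List ℤ :=
  (List.range N).map fun n => A.getD n 0 - B.getD n 0

def thL (N : ℕ) (A : List ℤ) : List ℤ :=
  (List.range N).map fun (n : ℕ) => ((n : ℕ) : ℤ) * A.getD n 0

def facL (N j : ℕ) : List ℤ :=
  (List.range N).map fun n => if n = 0 then 1 else if n = j then -1 else 0

def oneL (N : ℕ) : List ℤ := (List.range N).map fun n => if n = 0 then 1 else 0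

def prodL (N k : ℕ) : ℕ → List ℤ
  | 0 => oneL N
  | m + 1 => mulL N (prodL N k m) (facL N (k * (m + 1)))

lemma getD_map_range (N : ℕ) (g : ℕ → ℤ) {n : ℕ} (hn : n < N) :
    ((List.range N).map g).getD n 0 = g n := by
  simp [List.getD_eq_getElem?_getD, hn]

variable {N : ℕ} {a c : PowerSeries ℤ} {A C : List ℤ}

lemma Rep.mul (ha : Rep N a A) (hc : Rep N c C) : Rep N (a * c) (mulL N A C) := by
  intro n hn
  unfold mulL
  rw [getD_map_range N _ hn, coeff_mul,
    Finset.Nat.sum_antidiagonal_eq_sum_range_succ (fun i j => coeff i a * coeff j c) n]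
  have h1 : ((List.range (n + 1)).map fun i => A.getD i 0 * C.getD (n - i) 0).sum =
      ∑ i ∈ Finset.range (n + 1), A.getD i 0 * C.getD (n - i) 0 := by
    rw [Finset.sum_eq_multiset_sum]
    rfl
  rw [h1]
  apply Finset.sum_congr rfl
  intro i hi
  have := Finset.mem_range.1 hi
  rw [ha i (by omega), hc (n - i) (by omega)]

lemma Rep.add (ha : Rep N a A) (hc : Rep N c C) : Rep N (a + c) (addL N A C) := by
  intro n hn
  unfold addL
  rw [getD_map_range N _ hn, map_add, ha n hn, hc n hn]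

lemma Rep.sub (ha : Rep N a A) (hc : Rep N c C) : Rep N (a - c) (subL N A C) := by
  intro n hn
  unfold subL
  rw [getD_map_range N _ hn, map_sub, ha n hn, hc n hn]

lemma Rep.th (ha : Rep N a A) : Rep N (th a) (thL N A) := by
  intro n hn
  unfold thL
  rw [getD_map_range N _ hn, coeff_th, ha n hn]

lemma Rep.of_eq (ha : Rep N a A) (h : A = C) : Rep N a C := h ▸ ha

lemma Rep.sq (ha : Rep N a A) : Rep N (a ^ 2) (mulL N A A) := by
  rw [pow_two]
  exact ha.mul ha

lemma Rep.pow4 (ha : Rep N a A) : Rep N (a ^ 4) (mulL N (mulL N A A) (mulL N A A)) := by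
  have : a ^ 4 = (a * a) * (a * a) := by ring
  rw [this]
  exact (ha.mul ha).mul (ha.mul ha)

lemma Rep.one : Rep N 1 (oneL N) := by
  intro n hn
  unfold oneL
  rw [getD_map_range N _ hn, coeff_one]

lemma Rep.Xpow (k : ℕ) : Rep N (X ^ k) ((List.range N).map fun n => if n = k then 1 else 0) := by
  intro n hn
  rw [getD_map_range N _ hn, coeff_X_pow]

lemma Rep.X1 : Rep N X ((List.range N).map fun n => if n = 1 then 1 else 0) := by
  intro n hn
  rw [getD_map_range N _ hn, coeff_X]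

lemma Rep.natCast (k : ℕ) : Rep N ((k : ℕ) : PowerSeries ℤ)
    ((List.range N).map fun n => if n = 0 then (k : ℤ) else 0) := by
  intro n hn
  rw [getD_map_range N _ hn]
  have : ((k : ℕ) : PowerSeries ℤ) = PowerSeries.C (k : ℤ) := by simp
  rw [this, coeff_C]

lemma Rep.two : Rep N 2 ((List.range N).map fun n => if n = 0 then ((2 : ℕ) : ℤ) else 0) := by
  have := Rep.natCast (N := N) 2
  rwa [Nat.cast_ofNat (R := PowerSeries ℤ)] at this

lemma Rep.four : Rep N 4 ((List.range N).map fun n => if n = 0 then ((4 : ℕ) : ℤ) else 0) := by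
  have := Rep.natCast (N := N) 4
  rwa [Nat.cast_ofNat (R := PowerSeries ℤ)] at this

lemma Rep.five : Rep N 5 ((List.range N).map fun n => if n = 0 then ((5 : ℕ) : ℤ) else 0) := by
  have := Rep.natCast (N := N) 5
  rwa [Nat.cast_ofNat (R := PowerSeries ℤ)] at this

lemma Rep.fac {j : ℕ} (hj : 0 < j) : Rep N (1 - X ^ j) (facL N j) := by
  intro n hn
  unfold facL
  rw [getD_map_range N _ hn, map_sub, coeff_one, coeff_X_pow]
  by_cases h0 : n = 0
  · subst h0
    have : ¬ (0 = j) := by omega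
    simp [this]
  · by_cases h1 : n = j
    · rw [if_neg h0, if_pos h1, if_neg h0, if_pos h1]
      norm_num
    · rw [if_neg h0, if_neg h1, if_neg h0, if_neg h1]
      norm_num

lemma Rep.prod {k : ℕ} (hk : 0 < k) (m : ℕ) :
    Rep N (∏ n ∈ Finset.range m, (1 - X ^ (k * (n + 1)))) (prodL N k m) := by
  induction m with
  | zero =>
    rw [Finset.prod_range_zero]
    exact Rep.one
  | succ m ih =>
    rw [Finset.prod_range_succ]
    exact ih.mul (Rep.fac (by positivity))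

lemma Rep.P {k : ℕ} (hk : 0 < k) : Rep N (P k) (prodL N k N) := by
  intro n hn
  obtain ⟨M, rfl⟩ : ∃ M, N = M + 1 := ⟨N - 1, by omega⟩
  rw [coeff_P hk (M := M) (by omega)]
  exact Rep.prod hk (M + 1) n hn

lemma r2 : Rep 11 (P 2) [1, 0, (-1), 0, (-1), 0, 0, 0, 0, 0, 1] :=
  Rep.of_eq (Rep.P (by norm_num)) (by decide +kernel)

lemma r4 : Rep 11 (P 4) [1, 0, 0, 0, (-1), 0, 0, 0, (-1), 0, 0] :=
  Rep.of_eq (Rep.P (by norm_num)) (by decide +kernel)

lemma r10 : Rep 11 (P 10) [1, 0, 0, 0, 0, 0, 0, 0, 0, 0, (-1)] :=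
  Rep.of_eq (Rep.P (by norm_num)) (by decide +kernel)

lemma r20 : Rep 11 (P 20) [1, 0, 0, 0, 0, 0, 0, 0, 0, 0, 0] :=
  Rep.of_eq (Rep.P (by norm_num)) (by decide +kernel)

lemma rfs : Rep 11 (fs) [0, 1, 0, (-2), 0, (-1), 0, 2, 0, 1, 0] :=
  Rep.of_eq ((Rep.X1.mul r2.sq).mul r10.sq) (by decide +kernel)

lemma rNs : Rep 11 (Ns) [1, 0, 0, 0, (-4), 0, 0, 0, 2, 0, (-2)] :=
  Rep.of_eq (r4.pow4.mul r10.sq) (by decide +kernel)

lemma rDs : Rep 11 (Ds) [0, 0, 1, 0, (-2), 0, (-1), 0, 2, 0, 1] :=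
  Rep.of_eq (((Rep.Xpow 2).mul r2.sq).mul r20.pow4) (by decide +kernel)

lemma rA : Rep 11 (th Ns * Ds - Ns * th Ds) [0, 0, (-2), 0, 8, 0, (-2), 0, (-16), 0, (-6)] :=
  Rep.of_eq ((rNs.th.mul rDs).sub (rNs.mul rDs.th)) (by decide +kernel)

lemma rA2 : Rep 11 ((th Ns * Ds - Ns * th Ds) ^ 2) [0, 0, 0, 0, 4, 0, (-32), 0, 72, 0, 32] :=
  Rep.of_eq (rA.sq) (by decide +kernel)

lemma rQ : Rep 11 (Ns ^ 2 - 2 * Ns * Ds + 5 * Ds ^ 2) [1, 0, (-2), 0, 1, 0, (-10), 0, 10, 0, 22] :=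
  Rep.of_eq ((rNs.sq.sub ((Rep.two.mul rNs).mul rDs)).add (Rep.five.mul rDs.sq)) (by decide +kernel)

lemma rF : Rep 11 (4 * fs ^ 2 * Ns) [0, 0, 4, 0, (-16), 0, (-8), 0, 96, 0, (-44)] :=
  Rep.of_eq ((Rep.four.mul rfs.sq).mul rNs) (by decide +kernel)

lemma rB : Rep 11 (4 * fs ^ 2 * Ns * (Ns ^ 2 - 2 * Ns * Ds + 5 * Ds ^ 2) * Ds) [0, 0, 0, 0, 4, 0, (-32), 0, 72, 0, 32] :=
  Rep.of_eq ((rF.mul rQ).mul rDs) (by decide +kernel)

lemma rW : Rep 11 (Wr) [0, 0, 0, 0, 0, 0, 0, 0, 0, 0, 0] :=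
  Rep.of_eq (rA2.sub rB) (by decide +kernel)

end Tr

theorem Wr_coeff {n : ℕ} (hn : n < 11) : coeff n Wr = 0 := by
  rw [Tr.rW n hn]
  interval_cases n <;> rfl

end Pool.Agent.MTate
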