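import Pool.Agent.MTate.YB
import Pool.Agent.MTate.Liouville
import Pool.Agent.MTate.SerTrW
/-!
# MODULE IdentW (assembly)
`Y0^2 = X0^3 - 2 X0^2 + 5 X0` and `Wr = 0`.

Proof. `u = Y0^2 - (X0^3 - 2 X0^2 + 5 X0)` is holomorphic and `Γ_0(20)`-invariant.  If `20 ∤ c` it is bounded at
`σ` by `X0_cusp`, `Y0_cusp`.  If `20 ∣ c` then `u(σz) = u(z)`; with `q = qq z` and `Link`
(`X0 = N/D`, `Y0 = (θN D - N θD)/(2 f D^2)`, `f, N, D` the evaluated series) `4 f^2 D^4 u(z) = ev Wr q`,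
`|ev Wr q| ≤ K |q|^11` (`Wr_coeff`, `ev_isBigO`) and `|4 f^2 D^4| ≥ κ |q|^10` (`ev_lower`, order exactly 10,
`fs ^ 2 * Ds ^ 4 = X^10 * (1 + ...)`), so `|u(z)| ≤ K' |q|`: bounded, and tends to `0` as `im z → ∞`.
By `liouville` `u` is constant, hence `0`.  So `ev Wr` vanishes on the punctured disc (`exists_qq`), and
`Wr = 0` by `ev_inj`.
-/
namespace Pool.Agent.MTate
open Complex Filter Topology PowerSeries

/-- the function of the proof. -/
private noncomputable def uW (z : ℂ) : ℂ := Y0 z ^ 2 - (X0 z ^ 3 - 2 * X0 z ^ 2 + 5 * X0 z)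

private theorem ev_Wr {q : ℂ} (hq : ‖q‖ < 1) :
    ev Wr q = (ev (th Ns) q * ev Ds q - ev Ns q * ev (th Ds) q) ^ 2 -
      4 * ev fs q ^ 2 * ev Ns q *
        (ev Ns q ^ 2 - 2 * ev Ns q * ev Ds q + 5 * ev Ds q ^ 2) * ev Ds q := by
  have cN := conv_Ns
  have cD := conv_Ds
  have cf := conv_fs
  have c2 : Conv (2 : PowerSeries ℤ) := by simpa using conv_ofNat 2
  have c4 : Conv (4 : PowerSeries ℤ) := by simpa using conv_ofNat 4
  have c5 : Conv (5 : PowerSeries ℤ) := by simpa using conv_ofNat 5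
  have e2 : ev (2 : PowerSeries ℤ) q = 2 := by simpa using ev_natCast 2 q
  have e4 : ev (4 : PowerSeries ℤ) q = 4 := by simpa using ev_natCast 4 q
  have e5 : ev (5 : PowerSeries ℤ) q = 5 := by simpa using ev_natCast 5 q
  have cA := conv_mul (conv_th cN) cD
  have cB := conv_mul cN (conv_th cD)
  have cC := conv_sub cA cB
  have cQ1 := conv_pow cN 2
  have cQ2 := conv_mul c2 cN
  have cQ3 := conv_mul cQ2 cD
  have cQ4 := conv_pow cD 2
  have cQ5 := conv_mul c5 cQ4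
  have cQ6 := conv_sub cQ1 cQ3
  have cQ7 := conv_add cQ6 cQ5
  have cR1 := conv_pow cf 2
  have cR2 := conv_mul c4 cR1
  have cR3 := conv_mul cR2 cN
  have cR4 := conv_mul cR3 cQ7
  have cR5 := conv_mul cR4 cD
  have cS := conv_pow cC 2
  rw [Wr, ev_sub cS cR5 hq, ev_pow cC 2 hq, ev_sub cA cB hq, ev_mul (conv_th cN) cD hq,
    ev_mul cN (conv_th cD) hq, ev_mul cR4 cD hq, ev_mul cR3 cQ7 hq, ev_mul cR2 cN hq,
    ev_mul c4 cR1 hq, ev_pow cf 2 hq, ev_add cQ6 cQ5 hq, ev_sub cQ1 cQ3 hq, ev_pow cN 2 hq,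
    ev_mul cQ2 cD hq, ev_mul c2 cN hq, ev_mul c5 cQ4 hq, ev_pow cD 2 hq, e2, e4, e5]

private theorem key_id {z : ℂ} (hz : 0 < z.im) :
    ev Wr (qq z) = 4 * ev (fs ^ 2 * Ds ^ 4) (qq z) * uW z := by
  have hq := qq_lt hz
  have hf : ev fs (qq z) ≠ 0 := by
    rw [← f0_eq hz]
    exact f0_ne hz
  have hD := ev_Ds_ne hz
  have hY : Y0 z = (ev (th Ns) (qq z) * ev Ds (qq z) - ev Ns (qq z) * ev (th Ds) (qq z)) /
      (2 * ev fs (qq z) * ev Ds (qq z) ^ 2) := by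
    rw [Y0, deriv_X0_eq hz, f0_eq hz]
    have hpi : (Real.pi : ℂ) ≠ 0 := by exact_mod_cast Real.pi_ne_zero
    have hI := I_ne_zero
    field_simp
    ring
  rw [ev_Wr hq, ev_mul (conv_pow conv_fs 2) (conv_pow conv_Ds 4) hq, ev_pow conv_fs 2 hq,
    ev_pow conv_Ds 4 hq, uW, hY, X0_eq hz]
  generalize ev (th Ns) (qq z) = A
  generalize ev (th Ds) (qq z) = B
  generalize ev Ns (qq z) = N
  generalize ev fs (qq z) = F at hf ⊢
  generalize ev Ds (qq z) = D at hD ⊢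
  field_simp
  ring

private theorem low10 : (∀ n < 10, coeff n (fs ^ 2 * Ds ^ 4) = 0) ∧ coeff 10 (fs ^ 2 * Ds ^ 4) ≠ 0 := by
  have h1 : fs ^ 2 * Ds ^ 4 =
      X ^ 10 * ((P 2 ^ 2 * P 10 ^ 2) ^ 2 * (P 2 ^ 2 * P 20 ^ 4) ^ 4) := by
    rw [fs, Ds]
    ring
  constructor
  · intro n hn
    rw [h1, coeff_X_pow_mul', if_neg (by omega)]
  · rw [h1, coeff_X_pow_mul', if_pos (le_refl 10), Nat.sub_self, coeff_zero_eq_constantCoeff_apply]
    simp only [map_mul, map_pow]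
    rw [constantCoeff_P (by norm_num), constantCoeff_P (by norm_num), constantCoeff_P (by norm_num)]
    norm_num

private theorem uW_small : ∃ K : ℝ, ∀ᶠ z in imInf, ‖uW z‖ ≤ K * ‖qq z‖ := by
  obtain ⟨K, hK⟩ := ev_isBigO conv_Wr (m := 11) (fun n hn => Wr_coeff hn)
  obtain ⟨κ, r, hκ, hr, hκr⟩ := ev_lower (conv_mul (conv_pow conv_fs 2) (conv_pow conv_Ds 4))
    (m := 10) low10.1 low10.2
  refine ⟨K / (4 * κ), ?_⟩
  have hlim : Tendsto (fun z : ℂ => ‖qq z‖) imInf (𝓝 0) := by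
    have h1 : Tendsto Complex.im imInf atTop := tendsto_comap
    have h2 : Tendsto (fun y : ℝ => Real.exp (-(2 * Real.pi * y))) atTop (𝓝 0) := by
      refine Real.tendsto_exp_neg_atTop_nhds_zero.comp ?_
      exact tendsto_id.const_mul_atTop (by positivity)
    have h3 := h2.comp h1
    refine h3.congr ?_
    intro z
    rw [norm_qq]
    rfl
  have h4 : ∀ᶠ z in imInf, 0 < z.im := (tendsto_comap (f := Complex.im)).eventually_gt_atTop 0
  have h5 : ∀ᶠ z in imInf, ‖qq z‖ < min (1 / 2) r :=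
    hlim.eventually_lt_const (lt_min (by norm_num) hr)
  filter_upwards [h4, h5] with z hz hzq
  have h6 := hK (qq z) (hzq.le.trans (min_le_left _ _))
  have h7 := hκr (qq z) (hzq.le.trans (min_le_right _ _))
  have h8 : 0 < ‖qq z‖ := norm_pos_iff.2 (qq_ne z)
  rw [key_id hz, norm_mul, norm_mul] at h6
  have h9 : ‖(4 : ℂ)‖ = 4 := by norm_num
  rw [h9] at h6
  have h10 : 4 * (κ * ‖qq z‖ ^ 10) * ‖uW z‖ ≤ K * ‖qq z‖ ^ 11 := by
    refine le_trans ?_ h6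
    have := mul_le_mul_of_nonneg_right h7 (norm_nonneg (uW z))
    nlinarith
  have h11 : ‖qq z‖ ^ 10 * (4 * κ * ‖uW z‖) ≤ ‖qq z‖ ^ 10 * (K * ‖qq z‖) := by
    calc ‖qq z‖ ^ 10 * (4 * κ * ‖uW z‖) = 4 * (κ * ‖qq z‖ ^ 10) * ‖uW z‖ := by ring
      _ ≤ K * ‖qq z‖ ^ 11 := h10
      _ = ‖qq z‖ ^ 10 * (K * ‖qq z‖) := by ring
  have h12 := le_of_mul_le_mul_left h11 (by positivity)
  rw [div_mul_eq_mul_div, le_div_iff₀ (by positivity)]
  linarith

private theorem uW_zero {z : ℂ} (hz : 0 < z.im) : uW z = 0 := by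
  have hdiff : DifferentiableOn ℂ uW HH :=
    (Y0_diff.pow 2).sub (((X0_diff.pow 3).sub ((X0_diff.pow 2).const_mul 2)).add (X0_diff.const_mul 5))
  have hinv : Inv 20 0 uW := by
    intro a b c d h hc z hz
    rw [uW, Y0_inv a b c d h hc z hz, X0_inv a b c d h hc z hz, uW]
    simp
  obtain ⟨K, hK⟩ := uW_small
  have hbd : ∀ a b c d : ℤ, a * d - b * c = 1 →
      ∃ M : ℝ, ∀ᶠ z in imInf, ‖uW ((a * z + b) / (c * z + d))‖ ≤ M := by
    intro a b c d h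
    by_cases hc : (20 : ℤ) ∣ c
    · refine ⟨|K|, ?_⟩
      have h4 : ∀ᶠ z in imInf, 0 < z.im := (tendsto_comap (f := Complex.im)).eventually_gt_atTop 0
      filter_upwards [h4, hK] with z hz hz2
      have h5 := hinv a b c d h hc z hz
      rw [zpow_zero, one_mul] at h5
      rw [h5]
      have h6 := (qq_lt hz).le
      calc ‖uW z‖ ≤ K * ‖qq z‖ := hz2
        _ ≤ |K| * ‖qq z‖ := mul_le_mul_of_nonneg_right (le_abs_self K) (norm_nonneg _)
        _ ≤ |K| * 1 := mul_le_mul_of_nonneg_left h6 (abs_nonneg K)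
        _ = |K| := mul_one _
    · obtain ⟨M₁, hM₁⟩ := X0_cusp h hc
      obtain ⟨M₂, hM₂⟩ := Y0_cusp h hc
      refine ⟨M₂ ^ 2 + (M₁ ^ 3 + 2 * M₁ ^ 2 + 5 * M₁), ?_⟩
      filter_upwards [hM₁, hM₂] with z h1 h2
      rw [uW]
      generalize X0 ((a * z + b) / (c * z + d)) = x at h1 ⊢
      generalize Y0 ((a * z + b) / (c * z + d)) = y at h2 ⊢
      have e1 : ‖y ^ 2‖ ≤ M₂ ^ 2 := by
        rw [norm_pow]
        exact pow_le_pow_left₀ (norm_nonneg _) h2 2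
      have e2 : ‖x ^ 3‖ ≤ M₁ ^ 3 := by
        rw [norm_pow]
        exact pow_le_pow_left₀ (norm_nonneg _) h1 3
      have e3 : ‖2 * x ^ 2‖ ≤ 2 * M₁ ^ 2 := by
        rw [norm_mul, norm_pow, Complex.norm_two]
        have := pow_le_pow_left₀ (norm_nonneg _) h1 2
        linarith
      have e4 : ‖5 * x‖ ≤ 5 * M₁ := by
        have h5 : ‖(5 : ℂ)‖ = 5 := by norm_num
        rw [norm_mul, h5]
        linarith
      have e5 := norm_sub_le (y ^ 2) (x ^ 3 - 2 * x ^ 2 + 5 * x)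
      have e6 := norm_add_le (x ^ 3 - 2 * x ^ 2) (5 * x)
      have e7 := norm_sub_le (x ^ 3) (2 * x ^ 2)
      linarith
  obtain ⟨κ, hκ⟩ := liouville uW hdiff hinv hbd
  have hκ0 : κ = 0 := by
    have h1 : Tendsto (fun t : ℝ => (t : ℂ) * I) atTop imInf := by
      rw [imInf, tendsto_comap_iff]
      refine tendsto_id.congr ?_
      intro t
      simp
    have h2 := h1.eventually hK
    have h3 : Tendsto (fun t : ℝ => K * ‖qq ((t : ℂ) * I)‖) atTop (𝓝 0) := by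
      have h4 : Tendsto (fun t : ℝ => ‖qq ((t : ℂ) * I)‖) atTop (𝓝 0) := by
        have h5 : Tendsto (fun y : ℝ => Real.exp (-(2 * Real.pi * y))) atTop (𝓝 0) := by
          refine Real.tendsto_exp_neg_atTop_nhds_zero.comp ?_
          exact tendsto_id.const_mul_atTop (by positivity)
        refine h5.congr ?_
        intro t
        rw [norm_qq]
        simp
      simpa using h4.const_mul K
    have h6 : ∀ᶠ t : ℝ in atTop, ‖κ‖ ≤ K * ‖qq ((t : ℂ) * I)‖ := by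
      filter_upwards [h2, eventually_gt_atTop (0 : ℝ)] with t ht ht0
      rwa [hκ _ (by simpa using ht0)] at ht
    have h7 : ‖κ‖ ≤ 0 := ge_of_tendsto h3 h6
    exact norm_le_zero_iff.1 h7
  rw [hκ z hz, hκ0]

theorem Y_sq {z : ℂ} (hz : 0 < z.im) : Y0 z ^ 2 = X0 z ^ 3 - 2 * X0 z ^ 2 + 5 * X0 z :=
  sub_eq_zero.1 (uW_zero hz)

theorem Wr_eq_zero : Wr = 0 := by
  refine ev_inj conv_Wr ?_
  intro q hq h0
  obtain ⟨z, hz, rfl⟩ := exists_qq hq h0
  rw [key_id hz, uW_zero hz, mul_zero]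

end Pool.Agent.MTate
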