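import Pool.Agent.MTate.SerLog
import Pool.Agent.MTate.HeckeCoef
import Pool.Agent.MTate.IdentW
/-!
# MODULE Hasse (power series over `F_p`)
`b p ≡` Hasse invariant of `Y^2 = F(X) = X^3 - 2 X^2 + 5 X` modulo `p` (`p ≠ 2, 5`).

Proof. Work in the field `K = F_p((q))` (Laurent series over `ZMod p`, or the fraction field of
`F_p⟦q⟧`, or multiply everything by powers of `q` and stay in `F_p⟦q⟧`).  Let `f, N, D` be the images of
`fs, Ns, Ds`, `x = N/D`, `θ = q d/dq`, `y = θx/(2f)`; `Wr = 0` (`Wr_eq_zero`) says `y^2 = F(x)`; `y ≠ 0` because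
`θx = -2 q^-2 + ...`.  For `g = ∑ g_n q^n` put `U g = ∑ g_{pn} q^n`.
(i) `U(h^p g) = h U(g)`: `h^p = ∑ h_n q^{pn}` in characteristic `p`.
(ii) `U f = b_p f`: `b(pn) ≡ b(p) b(n) mod p` (`hecke_coef`).
(iii) `L = θx/x = θN/N - θD/D` satisfies `U L = L`: by `th_P` it is an integral combination of a constant
(`-2` from `X^2` in `Ds`) and of the series `sig k`, `k ∈ {2,4,10,20}`, and the coefficient of `q^{pm}` in
`sig k` is `k σ(pm/k) ≡ k σ(m/k)` (`p ∤ k`; `σ(pm') ≡ σ(m') mod p`, and `k ∣ pm ↔ k ∣ m`).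
(iv) `U(x^j θx) = U(x^{j+1} L)` is `0` if `p ∤ j+1` (then `x^j θx = θ(x^{j+1})/(j+1)` has coefficient
`p n (...) = 0` at `q^{pn}`) and is `x L = θx` if `j + 1 = p` by (i), (iii).
(v) `y^p f = y^{p-1} (y f) = F(x)^{(p-1)/2} θx/2`.  Apply `U`: the left side gives `y b_p f`, the right side
`(1/2) ∑_j c_j U(x^j θx) = (1/2) c_{p-1} θx = c_{p-1} y f`, where `F^{(p-1)/2} = ∑ c_j X^j` has degree
`3(p-1)/2 < 2p - 1`.  Cancel `y f ≠ 0`.
-/
namespace Pool.Agent.MTate

open PowerSeries

section Hasse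

variable {p : ℕ} [hpf : Fact p.Prime]

/-- the operator `U` -/
private noncomputable def Uo (p : ℕ) [Fact p.Prime] :
    PowerSeries (ZMod p) →ₗ[ZMod p] PowerSeries (ZMod p) where
  toFun g := PowerSeries.mk fun n => coeff (p * n) g
  map_add' g h := by
    ext n
    simp
  map_smul' c g := by
    ext n
    simp

private theorem coeff_Uo (g : PowerSeries (ZMod p)) (n : ℕ) :
    coeff n (Uo p g) = coeff (p * n) g := by
  simp [Uo]

private theorem coeff_frob (h : PowerSeries (ZMod p)) (n : ℕ) :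
    coeff n (h ^ p) = if p ∣ n then coeff (n / p) h else 0 := by
  have hp := hpf.out
  have h1 : coeff n (h ^ p) = (trunc (n + 1) (h ^ p)).coeff n := by
    rw [coeff_trunc, if_pos (Nat.lt_succ_self n)]
  rw [h1, ← trunc_trunc_pow, coeff_trunc, if_pos (Nat.lt_succ_self n)]
  have h2 : ((trunc (n + 1) h : PowerSeries (ZMod p)) ^ p) =
      ((trunc (n + 1) h ^ p : Polynomial (ZMod p)) : PowerSeries (ZMod p)) := by
    rw [Polynomial.coe_pow]
  rw [h2, Polynomial.coeff_coe, ← ZMod.expand_card, Polynomial.coeff_expand hp.pos]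
  split_ifs with h3
  · rw [coeff_trunc, if_pos (Nat.lt_succ_of_le (Nat.div_le_self n p))]
  · rfl

private theorem Uo_pow_mul (h g : PowerSeries (ZMod p)) :
    Uo p (h ^ p * g) = h * Uo p g := by
  have hp := hpf.out
  ext n
  rw [coeff_Uo, coeff_mul, coeff_mul]
  symm
  apply Finset.sum_of_injOn (fun y : ℕ × ℕ => (p * y.1, p * y.2))
  · intro x _ y _ hxy
    simp only [Prod.mk.injEq] at hxy
    exact Prod.ext (Nat.eq_of_mul_eq_mul_left hp.pos hxy.1)
      (Nat.eq_of_mul_eq_mul_left hp.pos hxy.2)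
  · intro y hy
    rw [Finset.mem_coe, Finset.HasAntidiagonal.mem_antidiagonal] at hy ⊢
    show p * y.1 + p * y.2 = p * n
    rw [← mul_add, hy]
  · rintro ⟨i, j⟩ hij hnot
    rw [Finset.HasAntidiagonal.mem_antidiagonal] at hij
    replace hij : i + j = p * n := hij
    show coeff i (h ^ p) * coeff j g = 0
    rw [coeff_frob]
    split_ifs with h3
    · exfalso
      apply hnot
      obtain ⟨i', rfl⟩ := h3
      have h4 : p ∣ j := by
        have h5 : p ∣ p * i' + j := by rw [hij]; exact dvd_mul_right _ _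
        exact (Nat.dvd_add_right (dvd_mul_right _ _)).1 h5
      obtain ⟨j', rfl⟩ := h4
      refine ⟨(i', j'), ?_, rfl⟩
      rw [Finset.mem_coe, Finset.HasAntidiagonal.mem_antidiagonal]
      have : p * (i' + j') = p * n := by rw [mul_add]; exact hij
      exact Nat.eq_of_mul_eq_mul_left hp.pos this
    · rw [zero_mul]
  · intro y _
    simp only
    rw [coeff_frob, if_pos (dvd_mul_right _ _), Nat.mul_div_cancel_left _ hp.pos, coeff_Uo]

private theorem Uo_th (g : PowerSeries (ZMod p)) : Uo p (th g) = 0 := by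
  ext n
  rw [coeff_Uo, coeff_th]
  simp

private theorem Uo_C_mul (c : ZMod p) (g : PowerSeries (ZMod p)) :
    Uo p (C c * g) = C c * Uo p g := by
  rw [← smul_eq_C_mul, map_smul, smul_eq_C_mul]

private theorem sigma_mul_p (m : ℕ) :
    ((ArithmeticFunction.sigma 1 (p * m) : ℕ) : ZMod p) = (ArithmeticFunction.sigma 1 m : ℕ) := by
  have hp := hpf.out
  rcases Nat.eq_zero_or_pos m with rfl | hm
  · simp
  rw [ArithmeticFunction.sigma_one_apply, ArithmeticFunction.sigma_one_apply]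
  push_cast
  have key : ∀ M : ℕ, ∑ d ∈ M.divisors, (d : ZMod p) =
      ∑ d ∈ M.divisors.filter (fun d => ¬ p ∣ d), (d : ZMod p) := by
    intro M
    rw [Finset.sum_filter]
    refine Finset.sum_congr rfl fun d _ => ?_
    split_ifs with h
    · exact (ZMod.natCast_eq_zero_iff d p).2 h
    · rfl
  rw [key, key]
  congr 1
  ext d
  simp only [Finset.mem_filter, Nat.mem_divisors]
  constructor
  · rintro ⟨⟨h1, _⟩, h3⟩
    exact ⟨⟨((Nat.Prime.coprime_iff_not_dvd hp).2 h3).symm.dvd_of_dvd_mul_left h1, hm.ne'⟩, h3⟩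
  · rintro ⟨⟨h1, _⟩, h3⟩
    exact ⟨⟨h1.mul_left p, Nat.mul_ne_zero hp.ne_zero hm.ne'⟩, h3⟩

/-- reduction of `sig k` -/
private noncomputable def sg (p k : ℕ) [Fact p.Prime] : PowerSeries (ZMod p) :=
  PowerSeries.map (Int.castRingHom (ZMod p)) (sig k)

private theorem coeff_sg (k m : ℕ) : coeff m (sg p k) =
    if k ∣ m then (k : ZMod p) * ((ArithmeticFunction.sigma 1 (m / k) : ℕ) : ZMod p) else 0 := by
  rw [sg, coeff_map, sig, coeff_mk]
  split_ifs <;> simp

private theorem coeff_sg_mul {k : ℕ} (hk : 0 < k) (hkp : Nat.Coprime k p) (m : ℕ) :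
    coeff (p * m) (sg p k) = coeff m (sg p k) := by
  rw [coeff_sg, coeff_sg]
  by_cases h : k ∣ m
  · rw [if_pos h, if_pos (h.mul_left p)]
    obtain ⟨m', rfl⟩ := h
    rw [Nat.mul_div_cancel_left _ hk, mul_left_comm, Nat.mul_div_cancel_left _ hk, sigma_mul_p]
  · rw [if_neg h, if_neg fun h' => h (hkp.dvd_of_dvd_mul_left h')]

private theorem map_P_ne {k : ℕ} (hk : 0 < k) :
    PowerSeries.map (Int.castRingHom (ZMod p)) (P k) ≠ 0 := by
  intro h
  have h1 := congrArg (constantCoeff (R := ZMod p)) h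
  rw [← coeff_zero_eq_constantCoeff_apply, coeff_map, coeff_zero_eq_constantCoeff_apply,
    constantCoeff_P hk, map_zero, map_one] at h1
  exact one_ne_zero h1

private theorem fld_aux {K : Type*} [Field K] (a d : K) (hd : d ≠ 0) :
    a * (a ^ 2 - 2 * a * d + 5 * d ^ 2) =
      d ^ 3 * ((a / d) ^ 3 - 2 * (a / d) ^ 2 + 5 * (a / d)) := by
  field_simp

private theorem fld_aux' {K : Type*} [Field K] (a d e : K) (hd : d ≠ 0) (j k : ℕ) :
    d ^ j * d ^ k * (e * (a ^ j / d ^ j)) = e * a ^ j * d ^ k := by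
  field_simp

/-- homogenised evaluation of a power of `X^3 - 2 X^2 + 5 X`. -/
private theorem homog {R : Type*} [Field R] (N D : PowerSeries R) (hD : D ≠ 0) (m : ℕ) :
    (N * (N ^ 2 - 2 * N * D + 5 * D ^ 2)) ^ m =
      ∑ j ∈ Finset.range (3 * m + 1),
        C (((Polynomial.X ^ 3 - 2 * Polynomial.X ^ 2 + 5 * Polynomial.X : Polynomial R) ^ m).coeff j)
          * N ^ j * D ^ (3 * m - j) := by
  set F : Polynomial R := Polynomial.X ^ 3 - 2 * Polynomial.X ^ 2 + 5 * Polynomial.X with hF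
  let K := FractionRing (PowerSeries R)
  let i : PowerSeries R →+* K := algebraMap (PowerSeries R) K
  have hi : Function.Injective i := IsFractionRing.injective (PowerSeries R) K
  have hD' : i D ≠ 0 := fun h => hD (hi (h.trans (map_zero i).symm))
  apply hi
  have hdeg : F.natDegree ≤ 3 := by
    rw [hF]
    compute_degree
  have hdeg' : (F ^ m).natDegree < 3 * m + 1 := by
    have := Polynomial.natDegree_pow_le_of_le m hdeg
    omega
  have h1 : i (N * (N ^ 2 - 2 * N * D + 5 * D ^ 2)) =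
      i D ^ 3 * Polynomial.eval₂ (i.comp (C (R := R))) (i N / i D) F := by
    rw [hF]
    simp only [Polynomial.eval₂_add, Polynomial.eval₂_sub, Polynomial.eval₂_mul,
      Polynomial.eval₂_pow, Polynomial.eval₂_X, Polynomial.eval₂_ofNat]
    simp only [map_mul, map_add, map_sub, map_pow, map_ofNat]
    exact fld_aux (i N) (i D) hD'
  rw [map_pow, h1, mul_pow, ← Polynomial.eval₂_pow, Polynomial.eval₂_eq_sum_range' _ hdeg',
    Finset.mul_sum, map_sum]
  refine Finset.sum_congr rfl fun j hj => ?_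
  rw [Finset.mem_range] at hj
  have h2 : (i D ^ 3) ^ m = i D ^ j * i D ^ (3 * m - j) := by
    rw [← pow_mul, ← pow_add]
    congr 1
    omega
  rw [h2, map_mul, map_mul, map_pow, map_pow, div_pow, RingHom.comp_apply]
  exact fld_aux' (i N) (i D) _ hD' j (3 * m - j)

end Hasse

theorem hasse {p : ℕ} [Fact p.Prime] (h2 : p ≠ 2) (h5 : p ≠ 5) :
    ((b p : ℤ) : ZMod p) =
      ((Polynomial.X ^ 3 - 2 * Polynomial.X ^ 2 + 5 * Polynomial.X : Polynomial (ZMod p))
        ^ ((p - 1) / 2)).coeff (p - 1) := by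
  have hp := (Fact.out : p.Prime)
  have hodd : p % 2 = 1 := hp.eq_two_or_odd.resolve_left h2
  obtain ⟨m, hm⟩ : ∃ m, p = 2 * m + 1 := ⟨p / 2, by omega⟩
  have hm1 : (p - 1) / 2 = m := by omega
  have hm2 : p - 1 = 2 * m := by omega
  rw [hm1, hm2]
  have h20 : ¬ p ∣ 20 := by
    intro h
    have h6 : p ∣ 2 ^ 2 * 5 := by norm_num at h ⊢; exact h
    rcases hp.dvd_mul.1 h6 with h7 | h7
    · exact h2 ((Nat.prime_dvd_prime_iff_eq hp Nat.prime_two).1 (hp.dvd_of_dvd_pow h7))
    · exact h5 ((Nat.prime_dvd_prime_iff_eq hp Nat.prime_five).1 h7)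
  have hpw : ∀ g : PowerSeries (ZMod p), g ^ p = g ^ (2 * m + 1) := fun g =>
    congrArg (fun e : ℕ => g ^ e) hm
  have hcop : ∀ k : ℕ, k ∣ 20 → Nat.Coprime k p := by
    intro k hk
    have h6 : Nat.Coprime p 20 := (Nat.Prime.coprime_iff_not_dvd hp).2 h20
    exact (Nat.Coprime.coprime_dvd_right hk h6).symm
  have h2z : (2 : ZMod p) ≠ 0 := by
    intro h
    have h6 : ((2 : ℕ) : ZMod p) = 0 := by exact_mod_cast h
    rw [ZMod.natCast_eq_zero_iff] at h6
    exact h2 ((Nat.prime_dvd_prime_iff_eq hp Nat.prime_two).1 h6)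
  set φ := Int.castRingHom (ZMod p) with hφ
  set f := PowerSeries.map φ fs with hf
  set N := PowerSeries.map φ Ns with hN
  set D := PowerSeries.map φ Ds with hD
  set c : ℕ → ZMod p := fun j =>
    ((Polynomial.X ^ 3 - 2 * Polynomial.X ^ 2 + 5 * Polynomial.X : Polynomial (ZMod p)) ^ m).coeff j
    with hc
  show ((b p : ℤ) : ZMod p) = c (2 * m)
  set T := th N * D - N * th D with hT
  set L : PowerSeries (ZMod p) := C (-4) * sg p 4 + C (-2) * sg p 10 + C (-2) + C 2 * sg p 2
    + C 4 * sg p 20 with hL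
  -- nonvanishing
  have hf0 : f ≠ 0 := by
    rw [hf, fs, map_mul, map_mul, map_pow, map_pow, map_X]
    exact mul_ne_zero (mul_ne_zero X_ne_zero (pow_ne_zero _ (map_P_ne (by norm_num))))
      (pow_ne_zero _ (map_P_ne (by norm_num)))
  have hN0 : N ≠ 0 := by
    rw [hN, Ns, map_mul, map_pow, map_pow]
    exact mul_ne_zero (pow_ne_zero _ (map_P_ne (by norm_num)))
      (pow_ne_zero _ (map_P_ne (by norm_num)))
  have hD0 : D ≠ 0 := by
    rw [hD, Ds, map_mul, map_mul, map_pow, map_pow, map_pow, map_X]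
    exact mul_ne_zero (mul_ne_zero (pow_ne_zero _ X_ne_zero)
      (pow_ne_zero _ (map_P_ne (by norm_num)))) (pow_ne_zero _ (map_P_ne (by norm_num)))
  have hL0 : L ≠ 0 := by
    intro h
    have h6 := congrArg (coeff (R := ZMod p) 0) h
    rw [hL] at h6
    simp only [map_add, coeff_C_mul, coeff_sg, Nat.zero_div, map_zero] at h6
    simp only [ArithmeticFunction.map_zero, Nat.cast_zero, mul_zero, ite_self, add_zero, zero_add,
      coeff_zero_C, neg_eq_zero] at h6
    exact h2z h6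
  -- T = N D L
  have hthN : th N = N * (C (-4) * sg p 4 + C (-2) * sg p 10) := by
    rw [hN, th_map, Ns, th_mul, th_pow, th_pow, th_P (by norm_num), th_P (by norm_num)]
    simp only [map_add, map_mul, map_pow, map_neg, map_natCast, sg, ← hφ, map_ofNat]
    push_cast
    ring
  have hthD : th D = D * (C 2 + C (-2) * sg p 2 + C (-4) * sg p 20) := by
    rw [hD, th_map, Ds, th_mul, th_mul, th_X_pow, th_pow, th_pow, th_P (by norm_num),
      th_P (by norm_num)]
    simp only [map_add, map_mul, map_pow, map_neg, map_natCast, sg, ← hφ, map_ofNat]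
    push_cast
    ring
  have hTL : T = N * D * L := by
    rw [hT, hthN, hthD, hL]
    simp only [map_neg]
    ring
  have hT0 : T ≠ 0 := by
    rw [hTL]
    exact mul_ne_zero (mul_ne_zero hN0 hD0) hL0
  -- U L = L
  have hUL : Uo p L = L := by
    ext n
    rw [coeff_Uo, hL]
    simp only [map_add, coeff_C_mul, coeff_sg_mul (by norm_num : 0 < 4) (hcop 4 (by norm_num)),
      coeff_sg_mul (by norm_num : 0 < 10) (hcop 10 (by norm_num)),
      coeff_sg_mul (by norm_num : 0 < 2) (hcop 2 (by norm_num)),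
      coeff_sg_mul (by norm_num : 0 < 20) (hcop 20 (by norm_num))]
    have h6 : (coeff (p * n)) (C (-2 : ZMod p)) = coeff n (C (-2 : ZMod p)) := by
      rw [coeff_C, coeff_C]
      by_cases h : n = 0
      · subst h
        simp
      · rw [if_neg h, if_neg (Nat.mul_ne_zero hp.ne_zero h)]
    rw [h6]
  -- U f = b_p f
  have hUf : Uo p f = C ((b p : ℤ) : ZMod p) * f := by
    ext n
    rw [coeff_Uo, coeff_C_mul, hf, coeff_map, coeff_map]
    have h6 := congrArg (fun z : ℤ => (z : ZMod p)) (hecke_coef hp h20 n)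
    simp only [Int.cast_add, Int.cast_mul] at h6
    have h7 : (((if p ∣ n then (p : ℤ) * b (n / p) else 0 : ℤ)) : ZMod p) = 0 := by
      split_ifs <;> simp
    rw [h7, add_zero] at h6
    show ((b (p * n) : ℤ) : ZMod p) = (b p : ℤ) * ((b n : ℤ) : ZMod p)
    exact h6
  -- the equation of the curve
  have hWr : T ^ 2 = 4 * f ^ 2 * (N * (N ^ 2 - 2 * N * D + 5 * D ^ 2)) * D := by
    have h6 := congrArg (PowerSeries.map φ) Wr_eq_zero
    rw [Wr, map_zero] at h6
    simp only [map_sub, map_add, map_mul, map_pow, map_ofNat, ← th_map] at h6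
    rw [← hN, ← hD, ← hf, ← hT] at h6
    linear_combination h6
  have hpow : 2 * (T ^ p * f) = (2 * f) ^ p *
      ∑ j ∈ Finset.range (3 * m + 1), C (c j) * (N ^ j * D ^ (4 * m - j) * T) := by
    have h6 := homog N D hD0 m
    have h7 : T ^ p = T * (T ^ 2) ^ m := by
      rw [hpw, pow_succ', pow_mul]
    rw [h7, hWr, mul_pow, mul_pow, h6]
    have h8 : (∑ j ∈ Finset.range (3 * m + 1), C (c j) * (N ^ j * D ^ (4 * m - j) * T)) =
        (∑ j ∈ Finset.range (3 * m + 1), C (c j) * N ^ j * D ^ (3 * m - j)) * D ^ m * T := by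
      rw [Finset.sum_mul, Finset.sum_mul]
      refine Finset.sum_congr rfl fun j hj => ?_
      rw [Finset.mem_range] at hj
      have h9 : 4 * m - j = (3 * m - j) + m := by omega
      rw [h9, pow_add]
      ring
    rw [h8]
    have h9 : (2 * f) ^ p = 2 * f * (4 * f ^ 2) ^ m := by
      have h10 : (4 * f ^ 2 : PowerSeries (ZMod p)) = (2 * f) ^ 2 := by ring
      rw [h10, ← pow_mul, hpw, pow_succ']
    rw [h9]
    ring
  have hUj : ∀ j ∈ Finset.range (3 * m + 1), j ≠ 2 * m →
      Uo p (C (c j) * (N ^ j * D ^ (4 * m - j) * T)) = 0 := by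
    intro j hj hj2
    rw [Finset.mem_range] at hj
    have hj1 : ((j + 1 : ℕ) : ZMod p) ≠ 0 := by
      rw [Ne, ZMod.natCast_eq_zero_iff]
      rintro ⟨t, ht⟩
      have h6 : t < 2 := by
        by_contra h
        push Not at h
        have h7 : p * 2 ≤ p * t := Nat.mul_le_mul_left _ h
        omega
      interval_cases t
      · omega
      · omega
    have h6 : C ((j + 1 : ℕ) : ZMod p) * (N ^ j * D ^ (4 * m - j) * T) =
        th (N ^ (j + 1) * D ^ (4 * m - j + 1)) := by
      rw [th_mul, th_pow, th_pow, Nat.add_sub_cancel, Nat.add_sub_cancel, hT]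
      have h7 : ((4 * m - j + 1 : ℕ) : PowerSeries (ZMod p)) = -((j + 1 : ℕ) : PowerSeries (ZMod p)) := by
        rw [eq_neg_iff_add_eq_zero, ← Nat.cast_add]
        have h8 : 4 * m - j + 1 + (j + 1) = p * 2 := by omega
        rw [h8, Nat.cast_mul]
        have h9 : ((p : ℕ) : PowerSeries (ZMod p)) = 0 := by
          have := map_natCast (C (R := ZMod p)) p
          rw [← this, CharP.cast_eq_zero, map_zero]
        rw [h9, zero_mul]
      rw [h7, map_natCast]
      ring
    have h7 : Uo p (C ((j + 1 : ℕ) : ZMod p) * (N ^ j * D ^ (4 * m - j) * T)) = 0 := by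
      rw [h6, Uo_th]
    rw [Uo_C_mul] at h7
    have h8 : (C ((j + 1 : ℕ) : ZMod p) : PowerSeries (ZMod p)) ≠ 0 := by
      intro h
      apply hj1
      have := congrArg (coeff (R := ZMod p) 0) h
      simpa using this
    rw [Uo_C_mul, (mul_eq_zero.1 h7).resolve_left h8, mul_zero]
  have hU2m : Uo p (C (c (2 * m)) * (N ^ (2 * m) * D ^ (4 * m - 2 * m) * T)) =
      C (c (2 * m)) * T := by
    rw [Uo_C_mul]
    have h6 : N ^ (2 * m) * D ^ (4 * m - 2 * m) * T = (N * D) ^ p * L := by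
      have h7 : 4 * m - 2 * m = 2 * m := by omega
      rw [h7, hTL, hpw]
      ring
    rw [h6, Uo_pow_mul, hUL, ← hTL]
  have hfin := congrArg (Uo p) hpow
  have hl : Uo p (2 * (T ^ p * f)) = 2 * (T * (C ((b p : ℤ) : ZMod p) * f)) := by
    have h6 : (2 : PowerSeries (ZMod p)) = C 2 := (map_ofNat _ 2).symm
    rw [h6, Uo_C_mul, Uo_pow_mul, hUf]
  rw [hl, Uo_pow_mul, map_sum, Finset.sum_eq_single_of_mem (2 * m)
    (Finset.mem_range.2 (by omega)) hUj, hU2m] at hfin
  have h6 : (2 * f * T) * (C ((b p : ℤ) : ZMod p) - C (c (2 * m))) = 0 := by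
    linear_combination hfin
  have h7 : (2 * f * T) ≠ 0 := by
    refine mul_ne_zero (mul_ne_zero ?_ hf0) hT0
    intro h
    apply h2z
    have h8 : (2 : PowerSeries (ZMod p)) = C 2 := (map_ofNat _ 2).symm
    rw [h8] at h
    have := congrArg (coeff (R := ZMod p) 0) h
    simpa using this
  have h8 := (mul_eq_zero.1 h6).resolve_left h7
  have h9 := congrArg (coeff (R := ZMod p) 0) (sub_eq_zero.1 h8)
  simpa using h9

end Pool.Agent.MTate
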