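import Pool.Agent.MTate.SerP

/-!
# MODULE SerTrG (finite computation with truncated power series)
The coefficients of `q^0, ..., q^11` of `Gr` vanish.

Data (mod `X^12`): `P 1 ≡ 1 - X - X^2 + X^5 + X^7`, `P 2 ≡ 1 - X^2 - X^4 + X^10`, `P 4 ≡ 1 - X^4 - X^8`,
`P 5 ≡ 1 - X^5 - X^10`, `P 10 ≡ 1 - X^10`, `P 20 ≡ 1`.
Every summand of `Gr` is divisible by `X^5`, so only the seven first coefficients of the cofactor have
to be computed.  See the header of `SerTrW` for the method.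
Also: `4 * fs * Ds^2 * NGs` has order exactly 5 with leading coefficient 4 (used later).
-/

namespace Pool.Agent.MTate
open PowerSeries

namespace TrG

/-- the finite product decides the truncation -/
theorem P_mod {k : ℕ} (hk : 0 < k) {p : PowerSeries ℤ}
    (h : (X : PowerSeries ℤ) ^ 7 ∣
      (∏ n ∈ Finset.range (6 + 1), (1 - X ^ (k * (n + 1)) : PowerSeries ℤ)) - p) :
    (X : PowerSeries ℤ) ^ 7 ∣ P k - p := by
  rw [X_pow_dvd_iff] at h ⊢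
  intro m hm
  have h1 := h m hm
  rw [map_sub] at h1 ⊢
  rw [coeff_P hk (Nat.lt_succ_iff.1 hm)]
  exact h1

theorem th_mod {a c : PowerSeries ℤ} (h : (X : PowerSeries ℤ) ^ 7 ∣ a - c) :
    (X : PowerSeries ℤ) ^ 7 ∣ th a - th c := by
  rw [X_pow_dvd_iff] at h ⊢
  intro m hm
  have h1 := h m hm
  rw [map_sub] at h1 ⊢
  rw [coeff_th, coeff_th, ← mul_sub, h1, mul_zero]

theorem P1_mod : (X : PowerSeries ℤ) ^ 7 ∣ P 1 - (1 - X - X ^ 2 + X ^ 5) := by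
  refine P_mod one_pos ⟨1 + X - X ^ 3 - X ^ 4 - 2 * X ^ 5 + 2 * X ^ 9 + X ^ 10 + X ^ 11 - X ^ 13
    - X ^ 14 - X ^ 16 + X ^ 19 + X ^ 20 - X ^ 21, ?_⟩
  simp only [Finset.prod_range_succ, Finset.prod_range_zero]
  ring

theorem P2_mod : (X : PowerSeries ℤ) ^ 7 ∣ P 2 - (1 - X ^ 2 - X ^ 4) := by
  refine P_mod two_pos ⟨X ^ 3 + X ^ 7 + X ^ 9 - X ^ 13 - X ^ 15 - 2 * X ^ 17 + 2 * X ^ 25 + X ^ 27
    + X ^ 29 - X ^ 33 - X ^ 35 - X ^ 39 + X ^ 45 + X ^ 47 - X ^ 49, ?_⟩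
  simp only [Finset.prod_range_succ, Finset.prod_range_zero]
  ring

theorem P4_mod : (X : PowerSeries ℤ) ^ 7 ∣ P 4 - (1 - X ^ 4) := by
  refine P_mod (by norm_num) ⟨-X + X ^ 13 + X ^ 21 + X ^ 25 - X ^ 33 - X ^ 37 - 2 * X ^ 41
    + 2 * X ^ 57 + X ^ 61 + X ^ 65 - X ^ 73 - X ^ 77 - X ^ 85 + X ^ 97 + X ^ 101 - X ^ 105, ?_⟩
  simp only [Finset.prod_range_succ, Finset.prod_range_zero]
  ring

theorem P5_mod : (X : PowerSeries ℤ) ^ 7 ∣ P 5 - (1 - X ^ 5) := by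
  refine P_mod (by norm_num) ⟨-X ^ 3 + X ^ 18 + X ^ 28 + X ^ 33 - X ^ 43 - X ^ 48 - 2 * X ^ 53
    + 2 * X ^ 73 + X ^ 78 + X ^ 83 - X ^ 93 - X ^ 98 - X ^ 108 + X ^ 123 + X ^ 128 - X ^ 133, ?_⟩
  simp only [Finset.prod_range_succ, Finset.prod_range_zero]
  ring

theorem P10_mod : (X : PowerSeries ℤ) ^ 7 ∣ P 10 - 1 := by
  refine P_mod (by norm_num) ⟨-X ^ 3 - X ^ 13 + X ^ 43 + X ^ 63 + X ^ 73 - X ^ 93 - X ^ 103
    - 2 * X ^ 113 + 2 * X ^ 153 + X ^ 163 + X ^ 173 - X ^ 193 - X ^ 203 - X ^ 223 + X ^ 253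
    + X ^ 263 - X ^ 273, ?_⟩
  simp only [Finset.prod_range_succ, Finset.prod_range_zero]
  ring

theorem P20_mod : (X : PowerSeries ℤ) ^ 7 ∣ P 20 - 1 := by
  refine P_mod (by norm_num) ⟨-X ^ 13 - X ^ 33 + X ^ 93 + X ^ 133 + X ^ 153 - X ^ 193 - X ^ 213
    - 2 * X ^ 233 + 2 * X ^ 313 + X ^ 333 + X ^ 353 - X ^ 393 - X ^ 413 - X ^ 453 + X ^ 513
    + X ^ 533 - X ^ 553, ?_⟩
  simp only [Finset.prod_range_succ, Finset.prod_range_zero]
  ring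

/-- the ideal -/
noncomputable abbrev I7 : Ideal (PowerSeries ℤ) := Ideal.span {(X : PowerSeries ℤ) ^ 7}

theorem mk_eq {a c : PowerSeries ℤ} (h : (X : PowerSeries ℤ) ^ 7 ∣ a - c) :
    Ideal.Quotient.mk I7 a = Ideal.Quotient.mk I7 c := by
  rw [Ideal.Quotient.eq, Ideal.mem_span_singleton]
  exact h

theorem dvd_of_mk {a c : PowerSeries ℤ} (h : Ideal.Quotient.mk I7 a = Ideal.Quotient.mk I7 c) :
    (X : PowerSeries ℤ) ^ 7 ∣ a - c := by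
  rwa [Ideal.Quotient.eq, Ideal.mem_span_singleton] at h

theorem hx7 : Ideal.Quotient.mk I7 X ^ 7 = 0 := by
  rw [← map_pow, Ideal.Quotient.eq_zero_iff_mem, Ideal.mem_span_singleton]

theorem m1 : Ideal.Quotient.mk I7 (P 1) = 1 - Ideal.Quotient.mk I7 X -
    Ideal.Quotient.mk I7 X ^ 2 + Ideal.Quotient.mk I7 X ^ 5 := by
  rw [mk_eq P1_mod]
  simp only [map_sub, map_add, map_one, map_pow]

theorem m2 : Ideal.Quotient.mk I7 (P 2) = 1 - Ideal.Quotient.mk I7 X ^ 2 -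
    Ideal.Quotient.mk I7 X ^ 4 := by
  rw [mk_eq P2_mod]
  simp only [map_sub, map_one, map_pow]

theorem m4 : Ideal.Quotient.mk I7 (P 4) = 1 - Ideal.Quotient.mk I7 X ^ 4 := by
  rw [mk_eq P4_mod]
  simp only [map_sub, map_one, map_pow]

theorem m5 : Ideal.Quotient.mk I7 (P 5) = 1 - Ideal.Quotient.mk I7 X ^ 5 := by
  rw [mk_eq P5_mod]
  simp only [map_sub, map_one, map_pow]

theorem m10 : Ideal.Quotient.mk I7 (P 10) = 1 := by
  rw [mk_eq P10_mod, map_one]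

theorem m20 : Ideal.Quotient.mk I7 (P 20) = 1 := by
  rw [mk_eq P20_mod, map_one]

/-- the series without the power of the variable -/
noncomputable def D' : PowerSeries ℤ := P 2 ^ 2 * P 20 ^ 4

theorem Ns_mod : (X : PowerSeries ℤ) ^ 7 ∣ Ns - (1 - C 4 * X ^ 4) := by
  apply dvd_of_mk
  rw [Ns, map_mul, map_pow, map_pow, m4, m10, map_sub, map_one, map_mul, map_pow]
  have h4 : Ideal.Quotient.mk I7 (C (4 : ℤ)) = 4 := by
    rw [map_ofNat, map_ofNat]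
  rw [h4]
  linear_combination (6 * Ideal.Quotient.mk I7 X - 4 * Ideal.Quotient.mk I7 X ^ 5 +
    Ideal.Quotient.mk I7 X ^ 9) * hx7

theorem D_mod : (X : PowerSeries ℤ) ^ 7 ∣ D' - (1 - C 2 * X ^ 2 - X ^ 4 + C 2 * X ^ 6) := by
  apply dvd_of_mk
  have h2 : Ideal.Quotient.mk I7 (C (2 : ℤ)) = 2 := by
    rw [map_ofNat, map_ofNat]
  simp only [D', map_mul, map_pow, map_sub, map_add, map_one, m2, m20, h2]
  linear_combination (Ideal.Quotient.mk I7 X) * hx7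

theorem th_C_mul (a : ℤ) (n : ℕ) : th (C a * X ^ n : PowerSeries ℤ) = C (a * n) * X ^ n := by
  ext m
  rw [coeff_th, coeff_C_mul, coeff_C_mul, coeff_X_pow]
  split_ifs with h
  · rw [h]
    push_cast
    ring
  · ring

theorem th_one_trg : th (1 : PowerSeries ℤ) = 0 := by
  ext m
  rw [coeff_th, coeff_one, map_zero]
  split_ifs with h
  · rw [h]
    norm_num
  · ring

theorem mthN : Ideal.Quotient.mk I7 (th Ns) = -16 * Ideal.Quotient.mk I7 X ^ 4 := by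
  rw [mk_eq (th_mod Ns_mod), th_sub, th_one_trg, th_C_mul, zero_sub, map_neg, map_mul, map_pow]
  have h16 : Ideal.Quotient.mk I7 (C ((4 : ℤ) * ((4 : ℕ) : ℤ))) = 16 := by
    have h1 : ((4 : ℤ) * ((4 : ℕ) : ℤ)) = 16 := by norm_num
    rw [h1, map_ofNat, map_ofNat]
  rw [h16]
  ring

theorem mthD : Ideal.Quotient.mk I7 (th D') = -4 * Ideal.Quotient.mk I7 X ^ 2 -
    4 * Ideal.Quotient.mk I7 X ^ 4 + 12 * Ideal.Quotient.mk I7 X ^ 6 := by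
  rw [mk_eq (th_mod D_mod), th_add, th_sub, th_sub, th_one_trg, th_C_mul, th_C_mul]
  have h0 : (X ^ 4 : PowerSeries ℤ) = C 1 * X ^ 4 := by rw [map_one, one_mul]
  rw [h0, th_C_mul]
  simp only [map_add, map_sub, map_zero, map_mul, map_pow, eq_intCast, map_intCast]
  push_cast
  ring

/-- the cofactor of `Gr` -/
noncomputable def Cof : PowerSeries ℤ :=
  2 * X * (P 2 ^ 2 * P 10 ^ 2) * D' * (P 1 * P 20 ^ 5) * Ns
    + 2 * X ^ 3 * (P 2 ^ 2 * P 10 ^ 2) * D' ^ 2 * (P 1 * P 20 ^ 5)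
    - 2 * (P 2 ^ 2 * P 10 ^ 2) * D' ^ 2 * NGs
    - (th Ns * D' - 2 * Ns * D' - Ns * th D') * (P 1 * P 20 ^ 5)

theorem Ds_eq : Ds = X ^ 2 * D' := by
  rw [Ds, D']
  ring

theorem th_Ds : th Ds = 2 * X ^ 2 * D' + X ^ 2 * th D' := by
  rw [Ds_eq, th_mul, th_X_pow]
  norm_num

theorem Gr_eq : Gr = X ^ 5 * Cof := by
  rw [Gr, th_Ds, Ds_eq, fs, DGs, Cof]
  ring

theorem Cof_dvd : (X : PowerSeries ℤ) ^ 7 ∣ Cof := by
  have h : Ideal.Quotient.mk I7 Cof = Ideal.Quotient.mk I7 0 := by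
    have h2 : Ideal.Quotient.mk I7 (2 : PowerSeries ℤ) = 2 := map_ofNat _ 2
    have hN : Ideal.Quotient.mk I7 Ns = (1 - Ideal.Quotient.mk I7 X ^ 4) ^ 4 := by
      rw [Ns, map_mul, map_pow, map_pow, m4, m10]
      ring
    have hD : Ideal.Quotient.mk I7 D' = (1 - Ideal.Quotient.mk I7 X ^ 2 -
        Ideal.Quotient.mk I7 X ^ 4) ^ 2 := by
      rw [D', map_mul, map_pow, map_pow, m2, m20]
      ring
    have hG : Ideal.Quotient.mk I7 NGs = (1 - Ideal.Quotient.mk I7 X ^ 4) *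
        (1 - Ideal.Quotient.mk I7 X ^ 5) ^ 5 := by
      rw [NGs, map_mul, map_pow, m4, m5]
    simp only [Cof, map_sub, map_add, map_mul, map_pow, map_zero, h2, hN, hD, hG, m1, m2, m10,
      m20, mthN, mthD]
    have h7 := hx7
    set x := Ideal.Quotient.mk I7 X
    linear_combination (-2 + 12 * x - 112 * x ^ 3 + 62 * x ^ 4 + 276 * x ^ 5 - 96 * x ^ 6 - 62 * x ^ 7 - 114 * x ^ 8 - 738 * x ^ 9 + 158 * x ^ 10 + 826 * x ^ 11 + 296 * x ^ 12 + 832 * x ^ 13 - 38 * x ^ 14 - 1478 * x ^ 15 - 922 * x ^ 16 - 724 * x ^ 17 - 92 * x ^ 18 + 1312 * x ^ 19 + 1540 * x ^ 20 + 904 * x ^ 21 + 220 * x ^ 22 - 618 * x ^ 23 - 1436 * x ^ 24 - 1084 * x ^ 25 - 414 * x ^ 26 + 34 * x ^ 27 + 746 * x ^ 28 + 838 * x ^ 29 + 462 * x ^ 30 + 182 * x ^ 31 - 136 * x ^ 32 - 390 * x ^ 33 - 262 * x ^ 34 - 160 * x ^ 35 - 52 * x ^ 36 + 80 * x ^ 37 + 78 * x ^ 38 + 60 * x ^ 39 + 32 * x ^ 40 + 10 * x ^ 41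 - 16 * x ^ 42 - 12 * x ^ 44 - 2 * x ^ 46) * h7
  have h1 := dvd_of_mk h
  rwa [sub_zero] at h1

end TrG

open TrG

theorem Gr_coeff {n : ℕ} (hn : n < 12) : coeff n Gr = 0 := by
  have h : (X : PowerSeries ℤ) ^ 12 ∣ Gr := by
    obtain ⟨r, hr⟩ := Cof_dvd
    refine ⟨r, ?_⟩
    rw [Gr_eq, hr]
    ring
  exact X_pow_dvd_iff.1 h n hn

theorem NG_eq : 4 * fs * Ds ^ 2 * NGs =
    X ^ 5 * (4 * (P 2 ^ 2 * P 10 ^ 2) * D' ^ 2 * NGs) := by
  rw [Ds_eq, fs]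
  ring

theorem NG_ne : Gr + 4 * fs * Ds ^ 2 * NGs ≠ 0 := by
  intro h
  have h1 := congrArg (coeff 5) h
  rw [map_add, Gr_coeff (by norm_num), zero_add, NG_eq, map_zero] at h1
  have h2 := coeff_X_pow_mul (4 * (P 2 ^ 2 * P 10 ^ 2) * D' ^ 2 * NGs) 5 0
  rw [zero_add, h1] at h2
  have h3 : constantCoeff (4 : PowerSeries ℤ) = 4 := map_ofNat _ 4
  rw [coeff_zero_eq_constantCoeff_apply, D', NGs] at h2
  simp only [map_mul, map_pow, h3, constantCoeff_P (by norm_num : 0 < 2),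
    constantCoeff_P (by norm_num : 0 < 10), constantCoeff_P (by norm_num : 0 < 20),
    constantCoeff_P (by norm_num : 0 < 4), constantCoeff_P (by norm_num : 0 < 5)] at h2
  norm_num at h2

theorem NG_coeff {n : ℕ} (hn : n < 5) : coeff n (4 * fs * Ds ^ 2 * NGs) = 0 := by
  have h : (X : PowerSeries ℤ) ^ 5 ∣ 4 * fs * Ds ^ 2 * NGs := ⟨_, NG_eq⟩
  exact X_pow_dvd_iff.1 h n hn

end Pool.Agent.MTate
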