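import Pool.Agent.MTate.YB
import Pool.Agent.MTate.Liouville
import Pool.Agent.MTate.SerTrG
/-!
# MODULE IdentG (assembly)
`Gr = 0`, i.e. `G = X + 1 - Y` as q-expansions.

Proof. `u = (X0 + 1 - Y0)^2 - G0^2` is holomorphic, `Γ_0(20)`-invariant (`X0_inv`, `Y0_inv`, `G0sq_inv`), bounded
at `σ` with `20 ∤ c` (`X0_cusp`, `Y0_cusp`, `G0_cusp`).  For `20 ∣ c`: `u(σz) = u(z)` and
`(2 f D^2 DG)^2 u(z) = ev (Gr * (Gr + 4 fs Ds^2 NGs)) q`; the series `Gr` starts at `q^12` (`Gr_coeff`),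
`Gr + 4 fs Ds^2 NGs` at `q^5` (`NG_coeff`), so the product is `O(q^17)`, while
`(2 f D^2 DG)^2` has order exactly `2 (1 + 4 + 3) = 16`.  Hence `u = O(q)`, so `u` is constant by `liouville`
and the constant is `0`.  Therefore `Gr * (Gr + 4 fs Ds^2 NGs) = 0` in `ℤ⟦q⟧` (`ev_inj`), a domain, and the
second factor is nonzero (`NG_ne`).
-/
namespace Pool.Agent.MTate
open Complex Filter Topology

namespace IdG

/-- the product `Gr * (Gr + 4 fs Ds^2 NGs)`. -/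
noncomputable def wG : PowerSeries ℤ := Gr * (Gr + 4 * fs * Ds ^ 2 * NGs)

/-- the denominator `(2 fs Ds^2 DGs)^2`. -/
noncomputable def vG : PowerSeries ℤ := (2 * fs * Ds ^ 2 * DGs) ^ 2

theorem wG_coeff {n : ℕ} (hn : n < 17) : PowerSeries.coeff n wG = 0 := by
  rw [wG, PowerSeries.coeff_mul]
  refine Finset.sum_eq_zero fun p hp => ?_
  have h := Finset.HasAntidiagonal.mem_antidiagonal.mp hp
  rcases lt_or_ge p.1 12 with h1 | h1
  · rw [Gr_coeff h1, zero_mul]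
  · have h2 : p.2 < 5 := by omega
    rw [map_add, Gr_coeff (by omega : p.2 < 12), NG_coeff h2, add_zero, mul_zero]

theorem vG_eq : vG = PowerSeries.X ^ 16 *
    (2 * (P 2 ^ 2 * P 10 ^ 2) * (P 2 ^ 2 * P 20 ^ 4) ^ 2 * (P 1 * P 20 ^ 5)) ^ 2 := by
  rw [vG, fs, Ds, DGs]; ring

theorem vG_coeff {n : ℕ} (hn : n < 16) : PowerSeries.coeff n vG = 0 := by
  rw [vG_eq, PowerSeries.coeff_X_pow_mul', if_neg (by omega)]

theorem vG_coeff_16 : PowerSeries.coeff 16 vG ≠ 0 := by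
  rw [vG_eq, PowerSeries.coeff_X_pow_mul', if_pos le_rfl, Nat.sub_self,
    PowerSeries.coeff_zero_eq_constantCoeff_apply]
  have h2 : PowerSeries.constantCoeff (2 : PowerSeries ℤ) = 2 := map_ofNat _ 2
  simp only [map_mul, map_pow, h2, constantCoeff_P (by norm_num : 0 < 1),
    constantCoeff_P (by norm_num : 0 < 2), constantCoeff_P (by norm_num : 0 < 10),
    constantCoeff_P (by norm_num : 0 < 20)]
  norm_num

theorem conv_two : Conv (2 : PowerSeries ℤ) := by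
  simpa using conv_ofNat 2

theorem conv_four : Conv (4 : PowerSeries ℤ) := by
  simpa using conv_ofNat 4

theorem ev_two (q : ℂ) : ev (2 : PowerSeries ℤ) q = 2 := by
  simpa using ev_natCast 2 q

theorem ev_four (q : ℂ) : ev (4 : PowerSeries ℤ) q = 4 := by
  simpa using ev_natCast 4 q

theorem conv_B : Conv (4 * fs * Ds ^ 2 * NGs) :=
  conv_mul (conv_mul (conv_mul conv_four conv_fs) (conv_pow conv_Ds 2)) conv_NGs

theorem conv_wG : Conv wG := conv_mul conv_Gr (conv_add conv_Gr conv_B)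

theorem conv_vG0 : Conv (2 * fs * Ds ^ 2 * DGs) :=
  conv_mul (conv_mul (conv_mul conv_two conv_fs) (conv_pow conv_Ds 2)) conv_DGs

theorem conv_vG : Conv vG := conv_pow conv_vG0 2

/-- evaluation of `Gr`. -/
theorem ev_Gr {q : ℂ} (hq : ‖q‖ < 1) : ev Gr q =
    2 * ev fs q * ev Ds q * ev DGs q * ev Ns q + 2 * ev fs q * ev Ds q ^ 2 * ev DGs q
      - 2 * ev fs q * ev Ds q ^ 2 * ev NGs q
      - (ev (th Ns) q * ev Ds q - ev Ns q * ev (th Ds) q) * ev DGs q := by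
  have c2f : Conv (2 * fs) := conv_mul conv_two conv_fs
  have cD2 := conv_pow conv_Ds 2
  have a1 : Conv (2 * fs * Ds * DGs * Ns) :=
    conv_mul (conv_mul (conv_mul c2f conv_Ds) conv_DGs) conv_Ns
  have a2 : Conv (2 * fs * Ds ^ 2 * DGs) := conv_mul (conv_mul c2f cD2) conv_DGs
  have a3 : Conv (2 * fs * Ds ^ 2 * NGs) := conv_mul (conv_mul c2f cD2) conv_NGs
  have cth := conv_th conv_Ns
  have ctd := conv_th conv_Ds
  have b1 : Conv (th Ns * Ds) := conv_mul cth conv_Ds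
  have b2 : Conv (Ns * th Ds) := conv_mul conv_Ns ctd
  have b3 : Conv (th Ns * Ds - Ns * th Ds) := conv_sub b1 b2
  have a4 : Conv ((th Ns * Ds - Ns * th Ds) * DGs) := conv_mul b3 conv_DGs
  rw [Gr, ev_sub (conv_sub (conv_add a1 a2) a3) a4 hq, ev_sub (conv_add a1 a2) a3 hq,
    ev_add a1 a2 hq, ev_mul b3 conv_DGs hq, ev_sub b1 b2 hq, ev_mul cth conv_Ds hq,
    ev_mul conv_Ns ctd hq, ev_mul (conv_mul (conv_mul c2f conv_Ds) conv_DGs) conv_Ns hq,
    ev_mul (conv_mul c2f conv_Ds) conv_DGs hq, ev_mul c2f conv_Ds hq,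
    ev_mul (conv_mul c2f cD2) conv_DGs hq, ev_mul (conv_mul c2f cD2) conv_NGs hq,
    ev_mul c2f cD2 hq, ev_mul conv_two conv_fs hq, ev_pow conv_Ds 2 hq, ev_two]

theorem ev_B {q : ℂ} (hq : ‖q‖ < 1) : ev (4 * fs * Ds ^ 2 * NGs) q =
    4 * ev fs q * ev Ds q ^ 2 * ev NGs q := by
  have c1 : Conv (4 * fs) := conv_mul conv_four conv_fs
  rw [ev_mul (conv_mul c1 (conv_pow conv_Ds 2)) conv_NGs hq, ev_mul c1 (conv_pow conv_Ds 2) hq,
    ev_mul conv_four conv_fs hq, ev_pow conv_Ds 2 hq, ev_four]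

theorem ev_vG {q : ℂ} (hq : ‖q‖ < 1) : ev vG q =
    (2 * ev fs q * ev Ds q ^ 2 * ev DGs q) ^ 2 := by
  have c1 : Conv (2 * fs) := conv_mul conv_two conv_fs
  rw [vG, ev_pow conv_vG0 2 hq, ev_mul (conv_mul c1 (conv_pow conv_Ds 2)) conv_DGs hq,
    ev_mul c1 (conv_pow conv_Ds 2) hq, ev_mul conv_two conv_fs hq, ev_pow conv_Ds 2 hq, ev_two]

/-- the function `(X + 1 - Y)^2 - G^2`. -/
noncomputable def uG (z : ℂ) : ℂ := (X0 z + 1 - Y0 z) ^ 2 - G0 z ^ 2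

theorem key_uG {z : ℂ} (hz : 0 < z.im) : ev vG (qq z) * uG z = ev wG (qq z) := by
  have hq := qq_lt hz
  have hf : ev fs (qq z) ≠ 0 := by rw [← f0_eq hz]; exact f0_ne hz
  have hD := ev_Ds_ne hz
  have hDG := ev_DGs_ne hz
  rw [wG, ev_mul conv_Gr (conv_add conv_Gr conv_B) hq, ev_add conv_Gr conv_B hq, ev_Gr hq,
    ev_B hq, ev_vG hq, uG, X0_eq hz, G0_eq hz, Y0, deriv_X0_eq hz, f0_eq hz]
  set f := ev fs (qq z)
  set D := ev Ds (qq z)
  set N := ev Ns (qq z)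
  set N' := ev (th Ns) (qq z)
  set D' := ev (th Ds) (qq z)
  set NG := ev NGs (qq z)
  set DG := ev DGs (qq z)
  have hpi : (Real.pi : ℂ) ≠ 0 := by exact_mod_cast Real.pi_ne_zero
  have hI := Complex.I_ne_zero
  have h1 : 2 * (Real.pi : ℂ) * I * ((N' * D - N * D') / D ^ 2) / (4 * Real.pi * I * f) =
      (N' * D - N * D') / (2 * f * D ^ 2) := by
    field_simp
    ring
  rw [h1]
  field_simp
  ring

theorem uG_diff : DifferentiableOn ℂ uG HH := by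
  have h1 : DifferentiableOn ℂ (fun z => X0 z + 1 - Y0 z) HH :=
    (X0_diff.add_const (c := (1 : ℂ))).sub Y0_diff
  exact (h1.pow 2).sub (G0_diff.pow 2)

theorem uG_inv : Inv 20 0 uG := by
  intro a b c d h hc z hz
  have h1 := X0_inv a b c d h hc z hz
  have h2 := Y0_inv a b c d h hc z hz
  have h3 := G0sq_inv a b c d h hc z hz
  simp only [zpow_zero, one_mul] at h1 h2 h3 ⊢
  rw [uG, uG, h1, h2, h3]

theorem imInf_pos_g : ∀ᶠ z : ℂ in imInf, 0 < z.im := by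
  rw [imInf, Filter.eventually_comap]
  filter_upwards [Filter.eventually_gt_atTop (0 : ℝ)] with t ht z hz
  rw [hz]; exact ht

/-- near `i∞` the function is `O(q)`. -/
theorem uG_small : ∃ K T : ℝ, 0 ≤ K ∧ ∀ z : ℂ, T ≤ z.im → 0 < z.im →
    ‖uG z‖ ≤ K * ‖qq z‖ := by
  obtain ⟨K, hK⟩ := ev_isBigO conv_wG (m := 17) (fun n hn => wG_coeff hn)
  obtain ⟨κ, r, hκ, hr, hl⟩ := ev_lower conv_vG (m := 16) (fun n hn => vG_coeff hn) vG_coeff_16
  -- `‖qq z‖ → 0`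
  have ht : Tendsto (fun t : ℝ => Real.exp (-(2 * Real.pi * t))) atTop (𝓝 0) := by
    apply Real.tendsto_exp_neg_atTop_nhds_zero.comp
    exact Filter.tendsto_id.const_mul_atTop (by positivity)
  have hev : ∀ᶠ t : ℝ in atTop, Real.exp (-(2 * Real.pi * t)) < min r (1 / 2) :=
    ht.eventually_lt_const (by positivity)
  obtain ⟨T, hT⟩ := Filter.eventually_atTop.1 hev
  refine ⟨|K| / κ, T, by positivity, fun z hz hz0 => ?_⟩
  have h1 : ‖qq z‖ < min r (1 / 2) := by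
    rw [norm_qq]; exact hT _ hz
  have hqr : ‖qq z‖ ≤ r := (h1.trans_le (min_le_left _ _)).le
  have hqh : ‖qq z‖ ≤ 1 / 2 := (h1.trans_le (min_le_right _ _)).le
  have h2 := hK _ hqh
  have h3 := hl _ hqr
  have h4 : ‖ev vG (qq z)‖ * ‖uG z‖ = ‖ev wG (qq z)‖ := by
    rw [← norm_mul, key_uG hz0]
  have hq0 : 0 < ‖qq z‖ := norm_pos_iff.2 (qq_ne z)
  have h5 : κ * ‖qq z‖ ^ 16 * ‖uG z‖ ≤ |K| * ‖qq z‖ ^ 17 := by
    calc κ * ‖qq z‖ ^ 16 * ‖uG z‖ ≤ ‖ev vG (qq z)‖ * ‖uG z‖ := by gcongr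
      _ = ‖ev wG (qq z)‖ := h4
      _ ≤ K * ‖qq z‖ ^ 17 := h2
      _ ≤ |K| * ‖qq z‖ ^ 17 := by gcongr; exact le_abs_self K
  have h6 : κ * ‖uG z‖ ≤ |K| * ‖qq z‖ := by
    have h7 : (κ * ‖uG z‖) * ‖qq z‖ ^ 16 ≤ (|K| * ‖qq z‖) * ‖qq z‖ ^ 16 := by
      calc (κ * ‖uG z‖) * ‖qq z‖ ^ 16 = κ * ‖qq z‖ ^ 16 * ‖uG z‖ := by ring
        _ ≤ |K| * ‖qq z‖ ^ 17 := h5
        _ = (|K| * ‖qq z‖) * ‖qq z‖ ^ 16 := by ring
    exact le_of_mul_le_mul_right h7 (by positivity)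
  calc ‖uG z‖ = (κ * ‖uG z‖) / κ := by field_simp
    _ ≤ (|K| * ‖qq z‖) / κ := by gcongr
    _ = |K| / κ * ‖qq z‖ := by ring

theorem uG_cusp (a b c d : ℤ) (h : a * d - b * c = 1) :
    ∃ M : ℝ, ∀ᶠ z in imInf, ‖uG ((a * z + b) / (c * z + d))‖ ≤ M := by
  by_cases hc : (20 : ℤ) ∣ c
  · obtain ⟨K, T, hK, hs⟩ := uG_small
    refine ⟨K, ?_⟩
    have hT : ∀ᶠ z : ℂ in imInf, T ≤ z.im := by
      rw [imInf, Filter.eventually_comap]
      filter_upwards [Filter.eventually_ge_atTop T] with t ht z hz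
      rw [hz]; exact ht
    filter_upwards [imInf_pos_g, hT] with z hz hzT
    have h1 := uG_inv a b c d h (by exact_mod_cast hc) z hz
    rw [h1, zpow_zero, one_mul]
    refine (hs z hzT hz).trans ?_
    calc K * ‖qq z‖ ≤ K * 1 := by gcongr; exact (qq_lt hz).le
      _ = K := mul_one K
  · obtain ⟨M1, h1⟩ := X0_cusp h hc
    obtain ⟨M2, h2⟩ := Y0_cusp h hc
    obtain ⟨M3, h3⟩ := G0_cusp h hc
    refine ⟨(M1 + 1 + M2) ^ 2 + M3, ?_⟩
    filter_upwards [h1, h2, h3] with z g1 g2 g3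
    rw [uG]
    have k1 : ‖X0 ((a * z + b) / (c * z + d)) + 1 - Y0 ((a * z + b) / (c * z + d))‖
        ≤ M1 + 1 + M2 := by
      refine (norm_sub_le _ _).trans ?_
      have := norm_add_le (X0 ((a * z + b) / (c * z + d))) 1
      rw [norm_one] at this
      linarith
    calc ‖(X0 ((a * z + b) / (c * z + d)) + 1 - Y0 ((a * z + b) / (c * z + d))) ^ 2
          - G0 ((a * z + b) / (c * z + d)) ^ 2‖
        ≤ ‖X0 ((a * z + b) / (c * z + d)) + 1 - Y0 ((a * z + b) / (c * z + d))‖ ^ 2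
          + ‖G0 ((a * z + b) / (c * z + d)) ^ 2‖ := by
          rw [← norm_pow]; exact norm_sub_le _ _
      _ ≤ (M1 + 1 + M2) ^ 2 + M3 := by gcongr

theorem uG_zero {z : ℂ} (hz : 0 < z.im) : uG z = 0 := by
  obtain ⟨κ, hκ⟩ := liouville uG uG_diff uG_inv uG_cusp
  obtain ⟨K, T, hK, hs⟩ := uG_small
  have h1 : ∀ t : ℝ, T ≤ t → 0 < t → ‖κ‖ ≤ K * Real.exp (-(2 * Real.pi * t)) := by
    intro t ht ht0
    have h2 := hs ((t : ℂ) * I) (by simpa using ht) (by simpa using ht0)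
    rw [hκ _ (by simpa using ht0), norm_qq] at h2
    simpa using h2
  have ht : Tendsto (fun t : ℝ => K * Real.exp (-(2 * Real.pi * t))) atTop (𝓝 (K * 0)) := by
    apply Tendsto.const_mul
    apply Real.tendsto_exp_neg_atTop_nhds_zero.comp
    exact Filter.tendsto_id.const_mul_atTop (by positivity)
  rw [mul_zero] at ht
  have h3 : ‖κ‖ ≤ 0 := by
    refine ge_of_tendsto ht ?_
    filter_upwards [Filter.eventually_ge_atTop T, Filter.eventually_gt_atTop 0] with t h4 h5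
    exact h1 t h4 h5
  rw [hκ z hz]
  exact norm_le_zero_iff.1 h3

end IdG

open IdG in
theorem Gr_eq_zero : Gr = 0 := by
  have h1 : wG = 0 := by
    refine ev_inj conv_wG fun q hq hq0 => ?_
    obtain ⟨z, hz, rfl⟩ := exists_qq hq hq0
    rw [← key_uG hz, uG_zero hz, mul_zero]
  rcases mul_eq_zero.1 h1 with h | h
  · exact h
  · exact absurd h NG_ne

end Pool.Agent.MTate
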