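import Pool.Agent.MTate.EtaMul
/-!
# MODULE InvF (modular forms)
`f0` is invariant of weight 2, `X0` and `G0^2` of weight 0 under `Γ_0(20)`.

Proof. For `δ ∣ 20`, `20 ∣ c`: `δ γ z = γ_δ (δ z)` with `γ_δ = (a, δ b; c/δ, d) ∈ SL(2,ℤ)` and
`(c/δ)(δ z) + d = c z + d`, so `η(δ γz)^2 = exp(2 π i ψ(a, δb, c/δ, d)/12) (c z + d) η(δz)^2`.
Write `c = 20 c'`.  The exponents
`f0`: `ψ(a,2b,10c',d) + ψ(a,10b,2c',d)`,
`X0`: `2 ψ(a,4b,5c',d) + ψ(a,10b,2c',d) - ψ(a,2b,10c',d) - 2 ψ(a,20b,c',d)`,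
`G0^2`: `ψ(a,4b,5c',d) + 5 ψ(a,5b,4c',d) - ψ(a,b,20c',d) - 5 ψ(a,20b,c',d)`
are `≡ 0 mod 12` whenever `ad - 20 b c' = 1` (checked by brute force; prove by `decide` in `ZMod 3`
and `ZMod 4`), the powers of `c z + d` are `1+1 = 2`, `2+1-1-2 = 0`, `1+5-1-5 = 0`.
-/
namespace Pool.Agent.MTate
open Complex

/-- `ψ` as a polynomial over any ring -/
def psiR {R : Type*} [CommRing R] (a b c d : R) : R :=
  (1 - c ^ 2) * (b * d + 3 * (c - 1) * d + c + 3) + c * (a + d - 3)

lemma psiR_cast (n : ℕ) (a b c d : ℤ) :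
    ((psi12 a b c d : ℤ) : ZMod n) = psiR (a : ZMod n) (b : ZMod n) (c : ZMod n) (d : ZMod n) := by
  unfold psi12 psiR
  push_cast
  ring

lemma dvd12_inv {x : ℤ} (h3 : ((x : ℤ) : ZMod 3) = 0) (h4 : ((x : ℤ) : ZMod 4) = 0) : (12 : ℤ) ∣ x := by
  have h1 := (ZMod.intCast_zmod_eq_zero_iff_dvd x 3).1 h3
  have h2 := (ZMod.intCast_zmod_eq_zero_iff_dvd x 4).1 h4
  push_cast at h1 h2
  omega

lemma f0_3 : ∀ a b c d : ZMod 3, a * d - 20 * b * c = 1 →
    psiR a (2 * b) (10 * c) d + psiR a (10 * b) (2 * c) d = 0 := by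
  unfold psiR; decide
lemma f0_4 : ∀ a b c d : ZMod 4, a * d - 20 * b * c = 1 →
    psiR a (2 * b) (10 * c) d + psiR a (10 * b) (2 * c) d = 0 := by
  unfold psiR; decide
lemma X0_3 : ∀ a b c d : ZMod 3, a * d - 20 * b * c = 1 →
    2 * psiR a (4 * b) (5 * c) d + psiR a (10 * b) (2 * c) d - psiR a (2 * b) (10 * c) d
      - 2 * psiR a (20 * b) c d = 0 := by
  unfold psiR; decide
lemma X0_4 : ∀ a b c d : ZMod 4, a * d - 20 * b * c = 1 →
    2 * psiR a (4 * b) (5 * c) d + psiR a (10 * b) (2 * c) d - psiR a (2 * b) (10 * c) d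
      - 2 * psiR a (20 * b) c d = 0 := by
  unfold psiR; decide
lemma G0_3 : ∀ a b c d : ZMod 3, a * d - 20 * b * c = 1 →
    psiR a (4 * b) (5 * c) d + 5 * psiR a (5 * b) (4 * c) d - psiR a b (20 * c) d
      - 5 * psiR a (20 * b) c d = 0 := by
  unfold psiR; decide
lemma G0_4 : ∀ a b c d : ZMod 4, a * d - 20 * b * c = 1 →
    psiR a (4 * b) (5 * c) d + 5 * psiR a (5 * b) (4 * c) d - psiR a b (20 * c) d
      - 5 * psiR a (20 * b) c d = 0 := by
  unfold psiR; decide

/-- the root of unity `exp (2 π i m / 12)` -/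
noncomputable def ze (m : ℤ) : ℂ := exp (2 * Real.pi * I * ((m : ℤ) : ℂ) / 12)

lemma ze_add (m n : ℤ) : ze (m + n) = ze m * ze n := by
  unfold ze
  rw [← Complex.exp_add]
  congr 1
  push_cast
  ring

lemma ze_ne (m : ℤ) : ze m ≠ 0 := Complex.exp_ne_zero _

lemma ze_sub (m n : ℤ) : ze (m - n) = ze m / ze n := by
  rw [eq_div_iff (ze_ne n), ← ze_add, sub_add_cancel]

lemma ze_mul (k : ℕ) (m : ℤ) : ze (k * m) = ze m ^ k := by
  unfold ze
  rw [← Complex.exp_nat_mul]
  congr 1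
  push_cast
  ring

lemma ze_of_dvd {m : ℤ} (h : (12 : ℤ) ∣ m) : ze m = 1 := by
  obtain ⟨k, rfl⟩ := h
  unfold ze
  rw [Complex.exp_eq_one_iff]
  refine ⟨k, ?_⟩
  push_cast
  ring

/-- `η(δ γ z)^2` -/
lemma eta_delta {a b c d e : ℤ} {δ : ℤ} (hδ : 0 < δ) (hc : c = δ * e) (h : a * d - b * c = 1) {z : ℂ}
    (hz : 0 < z.im) : eta (δ * ((a * z + b) / (c * z + d))) ^ 2 =
      ze (psi12 a (δ * b) e d) * (c * z + d) * eta (δ * z) ^ 2 := by
  have h' : a * d - (δ * b) * e = 1 := by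
    rw [← h, hc]
    ring
  have hz' : 0 < ((δ : ℂ) * z).im := by
    have : ((δ : ℂ) * z).im = δ * z.im := by
      simp [Complex.mul_im]
    rw [this]
    have : (0 : ℝ) < δ := by exact_mod_cast hδ
    positivity
  have h1 := etaSq_mul h' hz'
  have h2 : (a * ((δ : ℂ) * z) + ((δ * b : ℤ) : ℂ)) / (e * ((δ : ℂ) * z) + d) =
      δ * ((a * z + b) / (c * z + d)) := by
    rw [hc]
    push_cast
    rw [mul_div_assoc']
    congr 1 <;> ring
  rw [h2] at h1
  rw [h1]
  have h3 : ((e : ℂ) * ((δ : ℂ) * z) + d) = c * z + d := by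
    rw [hc]
    push_cast
    ring
  rw [h3]
  rfl

theorem f0_inv : Inv 20 2 f0 := by
  intro a b c d h hc z hz
  obtain ⟨c', rfl⟩ := hc
  have h' : a * d - b * (20 * c') = 1 := by exact_mod_cast h
  have e2 := eta_delta (δ := 2) (e := 10 * c') (c := 20 * c') (by norm_num) (by ring) h' hz
  have e10 := eta_delta (δ := 10) (e := 2 * c') (c := 20 * c') (by norm_num) (by ring) h' hz
  have hdv : (12 : ℤ) ∣ psi12 a (2 * b) (10 * c') d + psi12 a (10 * b) (2 * c') d := by
    have key : ∀ n : ℕ, (a : ZMod n) * d - 20 * b * c' = 1 := by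
      intro n
      have := congrArg (Int.cast : ℤ → ZMod n) h'
      push_cast at this
      rw [← this]
      ring
    apply dvd12_inv
    · have := f0_3 a b c' d (key 3)
      push_cast
      rw [psiR_cast, psiR_cast]
      push_cast
      exact this
    · have := f0_4 a b c' d (key 4)
      push_cast
      rw [psiR_cast, psiR_cast]
      push_cast
      exact this
  have hz1 := ze_of_dvd hdv
  rw [ze_add] at hz1
  unfold f0
  push_cast at e2 e10 ⊢
  rw [e2, e10]
  calc _ = (ze (psi12 a (2 * b) (10 * c') d) * ze (psi12 a (10 * b) (2 * c') d)) *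
        ((20 * c' * z + d) ^ 2 * (eta (2 * z) ^ 2 * eta (10 * z) ^ 2)) := by ring
    _ = _ := by
      rw [hz1, one_mul, show (2 : ℤ) = ((2 : ℕ) : ℤ) from rfl, zpow_natCast]

theorem X0_inv : Inv 20 0 X0 := by
  intro a b c d h hc z hz
  obtain ⟨c', rfl⟩ := hc
  have h' : a * d - b * (20 * c') = 1 := by exact_mod_cast h
  have e2 := eta_delta (δ := 2) (e := 10 * c') (c := 20 * c') (by norm_num) (by ring) h' hz
  have e10 := eta_delta (δ := 10) (e := 2 * c') (c := 20 * c') (by norm_num) (by ring) h' hz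
  have e4 := eta_delta (δ := 4) (e := 5 * c') (c := 20 * c') (by norm_num) (by ring) h' hz
  have e20 := eta_delta (δ := 20) (e := c') (c := 20 * c') (by norm_num) (by ring) h' hz
  have hdv : (12 : ℤ) ∣ 2 * psi12 a (4 * b) (5 * c') d + psi12 a (10 * b) (2 * c') d
      - psi12 a (2 * b) (10 * c') d - 2 * psi12 a (20 * b) c' d := by
    have key : ∀ n : ℕ, (a : ZMod n) * d - 20 * b * c' = 1 := by
      intro n
      have := congrArg (Int.cast : ℤ → ZMod n) h'
      push_cast at this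
      rw [← this]
      ring
    apply dvd12_inv
    · have := X0_3 a b c' d (key 3)
      push_cast
      rw [psiR_cast, psiR_cast, psiR_cast, psiR_cast]
      push_cast
      exact this
    · have := X0_4 a b c' d (key 4)
      push_cast
      rw [psiR_cast, psiR_cast, psiR_cast, psiR_cast]
      push_cast
      exact this
  have hz1 := ze_of_dvd hdv
  have hJ := den_ne h' hz
  set A := psi12 a (4 * b) (5 * c') d
  set B := psi12 a (10 * b) (2 * c') d
  set C := psi12 a (2 * b) (10 * c') d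
  set E := psi12 a (20 * b) c' d
  rw [ze_sub, ze_sub, ze_add, show (2 : ℤ) * A = ((2 : ℕ) : ℤ) * A by norm_num,
    show (2 : ℤ) * E = ((2 : ℕ) : ℤ) * E by norm_num, ze_mul, ze_mul] at hz1
  unfold X0
  push_cast at e2 e4 e10 e20 hJ ⊢
  set w : ℂ := (a * z + b) / (20 * c' * z + d)
  have f4 : eta (4 * w) ^ 4 = (eta (4 * w) ^ 2) ^ 2 := by ring
  have f20 : eta (20 * w) ^ 4 = (eta (20 * w) ^ 2) ^ 2 := by ring
  rw [f4, f20, e2, e4, e10, e20, zpow_zero, one_mul]
  have hA := ze_ne A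
  have hB := ze_ne B
  have hC := ze_ne C
  have hE := ze_ne E
  have hz2 : ze A ^ 2 * ze B = ze C * ze E ^ 2 := by
    field_simp at hz1
    linear_combination hz1
  set J : ℂ := 20 * c' * z + d
  calc _ = ((ze A ^ 2 * ze B) * J ^ 3 * (eta (4 * z) ^ 4 * eta (10 * z) ^ 2)) /
        ((ze C * ze E ^ 2) * J ^ 3 * (eta (2 * z) ^ 2 * eta (20 * z) ^ 4)) := by
        congr 1 <;> ring
    _ = _ := by
      rw [hz2]
      exact mul_div_mul_left _ _ (by positivity)

theorem G0sq_inv : Inv 20 0 (fun z => G0 z ^ 2) := by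
  intro a b c d h hc z hz
  obtain ⟨c', rfl⟩ := hc
  have h' : a * d - b * (20 * c') = 1 := by exact_mod_cast h
  have e1 := eta_delta (δ := 1) (e := 20 * c') (c := 20 * c') (by norm_num) (by ring) h' hz
  have e4 := eta_delta (δ := 4) (e := 5 * c') (c := 20 * c') (by norm_num) (by ring) h' hz
  have e5 := eta_delta (δ := 5) (e := 4 * c') (c := 20 * c') (by norm_num) (by ring) h' hz
  have e20 := eta_delta (δ := 20) (e := c') (c := 20 * c') (by norm_num) (by ring) h' hz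
  rw [one_mul] at e1
  have hdv : (12 : ℤ) ∣ psi12 a (4 * b) (5 * c') d + 5 * psi12 a (5 * b) (4 * c') d
      - psi12 a b (20 * c') d - 5 * psi12 a (20 * b) c' d := by
    have key : ∀ n : ℕ, (a : ZMod n) * d - 20 * b * c' = 1 := by
      intro n
      have := congrArg (Int.cast : ℤ → ZMod n) h'
      push_cast at this
      rw [← this]
      ring
    apply dvd12_inv
    · have := G0_3 a b c' d (key 3)
      push_cast
      rw [psiR_cast, psiR_cast, psiR_cast, psiR_cast]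
      push_cast
      exact this
    · have := G0_4 a b c' d (key 4)
      push_cast
      rw [psiR_cast, psiR_cast, psiR_cast, psiR_cast]
      push_cast
      exact this
  have hz1 := ze_of_dvd hdv
  have hJ := den_ne h' hz
  set A := psi12 a (4 * b) (5 * c') d
  set B := psi12 a (5 * b) (4 * c') d
  set C := psi12 a b (20 * c') d
  set E := psi12 a (20 * b) c' d
  rw [ze_sub, ze_sub, ze_add, show (5 : ℤ) * B = ((5 : ℕ) : ℤ) * B by norm_num,
    show (5 : ℤ) * E = ((5 : ℕ) : ℤ) * E by norm_num, ze_mul, ze_mul] at hz1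
  show G0 _ ^ 2 = _ * G0 _ ^ 2
  unfold G0
  push_cast at e1 e4 e5 e20 hJ ⊢
  rw [one_mul, one_mul] at e1
  set w : ℂ := (a * z + b) / (20 * c' * z + d)
  have hA := ze_ne A
  have hB := ze_ne B
  have hC := ze_ne C
  have hE := ze_ne E
  have hz2 : ze A * ze B ^ 5 = ze C * ze E ^ 5 := by
    field_simp at hz1
    linear_combination hz1
  have f1 : ∀ u : ℂ, (eta (4 * u) * eta (5 * u) ^ 5 / (eta u * eta (20 * u) ^ 5)) ^ 2 =
      (eta (4 * u) ^ 2 * (eta (5 * u) ^ 2) ^ 5) / (eta u ^ 2 * (eta (20 * u) ^ 2) ^ 5) := by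
    intro u
    rw [div_pow]
    congr 1 <;> ring
  rw [f1, f1, e1, e4, e5, e20, zpow_zero, one_mul]
  set J : ℂ := 20 * c' * z + d
  calc _ = ((ze A * ze B ^ 5) * J ^ 6 * (eta (4 * z) ^ 2 * (eta (5 * z) ^ 2) ^ 5)) /
        ((ze C * ze E ^ 5) * J ^ 6 * (eta z ^ 2 * (eta (20 * z) ^ 2) ^ 5)) := by
        congr 1 <;> ring
    _ = _ := by
      rw [hz2]
      exact mul_div_mul_left _ _ (by positivity)

end Pool.Agent.MTate
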