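import Mathlib
/-!
# MODULE JAlg (pure algebra)
Evaluation of a minus modular symbol for `Γ_0(20)` from its formal properties.

Proof (all matrices have determinant 1 and lower left entry divisible by 20).
`J 0 = 0` (`hneg`), `J (1/2) = 0`, `J(r+1) = J r`.
1. `(1 0; 20 1)`, `s = 0`: `J(1/(n+20)) = J(1/n)` for integers `n ≠ 0, -20`.
2. `(-11 -1; 100 9)`, `r = 0, s = -1/10`: `J(-1/9) - J(-1/10) = J 0 - J(-1/10)`, so `J(1/9) = 0`, `J(1/11) = 0`.
3. `(-9 -1; 100 11)`, `r = 0, s = -1/8`: `J(-1/11) - J(-1/12) = J 0 - J(-1/8)`; `J(1/8) = J(-1/12)`. So `J(1/12) = 0`.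
4. `(-13 -1; 40 3)`, `r = 0, s = -1/12`: `J(-1/3) - J(-1/4) = 0`: `J(1/3) = J(1/4)`.
5. `(3 1; 20 7)`, `r = 0, s = -1/3`: `J(1/7) - J 0 = J 0 - J(-1/3)`: `J(1/7) = J(1/3)`.
6. `(-3 -1; 40 13)`, `r = 0, s = -1/2`: `J(-1/13) - J(-1/14) = 0`; `J(1/13) = J(-1/7)`, `J(1/14) = J(-1/6)`:
   `J(1/6) = J(1/7)`.
7. `(3 -1; 40 -13)`, `hinf` with `r = 0`: `J(1/13) - J(3/40) = 0`: `J(3/40) = -J(1/7) = -J(1/4)`.
8. `(7 -3; 40 -17)`, `hinf`, `r = 0`: `J(3/17) = J(7/40)`.  `(53 3; 300 17)`, `r = 0, s = -1/18`: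
   `J(3/17) - J(1/6) = J 0 - J(-1/18) = J(1/18) = J(-1/2) = 0`.  So `J(7/40) = J(1/6) = J(1/4)`.
9. `(9 2; 40 9)`, `hinf`, `r = -1/4`: `J(1/4) - J(9/40) = J(-1/4)`: `J(9/40) = 2 J(1/4)`.
10. `(1 0; 40 1)`, `hinf`, `r = 0`: `J 0 - J(1/40) = J 0`.
Then reduce the eight arguments with `hhalf`, `hneg`: `13/40 = -7/40 + 1/2 - 0`, `23/40 = 3/40 + 1/2`,
`33/40 = -7/40 + 1`, `43/40 = 3/40 + 1`, `21/40 = 1/40 + 1/2`, `31/40 = -9/40 + 1`, `41/40 = 1/40 + 1`,
`51/40 = 11/40 + 1`, `11/40 = -9/40 + 1/2`.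
-/
namespace Pool.Agent.MTate

theorem J_alg (J : ℚ → ℝ) (hhalf : ∀ r, J (r + 1 / 2) = -J r) (hneg : ∀ r, J (-r) = -J r)
    (hinv : ∀ a b c d : ℤ, a * d - b * c = 1 → (20 : ℤ) ∣ c → ∀ r s : ℚ, (c : ℚ) * r + d ≠ 0 →
      (c : ℚ) * s + d ≠ 0 →
      J ((a * r + b) / (c * r + d)) - J ((a * s + b) / (c * s + d)) = J r - J s)
    (hinf : ∀ a b c d : ℤ, a * d - b * c = 1 → (20 : ℤ) ∣ c → c ≠ 0 → ∀ r : ℚ, (c : ℚ) * r + d ≠ 0 →
      J ((a * r + b) / (c * r + d)) - J (a / c) = J r) :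
    (J (13 / 40) + J (23 / 40) - J (33 / 40) - J (43 / 40) = 4 * J (1 / 4)) ∧
    (J (21 / 40) + J (31 / 40) - J (41 / 40) - J (51 / 40) = -(4 * J (1 / 4))) := by
  have hi : ∀ a b c d : ℤ, ∀ r s x y : ℚ, a * d - b * c = 1 → (20 : ℤ) ∣ c →
      (c : ℚ) * r + d ≠ 0 → (c : ℚ) * s + d ≠ 0 → (a * r + b) / (c * r + d) = x →
      (a * s + b) / (c * s + d) = y → J x - J y = J r - J s := by
    intro a b c d r s x y h1 h2 h3 h4 h5 h6
    rw [← h5, ← h6]
    exact hinv a b c d h1 h2 r s h3 h4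
  have hf : ∀ a b c d : ℤ, ∀ r x y : ℚ, a * d - b * c = 1 → (20 : ℤ) ∣ c → c ≠ 0 →
      (c : ℚ) * r + d ≠ 0 → (a * r + b) / (c * r + d) = x → (a : ℚ) / c = y →
      J x - J y = J r := by
    intro a b c d r x y h1 h2 h3 h4 h5 h6
    rw [← h5, ← h6]
    exact hinf a b c d h1 h2 h3 r h4
  have hn : ∀ r s : ℚ, -r = s → J s = -J r := by
    intro r s h
    rw [← h]
    exact hneg r
  have hh : ∀ r s : ℚ, r + 1 / 2 = s → J s = -J r := by
    intro r s h
    rw [← h]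
    exact hhalf r
  have z0 : J 0 = 0 := by
    have := hn 0 0 (by norm_num)
    linarith
  have zh : J (-1 / 2) = 0 := by
    have h1 := hh 0 (1 / 2) (by norm_num)
    have h2 := hn (1 / 2) (-1 / 2) (by norm_num)
    linarith
  -- step 2
  have s2 := hi (-11) (-1) 100 9 0 (-1 / 10) (-1 / 9) (-1 / 10) (by norm_num) (by norm_num)
    (by norm_num) (by norm_num) (by norm_num) (by norm_num)
  have s2' := hi 1 0 20 1 (-1 / 9) 0 (1 / 11) 0 (by norm_num) (by norm_num)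
    (by norm_num) (by norm_num) (by norm_num) (by norm_num)
  -- step 3
  have s3 := hi (-9) (-1) 100 11 0 (-1 / 8) (-1 / 11) (-1 / 12) (by norm_num) (by norm_num)
    (by norm_num) (by norm_num) (by norm_num) (by norm_num)
  have s3' := hi 1 0 20 1 (-1 / 12) 0 (1 / 8) 0 (by norm_num) (by norm_num)
    (by norm_num) (by norm_num) (by norm_num) (by norm_num)
  -- step 4
  have s4 := hi (-13) (-1) 40 3 0 (-1 / 12) (-1 / 3) (-1 / 4) (by norm_num) (by norm_num)
    (by norm_num) (by norm_num) (by norm_num) (by norm_num)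
  -- step 5
  have s5 := hi 3 1 20 7 0 (-1 / 3) (1 / 7) 0 (by norm_num) (by norm_num)
    (by norm_num) (by norm_num) (by norm_num) (by norm_num)
  -- step 6
  have s6 := hi (-3) (-1) 40 13 0 (-1 / 2) (-1 / 13) (-1 / 14) (by norm_num) (by norm_num)
    (by norm_num) (by norm_num) (by norm_num) (by norm_num)
  have s6a := hi 1 0 20 1 (-1 / 7) 0 (1 / 13) 0 (by norm_num) (by norm_num)
    (by norm_num) (by norm_num) (by norm_num) (by norm_num)
  have s6b := hi 1 0 20 1 (-1 / 6) 0 (1 / 14) 0 (by norm_num) (by norm_num)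
    (by norm_num) (by norm_num) (by norm_num) (by norm_num)
  -- step 7
  have s7 := hf 3 (-1) 40 (-13) 0 (1 / 13) (3 / 40) (by norm_num) (by norm_num) (by norm_num)
    (by norm_num) (by norm_num) (by norm_num)
  -- step 8
  have s8 := hf 7 (-3) 40 (-17) 0 (3 / 17) (7 / 40) (by norm_num) (by norm_num) (by norm_num)
    (by norm_num) (by norm_num) (by norm_num)
  have s8a := hi 53 3 300 17 0 (-1 / 18) (3 / 17) (1 / 6) (by norm_num) (by norm_num)
    (by norm_num) (by norm_num) (by norm_num) (by norm_num)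
  have s8b := hi 1 0 20 1 (-1 / 2) 0 (1 / 18) 0 (by norm_num) (by norm_num)
    (by norm_num) (by norm_num) (by norm_num) (by norm_num)
  -- step 9
  have s9 := hf 9 2 40 9 (-1 / 4) (1 / 4) (9 / 40) (by norm_num) (by norm_num) (by norm_num)
    (by norm_num) (by norm_num) (by norm_num)
  -- step 10
  have s10 := hf 1 0 40 1 0 0 (1 / 40) (by norm_num) (by norm_num) (by norm_num)
    (by norm_num) (by norm_num) (by norm_num)
  -- negations
  have n3 := hn (1 / 3) (-1 / 3) (by norm_num)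
  have n4 := hn (1 / 4) (-1 / 4) (by norm_num)
  have n6 := hn (1 / 6) (-1 / 6) (by norm_num)
  have n7 := hn (1 / 7) (-1 / 7) (by norm_num)
  have n8 := hn (1 / 8) (-1 / 8) (by norm_num)
  have n9 := hn (1 / 9) (-1 / 9) (by norm_num)
  have n11 := hn (1 / 11) (-1 / 11) (by norm_num)
  have n12 := hn (1 / 12) (-1 / 12) (by norm_num)
  have n13 := hn (1 / 13) (-1 / 13) (by norm_num)
  have n14 := hn (1 / 14) (-1 / 14) (by norm_num)
  have n18 := hn (1 / 18) (-1 / 18) (by norm_num)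
  have n740 := hn (7 / 40) (-7 / 40) (by norm_num)
  have n940 := hn (9 / 40) (-9 / 40) (by norm_num)
  have e13 := hh (-7 / 40) (13 / 40) (by norm_num)
  have e33 := hh (13 / 40) (33 / 40) (by norm_num)
  have e23 := hh (3 / 40) (23 / 40) (by norm_num)
  have e43 := hh (23 / 40) (43 / 40) (by norm_num)
  have e21 := hh (1 / 40) (21 / 40) (by norm_num)
  have e41 := hh (21 / 40) (41 / 40) (by norm_num)
  have e11 := hh (-9 / 40) (11 / 40) (by norm_num)
  have e31 := hh (11 / 40) (31 / 40) (by norm_num)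
  have e51 := hh (31 / 40) (51 / 40) (by norm_num)
  have v9 : J (1 / 9) = 0 := by linarith
  have v11 : J (1 / 11) = 0 := by linarith
  have v12 : J (1 / 12) = 0 := by linarith
  have v3 : J (1 / 3) = J (1 / 4) := by linarith
  have v7 : J (1 / 7) = J (1 / 4) := by linarith
  have v6 : J (1 / 6) = J (1 / 4) := by linarith
  have v340 : J (3 / 40) = -J (1 / 4) := by linarith
  have v18 : J (1 / 18) = 0 := by linarith
  have v740 : J (7 / 40) = J (1 / 4) := by linarith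
  have v940 : J (9 / 40) = 2 * J (1 / 4) := by linarith
  have v140 : J (1 / 40) = 0 := by linarith
  constructor
  · linarith
  · linarith

end Pool.Agent.MTate
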