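import Pool.Agent.MTate.Defs
/-!
# MODULE OmegaInt (real integrals)
`Ω_E` for `E : y^2 = x^3 - 2x^2 - 4x` in terms of `∫_{-∞}^0 dX/√(-X (X^2 - 2X + 5))`.

Proof. `psi2 E x = 4 F(x)`, `F(x) = x^3 - 2x^2 - 4x = x (x - e)(x - e')`, `e = 1 + √5`, `e' = 1 - √5`;
`{F > 0} = (e', 0) ∪ (e, ∞)`.  The map `x ↦ -4/x` is a bijection `(e, ∞) → (e', 0)`, `F(-4/x) = 16 F(x)/x^4`,
derivative `4/x^2`: the two pieces have equal integrals of `1/√F`, so
`Ω = ∫_{F>0} dx/(2√F) = ∫_e^∞ dx/√F`.
The map `X = 1 - x/2 + 2/x` is a decreasing bijection `(e, ∞) → (-∞, 0)` with `|dX/dx| = (x^2+4)/(2x^2)`,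
`X^2 - 2X + 5 = (X-1)^2 + 4 = ((x^2+4)/(2x))^2`, `-X = F(x)/(2 x^2)`; hence
`|dX| / √(-X (X^2-2X+5)) = √2 dx/√F(x)`, i.e. `∫_{-∞}^0 dX/√(...) = √2 Ω`.
Changes of variables: `MeasureTheory.integral_image_eq_integral_abs_deriv_smul` (no integrability needed).
Positivity: the integrand is positive on `(e, ∞)` and integrable (`F ~ x^3` at infinity,
`F ≥ κ (x - e)` near `e`), or compare: an integral of a positive integrable function over a set of positive
measure is positive.
-/
namespace Pool.Agent.MTate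
open MeasureTheory

namespace OmegaAux
open Set

lemma psi2_E (x : ℝ) : psi2 E x = 4 * (x ^ 3 - 2 * x ^ 2 - 4 * x) := by
  simp only [psi2, E, WeierstrassCurve.b₂, WeierstrassCurve.b₄, WeierstrassCurve.b₆]
  push_cast
  ring

lemma sqrt5_sq : √(5 : ℝ) ^ 2 = 5 := Real.sq_sqrt (by norm_num)

lemma sqrt5_gt : (2 : ℝ) < √5 := by
  rw [Real.lt_sqrt (by norm_num)]; norm_num

/-- the integrable majorant on `(0, ∞)` -/
lemma int_pos :
    IntegrableOn (fun t : ℝ => 1 / √(t * (t ^ 2 + 2 * t + 5))) (Ioi 0) := by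
  have hmeas : Measurable (fun t : ℝ => 1 / √(t * (t ^ 2 + 2 * t + 5))) := by
    fun_prop
  have h1 : IntegrableOn (fun t : ℝ => 1 / √(t * (t ^ 2 + 2 * t + 5))) (Ioc 0 1) := by
    have hb : IntegrableOn (fun t : ℝ => t ^ (-(1 / 2 : ℝ))) (Ioc 0 1) :=
      (intervalIntegrable_iff_integrableOn_Ioc_of_le zero_le_one).1
        (intervalIntegral.intervalIntegrable_rpow' (by norm_num))
    refine Integrable.mono' hb hmeas.aestronglyMeasurable ?_
    rw [ae_restrict_iff' measurableSet_Ioc]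
    refine Filter.Eventually.of_forall fun t ht => ?_
    have ht0 : 0 < t := ht.1
    rw [Real.norm_of_nonneg (by positivity)]
    rw [Real.rpow_neg ht0.le, ← Real.sqrt_eq_rpow, one_div]
    apply inv_anti₀ (Real.sqrt_pos.2 ht0)
    apply Real.sqrt_le_sqrt
    nlinarith [mul_pos ht0 ht0, mul_pos (mul_pos ht0 ht0) ht0]
  have h2 : IntegrableOn (fun t : ℝ => 1 / √(t * (t ^ 2 + 2 * t + 5))) (Ioi 1) := by
    have hb : IntegrableOn (fun t : ℝ => t ^ (-(3 / 2 : ℝ))) (Ioi 1) :=
      integrableOn_Ioi_rpow_of_lt (by norm_num) one_pos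
    refine Integrable.mono' hb hmeas.aestronglyMeasurable ?_
    rw [ae_restrict_iff' measurableSet_Ioi]
    refine Filter.Eventually.of_forall fun t ht => ?_
    have ht0 : 0 < t := lt_trans one_pos ht
    rw [Real.norm_of_nonneg (by positivity)]
    have h3 : t ^ (3 / 2 : ℝ) = √(t ^ 3) := by
      rw [Real.sqrt_eq_rpow, ← Real.rpow_natCast t 3, ← Real.rpow_mul ht0.le]
      norm_num
    rw [Real.rpow_neg ht0.le, h3, one_div]
    apply inv_anti₀ (Real.sqrt_pos.2 (by positivity))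
    apply Real.sqrt_le_sqrt
    nlinarith [mul_pos ht0 ht0, mul_pos (mul_pos ht0 ht0) ht0]
  rw [← Ioc_union_Ioi_eq_Ioi (zero_le_one : (0 : ℝ) ≤ 1)]
  exact h1.union h2

lemma image_neg_Ioi : (fun t : ℝ => -t) '' Ioi 0 = Iio 0 := by
  ext x
  simp only [mem_image, mem_Ioi, mem_Iio]
  constructor
  · rintro ⟨t, ht, rfl⟩; linarith
  · intro hx; exact ⟨-x, by linarith, by ring⟩

/-- the map `x ↦ 1 - x/2 + 2/x` -/
noncomputable def ps (x : ℝ) : ℝ := 1 - x / 2 + 2 / x

lemma ps_deriv {x : ℝ} (hx : 0 < x) : HasDerivAt ps (-((x ^ 2 + 4) / (2 * x ^ 2))) x := by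
  have h1 : HasDerivAt (fun x : ℝ => 2 / x) (-(2 / x ^ 2)) x := by
    have := (hasDerivAt_inv hx.ne').const_mul (2 : ℝ)
    refine this.congr_deriv ?_
    field_simp
  have h2 : HasDerivAt (fun x : ℝ => 1 - x / 2) (-(1 / 2)) x := by
    have := ((hasDerivAt_id x).div_const 2).const_sub 1
    simpa using this
  refine (h2.add h1).congr_deriv ?_
  field_simp
  ring

lemma e_pos : (0 : ℝ) < 1 + √5 := by positivity

lemma ps_inj : InjOn ps (Ioi (1 + √5)) := by
  intro x hx y hy h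
  have hx0 : 0 < x := lt_trans e_pos hx
  have hy0 : 0 < y := lt_trans e_pos hy
  by_contra hne
  unfold ps at h
  have h2 : (y - x) * (1 / 2 + 2 / (x * y)) = 0 := by
    field_simp
    field_simp at h
    nlinarith
  rcases mul_eq_zero.1 h2 with h3 | h3
  · exact hne (by linarith)
  · have : 0 < 1 / 2 + 2 / (x * y) := by positivity
    linarith

lemma ps_image : ps '' Ioi (1 + √5) = Iio 0 := by
  ext X
  simp only [mem_image, mem_Ioi, mem_Iio]
  constructor
  · rintro ⟨x, hx, rfl⟩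
    have hx0 : 0 < x := lt_trans e_pos hx
    have h5 := sqrt5_sq
    have hq : 0 < x ^ 2 - 2 * x - 4 := by nlinarith [sqrt5_gt]
    have : ps x = -((x ^ 2 - 2 * x - 4) / (2 * x)) := by
      unfold ps; field_simp; ring
    rw [this]
    have : 0 < (x ^ 2 - 2 * x - 4) / (2 * x) := by positivity
    linarith
  · intro hX
    have hs : 0 ≤ (1 - X) ^ 2 + 4 := by positivity
    set r := √((1 - X) ^ 2 + 4) with hr
    have hr2 : r ^ 2 = (1 - X) ^ 2 + 4 := Real.sq_sqrt hs
    have hr5 : √5 < r := by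
      apply Real.sqrt_lt_sqrt (by norm_num); nlinarith
    have hr0 : 0 < r := lt_trans (by positivity) hr5
    have hx0 : 0 < (1 - X) + r := by linarith
    refine ⟨(1 - X) + r, by linarith, ?_⟩
    unfold ps
    field_simp
    nlinarith

lemma ps_comp {x : ℝ} (hx : x ∈ Ioi (1 + √5)) :
    |(-((x ^ 2 + 4) / (2 * x ^ 2)))| • (1 / √(-(ps x) * ((ps x) ^ 2 - 2 * (ps x) + 5)))
      = 2 * √2 * (1 / √(psi2 E x)) := by
  have hx0 : 0 < x := lt_trans e_pos hx
  have h5 := sqrt5_sq
  have hx' : 1 + √5 < x := hx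
  have hq : 0 < x ^ 2 - 2 * x - 4 := by nlinarith [sqrt5_gt]
  have h1 : -(ps x) * ((ps x) ^ 2 - 2 * (ps x) + 5)
      = ((x ^ 2 + 4) / (2 * x * x)) ^ 2 * (psi2 E x / 8) := by
    rw [psi2_E]
    unfold ps; field_simp; ring
  have hF : 0 < psi2 E x := by
    rw [psi2_E]
    have : x ^ 3 - 2 * x ^ 2 - 4 * x = x * (x ^ 2 - 2 * x - 4) := by ring
    rw [this]; positivity
  have h8 : √(8 : ℝ) = 2 * √2 := by
    rw [show (8 : ℝ) = 2 ^ 2 * 2 by norm_num, Real.sqrt_mul (by norm_num),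
      Real.sqrt_sq (by norm_num)]
  rw [h1, Real.sqrt_mul (by positivity), Real.sqrt_sq (by positivity),
    Real.sqrt_div hF.le, h8, abs_neg, abs_of_nonneg (by positivity), smul_eq_mul]
  have : 0 < √(psi2 E x) := Real.sqrt_pos.2 hF
  field_simp

/-- the map `x ↦ -4/x` -/
lemma ph_deriv {x : ℝ} (hx : 0 < x) : HasDerivAt (fun x : ℝ => -4 / x) (4 / x ^ 2) x := by
  have := (hasDerivAt_inv hx.ne').const_mul (-4 : ℝ)
  refine this.congr_deriv ?_
  field_simp

lemma ph_inj : InjOn (fun x : ℝ => -4 / x) (Ioi (1 + √5)) := by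
  intro x hx y hy h
  have hx0 : 0 < x := lt_trans e_pos hx
  have hy0 : 0 < y := lt_trans e_pos hy
  simp only at h
  field_simp at h
  linarith

lemma ph_image : (fun x : ℝ => -4 / x) '' Ioi (1 + √5) = Ioo (1 - √5) 0 := by
  have h5 := sqrt5_sq
  have h6 := sqrt5_gt
  ext X
  simp only [mem_image, mem_Ioi, mem_Ioo]
  constructor
  · rintro ⟨x, hx, rfl⟩
    have hx0 : 0 < x := lt_trans e_pos hx
    constructor
    · rw [lt_div_iff₀ hx0]; nlinarith
    · have : 0 < 4 / x := by positivity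
      have h7 : -4 / x = -(4 / x) := by ring
      linarith
  · rintro ⟨h1, h2⟩
    refine ⟨-4 / X, ?_, ?_⟩
    · rw [lt_div_iff_of_neg h2]; nlinarith
    · have : X ≠ 0 := h2.ne
      field_simp

lemma ph_comp {x : ℝ} (hx : x ∈ Ioi (1 + √5)) :
    |4 / x ^ 2| • (1 / √(psi2 E (-4 / x))) = 1 / √(psi2 E x) := by
  have hx0 : 0 < x := lt_trans e_pos hx
  have h5 := sqrt5_sq
  have hx' : 1 + √5 < x := hx
  have hq : 0 < x ^ 2 - 2 * x - 4 := by nlinarith [sqrt5_gt]
  have hF : 0 < psi2 E x := by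
    rw [psi2_E]
    have : x ^ 3 - 2 * x ^ 2 - 4 * x = x * (x ^ 2 - 2 * x - 4) := by ring
    rw [this]; positivity
  have h1 : psi2 E (-4 / x) = (4 / x ^ 2) ^ 2 * psi2 E x := by
    rw [psi2_E, psi2_E]; field_simp; ring
  rw [h1, Real.sqrt_mul (by positivity), Real.sqrt_sq (by positivity),
    abs_of_nonneg (by positivity), smul_eq_mul]
  have : 0 < √(psi2 E x) := Real.sqrt_pos.2 hF
  field_simp

lemma pos_set : {x : ℝ | 0 < psi2 E x} = Ioo (1 - √5) 0 ∪ Ioi (1 + √5) := by
  have h5 := sqrt5_sq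
  have h6 := sqrt5_gt
  ext x
  simp only [mem_ofPred_eq, mem_union, mem_Ioo, mem_Ioi]
  have hfac : psi2 E x = 4 * (x * ((x - (1 + √5)) * (x - (1 - √5)))) := by
    rw [psi2_E]; ring_nf; rw [h5]; ring
  rw [hfac]
  constructor
  · intro h
    by_cases hx : x < 0
    · left
      refine ⟨?_, hx⟩
      by_contra hc
      push Not at hc
      have h1 : 0 ≤ (x - (1 + √5)) * (x - (1 - √5)) :=
        mul_nonneg_of_nonpos_of_nonpos (by linarith) (by linarith)
      nlinarith
    · right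
      push Not at hx
      by_contra hc
      push Not at hc
      have h1 : (x - (1 + √5)) * (x - (1 - √5)) ≤ 0 :=
        mul_nonpos_of_nonpos_of_nonneg (by linarith) (by linarith)
      nlinarith
  · rintro (⟨h1, h2⟩ | h1)
    · have h3 : (x - (1 + √5)) * (x - (1 - √5)) < 0 :=
        mul_neg_of_neg_of_pos (by linarith) (by linarith)
      nlinarith [mul_pos_of_neg_of_neg h2 h3]
    · have h3 : 0 < (x - (1 + √5)) * (x - (1 - √5)) := mul_pos (by linarith) (by linarith)
      have h4 : 0 < x := by linarith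
      positivity

end OmegaAux

open OmegaAux

theorem Omega_integrable :
    IntegrableOn (fun x : ℝ => 1 / √(-x * (x ^ 2 - 2 * x + 5))) (Set.Iio 0) := by
  rw [← image_neg_Ioi]
  rw [integrableOn_image_iff_integrableOn_abs_deriv_smul measurableSet_Ioi
    (fun x _ => (hasDerivAt_neg x).hasDerivWithinAt) (neg_injective.injOn)]
  refine int_pos.congr_fun (fun t _ => ?_) measurableSet_Ioi
  simp only [abs_neg, abs_one, one_smul, neg_neg]
  congr 3
  ring

theorem Omega_int1 : IntegrableOn (fun x : ℝ => 1 / √(psi2 E x)) (Set.Ioi (1 + √5)) := by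
  have h := Omega_integrable
  rw [← ps_image, integrableOn_image_iff_integrableOn_abs_deriv_smul measurableSet_Ioi
    (fun x hx => (ps_deriv (lt_trans e_pos hx)).hasDerivWithinAt) ps_inj] at h
  have h2 : IntegrableOn (fun x : ℝ => 2 * √2 * (1 / √(psi2 E x))) (Set.Ioi (1 + √5)) :=
    h.congr_fun (fun x hx => ps_comp hx) measurableSet_Ioi
  have h3 : IntegrableOn (fun x : ℝ => (2 * √2)⁻¹ * (2 * √2 * (1 / √(psi2 E x))))
      (Set.Ioi (1 + √5)) := h2.const_mul ((2 * √2)⁻¹)
  refine h3.congr_fun (fun x hx => ?_) measurableSet_Ioi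
  have : 0 < √(2 : ℝ) := by positivity
  field_simp

theorem Omega_int2 : IntegrableOn (fun x : ℝ => 1 / √(psi2 E x)) (Set.Ioo (1 - √5) 0) := by
  rw [← ph_image, integrableOn_image_iff_integrableOn_abs_deriv_smul measurableSet_Ioi
    (fun x hx => (ph_deriv (lt_trans e_pos hx)).hasDerivWithinAt) ph_inj]
  exact Omega_int1.congr_fun (fun x hx => (ph_comp hx).symm) measurableSet_Ioi

theorem Omega_eq2 : Omega E = 2 * ∫ x in Set.Ioi (1 + √5), 1 / √(psi2 E x) := by
  unfold Omega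
  rw [pos_set, setIntegral_union _ measurableSet_Ioi Omega_int2 Omega_int1]
  · have : ∫ x in Set.Ioo (1 - √5) 0, 1 / √(psi2 E x) = ∫ x in Set.Ioi (1 + √5), 1 / √(psi2 E x) := by
      rw [← ph_image, integral_image_eq_integral_abs_deriv_smul measurableSet_Ioi
        (fun x hx => (ph_deriv (lt_trans e_pos hx)).hasDerivWithinAt) ph_inj]
      exact setIntegral_congr_fun measurableSet_Ioi (fun x hx => ph_comp hx)
    rw [this]; ring
  · rw [Set.disjoint_left]
    rintro x ⟨_, h1⟩ h2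
    exact absurd (lt_trans e_pos h2) (not_lt.2 h1.le)

theorem Omega_E : Omega E = (1 / √2) * ∫ x in Set.Iio (0 : ℝ), 1 / √(-x * (x ^ 2 - 2 * x + 5)) := by
  have h : ∫ x in Set.Iio (0 : ℝ), 1 / √(-x * (x ^ 2 - 2 * x + 5))
      = 2 * √2 * ∫ x in Set.Ioi (1 + √5), 1 / √(psi2 E x) := by
    rw [← ps_image, integral_image_eq_integral_abs_deriv_smul measurableSet_Ioi
      (fun x hx => (ps_deriv (lt_trans e_pos hx)).hasDerivWithinAt) ps_inj, ← integral_const_mul]
    exact setIntegral_congr_fun measurableSet_Ioi (fun x hx => ps_comp hx)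
  rw [h, Omega_eq2]
  have : 0 < √(2 : ℝ) := by positivity
  field_simp

theorem Omega_E_pos : 0 < Omega E := by
  rw [Omega_E]
  apply mul_pos (by positivity)
  rw [setIntegral_pos_iff_support_of_nonneg_ae _ Omega_integrable]
  · have : Function.support (fun x : ℝ => 1 / √(-x * (x ^ 2 - 2 * x + 5))) ∩ Set.Iio 0 = Set.Iio 0 := by
      apply Set.inter_eq_right.2
      intro x hx
      have hx0 : x < 0 := hx
      have : 0 < -x * (x ^ 2 - 2 * x + 5) := by
        apply mul_pos (by linarith); nlinarith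
      simp only [Function.mem_support]
      have := Real.sqrt_pos.2 this
      positivity
    rw [this]
    simp
  · exact Filter.Eventually.of_forall fun x => by positivity

end Pool.Agent.MTate
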