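import Pool.Agent.MTate.IdentW
import Pool.Agent.MTate.Cusp20
/-!
# MODULE Psi14 (the period as an elliptic integral)
`Psi(1/4) = (i/2) ∫_{-∞}^0 dX/√(-X (X^2 - 2X + 5))`.

Proof. On the line `z = 1/4 + i t`: `q = i r`, `r = exp(-2 π t) ∈ (0,1)`, `q^2 = -r^2`.  From the product formulas
(`f0_eq`, `ev_P`, or directly from the definition of `eta`; only even powers of `q` occur in the products)
`f0(1/4 + it) = i φ(t)` with `φ(t) = r ∏(1-(-r^2)^n)^2 (1-(-r^2)^{5n})^2 > 0`, and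
`X0(1/4 + it) = ξ(t) = -r^-2 ∏ (1-r^{4n})^4 (1-(-r^2)^{5n})^2/((1-(-r^2)^n)^2 (1-r^{20n})^4) < 0` (real).
`ξ'(t) = i X0'(1/4+it)`, `X0' = 4 π i f0 Y0`, so `ξ'(t)^2 = -(X0')^2 = 16 π^2 f0^2 Y0^2 =
-16 π^2 φ^2 (ξ^3 - 2ξ^2 + 5ξ) = 16 π^2 φ(t)^2 (-ξ)(ξ^2 - 2ξ + 5) > 0` (`Y_sq`), never zero; so `ξ` is strictly
monotone; `ξ(t) → -∞` for `t → ∞` (`ξ ~ -exp(4 π t)`) and `ξ(t) → 0` for `t → 0+` (`X0_cusp_zero` for
`σ = (1 0; 4 1)`: `1/4 + i t = σ(-1/4 + i/(16 t))`).  So `ξ : (0,∞) → (-∞,0)` is a decreasing bijection with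
`|ξ'(t)| = 4 π φ(t) √(-ξ(ξ^2-2ξ+5))` and the substitution `X = ξ(t)` gives
`∫_{-∞}^0 dX/√(-X(X^2-2X+5)) = 4 π ∫_0^∞ φ(t) dt`, while `Psi(1/4) = 2 π i ∫_0^∞ φ(t) dt`.
-/
namespace Pool.Agent.MTate
open Complex MeasureTheory

namespace Psi14Aux

open Filter Topology

/-- the point `1/4 + i t`. -/
noncomputable def zq (t : ℝ) : ℂ := ((1 / 4 : ℝ) : ℂ) + t * I

theorem zq_im (t : ℝ) : (zq t).im = t := by
  simp [zq]

theorem zq_pos {t : ℝ} (ht : 0 < t) : 0 < (zq t).im := by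
  rw [zq_im]; exact ht

theorem qq_zq (t : ℝ) : qq (zq t) = I * (Real.exp (-(2 * Real.pi * t)) : ℝ) := by
  unfold qq zq
  have h1 : 2 * (Real.pi : ℂ) * I * (((1 / 4 : ℝ) : ℂ) + t * I)
      = (Real.pi : ℂ) / 2 * I + ((-(2 * Real.pi * t) : ℝ) : ℂ) := by
    push_cast
    linear_combination (2 * (Real.pi : ℂ) * t) * I_sq
  rw [h1, Complex.exp_add, Complex.exp_pi_div_two_mul_I, Complex.ofReal_exp]

theorem ev_conj (a : PowerSeries ℤ) (q : ℂ) :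
    (starRingEnd ℂ) (ev a q) = ev a ((starRingEnd ℂ) q) := by
  unfold ev
  rw [Complex.conj_tsum]
  refine tsum_congr fun n => ?_
  rw [map_mul, map_pow]
  congr 1
  exact map_intCast _ _

theorem ev_P_neg {k : ℕ} (hk : 0 < k) (h2 : Even k) {q : ℂ} (hq : ‖q‖ < 1) :
    ev (P k) (-q) = ev (P k) q := by
  rw [ev_P hk hq, ev_P hk (by rwa [norm_neg])]
  refine tprod_congr fun n => ?_
  rw [(h2.mul_right (n + 1)).neg_pow]

theorem ev_P_real {k : ℕ} (hk : 0 < k) (h2 : Even k) {t : ℝ} (ht : 0 < t) :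
    ∃ R : ℝ, ev (P k) (qq (zq t)) = R := by
  have h : (starRingEnd ℂ) (ev (P k) (qq (zq t))) = ev (P k) (qq (zq t)) := by
    rw [ev_conj, ← ev_P_neg hk h2 (qq_lt (zq_pos ht))]
    congr 1
    rw [qq_zq, map_mul, Complex.conj_I, Complex.conj_ofReal]
    ring
  obtain ⟨r, hr⟩ := Complex.conj_eq_iff_real.1 h
  exact ⟨r, hr⟩

theorem f0_form {t : ℝ} (ht : 0 < t) : ∃ φ : ℝ, 0 < φ ∧ f0 (zq t) = I * φ := by
  obtain ⟨A, hA⟩ := ev_P_real (k := 2) (by norm_num) (by decide) ht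
  obtain ⟨B, hB⟩ := ev_P_real (k := 10) (by norm_num) (by decide) ht
  have hq := qq_lt (zq_pos ht)
  have hP2 := conv_P (k := 2) (by norm_num)
  have hP10 := conv_P (k := 10) (by norm_num)
  have h1 : f0 (zq t) = I * ((Real.exp (-(2 * Real.pi * t)) * A ^ 2 * B ^ 2 : ℝ) : ℂ) := by
    rw [f0_eq (zq_pos ht), fs, ev_mul (conv_mul conv_X (conv_pow hP2 2)) (conv_pow hP10 2) hq,
      ev_mul conv_X (conv_pow hP2 2) hq, ev_pow hP2 _ hq, ev_pow hP10 _ hq, ev_X, hA, hB, qq_zq]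
    push_cast
    ring
  refine ⟨_, ?_, h1⟩
  have h2 := f0_ne (zq_pos ht)
  rw [h1] at h2
  have h3 : Real.exp (-(2 * Real.pi * t)) * A ^ 2 * B ^ 2 ≠ 0 := by
    intro h
    apply h2
    rw [h]
    simp
  have h4 : 0 ≤ Real.exp (-(2 * Real.pi * t)) * A ^ 2 * B ^ 2 := by positivity
  exact lt_of_le_of_ne h4 (Ne.symm h3)

theorem X0_form {t : ℝ} (ht : 0 < t) : ∃ x : ℝ, x < 0 ∧ X0 (zq t) = x := by
  obtain ⟨A, hA⟩ := ev_P_real (k := 4) (by norm_num) (by decide) ht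
  obtain ⟨B, hB⟩ := ev_P_real (k := 10) (by norm_num) (by decide) ht
  obtain ⟨C, hC⟩ := ev_P_real (k := 2) (by norm_num) (by decide) ht
  obtain ⟨D, hD⟩ := ev_P_real (k := 20) (by norm_num) (by decide) ht
  have hq := qq_lt (zq_pos ht)
  have hP2 := conv_P (k := 2) (by norm_num)
  have hP4 := conv_P (k := 4) (by norm_num)
  have hP10 := conv_P (k := 10) (by norm_num)
  have hP20 := conv_P (k := 20) (by norm_num)
  have hN : ev Ns (qq (zq t)) = ((A ^ 4 * B ^ 2 : ℝ) : ℂ) := by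
    rw [Ns, ev_mul (conv_pow hP4 4) (conv_pow hP10 2) hq, ev_pow hP4 _ hq, ev_pow hP10 _ hq, hA, hB]
    push_cast
    ring
  have hDd : ev Ds (qq (zq t))
      = ((-(Real.exp (-(2 * Real.pi * t)) ^ 2 * C ^ 2 * D ^ 4) : ℝ) : ℂ) := by
    rw [Ds, ev_mul (conv_mul (conv_pow conv_X 2) (conv_pow hP2 2)) (conv_pow hP20 4) hq,
      ev_mul (conv_pow conv_X 2) (conv_pow hP2 2) hq, ev_pow conv_X _ hq, ev_pow hP2 _ hq,
      ev_pow hP20 _ hq, ev_X, hC, hD, qq_zq, mul_pow, I_sq]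
    push_cast
    ring
  have hN0 := ev_Ns_ne (zq_pos ht)
  have hD0 := ev_Ds_ne (zq_pos ht)
  rw [hN] at hN0
  rw [hDd] at hD0
  have hN1 : A ^ 4 * B ^ 2 ≠ 0 := by exact_mod_cast hN0
  have hD1 : -(Real.exp (-(2 * Real.pi * t)) ^ 2 * C ^ 2 * D ^ 4) ≠ 0 := by exact_mod_cast hD0
  have hN2 : 0 < A ^ 4 * B ^ 2 := lt_of_le_of_ne (by positivity) (Ne.symm hN1)
  have hD2 : 0 < Real.exp (-(2 * Real.pi * t)) ^ 2 * C ^ 2 * D ^ 4 :=
    lt_of_le_of_ne (by positivity) (Ne.symm (neg_ne_zero.1 hD1))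
  refine ⟨(A ^ 4 * B ^ 2) / (-(Real.exp (-(2 * Real.pi * t)) ^ 2 * C ^ 2 * D ^ 4)), ?_, ?_⟩
  · exact div_neg_of_pos_of_neg hN2 (by linarith)
  · rw [X0_eq (zq_pos ht), hN, hDd]
    push_cast
    ring

/-- `ξ(t) = X0(1/4 + i t)`. -/
noncomputable def xi (t : ℝ) : ℝ := (X0 (zq t)).re

/-- `φ(t) = f0(1/4 + i t)/i`. -/
noncomputable def ph (t : ℝ) : ℝ := (f0 (zq t)).im

theorem xi_neg {t : ℝ} (ht : 0 < t) : xi t < 0 := by
  obtain ⟨x, hx, h⟩ := X0_form ht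
  rw [xi, h, Complex.ofReal_re]
  exact hx

theorem X0_xi {t : ℝ} (ht : 0 < t) : X0 (zq t) = (xi t : ℂ) := by
  obtain ⟨x, hx, h⟩ := X0_form ht
  rw [xi, h, Complex.ofReal_re]

theorem ph_pos {t : ℝ} (ht : 0 < t) : 0 < ph t := by
  obtain ⟨x, hx, h⟩ := f0_form ht
  rw [ph, h]
  simpa using hx

theorem f0_ph {t : ℝ} (ht : 0 < t) : f0 (zq t) = I * (ph t : ℂ) := by
  obtain ⟨x, hx, h⟩ := f0_form ht
  rw [ph, h]
  simp

theorem zq_deriv (t : ℝ) : HasDerivAt zq I t := by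
  unfold zq
  have h1 : HasDerivAt (fun t : ℝ => (t : ℂ) * I) (1 * I) t :=
    (Complex.ofRealCLM.hasDerivAt (x := t)).mul_const I
  have h2 := h1.const_add ((1 / 4 : ℝ) : ℂ)
  rwa [one_mul] at h2

theorem isOpen_HH_psi : IsOpen HH := isOpen_lt continuous_const Complex.continuous_im

theorem X0_deriv {t : ℝ} (ht : 0 < t) :
    HasDerivAt (fun s : ℝ => X0 (zq s)) (deriv X0 (zq t) * I) t := by
  have h1 : DifferentiableAt ℂ X0 (zq t) :=
    X0_diff.differentiableAt (isOpen_HH_psi.mem_nhds (zq_pos ht))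
  have h2 := HasDerivAt.scomp t h1.hasDerivAt (zq_deriv t)
  rw [smul_eq_mul, mul_comm] at h2
  exact h2

/-- `ξ'(t)` is real. -/
theorem xi_deriv {t : ℝ} (ht : 0 < t) :
    ∃ d : ℝ, HasDerivAt xi d t ∧ deriv X0 (zq t) * I = (d : ℂ) := by
  have h1 := X0_deriv ht
  have hre : HasDerivAt xi ((deriv X0 (zq t) * I).re) t :=
    (Complex.reCLM.hasFDerivAt.comp_hasDerivAt t h1)
  have him : HasDerivAt (fun s : ℝ => (X0 (zq s)).im) ((deriv X0 (zq t) * I).im) t :=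
    (Complex.imCLM.hasFDerivAt.comp_hasDerivAt t h1)
  have h0 : HasDerivAt (fun s : ℝ => (X0 (zq s)).im) 0 t := by
    refine (hasDerivAt_const t (0 : ℝ)).congr_of_eventuallyEq ?_
    filter_upwards [Ioi_mem_nhds ht] with s hs
    rw [X0_xi hs, Complex.ofReal_im]
  have h2 : (deriv X0 (zq t) * I).im = 0 := him.unique h0
  refine ⟨_, hre, ?_⟩
  apply Complex.ext
  · rw [Complex.ofReal_re]
  · rw [Complex.ofReal_im, h2]

theorem quad_pos {x : ℝ} (hx : x < 0) : 0 < -x * (x ^ 2 - 2 * x + 5) := by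
  have h1 : 0 < x ^ 2 - 2 * x + 5 := by nlinarith [sq_nonneg (x - 1)]
  exact mul_pos (by linarith) h1

theorem deriv_sq {t d : ℝ} (ht : 0 < t) (hd : deriv X0 (zq t) * I = (d : ℂ)) :
    d ^ 2 = (4 * Real.pi * ph t) ^ 2 * (-xi t * (xi t ^ 2 - 2 * xi t + 5)) := by
  have h1 := Y_sq (zq_pos ht)
  have h2 := f0_ne (zq_pos ht)
  have h3 : (4 * (Real.pi : ℂ) * I * f0 (zq t)) ≠ 0 := by
    refine mul_ne_zero (mul_ne_zero (mul_ne_zero (by norm_num) ?_) I_ne_zero) h2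
    exact_mod_cast Real.pi_ne_zero
  have h4 : deriv X0 (zq t) = Y0 (zq t) * (4 * (Real.pi : ℂ) * I * f0 (zq t)) := by
    unfold Y0
    rw [div_mul_cancel₀ _ h3]
  have h5 : ((d : ℝ) : ℂ) ^ 2 = ((4 * Real.pi * ph t) ^ 2 * (-xi t * (xi t ^ 2 - 2 * xi t + 5)) : ℝ) := by
    rw [← hd, h4]
    have h6 : (Y0 (zq t) * (4 * (Real.pi : ℂ) * I * f0 (zq t)) * I) ^ 2
        = 16 * (Real.pi : ℂ) ^ 2 * (f0 (zq t)) ^ 2 * Y0 (zq t) ^ 2 * (I ^ 2) ^ 2 := by ring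
    rw [h6, h1, f0_ph ht, X0_xi ht, mul_pow, I_sq]
    push_cast
    ring
  exact_mod_cast h5

theorem abs_deriv {t d : ℝ} (ht : 0 < t) (hd : deriv X0 (zq t) * I = (d : ℂ)) :
    |d| = 4 * Real.pi * ph t * √(-xi t * (xi t ^ 2 - 2 * xi t + 5)) := by
  have h1 := deriv_sq ht hd
  have h2 := quad_pos (xi_neg ht)
  have h3 : 0 < 4 * Real.pi * ph t := by
    have := ph_pos ht
    positivity
  rw [← Real.sqrt_sq_eq_abs, h1, Real.sqrt_mul (by positivity), Real.sqrt_sq h3.le]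

theorem deriv_ne {t d : ℝ} (ht : 0 < t) (hd : deriv X0 (zq t) * I = (d : ℂ)) : d ≠ 0 := by
  intro h
  have h1 := abs_deriv ht hd
  have h2 := quad_pos (xi_neg ht)
  have h3 : 0 < 4 * Real.pi * ph t := by
    have := ph_pos ht
    positivity
  rw [h, abs_zero] at h1
  have h4 := Real.sqrt_pos.2 h2
  have h5 := mul_pos h3 h4
  linarith

theorem xi_inj : Set.InjOn xi (Set.Ioi 0) := by
  have key : ∀ a b : ℝ, 0 < a → a < b → xi a ≠ xi b := by
    intro a b ha hab h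
    have hder : ∀ x ∈ Set.Ioo a b, HasDerivAt xi (deriv xi x) x := by
      intro x hx
      obtain ⟨d, hd, _⟩ := xi_deriv (ha.trans hx.1)
      exact hd.differentiableAt.hasDerivAt
    have hc : ContinuousOn xi (Set.Icc a b) := by
      intro x hx
      obtain ⟨d, hd, _⟩ := xi_deriv (ha.trans_le hx.1)
      exact hd.continuousAt.continuousWithinAt
    obtain ⟨c, hc1, hc2⟩ := exists_hasDerivAt_eq_zero hab hc h hder
    obtain ⟨d, hd, hd'⟩ := xi_deriv (ha.trans hc1.1)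
    rw [hd.deriv] at hc2
    exact deriv_ne (ha.trans hc1.1) hd' hc2
  intro a ha b hb h
  by_contra hne
  rcases lt_or_gt_of_ne hne with hlt | hlt
  · exact key a b ha hlt h
  · exact key b a hb hlt h.symm

/-- `ξ(t) → -∞` for `t → ∞`. -/
theorem xi_low {y : ℝ} : ∃ t : ℝ, 0 < t ∧ xi t < y := by
  obtain ⟨κ, r, hκ, hr, h1⟩ := ev_lower conv_Ns (m := 0) (by intro n hn; omega) (by
    have h : PowerSeries.coeff 0 Ns = 1 := by
      rw [PowerSeries.coeff_zero_eq_constantCoeff_apply, Ns, map_mul, map_pow, map_pow,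
        constantCoeff_P (by norm_num), constantCoeff_P (by norm_num)]
      norm_num
    rw [h]
    norm_num)
  obtain ⟨K, h2⟩ := ev_isBigO conv_Ds (m := 2) (by
    intro n hn
    have hX : Ds = PowerSeries.X ^ 2 * (P 2 ^ 2 * P 20 ^ 4) := by rw [Ds]; ring
    rw [hX, PowerSeries.coeff_X_pow_mul']
    rw [if_neg (by omega)])
  have hlim : Tendsto (fun t : ℝ => Real.exp (-(2 * Real.pi * t))) atTop (𝓝 0) := by
    have h3 : Tendsto (fun t : ℝ => 2 * Real.pi * t) atTop atTop :=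
      tendsto_id.const_mul_atTop (by positivity)
    exact Real.tendsto_exp_neg_atTop_nhds_zero.comp h3
  have hlim2 : Tendsto (fun t : ℝ => (|K| + 1) * (|y| + 1) * Real.exp (-(2 * Real.pi * t)) ^ 2) atTop
      (𝓝 ((|K| + 1) * (|y| + 1) * 0 ^ 2)) := (hlim.pow 2).const_mul _
  rw [zero_pow (by norm_num), mul_zero] at hlim2
  have e1 : ∀ᶠ t : ℝ in atTop, Real.exp (-(2 * Real.pi * t)) < min r (1 / 2) :=
    hlim.eventually (gt_mem_nhds (lt_min hr (by norm_num)))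
  have e2 := hlim2.eventually (gt_mem_nhds hκ)
  obtain ⟨t, ht0, ht1, ht2⟩ := ((eventually_gt_atTop (0 : ℝ)).and (e1.and e2)).exists
  refine ⟨t, ht0, ?_⟩
  have hn : ‖qq (zq t)‖ = Real.exp (-(2 * Real.pi * t)) := by rw [norm_qq, zq_im]
  have a1 := h1 (qq (zq t)) (by rw [hn]; exact (ht1.trans_le (min_le_left _ _)).le)
  have a2 := h2 (qq (zq t)) (by rw [hn]; exact (ht1.trans_le (min_le_right _ _)).le)
  rw [pow_zero, mul_one] at a1
  rw [hn] at a2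
  have a3 := X0_eq (zq_pos ht0)
  have a4 : 0 < ‖ev Ds (qq (zq t))‖ := norm_pos_iff.2 (ev_Ds_ne (zq_pos ht0))
  have a5 : ‖X0 (zq t)‖ * ‖ev Ds (qq (zq t))‖ = ‖ev Ns (qq (zq t))‖ := by
    rw [a3, norm_div, div_mul_cancel₀ _ a4.ne']
  have a6 : ‖X0 (zq t)‖ = -xi t := by
    rw [X0_xi ht0, Complex.norm_real, Real.norm_eq_abs, abs_of_neg (xi_neg ht0)]
  rw [a6] at a5
  by_contra hcon
  push Not at hcon
  have b1 : -xi t ≤ |y| + 1 := by
    have := neg_abs_le y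
    linarith
  have b2 : ‖ev Ds (qq (zq t))‖ ≤ (|K| + 1) * Real.exp (-(2 * Real.pi * t)) ^ 2 := by
    refine a2.trans ?_
    apply mul_le_mul_of_nonneg_right _ (by positivity)
    have := le_abs_self K
    linarith
  have b3 : -xi t * ‖ev Ds (qq (zq t))‖ ≤ (|y| + 1) * ((|K| + 1) * Real.exp (-(2 * Real.pi * t)) ^ 2) :=
    mul_le_mul b1 b2 a4.le (by positivity)
  nlinarith

/-- `ξ(t) → 0` for `t → 0+`. -/
theorem xi_high {y : ℝ} (hy : y < 0) : ∃ t : ℝ, 0 < t ∧ y < xi t := by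
  have h1 := X0_cusp_zero (a := 1) (b := 0) (c := 4) (d := 1) (by norm_num) (by norm_num) (by norm_num)
  have h2 : ∀ᶠ z : ℂ in imInf, ‖X0 ((((1 : ℤ) : ℂ) * z + ((0 : ℤ) : ℂ)) / (((4 : ℤ) : ℂ) * z + ((1 : ℤ) : ℂ)))‖ < -y := by
    have h3 := (tendsto_zero_iff_norm_tendsto_zero.1 h1).eventually (gt_mem_nhds (show 0 < -y by linarith))
    exact h3
  rw [imInf, Filter.eventually_comap, Filter.eventually_atTop] at h2
  obtain ⟨s, hs⟩ := h2
  have hm : 0 < max s 1 := lt_max_of_lt_right one_pos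
  refine ⟨1 / (16 * max s 1), by positivity, ?_⟩
  have h4 := hs (max s 1) (le_max_left _ _) (-(1 / 4 : ℂ) + (max s 1 : ℝ) * I) (by
    simp)
  have hm' : ((max s 1 : ℝ) : ℂ) ≠ 0 := by exact_mod_cast hm.ne'
  have h5 : (((1 : ℤ) : ℂ) * (-(1 / 4 : ℂ) + (max s 1 : ℝ) * I) + ((0 : ℤ) : ℂ))
      / (((4 : ℤ) : ℂ) * (-(1 / 4 : ℂ) + (max s 1 : ℝ) * I) + ((1 : ℤ) : ℂ))
      = zq (1 / (16 * max s 1)) := by
    have h6 : ((4 : ℤ) : ℂ) * (-(1 / 4 : ℂ) + (max s 1 : ℝ) * I) + ((1 : ℤ) : ℂ)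
        = 4 * (max s 1 : ℝ) * I := by
      push_cast
      ring
    rw [h6, zq]
    have h7 : (4 * (max s 1 : ℝ) * I : ℂ) ≠ 0 :=
      mul_ne_zero (mul_ne_zero (by norm_num) hm') I_ne_zero
    rw [div_eq_iff h7]
    push_cast
    have h8 : (I : ℂ) * I = -1 := I_mul_I
    field_simp
    linear_combination (-16 : ℂ) * h8
  rw [h5, X0_xi (by positivity), Complex.norm_real, Real.norm_eq_abs,
    abs_of_neg (xi_neg (by positivity))] at h4
  linarith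

theorem xi_image : xi '' Set.Ioi 0 = Set.Iio 0 := by
  apply Set.Subset.antisymm
  · rintro _ ⟨t, ht, rfl⟩
    exact xi_neg ht
  · intro y hy
    obtain ⟨t1, ht1, h1⟩ := xi_low (y := y)
    obtain ⟨t2, ht2, h2⟩ := xi_high (y := y) hy
    have hc : ContinuousOn xi (Set.Ioi 0) := by
      intro x hx
      obtain ⟨d, hd, _⟩ := xi_deriv hx
      exact hd.continuousAt.continuousWithinAt
    exact isPreconnected_Ioi.intermediate_value ht1 ht2 hc ⟨h1.le, h2.le⟩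

theorem integral_eq :
    (∫ x in Set.Iio (0 : ℝ), 1 / √(-x * (x ^ 2 - 2 * x + 5)))
      = ∫ t in Set.Ioi (0 : ℝ), 4 * Real.pi * ph t := by
  rw [← xi_image, integral_image_eq_integral_abs_deriv_smul (f' := deriv xi) measurableSet_Ioi
    (fun x hx => by
      obtain ⟨d, hd, _⟩ := xi_deriv hx
      exact hd.differentiableAt.hasDerivAt.hasDerivWithinAt) xi_inj]
  refine setIntegral_congr_fun measurableSet_Ioi fun t ht => ?_
  obtain ⟨d, hd, hd'⟩ := xi_deriv ht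
  have h1 := abs_deriv ht hd'
  have h2 := Real.sqrt_pos.2 (quad_pos (xi_neg ht))
  simp only [smul_eq_mul]
  rw [hd.deriv, h1, mul_assoc, mul_one_div, div_self h2.ne', mul_one]

end Psi14Aux

open Psi14Aux in
theorem psi_quarter :
    Psi (1 / 4) = I / 2 * ((∫ x in Set.Iio (0 : ℝ), 1 / √(-x * (x ^ 2 - 2 * x + 5)) : ℝ) : ℂ) := by
  rw [integral_eq, Psi]
  have h1 : (∫ t in Set.Ioi (0 : ℝ), f0 (((1 / 4 : ℝ) : ℂ) + t * I))
      = ∫ t in Set.Ioi (0 : ℝ), I * ((ph t : ℝ) : ℂ) := by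
    refine setIntegral_congr_fun measurableSet_Ioi fun t ht => ?_
    exact f0_ph ht
  have h2 : (∫ t in Set.Ioi (0 : ℝ), I * ((ph t : ℝ) : ℂ))
      = I * ((∫ t in Set.Ioi (0 : ℝ), ph t : ℝ) : ℂ) := by
    rw [integral_const_mul]
    congr 1
    exact integral_complex_ofReal
  rw [h1, h2, integral_const_mul]
  push_cast
  ring

end Pool.Agent.MTate
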