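import Pool.Agent.MTate.CuspVal
/-!
# MODULE PsiInv (modular symbols)
Invariance of the vertical periods under `Γ_0(20)`.

Proof. Every rational `r` is `σ∞ = a/c` for some `σ ∈ SL(2,ℤ)` with `c ≠ 0`.  For `γ ∈ Γ_0(20)` with `γ r ≠ ∞`,
`γ σ` has first column `(a', c')` with `a'/c' = γ r`, `c' ≠ 0`; by `cusp_val` for `σ` and `γσ` and
`Phi(γ w) = Phi(w) + P(γ)` (`Phi_per`), `Psi(γ r) = Psi(r) + P(γ)` (compare along one vertical line).
Likewise `σ = 1`: `Phi(z) → 0` and `Phi(γ z) → Psi(a/c)` if `c ≠ 0`, so `P(γ) = Psi(a/c)`.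
-/
namespace Pool.Agent.MTate
open Complex Filter Topology MeasureTheory

/-- every rational is the image of `∞` under a matrix of `SL(2,ℤ)`. -/
private theorem exists_col (r : ℚ) :
    ∃ a b c d : ℤ, a * d - b * c = 1 ∧ c ≠ 0 ∧ r = (a : ℚ) / c := by
  have hcop : IsCoprime r.num (r.den : ℤ) := by
    have := r.isCoprime_num_den
    exact this
  obtain ⟨u, v, huv⟩ := hcop
  refine ⟨r.num, -v, r.den, u, by linarith, by exact_mod_cast r.den_nz, ?_⟩
  rw [Int.cast_natCast]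
  exact r.num_div_den.symm

theorem psi_integrable (r : ℚ) :
    IntegrableOn (fun t : ℝ => f0 ((((r : ℝ)) : ℂ) + t * I)) (Set.Ioi 0) := by
  obtain ⟨a, b, c, d, h, hc, hr⟩ := exists_col r
  obtain ⟨L, -, hL⟩ := cusp_val h
  have h1 := (hL hc).1
  have h2 : (((a : ℝ) / c : ℝ) : ℂ) = (((r : ℝ)) : ℂ) := by
    rw [hr]
    push_cast
    rfl
  rw [h2] at h1
  exact h1

private theorem im_pos_mob {a b c d : ℤ} (h : a * d - b * c = 1) {z : ℂ} (hz : 0 < z.im) :
    0 < ((a * z + b) / (c * z + d) : ℂ).im := by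
  rw [im_smul h hz]
  have h1 : (0 : ℝ) < ‖(c * z + d : ℂ)‖ := norm_pos_iff.mpr (den_ne h hz)
  positivity

/-- composition of Moebius maps. -/
private theorem mob_comp {A B C D a b c d : ℤ} (h' : A * D - B * C = 1) (h : a * d - b * c = 1)
    {z : ℂ} (hz : 0 < z.im) :
    (A * ((a * z + b) / (c * z + d)) + B : ℂ) / (C * ((a * z + b) / (c * z + d)) + D) =
      (((A * a + B * c : ℤ) : ℂ) * z + ((A * b + B * d : ℤ) : ℂ)) /
        (((C * a + D * c : ℤ) : ℂ) * z + ((C * b + D * d : ℤ) : ℂ)) := by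
  have h1 := den_ne h hz
  have h2 := den_ne h' (im_pos_mob h hz)
  have hdet : (A * a + B * c) * (C * b + D * d) - (A * b + B * d) * (C * a + D * c) = 1 := by
    have : (A * a + B * c) * (C * b + D * d) - (A * b + B * d) * (C * a + D * c) =
      (A * D - B * C) * (a * d - b * c) := by ring
    rw [this, h, h', one_mul]
  have h3 := den_ne hdet hz
  have e1 : (A * ((a * z + b) / (c * z + d)) + B : ℂ) =
      (A * (a * z + b) + B * (c * z + d)) / (c * z + d) := by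
    rw [eq_div_iff h1, add_mul, mul_assoc, div_mul_cancel₀ _ h1]
  have e2 : (C * ((a * z + b) / (c * z + d)) + D : ℂ) =
      (C * (a * z + b) + D * (c * z + d)) / (c * z + d) := by
    rw [eq_div_iff h1, add_mul, mul_assoc, div_mul_cancel₀ _ h1]
  rw [e1, e2, div_div_div_cancel_right₀ h1]
  push_cast
  congr 1 <;> ring

private theorem im_line_pos {s : ℝ} (hs : 0 < s) : 0 < (((0 : ℝ) : ℂ) + s * I).im := by
  simpa using hs

/-- the limits along a vertical line of `Phi ∘ σ` and `Phi ∘ γ ∘ σ` differ by the constant of `γ`. -/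
private theorem lim_diff {A B C D a b c d : ℤ} (h' : A * D - B * C = 1) (h : a * d - b * c = 1)
    {p L L' : ℂ}
    (hp : ∀ z : ℂ, 0 < z.im → Phi ((A * z + B) / (C * z + D)) = Phi z + p)
    (hL : Tendsto (fun s : ℝ => Phi ((a * (((0 : ℝ) : ℂ) + s * I) + b) /
      (c * (((0 : ℝ) : ℂ) + s * I) + d))) atTop (𝓝 L))
    (hL' : Tendsto (fun s : ℝ => Phi ((((A * a + B * c : ℤ) : ℂ) * (((0 : ℝ) : ℂ) + s * I) +
      ((A * b + B * d : ℤ) : ℂ)) / (((C * a + D * c : ℤ) : ℂ) * (((0 : ℝ) : ℂ) + s * I) +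
      ((C * b + D * d : ℤ) : ℂ)))) atTop (𝓝 L')) :
    L' = L + p := by
  refine tendsto_nhds_unique hL' ?_
  refine (hL.add_const p).congr' ?_
  filter_upwards [eventually_gt_atTop (0 : ℝ)] with s hs
  have hz := im_line_pos hs
  rw [← mob_comp h' h hz, hp _ (im_pos_mob h hz)]

private theorem per_infty {A B C D : ℤ} (h' : A * D - B * C = 1) (hC : C ≠ 0) {p : ℂ}
    (hp : ∀ z : ℂ, 0 < z.im → Phi ((A * z + B) / (C * z + D)) = Phi z + p) :
    Psi ((A : ℝ) / C) = p := by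
  have h1 : (1 : ℤ) * 1 - 0 * 0 = 1 := by norm_num
  have hL0 : Tendsto (fun s : ℝ => Phi ((((1 : ℤ) : ℂ) * (((0 : ℝ) : ℂ) + s * I) + ((0 : ℤ) : ℂ)) /
      (((0 : ℤ) : ℂ) * (((0 : ℝ) : ℂ) + s * I) + ((1 : ℤ) : ℂ)))) atTop (𝓝 0) := by
    obtain ⟨K, hK⟩ := Phi_le
    have hlim : Tendsto (fun s : ℝ => K * Real.exp (-(2 * Real.pi * s))) atTop (𝓝 0) := by
      have h2 : Tendsto (fun s : ℝ => 2 * Real.pi * s) atTop atTop :=
        tendsto_id.const_mul_atTop (by positivity)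
      have h3 := (Real.tendsto_exp_neg_atTop_nhds_zero.comp h2).const_mul K
      simpa [Function.comp_def] using h3
    refine squeeze_zero_norm' ?_ hlim
    filter_upwards [eventually_ge_atTop (1 : ℝ)] with s hs
    have h4 : (((1 : ℤ) : ℂ) * (((0 : ℝ) : ℂ) + s * I) + ((0 : ℤ) : ℂ)) /
      (((0 : ℤ) : ℂ) * (((0 : ℝ) : ℂ) + s * I) + ((1 : ℤ) : ℂ)) = s * I := by
      push_cast
      ring
    rw [h4]
    have h5 : ((s : ℂ) * I).im = s := by simp
    have h6 := hK (s * I) (by rw [h5]; exact hs)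
    rwa [h5] at h6
  have hdet : (A * 1 + B * 0) * (C * 0 + D * 1) - (A * 0 + B * 1) * (C * 1 + D * 0) = 1 := by
    linarith
  obtain ⟨L', hL', hPsi⟩ := cusp_val hdet
  have h2 := lim_diff h' h1 hp hL0 (hL' 0)
  have h3 : C * 1 + D * 0 ≠ 0 := by simpa using hC
  have h4 := (hPsi h3).2
  rw [zero_add] at h2
  rw [h2] at h4
  rw [← h4]
  congr 1
  push_cast
  ring

private theorem per_rat {A B C D : ℤ} (h' : A * D - B * C = 1) {p : ℂ}
    (hp : ∀ z : ℂ, 0 < z.im → Phi ((A * z + B) / (C * z + D)) = Phi z + p) (r : ℚ)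
    (hr : (C : ℚ) * r + D ≠ 0) :
    Psi ((((A * r + B) / (C * r + D) : ℚ)) : ℝ) = Psi ((r : ℚ) : ℝ) + p := by
  obtain ⟨a, b, c, d, h, hc, hrr⟩ := exists_col r
  have hcQ : (c : ℚ) ≠ 0 := by exact_mod_cast hc
  have hdet : (A * a + B * c) * (C * b + D * d) - (A * b + B * d) * (C * a + D * c) = 1 := by
    have : (A * a + B * c) * (C * b + D * d) - (A * b + B * d) * (C * a + D * c) =
      (A * D - B * C) * (a * d - b * c) := by ring
    rw [this, h, h', one_mul]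
  have hc' : C * a + D * c ≠ 0 := by
    intro h0
    apply hr
    have h1 : (C : ℚ) * a + D * c = 0 := by exact_mod_cast h0
    rw [hrr]
    field_simp
    linarith
  obtain ⟨L, hL, hPsi⟩ := cusp_val h
  obtain ⟨L', hL', hPsi'⟩ := cusp_val hdet
  have h2 := lim_diff h' h hp (hL 0) (hL' 0)
  have h3 := (hPsi hc).2
  have h4 := (hPsi' hc').2
  have e1 : ((r : ℚ) : ℝ) = (a : ℝ) / c := by
    rw [hrr]
    push_cast
    rfl
  have hcR : (c : ℝ) ≠ 0 := by exact_mod_cast hc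
  have e2 : ((((A * r + B) / (C * r + D) : ℚ)) : ℝ) =
      ((A * a + B * c : ℤ) : ℝ) / ((C * a + D * c : ℤ) : ℝ) := by
    push_cast
    rw [e1]
    have hcR' : ((C : ℝ) * a + D * c) ≠ 0 := by exact_mod_cast hc'
    have hden : (C : ℝ) * ((a : ℝ) / c) + D ≠ 0 := by
      intro h0
      apply hcR'
      have : (C : ℝ) * a + D * c = ((C : ℝ) * ((a : ℝ) / c) + D) * c := by
        field_simp
      rw [this, h0, zero_mul]
    rw [div_eq_div_iff hden hcR']
    field_simp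
  rw [e2, e1, h4, h3, h2]

theorem psi_inv {a b c d : ℤ} (h : a * d - b * c = 1) (h20 : (20 : ℤ) ∣ c) (r s : ℚ)
    (hr : (c : ℚ) * r + d ≠ 0) (hs : (c : ℚ) * s + d ≠ 0) :
    Psi ((((a * r + b) / (c * r + d) : ℚ)) : ℝ) - Psi ((((a * s + b) / (c * s + d) : ℚ)) : ℝ)
      = Psi ((r : ℚ) : ℝ) - Psi ((s : ℚ) : ℝ) := by
  obtain ⟨p, hp⟩ := Phi_per h h20
  rw [per_rat h hp r hr, per_rat h hp s hs]
  ring

theorem psi_inv_infty {a b c d : ℤ} (h : a * d - b * c = 1) (h20 : (20 : ℤ) ∣ c) (hc : c ≠ 0) (r : ℚ)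
    (hr : (c : ℚ) * r + d ≠ 0) :
    Psi ((((a * r + b) / (c * r + d) : ℚ)) : ℝ) - Psi ((((a : ℚ) / c : ℚ)) : ℝ) = Psi ((r : ℚ) : ℝ) := by
  obtain ⟨p, hp⟩ := Phi_per h h20
  have h1 : ((((a : ℚ) / c : ℚ)) : ℝ) = (a : ℝ) / c := by
    push_cast
    rfl
  rw [per_rat h hp r hr, h1, per_infty h hc hp]
  ring

end Pool.Agent.MTate
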