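import Pool.Agent.MTate.Link
/-!
# MODULE PsiSym (symmetries of the periods)
`Psi(r + 1/2) = -Psi(r)`, `Psi(-r) = conj Psi(r)`.

Proof. `f0(z) = ∑ b_n q^n` with real (integer) `b_n`, `b_n = 0` for even `n` (`b_even`).  `z ↦ z + 1/2` changes `q` to
`-q`, so `f0(z + 1/2) = -f0(z)`; `qq(-conj z) = conj (qq z)`, so `f0(-r + i t) = conj f0(r + i t)`.
Integrate (`integral_conj`).
-/
namespace Pool.Agent.MTate
open Complex

theorem qq_half (z : ℂ) : qq (z + 1 / 2) = -qq z := by
  unfold qq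
  have e : 2 * (Real.pi : ℂ) * I * (z + 1 / 2) = 2 * Real.pi * I * z + Real.pi * I := by ring
  rw [e, Complex.exp_add, Complex.exp_pi_mul_I]
  ring

theorem f0_half {z : ℂ} (hz : 0 < z.im) : f0 (z + 1 / 2) = -f0 z := by
  have hz' : 0 < (z + 1 / 2).im := by
    have : (z + 1 / 2).im = z.im := by simp
    rw [this]; exact hz
  have h1 := f0_hasSum hz'
  have h2 := (f0_hasSum hz).neg
  have e : (fun n : ℕ => (b n : ℂ) * qq (z + 1 / 2) ^ n) = fun n : ℕ => -((b n : ℂ) * qq z ^ n) := by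
    funext n
    rw [qq_half]
    rcases Nat.even_or_odd n with hn | hn
    · obtain ⟨k, hk⟩ := hn
      have : b n = 0 := by
        rw [hk, ← two_mul]; exact b_even k
      rw [this]; simp
    · rw [hn.neg_pow]; ring
  rw [e] at h1
  exact h1.unique h2

theorem psi_half (r : ℝ) : Psi (r + 1 / 2) = -Psi r := by
  unfold Psi
  have e : ∫ t in Set.Ioi (0 : ℝ), f0 (((r + 1 / 2 : ℝ) : ℂ) + t * I) =
      ∫ t in Set.Ioi (0 : ℝ), -f0 ((r : ℂ) + t * I) := by
    refine MeasureTheory.setIntegral_congr_fun measurableSet_Ioi fun t ht => ?_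
    have ht' : (0 : ℝ) < t := ht
    have hz : 0 < ((r : ℂ) + t * I).im := by simpa using ht'
    have := f0_half hz
    rw [← this]
    congr 1
    push_cast
    ring
  rw [e, MeasureTheory.integral_neg]
  ring

theorem qq_conj (z : ℂ) : qq (-(starRingEnd ℂ) z) = (starRingEnd ℂ) (qq z) := by
  unfold qq
  rw [← Complex.exp_conj]
  congr 1
  simp only [map_mul, Complex.conj_ofReal, Complex.conj_I, map_ofNat]
  ring

theorem f0_conj {z : ℂ} (hz : 0 < z.im) : f0 (-(starRingEnd ℂ) z) = (starRingEnd ℂ) (f0 z) := by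
  have hz' : 0 < (-(starRingEnd ℂ) z).im := by simpa using hz
  have h1 := f0_hasSum hz'
  have h2 : HasSum (fun n : ℕ => (starRingEnd ℂ) ((b n : ℂ) * qq z ^ n)) ((starRingEnd ℂ) (f0 z)) :=
    (f0_hasSum hz).map (starRingEnd ℂ) Complex.continuous_conj
  have e : (fun n : ℕ => (b n : ℂ) * qq (-(starRingEnd ℂ) z) ^ n) =
      fun n : ℕ => (starRingEnd ℂ) ((b n : ℂ) * qq z ^ n) := by
    funext n
    rw [qq_conj, map_mul, map_pow]
    congr 1
    simp
  rw [e] at h1
  exact h1.unique h2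

theorem psi_neg (r : ℝ) : Psi (-r) = (starRingEnd ℂ) (Psi r) := by
  unfold Psi
  have e : ∫ t in Set.Ioi (0 : ℝ), f0 (((-r : ℝ) : ℂ) + t * I) =
      ∫ t in Set.Ioi (0 : ℝ), (starRingEnd ℂ) (f0 ((r : ℂ) + t * I)) := by
    refine MeasureTheory.setIntegral_congr_fun measurableSet_Ioi fun t ht => ?_
    have ht' : (0 : ℝ) < t := ht
    have hz : 0 < ((r : ℂ) + t * I).im := by simpa using ht'
    have := f0_conj hz
    rw [← this]
    congr 1
    simp
    ring
  rw [e, integral_conj, map_mul, map_mul, Complex.conj_ofReal, map_ofNat]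

end Pool.Agent.MTate
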