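import Pool.Agent.MTate.TwistF
import Pool.Agent.MTate.PsiInv
import Pool.Agent.MTate.PsiSym
import Pool.Agent.MTate.JAlg
import Pool.Agent.MTate.OmegaInt
import Pool.Agent.MTate.Psi14
/-!
# MODULE LamVal (assembly)
`λ(1,5) = λ(4,5) = 1`, `λ(2,5) = λ(3,5) = -1` for `E`.

Proof. `J r = im Psi(r)` (`r ∈ ℚ`) satisfies the hypotheses of `J_alg` by `psi_half`, `psi_neg`, `psi_inv`,
`psi_inv_infty`.  By `fW_E` and `psi_integrable`,
`2 π ∫_0^∞ f_E(r + it) dt = (1/(i√8)) (Psi(r+1/8) + Psi(r+3/8) - Psi(r+5/8) - Psi(r+7/8))` for rational `r`;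
`vint f_E r = -i ∫`, so `π i (vint(r) + vint(-r)) = (1/2)(2 π ∫ f_E(r+it) dt + 2 π ∫ f_E(-r+it) dt)`.
Using `Psi(-s) = conj Psi(s)`, `Psi(s+1) = Psi(s)` the second term is
`(1/(i√8)) conj(Psi(r-1/8) + ...)`: `-r+u/8 = -(r + (8-u)/8) + 1` and `χ(8-u) = -χ(u)`, so the sum of both is
`(1/(i√8)) (S - conj S)`, `S = Psi(r+1/8) + Psi(r+3/8) - Psi(r+5/8) - Psi(r+7/8)`, i.e. `(2/√8) im S`.
Hence `λ(a,5) = im S/(√8 Ω)`.  `r = 1/5`: the arguments are `13/40, 23/40, 33/40, 43/40`, `im S = 4 J(1/4)`;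
`r = 2/5`: `21/40, 31/40, 41/40, 51/40`, `im S = -4 J(1/4)`.  By `psi_quarter` and `Omega_E`,
`J(1/4) = (1/2)∫ = Ω/√2` (as `∫ = √2 Ω`), so `λ(1,5) = 4/(√2 √8) = 1`, `λ(2,5) = -1` (`Omega_E_pos`).
`r = 3/5, 4/5`: `f_E` has period 1 (`fW_E_periodic`) so `vint f_E (3/5) = vint f_E (-2/5)` etc. and
`λ(3,5) = λ(2,5)`, `λ(4,5) = λ(1,5)`.
-/
namespace Pool.Agent.MTate
open Complex MeasureTheory

/-- the alternating sum -/
private noncomputable def SS (r : ℝ) : ℂ :=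
  Psi (r + 1 / 8) + Psi (r + 3 / 8) - Psi (r + 5 / 8) - Psi (r + 7 / 8)

private theorem psi_one (s : ℝ) : Psi (s + 1) = Psi s := by
  have h1 := psi_half (s + 1 / 2)
  rw [psi_half s, neg_neg] at h1
  rw [← h1]
  congr 1
  ring

private theorem SS_neg (r : ℝ) : SS (-r) = -(starRingEnd ℂ) (SS r) := by
  have h : ∀ u v : ℝ, u + v = 1 → Psi (-r + u) = (starRingEnd ℂ) (Psi (r + v)) := by
    intro u v huv
    rw [← psi_neg, ← psi_one (-(r + v))]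
    congr 1
    linarith
  rw [SS, SS, h (1 / 8) (7 / 8) (by norm_num), h (3 / 8) (5 / 8) (by norm_num),
    h (5 / 8) (3 / 8) (by norm_num), h (7 / 8) (1 / 8) (by norm_num)]
  simp only [map_sub, map_add]
  ring

private theorem vint_eq (r : ℚ) :
    vint (fW E) (r : ℝ) = -(1 / (2 * Real.pi * √8)) * SS (r : ℝ) := by
  have hint : ∀ u : ℚ, IntegrableOn
      (fun t : ℝ => f0 ((((r : ℝ)) : ℂ) + t * I + (((u : ℚ) : ℝ) : ℂ))) (Set.Ioi 0) := by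
    intro u
    have h := psi_integrable (r + u)
    refine h.congr_fun (fun t _ => ?_) measurableSet_Ioi
    show f0 _ = f0 _
    congr 1
    push_cast
    ring
  have hPsi : ∀ u : ℚ, ∫ t in Set.Ioi (0 : ℝ), f0 ((((r : ℝ)) : ℂ) + t * I + (((u : ℚ) : ℝ) : ℂ)) =
      (1 / (2 * Real.pi)) * Psi ((r : ℝ) + ((u : ℚ) : ℝ)) := by
    intro u
    rw [Psi]
    have h1 : (2 * Real.pi : ℂ) ≠ 0 := by
      simp [Real.pi_ne_zero]
    rw [← mul_assoc, one_div, inv_mul_cancel₀ h1, one_mul]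
    refine setIntegral_congr_fun measurableSet_Ioi fun t _ => ?_
    show f0 _ = f0 _
    congr 1
    push_cast
    ring
  have h1 : ∫ t in Set.Ioi (0 : ℝ), fW E ((((r : ℝ)) : ℂ) + t * I) =
      ∫ t in Set.Ioi (0 : ℝ), (1 / (I * √8)) * (
        f0 ((((r : ℝ)) : ℂ) + t * I + ((((1 / 8 : ℚ)) : ℝ) : ℂ)) +
        f0 ((((r : ℝ)) : ℂ) + t * I + ((((3 / 8 : ℚ)) : ℝ) : ℂ)) -
        f0 ((((r : ℝ)) : ℂ) + t * I + ((((5 / 8 : ℚ)) : ℝ) : ℂ)) -
        f0 ((((r : ℝ)) : ℂ) + t * I + ((((7 / 8 : ℚ)) : ℝ) : ℂ))) := by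
    refine setIntegral_congr_fun measurableSet_Ioi fun t ht => ?_
    have ht' : 0 < ((((r : ℝ)) : ℂ) + t * I).im := by
      simpa using ht
    show fW E _ = _
    rw [fW_E ht']
    push_cast
    rfl
  have h2 : ∫ t in Set.Ioi (0 : ℝ), (
        f0 ((((r : ℝ)) : ℂ) + t * I + ((((1 / 8 : ℚ)) : ℝ) : ℂ)) +
        f0 ((((r : ℝ)) : ℂ) + t * I + ((((3 / 8 : ℚ)) : ℝ) : ℂ)) -
        f0 ((((r : ℝ)) : ℂ) + t * I + ((((5 / 8 : ℚ)) : ℝ) : ℂ)) -
        f0 ((((r : ℝ)) : ℂ) + t * I + ((((7 / 8 : ℚ)) : ℝ) : ℂ))) =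
      (1 / (2 * Real.pi)) * SS r := by
    have i1 := hint (1 / 8)
    have i2 := hint (3 / 8)
    have i3 := hint (5 / 8)
    have i4 := hint (7 / 8)
    have e1 := integral_sub ((i1.add i2).sub i3) i4
    have e2 := integral_sub (i1.add i2) i3
    have e3 := integral_add i1 i2
    simp only [Pi.add_apply, Pi.sub_apply] at e1 e2 e3
    rw [e1, e2, e3, hPsi, hPsi, hPsi, hPsi, SS]
    push_cast
    ring
  rw [vint, h1, integral_const_mul, h2]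
  have h8 : ((√8 : ℝ) : ℂ) ≠ 0 := by
    simp
  have hpi : (Real.pi : ℂ) ≠ 0 := by
    simp [Real.pi_ne_zero]
  field_simp

private theorem lam_formula (r : ℚ) :
    Real.pi * I / (Omega E : ℂ) * (vint (fW E) (r : ℝ) + vint (fW E) (-(r : ℝ))) =
      (((SS r).im / (√8 * Omega E) : ℝ) : ℂ) := by
  have h1 := vint_eq r
  have h2 := vint_eq (-r)
  have h3 : (((-r : ℚ)) : ℝ) = -(r : ℝ) := by push_cast; rfl
  rw [h3, SS_neg] at h2
  rw [h1, h2]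
  have h8 : ((√8 : ℝ) : ℂ) ≠ 0 := by
    simp
  have hpi : (Real.pi : ℂ) ≠ 0 := by
    simp [Real.pi_ne_zero]
  have hO : (Omega E : ℂ) ≠ 0 := by
    exact_mod_cast Omega_E_pos.ne'
  have h4 : SS r - (starRingEnd ℂ) (SS r) = 2 * ((SS r).im : ℂ) * I := by
    rw [Complex.sub_conj]
    push_cast
    rfl
  have h5 : -(1 / (2 * (Real.pi : ℂ) * √8)) * SS r +
      -(1 / (2 * (Real.pi : ℂ) * √8)) * -(starRingEnd ℂ) (SS r) =
      -(1 / (2 * (Real.pi : ℂ) * √8)) * (SS r - (starRingEnd ℂ) (SS r)) := by ring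
  rw [h5, h4]
  push_cast
  field_simp
  rw [I_sq]
  ring

private theorem J_quarter : (Psi (1 / 4)).im = Omega E / √2 := by
  rw [psi_quarter, Omega_E]
  have h2 : √2 * √2 = (2 : ℝ) := Real.mul_self_sqrt (by norm_num)
  have h2' : (√2 : ℝ) ≠ 0 := by positivity
  set K := ∫ x in Set.Iio (0 : ℝ), 1 / √(-x * (x ^ 2 - 2 * x + 5)) with hK
  have h3 : (I / 2 * (K : ℂ)).im = K / 2 := by
    rw [show I / 2 * (K : ℂ) = ((K / 2 : ℝ) : ℂ) * I by push_cast; ring]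
    simp
  rw [h3]
  field_simp
  rw [Real.sq_sqrt (by norm_num)]

private theorem SS_vals : (SS (1 / 5)).im = 4 * (Omega E / √2) ∧
    (SS (2 / 5)).im = -(4 * (Omega E / √2)) := by
  have h := J_alg (fun r : ℚ => (Psi (r : ℝ)).im) ?_ ?_ ?_ ?_
  · obtain ⟨h1, h2⟩ := h
    have e4 : (Psi (((1 / 4 : ℚ)) : ℝ)).im = Omega E / √2 := by
      rw [← J_quarter]
      norm_num
    simp only [e4] at h1 h2
    constructor
    · rw [← h1, SS]
      simp only [sub_im, add_im]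
      norm_num
    · rw [← h2, SS]
      simp only [sub_im, add_im]
      norm_num
  · intro r
    show (Psi ((r + 1 / 2 : ℚ) : ℝ)).im = -(Psi (r : ℝ)).im
    push_cast
    rw [psi_half, neg_im]
  · intro r
    show (Psi ((-r : ℚ) : ℝ)).im = -(Psi (r : ℝ)).im
    push_cast
    rw [psi_neg, conj_im]
  · intro a b c d h1 h2 r s hr hs
    have := congrArg Complex.im (psi_inv h1 h2 r s hr hs)
    simpa only [sub_im] using this
  · intro a b c d h1 h2 hc r hr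
    have := congrArg Complex.im (psi_inv_infty h1 h2 hc r hr)
    simpa only [sub_im] using this

private theorem sqrt8 : √8 * √2 = (4 : ℝ) := by
  rw [← Real.sqrt_mul (by norm_num)]
  rw [show (8 : ℝ) * 2 = 4 ^ 2 by norm_num]
  exact Real.sqrt_sq (by norm_num)

theorem lam_E_one : lam E 1 5 = 1 := by
  have h := lam_formula (1 / 5)
  rw [lam]
  have h1 : ((1 : ℤ) : ℝ) / ((5 : ℤ) : ℝ) = (((1 / 5 : ℚ)) : ℝ) := by push_cast; rfl
  rw [h1, h]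
  have h2 : (((1 / 5 : ℚ)) : ℝ) = 1 / 5 := by push_cast; rfl
  rw [h2, SS_vals.1]
  have hO := Omega_E_pos.ne'
  have h3 : (4 * (Omega E / √2)) / (√8 * Omega E) = 1 := by
    rw [div_eq_one_iff_eq (by positivity)]
    have h2' : (√2 : ℝ) ≠ 0 := by positivity
    field_simp
    linarith [sqrt8]
  rw [h3]
  norm_num

theorem lam_E_two : lam E 2 5 = -1 := by
  have h := lam_formula (2 / 5)
  rw [lam]
  have h1 : ((2 : ℤ) : ℝ) / ((5 : ℤ) : ℝ) = (((2 / 5 : ℚ)) : ℝ) := by push_cast; rfl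
  rw [h1, h]
  have h2 : (((2 / 5 : ℚ)) : ℝ) = 2 / 5 := by push_cast; rfl
  rw [h2, SS_vals.2]
  have hO := Omega_E_pos.ne'
  have h3 : (-(4 * (Omega E / √2))) / (√8 * Omega E) = -1 := by
    rw [neg_div, neg_inj, div_eq_one_iff_eq (by positivity)]
    have h2' : (√2 : ℝ) ≠ 0 := by positivity
    field_simp
    linarith [sqrt8]
  rw [h3]
  norm_num

private theorem vint_period (r : ℝ) : vint (fW E) (r + 1) = vint (fW E) r := by
  rw [vint, vint]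
  congr 2
  refine setIntegral_congr_fun measurableSet_Ioi fun t ht => ?_
  have ht' : 0 < ((r : ℂ) + t * I).im := by
    simpa using ht
  show fW E _ = fW E _
  rw [← fW_E_periodic ht']
  congr 1
  push_cast
  ring

theorem lam_E_three : lam E 3 5 = -1 := by
  rw [← lam_E_two, lam, lam]
  have h1 : ((3 : ℤ) : ℝ) / ((5 : ℤ) : ℝ) = -(((2 : ℤ) : ℝ) / ((5 : ℤ) : ℝ)) + 1 := by
    push_cast; norm_num
  have h2 : ((2 : ℤ) : ℝ) / ((5 : ℤ) : ℝ) = -(((3 : ℤ) : ℝ) / ((5 : ℤ) : ℝ)) + 1 := by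
    push_cast; norm_num
  have h3 := vint_period (-(((2 : ℤ) : ℝ) / ((5 : ℤ) : ℝ)))
  rw [← h1] at h3
  have h4 := vint_period (-(((3 : ℤ) : ℝ) / ((5 : ℤ) : ℝ)))
  rw [← h2] at h4
  rw [h3, ← h4]
  ring

theorem lam_E_four : lam E 4 5 = 1 := by
  rw [← lam_E_one, lam, lam]
  have h1 : ((4 : ℤ) : ℝ) / ((5 : ℤ) : ℝ) = -(((1 : ℤ) : ℝ) / ((5 : ℤ) : ℝ)) + 1 := by
    push_cast; norm_num
  have h2 : ((1 : ℤ) : ℝ) / ((5 : ℤ) : ℝ) = -(((4 : ℤ) : ℝ) / ((5 : ℤ) : ℝ)) + 1 := by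
    push_cast; norm_num
  have h3 := vint_period (-(((1 : ℤ) : ℝ) / ((5 : ℤ) : ℝ)))
  rw [← h1] at h3
  have h4 := vint_period (-(((4 : ℤ) : ℝ) / ((5 : ℤ) : ℝ)))
  rw [← h2] at h4
  rw [h3, ← h4]
  ring

end Pool.Agent.MTate
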