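import Pool.Agent.MTate.EvP
/-!
# MODULE Link (analysis)
The eta functions in terms of the evaluated power series.  Let `0 < im z`, `q = qq z = exp(2 π i z)`.

Proof. `η(kz) = 𝕢 24 (k z) ∏'(1 - q^(k(n+1)))` by definition of `ModularForm.eta`
(`eta_q n (kz) = q^(k(n+1))`), so `η(kz) = e(kz/24) ev (P k) q` by `ev_P`; the exponential factors combine:
`f0`: `e((2·2 + 10·2) z/24) = e(z) = q`; `X0`: `e((16 + 20 - 4 - 80) z / 24) = e(-2z) = q^-2`;
`G0`: `e((4 + 25 - 1 - 100) z/24) = e(-3z)`.  Nonvanishing from `ModularForm.eta_ne_zero`.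
Derivative: `X0 = (ev Ns / ev Ds) ∘ qq` on the upper half plane, `qq' = 2 π i qq`, chain and quotient
rule and `ev_th`.
-/
namespace Pool.Agent.MTate
open PowerSeries Complex

theorem norm_qq (z : ℂ) : ‖qq z‖ = Real.exp (-(2 * Real.pi * z.im)) := by
  rw [qq, Complex.norm_exp]
  congr 1
  simp [Complex.mul_re, Complex.mul_im]

theorem qq_lt {z : ℂ} (hz : 0 < z.im) : ‖qq z‖ < 1 := by
  rw [norm_qq, Real.exp_lt_one_iff]
  have := mul_pos Real.two_pi_pos hz
  linarith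

theorem qq_ne (z : ℂ) : qq z ≠ 0 := Complex.exp_ne_zero _

/-- every nonzero `q` in the unit disc is `qq z`. -/
theorem exists_qq {q : ℂ} (hq : ‖q‖ < 1) (h0 : q ≠ 0) : ∃ z : ℂ, 0 < z.im ∧ qq z = q := by
  have h2 : (2 * Real.pi * I : ℂ) ≠ 0 := Complex.two_pi_I_ne_zero
  have h1 : qq (log q / (2 * Real.pi * I)) = q := by
    rw [qq, mul_div_cancel₀ _ h2, Complex.exp_log h0]
  refine ⟨_, ?_, h1⟩
  have h3 := norm_qq (log q / (2 * Real.pi * I))
  rw [h1] at h3
  rw [h3, Real.exp_lt_one_iff] at hq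
  have h4 : 0 < 2 * Real.pi * (log q / (2 * Real.pi * I)).im := by linarith
  exact (mul_pos_iff_of_pos_left Real.two_pi_pos).1 h4

theorem conv_num (n : ℕ) [n.AtLeastTwo] : Conv (OfNat.ofNat n : PowerSeries ℤ) := by
  rw [← Nat.cast_ofNat]
  exact conv_ofNat _

theorem conv_fs : Conv fs :=
  conv_mul (conv_mul conv_X (conv_pow (conv_P (by norm_num)) _)) (conv_pow (conv_P (by norm_num)) _)
theorem conv_Ns : Conv Ns :=
  conv_mul (conv_pow (conv_P (by norm_num)) _) (conv_pow (conv_P (by norm_num)) _)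
theorem conv_Ds : Conv Ds :=
  conv_mul (conv_mul (conv_pow conv_X _) (conv_pow (conv_P (by norm_num)) _))
    (conv_pow (conv_P (by norm_num)) _)
theorem conv_NGs : Conv NGs :=
  conv_mul (conv_P (by norm_num)) (conv_pow (conv_P (by norm_num)) _)
theorem conv_DGs : Conv DGs :=
  conv_mul (conv_mul (conv_pow conv_X _) (conv_P (by norm_num))) (conv_pow (conv_P (by norm_num)) _)
theorem conv_Wr : Conv Wr := by
  unfold Wr
  have hN := conv_Ns
  have hD := conv_Ds
  refine conv_sub (conv_pow (conv_sub (conv_mul (conv_th hN) hD) (conv_mul hN (conv_th hD))) _) ?_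
  refine conv_mul (conv_mul (conv_mul (conv_mul (conv_num 4) (conv_pow conv_fs _)) hN) ?_) hD
  exact conv_add (conv_sub (conv_pow hN _) (conv_mul (conv_mul (conv_num 2) hN) hD))
    (conv_mul (conv_num 5) (conv_pow hD _))
theorem conv_Gr : Conv Gr := by
  unfold Gr
  have hN := conv_Ns
  have hD := conv_Ds
  have hf := conv_fs
  have h2 := conv_num 2
  refine conv_sub (conv_sub (conv_add ?_ ?_) ?_) ?_
  · exact conv_mul (conv_mul (conv_mul (conv_mul h2 hf) hD) conv_DGs) hN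
  · exact conv_mul (conv_mul (conv_mul h2 hf) (conv_pow hD _)) conv_DGs
  · exact conv_mul (conv_mul (conv_mul h2 hf) (conv_pow hD _)) conv_NGs
  · exact conv_mul (conv_sub (conv_mul (conv_th hN) hD) (conv_mul hN (conv_th hD))) conv_DGs

theorem eta_eq {k : ℕ} (hk : 0 < k) {z : ℂ} (hz : 0 < z.im) :
    eta (k * z) = exp (2 * Real.pi * I * (k * z / 24)) * ev (P k) (qq z) := by
  rw [ev_P hk (qq_lt hz)]
  unfold eta ModularForm.eta
  congr 1
  · rw [Function.Periodic.qParam]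
    congr 1
    push_cast
    ring
  · congr 1
    ext n
    rw [ModularForm.eta_q_eq_pow, pow_mul, qq]
    congr 2
    rw [← Complex.exp_nat_mul]
    congr 1
    ring

/-- `e(z/24)` -/
noncomputable def q24 (z : ℂ) : ℂ := exp (2 * Real.pi * I * (z / 24))

theorem q24_ne (z : ℂ) : q24 z ≠ 0 := Complex.exp_ne_zero _

theorem q24_pow (z : ℂ) : q24 z ^ 24 = qq z := by
  rw [q24, qq, ← Complex.exp_nat_mul]
  congr 1
  push_cast
  ring

theorem eta_eq' {k : ℕ} (hk : 0 < k) {z : ℂ} (hz : 0 < z.im) :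
    eta (k * z) = q24 z ^ k * ev (P k) (qq z) := by
  rw [eta_eq hk hz]
  congr 1
  rw [q24, ← Complex.exp_nat_mul]
  congr 1
  ring

theorem im_nat_mul {k : ℕ} (hk : 0 < k) {z : ℂ} (hz : 0 < z.im) : 0 < ((k : ℂ) * z).im := by
  rw [Complex.mul_im, Complex.natCast_re, Complex.natCast_im, zero_mul, add_zero]
  have : (0 : ℝ) < k := by exact_mod_cast hk
  positivity

theorem eta_nat_ne {k : ℕ} (hk : 0 < k) {z : ℂ} (hz : 0 < z.im) : eta (k * z) ≠ 0 :=
  ModularForm.eta_ne_zero (im_nat_mul hk hz)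

theorem ev_P_ne {k : ℕ} (hk : 0 < k) {z : ℂ} (hz : 0 < z.im) : ev (P k) (qq z) ≠ 0 := by
  intro h
  apply eta_nat_ne hk hz
  rw [eta_eq' hk hz, h, mul_zero]

theorem ev_fs {q : ℂ} (hq : ‖q‖ < 1) : ev fs q = q * ev (P 2) q ^ 2 * ev (P 10) q ^ 2 := by
  have h2 := conv_P (k := 2) (by norm_num)
  have h10 := conv_P (k := 10) (by norm_num)
  rw [fs, ev_mul (conv_mul conv_X (conv_pow h2 _)) (conv_pow h10 _) hq,
    ev_mul conv_X (conv_pow h2 _) hq, ev_X, ev_pow h2 _ hq, ev_pow h10 _ hq]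

theorem ev_Ns {q : ℂ} (hq : ‖q‖ < 1) : ev Ns q = ev (P 4) q ^ 4 * ev (P 10) q ^ 2 := by
  have h4 := conv_P (k := 4) (by norm_num)
  have h10 := conv_P (k := 10) (by norm_num)
  rw [Ns, ev_mul (conv_pow h4 _) (conv_pow h10 _) hq, ev_pow h4 _ hq, ev_pow h10 _ hq]

theorem ev_Ds {q : ℂ} (hq : ‖q‖ < 1) : ev Ds q = q ^ 2 * ev (P 2) q ^ 2 * ev (P 20) q ^ 4 := by
  have h2 := conv_P (k := 2) (by norm_num)
  have h20 := conv_P (k := 20) (by norm_num)
  rw [Ds, ev_mul (conv_mul (conv_pow conv_X _) (conv_pow h2 _)) (conv_pow h20 _) hq,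
    ev_mul (conv_pow conv_X _) (conv_pow h2 _) hq, ev_pow conv_X _ hq, ev_X, ev_pow h2 _ hq,
    ev_pow h20 _ hq]

theorem ev_NGs {q : ℂ} (hq : ‖q‖ < 1) : ev NGs q = ev (P 4) q * ev (P 5) q ^ 5 := by
  have h4 := conv_P (k := 4) (by norm_num)
  have h5 := conv_P (k := 5) (by norm_num)
  rw [NGs, ev_mul h4 (conv_pow h5 _) hq, ev_pow h5 _ hq]

theorem ev_DGs {q : ℂ} (hq : ‖q‖ < 1) : ev DGs q = q ^ 3 * ev (P 1) q * ev (P 20) q ^ 5 := by
  have h1 := conv_P (k := 1) (by norm_num)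
  have h20 := conv_P (k := 20) (by norm_num)
  rw [DGs, ev_mul (conv_mul (conv_pow conv_X _) h1) (conv_pow h20 _) hq,
    ev_mul (conv_pow conv_X _) h1 hq, ev_pow conv_X _ hq, ev_X, ev_pow h20 _ hq]

theorem f0_eq {z : ℂ} (hz : 0 < z.im) : f0 z = ev fs (qq z) := by
  have h2 := eta_eq' (k := 2) (by norm_num) hz
  have h10 := eta_eq' (k := 10) (by norm_num) hz
  push_cast at h2 h10
  rw [f0, h2, h10, ev_fs (qq_lt hz), ← q24_pow z]
  ring

theorem f0_ne {z : ℂ} (hz : 0 < z.im) : f0 z ≠ 0 := by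
  have h2 := eta_nat_ne (k := 2) (by norm_num) hz
  have h10 := eta_nat_ne (k := 10) (by norm_num) hz
  push_cast at h2 h10
  exact mul_ne_zero (pow_ne_zero _ h2) (pow_ne_zero _ h10)

theorem ev_Ds_ne {z : ℂ} (hz : 0 < z.im) : ev Ds (qq z) ≠ 0 := by
  rw [ev_Ds (qq_lt hz)]
  exact mul_ne_zero (mul_ne_zero (pow_ne_zero _ (qq_ne z))
    (pow_ne_zero _ (ev_P_ne (by norm_num) hz))) (pow_ne_zero _ (ev_P_ne (by norm_num) hz))

theorem ev_Ns_ne {z : ℂ} (hz : 0 < z.im) : ev Ns (qq z) ≠ 0 := by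
  rw [ev_Ns (qq_lt hz)]
  exact mul_ne_zero (pow_ne_zero _ (ev_P_ne (by norm_num) hz))
    (pow_ne_zero _ (ev_P_ne (by norm_num) hz))

theorem ev_DGs_ne {z : ℂ} (hz : 0 < z.im) : ev DGs (qq z) ≠ 0 := by
  rw [ev_DGs (qq_lt hz)]
  exact mul_ne_zero (mul_ne_zero (pow_ne_zero _ (qq_ne z))
    (ev_P_ne (by norm_num) hz)) (pow_ne_zero _ (ev_P_ne (by norm_num) hz))

theorem X0_eq {z : ℂ} (hz : 0 < z.im) : X0 z = ev Ns (qq z) / ev Ds (qq z) := by
  have h2 := eta_eq' (k := 2) (by norm_num) hz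
  have h4 := eta_eq' (k := 4) (by norm_num) hz
  have h10 := eta_eq' (k := 10) (by norm_num) hz
  have h20 := eta_eq' (k := 20) (by norm_num) hz
  push_cast at h2 h4 h10 h20
  rw [X0, h2, h4, h10, h20, ev_Ns (qq_lt hz), ev_Ds (qq_lt hz)]
  refine Eq.trans ?_ (mul_div_mul_left _ _ (pow_ne_zero 36 (q24_ne z)))
  congr 1
  · ring
  · generalize ev (P 2) (qq z) = u
    generalize ev (P 20) (qq z) = v
    rw [← q24_pow z]
    ring

theorem G0_eq {z : ℂ} (hz : 0 < z.im) : G0 z = ev NGs (qq z) / ev DGs (qq z) := by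
  have h1 := eta_eq' (k := 1) (by norm_num) hz
  have h4 := eta_eq' (k := 4) (by norm_num) hz
  have h5 := eta_eq' (k := 5) (by norm_num) hz
  have h20 := eta_eq' (k := 20) (by norm_num) hz
  push_cast at h1 h4 h5 h20
  rw [one_mul] at h1
  rw [G0, h1, h4, h5, h20, ev_NGs (qq_lt hz), ev_DGs (qq_lt hz)]
  refine Eq.trans ?_ (mul_div_mul_left _ _ (pow_ne_zero 29 (q24_ne z)))
  congr 1
  · ring
  · generalize ev (P 1) (qq z) = u
    generalize ev (P 20) (qq z) = v
    rw [← q24_pow z]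
    ring

private theorem isOpenHH_link : IsOpen HH := isOpen_lt continuous_const Complex.continuous_im

theorem hasDerivAt_qq (z : ℂ) : HasDerivAt qq (2 * Real.pi * I * qq z) z := by
  have h1 : HasDerivAt (fun w : ℂ => 2 * Real.pi * I * w) (2 * Real.pi * I) z := by
    simpa using (hasDerivAt_id z).const_mul (2 * Real.pi * I : ℂ)
  have h2 := h1.cexp
  have e : 2 * Real.pi * I * qq z = cexp (2 * Real.pi * I * z) * (2 * Real.pi * I) :=
    mul_comm _ _
  rw [e]
  exact h2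

theorem hasDerivAt_ev_qq {a : PowerSeries ℤ} (ha : Conv a) {z : ℂ} (hz : 0 < z.im) :
    HasDerivAt (fun w => ev a (qq w)) (2 * Real.pi * I * ev (th a) (qq z)) z := by
  have h1 := (ev_differentiableAt ha (qq_lt hz)).hasDerivAt
  have h2 := h1.comp z (hasDerivAt_qq z)
  rw [ev_th ha (qq_lt hz)]
  convert! h2 using 1
  ring

theorem deriv_X0_eq {z : ℂ} (hz : 0 < z.im) :
    deriv X0 z = 2 * Real.pi * I * ((ev (th Ns) (qq z) * ev Ds (qq z)
      - ev Ns (qq z) * ev (th Ds) (qq z)) / ev Ds (qq z) ^ 2) := by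
  have h1 : X0 =ᶠ[nhds z] fun w => ev Ns (qq w) / ev Ds (qq w) := by
    filter_upwards [isOpenHH_link.mem_nhds hz] with w hw
    exact X0_eq hw
  rw [h1.deriv_eq]
  have h2 := (hasDerivAt_ev_qq conv_Ns hz).fun_div (hasDerivAt_ev_qq conv_Ds hz) (ev_Ds_ne hz)
  rw [h2.deriv]
  ring

theorem f0_hasSum {z : ℂ} (hz : 0 < z.im) : HasSum (fun n : ℕ => (b n : ℂ) * qq z ^ n) (f0 z) := by
  rw [f0_eq hz]
  exact ev_hasSum conv_fs (qq_lt hz)

theorem eta_nat_diff {k : ℕ} (hk : 0 < k) {z : ℂ} (hz : 0 < z.im) :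
    DifferentiableAt ℂ (fun w => eta (k * w)) z := by
  have h1 := ModularForm.differentiableAt_eta_of_mem_upperHalfPlaneSet (im_nat_mul hk hz)
  exact DifferentiableAt.comp z h1 (by fun_prop)

theorem f0_diff : DifferentiableOn ℂ f0 HH := by
  intro z hz
  apply DifferentiableAt.differentiableWithinAt
  have h2 := eta_nat_diff (k := 2) (by norm_num) hz
  have h10 := eta_nat_diff (k := 10) (by norm_num) hz
  push_cast at h2 h10
  exact (h2.fun_pow 2).fun_mul (h10.fun_pow 2)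

theorem X0_diff : DifferentiableOn ℂ X0 HH := by
  intro z hz
  apply DifferentiableAt.differentiableWithinAt
  have h2 := eta_nat_diff (k := 2) (by norm_num) hz
  have h4 := eta_nat_diff (k := 4) (by norm_num) hz
  have h10 := eta_nat_diff (k := 10) (by norm_num) hz
  have h20 := eta_nat_diff (k := 20) (by norm_num) hz
  have n2 := eta_nat_ne (k := 2) (by norm_num) hz
  have n20 := eta_nat_ne (k := 20) (by norm_num) hz
  push_cast at h2 h4 h10 h20 n2 n20
  exact ((h4.fun_pow 4).fun_mul (h10.fun_pow 2)).fun_div ((h2.fun_pow 2).fun_mul (h20.fun_pow 4))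
    (mul_ne_zero (pow_ne_zero _ n2) (pow_ne_zero _ n20))

theorem G0_diff : DifferentiableOn ℂ G0 HH := by
  intro z hz
  apply DifferentiableAt.differentiableWithinAt
  have h1 := eta_nat_diff (k := 1) (by norm_num) hz
  have h4 := eta_nat_diff (k := 4) (by norm_num) hz
  have h5 := eta_nat_diff (k := 5) (by norm_num) hz
  have h20 := eta_nat_diff (k := 20) (by norm_num) hz
  have n1 := eta_nat_ne (k := 1) (by norm_num) hz
  have n20 := eta_nat_ne (k := 20) (by norm_num) hz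
  push_cast at h1 h4 h5 h20 n1 n20
  simp only [one_mul] at h1 n1
  exact (h4.fun_mul (h5.fun_pow 5)).fun_div (h1.fun_mul (h20.fun_pow 5))
    (mul_ne_zero n1 (pow_ne_zero _ n20))

theorem Y0_diff : DifferentiableOn ℂ Y0 HH := by
  have h1 : DifferentiableOn ℂ (deriv X0) HH := X0_diff.deriv isOpenHH_link
  refine h1.fun_div (f0_diff.const_mul _) (fun z hz => ?_)
  refine mul_ne_zero ?_ (f0_ne hz)
  have := Real.pi_ne_zero
  simp [Complex.I_ne_zero]

/-- bounds at `i∞`, from `ev_isBigO`, `ev_lower` : `|f0| ≤ K e^{-2π im z}` for `im z ≥ 1/2`. -/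
theorem f0_le : ∃ K : ℝ, ∀ z : ℂ, 1 / 2 ≤ z.im → ‖f0 z‖ ≤ K * Real.exp (-(2 * Real.pi * z.im)) := by
  obtain ⟨K, hK⟩ := ev_isBigO conv_fs (m := 1) (fun n hn => by
    have : n = 0 := by omega
    subst this
    exact b_zero)
  refine ⟨K, fun z hz => ?_⟩
  have hz' : 0 < z.im := by linarith
  have hq : ‖qq z‖ ≤ 1 / 2 := by
    rw [norm_qq]
    have h1 : Real.exp (-(2 * Real.pi * z.im)) ≤ Real.exp (-1) := by
      apply Real.exp_le_exp.2
      have := Real.pi_gt_three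
      nlinarith
    have h2 : Real.exp (-1) ≤ 1 / 2 := by
      rw [Real.exp_neg, inv_eq_one_div]
      apply one_div_le_one_div_of_le (by norm_num)
      have := Real.add_one_le_exp (1 : ℝ)
      linarith
    exact h1.trans h2
  have h3 := hK (qq z) hq
  rw [pow_one, norm_qq] at h3
  rw [f0_eq hz']
  exact h3

end Pool.Agent.MTate
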