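import Pool.Agent.MTate.Base
/-!
# MODULE Mod3a (elliptic curves over finite fields, Mathlib group law)
`3 ∣ p + 1 + ∑_x ((x^3 - 2x^2 + 5x)/p)` for primes `p ≥ 7`.

Proof. `E1 : y^2 = x^3 - 2x^2 + 5x` over `F_p` (`a₂ = -2, a₄ = 5`), `Δ = 16·25·(4 - 20) = -6400 ≠ 0` in `F_p`.
The number of points of `E1` (`WeierstrassCurve.Affine.Point`: `0` and the affine solutions, all
nonsingular) is `1 + ∑_x (1 + χ(F(x))) = p + 1 + S1 p` (number of square roots of `a` in `F_p` is `1 + χ(a)`,
`quadraticChar_card_sqrts`).  The point `P = (1, 2)` has order 3: the tangent slope at `P` is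
`(3 - 4 + 5)/4 = 1`, so `x(2P) = 1 + 2 - 2 = 1`, `2P = (1,-2) = -P`.  By Lagrange 3 divides the group order
(`addOrderOf_dvd_natCard`).
-/
namespace Pool.Agent.MTate

open WeierstrassCurve

/-- The curve `y^2 = x^3 - 2 x^2 + 5 x` over `F_p`. -/
def mod3aCurve (p : ℕ) : WeierstrassCurve.Affine (ZMod p) := ⟨0, -2, 0, 5, 0⟩

lemma mod3a_two_ne {p : ℕ} [Fact p.Prime] (h7 : 7 ≤ p) : (2 : ZMod p) ≠ 0 := by
  intro h
  have h1 : ((2 : ℕ) : ZMod p) = 0 := by exact_mod_cast h
  rw [ZMod.natCast_eq_zero_iff] at h1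
  have := Nat.le_of_dvd (by norm_num) h1
  omega

lemma mod3a_five_ne {p : ℕ} [Fact p.Prime] (h7 : 7 ≤ p) : (5 : ZMod p) ≠ 0 := by
  intro h
  have h1 : ((5 : ℕ) : ZMod p) = 0 := by exact_mod_cast h
  rw [ZMod.natCast_eq_zero_iff] at h1
  have := Nat.le_of_dvd (by norm_num) h1
  omega

lemma mod3a_elliptic {p : ℕ} [Fact p.Prime] (h7 : 7 ≤ p) : (mod3aCurve p).IsElliptic := by
  refine ⟨?_⟩
  have h1 : (mod3aCurve p).Δ = -(2 ^ 8 * 5 ^ 2) := by
    simp only [WeierstrassCurve.Δ, WeierstrassCurve.b₂, WeierstrassCurve.b₄, WeierstrassCurve.b₆,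
      WeierstrassCurve.b₈, mod3aCurve]
    ring
  rw [h1, IsUnit.neg_iff, isUnit_iff_ne_zero]
  exact mul_ne_zero (pow_ne_zero _ (mod3a_two_ne h7)) (pow_ne_zero _ (mod3a_five_ne h7))

lemma mod3a_card {p : ℕ} [Fact p.Prime] (h7 : 7 ≤ p) :
    (Nat.card (mod3aCurve p).Point : ℤ) = p + 1 + S1 p := by
  classical
  have hell := mod3a_elliptic h7
  have h1 : Nat.card (mod3aCurve p).Point =
      Nat.card {xy : ZMod p × ZMod p // (mod3aCurve p).Equation xy.1 xy.2} + 1 := by
    rw [Nat.card_congr (Affine.pointEquiv (W' := mod3aCurve p))]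
    exact Finite.card_option
  have h2 : Nat.card {xy : ZMod p × ZMod p // (mod3aCurve p).Equation xy.1 xy.2} =
      ∑ x : ZMod p, ({y : ZMod p | y ^ 2 = x ^ 3 - 2 * x ^ 2 + 5 * x}.toFinset).card := by
    have h3 : ∀ xy : ZMod p × ZMod p, (mod3aCurve p).Equation xy.1 xy.2 ↔
        xy.2 ^ 2 = xy.1 ^ 3 - 2 * xy.1 ^ 2 + 5 * xy.1 := by
      intro xy
      rw [Affine.equation_iff]
      simp only [mod3aCurve]
      constructor
      · intro h; linear_combination h
      · intro h; linear_combination h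
    rw [Nat.card_congr (Equiv.subtypeEquivRight h3), Nat.card_eq_fintype_card,
      Fintype.card_subtype, Finset.card_filter, ← Finset.univ_product_univ, Finset.sum_product]
    refine Finset.sum_congr rfl fun x _ => ?_
    rw [← Finset.card_filter]
    congr 1
    ext y
    simp
  have hchar : ringChar (ZMod p) ≠ 2 := by
    rw [ZMod.ringChar_zmod_n]
    omega
  rw [h1, h2]
  push_cast
  simp only [quadraticChar_card_sqrts hchar]
  rw [Finset.sum_add_distrib, S1]
  simp [ZMod.card]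
  ring

lemma mod3a_order {p : ℕ} [Fact p.Prime] (h7 : 7 ≤ p) :
    ∃ P : (mod3aCurve p).Point, addOrderOf P = 3 := by
  have hell := mod3a_elliptic h7
  have h2 := mod3a_two_ne h7
  have h4 : (4 : ZMod p) ≠ 0 := by
    have : (4 : ZMod p) = 2 * 2 := by norm_num
    rw [this]
    exact mul_ne_zero h2 h2
  have heq : (mod3aCurve p).Equation 1 2 := by
    rw [Affine.equation_iff]
    simp only [mod3aCurve]
    ring
  have hns : (mod3aCurve p).Nonsingular 1 2 := Affine.equation_iff_nonsingular.mp heq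
  let Q : (mod3aCurve p).Point := Affine.Point.some 1 2 hns
  have hy : (2 : ZMod p) ≠ (mod3aCurve p).negY 1 2 := by
    simp only [Affine.negY, mod3aCurve]
    intro h
    apply h4
    linear_combination h
  have hslope : (mod3aCurve p).slope 1 1 2 2 = 1 := by
    rw [Affine.slope_of_Y_ne rfl hy]
    simp only [Affine.negY, mod3aCurve]
    rw [div_eq_iff]
    · ring
    · intro h
      apply h4
      linear_combination h
  have hadd : Q + Q = -Q := by
    change Affine.Point.some 1 2 hns + Affine.Point.some 1 2 hns = -Affine.Point.some 1 2 hns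
    rw [Affine.Point.add_self_of_Y_ne hy, Affine.Point.neg_some]
    rw [Affine.Point.some.injEq, hslope]
    simp only [Affine.addX, Affine.addY, Affine.negAddY, Affine.negY, mod3aCurve]
    constructor <;> ring
  refine ⟨Q, addOrderOf_eq_prime ?_ ?_⟩
  · rw [show (3 : ℕ) = 2 + 1 from rfl, succ_nsmul, two_nsmul, hadd, neg_add_cancel]
  · exact Affine.Point.some_ne_zero hns

theorem mod3a {p : ℕ} [Fact p.Prime] (h7 : 7 ≤ p) : (3 : ℤ) ∣ p + 1 + S1 p := by
  obtain ⟨Q, hQ⟩ := mod3a_order h7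
  have h1 := addOrderOf_dvd_natCard Q
  rw [hQ] at h1
  rw [← mod3a_card h7]
  exact_mod_cast h1

/-- trivial bound `|S1 p| ≤ p`. -/
theorem S1_le {p : ℕ} [Fact p.Prime] : |S1 p| ≤ p := by
  rw [S1]
  refine (Finset.abs_sum_le_sum_abs _ _).trans ?_
  calc ∑ x : ZMod p, |quadraticChar (ZMod p) (x ^ 3 - 2 * x ^ 2 + 5 * x)| ≤ ∑ _x : ZMod p, 1 := by
        refine Finset.sum_le_sum fun x _ => ?_
        by_cases h : x ^ 3 - 2 * x ^ 2 + 5 * x = 0
        · rw [h]; simp
        · rcases quadraticChar_dichotomy h with h | h <;> rw [h] <;> simp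
    _ = p := by simp [ZMod.card]

end Pool.Agent.MTate
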