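import Pool.Agent.MTate.SerLog
import Pool.Agent.MTate.IdentW
import Pool.Agent.MTate.IdentG
/-!
# MODULE Mod3b (power series)
`b p ≡ p + 1 mod 3` for every prime `p` not dividing 20.

Proof. Work in the fraction field of `ℤ⟦q⟧` (a domain).  `x = N/D`, `y = θx/(2f)`, `G = NG/DG`.
`Wr = 0`: `y^2 = x^3 - 2x^2 + 5x`; `Gr = 0`: `G = x + 1 - y`.  Apply `θ`: `θx = 2 y f`,
`2 y θy = (3x^2 - 4x + 5) θx`, so `θy = (3x^2 - 4x + 5) f` (`y ≠ 0`), hence
`θG = 2 y f - (3x^2 - 4x + 5) f = f (x + 1 - y) ... `: precisely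
`θG - f G = f (2y - 3x^2 + 4x - 5 - x - 1 + y) = 3 f (y - x^2 + x - 2)`.
Multiply by denominators: with `y = x + 1 - G`, `y - x^2 + x - 2 = 2x - 1 - G - x^2`, so
`θG - f G = 3 f (2 x - 1 - x^2 - G)`, and `D^2 DG^2 (...)`:
`D^2 (θNG DG - NG θDG) - f D^2 NG DG = 3 f (2 N D DG^2 - D^2 DG^2 - N^2 DG^2 - D^2 NG DG)` in `ℤ⟦q⟧`.
(This identity can be checked by multiplying with suitable nonzero series, using `Wr = 0`, `Gr = 0`.)
By `th_P`, `θNG DG - NG θDG = NG DG · (-(sig 4 + 5 sig 5) - 3 + sig 1 + 5 sig 20)`.  Hence modulo 3, after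
cancelling `D^2 NG DG` (its image in `F_3⟦q⟧` is nonzero, leading coefficient 1):
`f ≡ sig 1 - sig 4 - 5 sig 5 + 5 sig 20 mod 3`.  The coefficient at a prime `p ∤ 20` is `σ(p) = p + 1`.
(`sig k` has coefficient `k σ(m/k)` at `q^m`, `k ∣ m`.)
-/
namespace Pool.Agent.MTate
open PowerSeries

/-- the algebraic identity behind the logarithmic derivative of `G` -/
theorem mod3b_alg {R : Type*} [CommRing R] [IsDomain R] (f N D G H f' N' D' G' H' A A' : R)
    (h8 : (8 : R) ≠ 0) (hA : A = N' * D - N * D') (hf : f ≠ 0) (hD : D ≠ 0) (hA0 : A ≠ 0)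
    (hW : A ^ 2 - 4 * f ^ 2 * N * (N ^ 2 - 2 * N * D + 5 * D ^ 2) * D = 0)
    (hW' : 2 * A * A' - (8 * f * f' * (N ^ 3 * D - 2 * N ^ 2 * D ^ 2 + 5 * N * D ^ 3)
      + 4 * f ^ 2 * (3 * N ^ 2 * N' * D + N ^ 3 * D' - 4 * N * N' * D ^ 2 - 4 * N ^ 2 * D * D'
        + 5 * N' * D ^ 3 + 15 * N * D ^ 2 * D')) = 0)
    (hG : 2 * f * D ^ 2 * G - (2 * f * D * N + 2 * f * D ^ 2 - A) * H = 0)
    (hG' : (2 * f' * D ^ 2 + 4 * f * D * D') * G + 2 * f * D ^ 2 * G'
      - (2 * f' * D * N + 2 * f * D' * N + 2 * f * D * N' + 2 * f' * D ^ 2 + 4 * f * D * D' - A') * H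
      - (2 * f * D * N + 2 * f * D ^ 2 - A) * H' = 0) :
    D ^ 2 * (G' * H - G * H') - f * D ^ 2 * G * H
      - 3 * f * (2 * N * D * H ^ 2 - D ^ 2 * H ^ 2 - N ^ 2 * H ^ 2 - D ^ 2 * G * H) = 0 := by
  have hne : 8 * A * f ^ 2 * D ^ 2 ≠ 0 :=
    mul_ne_zero (mul_ne_zero (mul_ne_zero h8 hA0) (pow_ne_zero _ hf)) (pow_ne_zero _ hD)
  refine (mul_eq_zero.1 ?_).resolve_left hne
  linear_combination (2 * A * (2 * f * D ^ 2) * H) * hG'
    + (2 * A * (-((2 * f' * D ^ 2 + 4 * f * D * D') * H + (2 * f * D ^ 2) * H')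
        + 2 * f * (2 * f * D ^ 2) * H)) * hG
    - (H ^ 2 * (2 * f * D ^ 2)) * hW' + (2 * H ^ 2 * (2 * f' * D ^ 2 + 4 * f * D * D')) * hW
    + (-8 * A * f ^ 2 * D ^ 2 * H ^ 2
        + 8 * f ^ 3 * D ^ 2 * H ^ 2 * (3 * N ^ 2 - 4 * N * D + 5 * D ^ 2)) * hA

theorem P_ne {k : ℕ} (hk : 0 < k) : P k ≠ 0 := by
  intro h
  have := constantCoeff_P hk
  rw [h] at this
  simp at this

theorem fs_ne : fs ≠ 0 := by
  unfold fs
  exact mul_ne_zero (mul_ne_zero X_ne_zero (pow_ne_zero _ (P_ne (by norm_num))))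
    (pow_ne_zero _ (P_ne (by norm_num)))

theorem Ds_ne : Ds ≠ 0 := by
  unfold Ds
  exact mul_ne_zero (mul_ne_zero (pow_ne_zero _ X_ne_zero) (pow_ne_zero _ (P_ne (by norm_num))))
    (pow_ne_zero _ (P_ne (by norm_num)))

theorem Ns_ne : Ns ≠ 0 := by
  unfold Ns
  exact mul_ne_zero (pow_ne_zero _ (P_ne (by norm_num))) (pow_ne_zero _ (P_ne (by norm_num)))

theorem mod3b_Q_ne : Ns ^ 2 - 2 * Ns * Ds + 5 * Ds ^ 2 ≠ 0 := by
  intro h
  have h1 := congrArg (constantCoeff (R := ℤ)) h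
  have h2 : constantCoeff Ns = 1 := by
    simp [Ns, constantCoeff_P (show 0 < 4 by norm_num), constantCoeff_P (show 0 < 10 by norm_num)]
  have h3 : constantCoeff Ds = 0 := by
    simp [Ds]
  simp [h2, h3] at h1

theorem mod3b_A_ne : th Ns * Ds - Ns * th Ds ≠ 0 := by
  intro h
  have hW := Wr_eq_zero
  unfold Wr at hW
  rw [h] at hW
  have h0 : 4 * fs ^ 2 * Ns * (Ns ^ 2 - 2 * Ns * Ds + 5 * Ds ^ 2) * Ds = 0 := by
    linear_combination -hW
  have h4 : (4 : PowerSeries ℤ) ≠ 0 := fun h => by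
    have := congrArg (constantCoeff (R := ℤ)) h
    rw [map_ofNat, map_zero] at this
    norm_num at this
  exact mul_ne_zero (mul_ne_zero (mul_ne_zero (mul_ne_zero h4 (pow_ne_zero _ fs_ne)) Ns_ne)
    mod3b_Q_ne) Ds_ne h0

theorem th_zero' : th (0 : PowerSeries ℤ) = 0 := by
  ext n
  simp [th]

theorem th_nat (m : ℕ) : th (m : PowerSeries ℤ) = 0 := by
  ext n
  rw [coeff_th]
  rcases Nat.eq_zero_or_pos n with rfl | h
  · simp
  · have : coeff n (m : PowerSeries ℤ) = 0 := by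
      rw [← map_natCast (C (R := ℤ)) m, coeff_C, if_neg (by omega)]
    rw [this]
    simp

/-- the identity between `G` and `X` after differentiation -/
theorem mod3b_key : Ds ^ 2 * (th NGs * DGs - NGs * th DGs) - fs * Ds ^ 2 * NGs * DGs
      - 3 * fs * (2 * Ns * Ds * DGs ^ 2 - Ds ^ 2 * DGs ^ 2 - Ns ^ 2 * DGs ^ 2
        - Ds ^ 2 * NGs * DGs) = 0 := by
  obtain ⟨A, hA⟩ : ∃ A, A = th Ns * Ds - Ns * th Ds := ⟨_, rfl⟩
  have hA0 : A ≠ 0 := by rw [hA]; exact mod3b_A_ne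
  have hW := Wr_eq_zero
  unfold Wr at hW
  rw [← hA] at hW
  have hG := Gr_eq_zero
  unfold Gr at hG
  rw [← hA] at hG
  have t2 : th (2 : PowerSeries ℤ) = 0 := by exact_mod_cast th_nat 2
  have t4 : th (4 : PowerSeries ℤ) = 0 := by exact_mod_cast th_nat 4
  have t5 : th (5 : PowerSeries ℤ) = 0 := by exact_mod_cast th_nat 5
  have hW' := congrArg th hW
  rw [th_zero'] at hW'
  simp only [th_sub, th_add, th_mul, sq, t2, t4, t5] at hW'
  have hG' := congrArg th hG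
  rw [th_zero'] at hG'
  simp only [th_sub, th_add, th_mul, sq, t2] at hG'
  have h8 : (8 : PowerSeries ℤ) ≠ 0 := fun h => by
    have := congrArg (constantCoeff (R := ℤ)) h
    rw [map_ofNat, map_zero] at this
    norm_num at this
  refine mod3b_alg fs Ns Ds NGs DGs (th fs) (th Ns) (th Ds) (th NGs) (th DGs) A (th A) h8 hA
    fs_ne Ds_ne hA0 ?_ ?_ ?_ ?_
  · linear_combination hW
  · linear_combination hW'
  · linear_combination -hG
  · linear_combination -hG'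

theorem mod3b_logder : th NGs * DGs - NGs * th DGs =
    NGs * DGs * (sig 1 - sig 4 - 5 * sig 5 + 5 * sig 20 - 3) := by
  have h1 := th_P (k := 1) (by norm_num)
  have h4 := th_P (k := 4) (by norm_num)
  have h5 := th_P (k := 5) (by norm_num)
  have h20 := th_P (k := 20) (by norm_num)
  have hX : th (X : PowerSeries ℤ) = X := by
    have := th_X_pow (R := ℤ) 1
    simpa using this
  unfold NGs DGs
  simp only [th_mul, th_pow, hX, h1, h4, h5, h20]
  push_cast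
  norm_num
  ring

theorem mod3b {p : ℕ} (hp : p.Prime) (h20 : ¬ p ∣ 20) : (3 : ℤ) ∣ b p - (p + 1) := by
  obtain ⟨φ, hφ⟩ : ∃ φ : PowerSeries ℤ →+* PowerSeries (ZMod 3),
    φ = PowerSeries.map (Int.castRingHom (ZMod 3)) := ⟨_, rfl⟩
  have hkey := mod3b_key
  rw [mod3b_logder] at hkey
  have h3 : (3 : PowerSeries (ZMod 3)) = 0 := by
    have h31 : (3 : PowerSeries (ZMod 3)) = C (3 : ZMod 3) := by rw [map_ofNat]
    have h32 : (3 : ZMod 3) = 0 := by decide
    rw [h31, h32, map_zero]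
  have hkey2 := congrArg φ hkey
  have hφ3 : φ 3 = 0 := by rw [map_ofNat]; exact h3
  have hfac : φ (Ds ^ 2 * NGs * DGs) * φ (sig 1 - sig 4 - 5 * sig 5 + 5 * sig 20 - 3 - fs) = 0 := by
    rw [← map_mul]
    have e : Ds ^ 2 * (NGs * DGs * (sig 1 - sig 4 - 5 * sig 5 + 5 * sig 20 - 3)) -
        fs * Ds ^ 2 * NGs * DGs = Ds ^ 2 * NGs * DGs *
          (sig 1 - sig 4 - 5 * sig 5 + 5 * sig 20 - 3 - fs) := by ring
    rw [map_sub, e, map_mul φ (3 * fs), map_mul φ 3, hφ3, zero_mul, zero_mul, sub_zero,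
      map_zero] at hkey2
    exact hkey2
  have hPne : ∀ k : ℕ, 0 < k → φ (P k) ≠ 0 := by
    intro k hk h
    have h1 : constantCoeff (φ (P k)) = 1 := by
      rw [hφ]
      have := constantCoeff_P hk
      rw [← coeff_zero_eq_constantCoeff_apply] at this ⊢
      rw [PowerSeries.coeff_map, this, map_one]
    rw [h] at h1
    simp at h1
  have hXne : φ X ≠ 0 := by
    rw [hφ, PowerSeries.map_X]
    exact X_ne_zero
  have hne : φ (Ds ^ 2 * NGs * DGs) ≠ 0 := by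
    unfold Ds NGs DGs
    simp only [map_mul, map_pow]
    have h1 := hPne 1 (by norm_num)
    have h2 := hPne 2 (by norm_num)
    have h4 := hPne 4 (by norm_num)
    have h5 := hPne 5 (by norm_num)
    have h20 := hPne 20 (by norm_num)
    refine mul_ne_zero (mul_ne_zero (pow_ne_zero _ (mul_ne_zero (mul_ne_zero (pow_ne_zero _ hXne)
      (pow_ne_zero _ h2)) (pow_ne_zero _ h20))) (mul_ne_zero h4 (pow_ne_zero _ h5))) 
      (mul_ne_zero (mul_ne_zero (pow_ne_zero _ hXne) h1) (pow_ne_zero _ h20))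
  have hz := (mul_eq_zero.1 hfac).resolve_left hne
  have hc := congrArg (coeff p) hz
  rw [hφ, PowerSeries.coeff_map] at hc
  have hp0 : p ≠ 0 := hp.ne_zero
  have c1 : coeff p (sig 1) = (p : ℤ) + 1 := by
    rw [sig, coeff_mk, if_pos (one_dvd p), Nat.div_one, ArithmeticFunction.sigma_one_apply,
      Nat.Prime.sum_divisors hp]
    push_cast
    ring
  have cz : ∀ k : ℕ, ¬ k ∣ p → coeff p (sig k) = 0 := by
    intro k hk
    rw [sig, coeff_mk, if_neg hk]
  have c4 : coeff p (sig 4) = 0 := cz 4 fun h => by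
    have := (Nat.dvd_prime hp).1 h
    rcases this with h | h
    · omega
    · rw [← h] at hp
      exact absurd hp (by norm_num)
  have c5 : coeff p (sig 5) = 0 := cz 5 fun h => by
    rcases (Nat.dvd_prime hp).1 h with h | h
    · omega
    · exact h20 (by rw [← h]; norm_num)
  have c20 : coeff p (sig 20) = 0 := cz 20 fun h => by
    rcases (Nat.dvd_prime hp).1 h with h | h
    · omega
    · exact h20 (by rw [← h])
  have c5' : coeff p (5 * sig 5 : PowerSeries ℤ) = 0 := by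
    have : (5 * sig 5 : PowerSeries ℤ) = C (5 : ℤ) * sig 5 := by simp
    rw [this, coeff_C_mul, c5, mul_zero]
  have c20' : coeff p (5 * sig 20 : PowerSeries ℤ) = 0 := by
    have : (5 * sig 20 : PowerSeries ℤ) = C (5 : ℤ) * sig 20 := by simp
    rw [this, coeff_C_mul, c20, mul_zero]
  have c3 : coeff p (3 : PowerSeries ℤ) = 0 := by
    have : (3 : PowerSeries ℤ) = C (3 : ℤ) := by simp
    rw [this, coeff_C, if_neg hp0]
  have hcc : coeff p (sig 1 - sig 4 - 5 * sig 5 + 5 * sig 20 - 3 - fs) = (p : ℤ) + 1 - b p := by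
    simp only [map_sub, map_add, c1, c4, c5', c20', c3, b]
    ring
  rw [hcc] at hc
  have hc' : (((p : ℤ) + 1 - b p : ℤ) : ZMod 3) = 0 := by
    simpa using hc
  have hd := (ZMod.intCast_zmod_eq_zero_iff_dvd ((p : ℤ) + 1 - b p) 3).1 hc'
  have e : b p - ((p : ℤ) + 1) = -((p : ℤ) + 1 - b p) := by ring
  rw [e]
  exact (dvd_neg).2 (by exact_mod_cast hd)

end Pool.Agent.MTate
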