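import Pool.Agent.MTate.ApE
import Pool.Agent.MTate.Hasse
import Pool.Agent.MTate.CharPow
import Pool.Agent.MTate.Mod3a
import Pool.Agent.MTate.Mod3b
/-!
# MODULE ModularE (assembly: modularity of E)
`a_n(E) = χ_{-8}(n) b_n` for all `n`.

Proof. For a prime `p ≥ 7`: `b p = -S1 p`.  Indeed `b p ≡ -S1 p mod p` (`hasse`, `char_pow`),
`b p ≡ p + 1 ≡ -S1 p mod 3` (`mod3b`, `mod3a`), and `|b p + S1 p| ≤ (p+1) + p < 3p` (`b_le`, `S1_le`).
So `ap E p = χ(p) b p` for `p ≥ 7` (`ap_E`), for `p = 3` (`ap_E_three`, `b_three`, `χ(3) = 1`), for `p = 5`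
(`ap_E_five`, `b_five'`, `χ(5) = -1`), for `p = 2` (both 0).
Prime powers: `apow E p k = χ(p^k) b(p^k)`: for good `p` both sides satisfy
`u_(k+2) = a_p u_(k+1) - p u_k` (`hecke_coef` with `n = p^(k+1)`, `χ(p)^2 = 1`); for `p = 5` both are
`1` (`b_five`: `b(5^k) = (-1)^k`); for `p = 2`, `k ≥ 1` both are `0`.
`n ↦ χ(n) b(n)` is multiplicative: `b(mn) = b(m) b(n)` for coprime `m, n` follows by induction from
`hecke_coef`, `b_five`, `b_even` (peel off prime powers: for `p ∤ n`, `b(p^k n) = b(p^k) b(n)`).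
Compare with the definition of `an` as a product over `n.primeFactors`.
-/
namespace Pool.Agent.MTate

private lemma me_chi_mul (m n : ℕ) : chi (m * n) = chi m * chi n := by
  have h : ∀ k : ℕ, chi k = chi (k % 8) := by
    intro k
    unfold chi
    rw [Nat.mod_mod]
  have key : ∀ a < 8, ∀ c < 8, chi (a * c % 8) = chi a * chi c := by decide
  rw [h (m * n), h m, h n, Nat.mul_mod, key _ (Nat.mod_lt _ (by norm_num)) _ (Nat.mod_lt _ (by norm_num))]

private lemma me_chi_one : chi 1 = 1 := by decide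

private lemma me_chi_sq {p : ℕ} (h : p % 2 = 1) : chi p * chi p = 1 := by
  have h8 : p % 8 = 1 ∨ p % 8 = 3 ∨ p % 8 = 5 ∨ p % 8 = 7 := by omega
  unfold chi
  rcases h8 with h | h | h | h <;> simp [h]

private lemma me_dvd20 {p : ℕ} (hp : p.Prime) (h2 : p ≠ 2) (h5 : p ≠ 5) : ¬ p ∣ 20 := by
  intro h
  have h20 : (20 : ℕ) = 2 * (2 * 5) := by norm_num
  rw [h20, hp.dvd_mul, hp.dvd_mul] at h
  rcases h with h | h | h
  · exact h2 ((Nat.prime_dvd_prime_iff_eq hp Nat.prime_two).1 h)
  · exact h2 ((Nat.prime_dvd_prime_iff_eq hp Nat.prime_two).1 h)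
  · exact h5 ((Nat.prime_dvd_prime_iff_eq hp Nat.prime_five).1 h)

private lemma me_b_eq {p : ℕ} [hF : Fact p.Prime] (h7 : 7 ≤ p) : b p = -S1 p := by
  have hp : p.Prime := hF.out
  have h2 : p ≠ 2 := by omega
  have h5 : p ≠ 5 := by omega
  have h20 := me_dvd20 hp h2 h5
  have e1 := hasse h2 h5
  have e2 := char_pow h2
  have hdp : (p : ℤ) ∣ b p + S1 p := by
    rw [← ZMod.intCast_zmod_eq_zero_iff_dvd, Int.cast_add, e1, e2, add_neg_cancel]
  have hd3 : (3 : ℤ) ∣ b p + S1 p := by
    have h := dvd_add (mod3b hp h20) (mod3a h7)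
    have e : b p - (p + 1) + (p + 1 + S1 p) = b p + S1 p := by ring
    rwa [e] at h
  have hcop : IsCoprime (3 : ℤ) (p : ℤ) := by
    have h3 : Nat.Coprime 3 p := (Nat.coprime_primes Nat.prime_three hp).2 (by omega)
    exact_mod_cast Nat.isCoprime_iff_coprime.2 h3
  have hd := hcop.mul_dvd hd3 hdp
  have hb := b_le hp h20
  have hs := S1_le (p := p)
  have hlt : |b p + S1 p| < 3 * (p : ℤ) := by
    have h := abs_add_le (b p) (S1 p)
    have : (7 : ℤ) ≤ p := by exact_mod_cast h7
    linarith
  have h0 := Int.eq_zero_of_abs_lt_dvd hd hlt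
  linarith

private lemma me_ap {p : ℕ} (hp : p.Prime) : ap E p = chi p * b p := by
  have : Fact p.Prime := ⟨hp⟩
  rcases Nat.lt_or_ge p 7 with h | h
  · have h2 := hp.two_le
    interval_cases p
    · rw [ap_E_two, show chi 2 = 0 by decide, zero_mul]
    · rw [ap_E_three, b_three, show chi 3 = 1 by decide, one_mul]
    · exact absurd hp (by norm_num)
    · rw [ap_E_five, b_five', show chi 5 = -1 by decide]; norm_num
    · exact absurd hp (by norm_num)
  · rw [ap_E (by omega), me_b_eq h]
    ring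

private lemma me_apow {p : ℕ} (hp : p.Prime) (k : ℕ) :
    apow E p k = chi (p ^ k) * b (p ^ k) := by
  induction k using Nat.twoStepInduction with
  | zero => rw [pow_zero, me_chi_one, b_one]; rfl
  | one => rw [pow_one]; exact me_ap hp
  | more k ih1 ih2 =>
    rw [apow, ih1, ih2, me_ap hp]
    have hc : chi (p ^ (k + 2)) = chi p * chi (p ^ (k + 1)) := by
      rw [← me_chi_mul, ← pow_succ']
    have hc1 : chi (p ^ (k + 1)) = chi p * chi (p ^ k) := by
      rw [← me_chi_mul, ← pow_succ']
    have hb1 : p ^ (k + 2) = p * p ^ (k + 1) := pow_succ' _ _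
    by_cases h2 : p = 2
    · subst h2
      have c2 : chi 2 = 0 := by decide
      rw [hc, c2, if_pos (E_good hp |>.2 (Or.inl rfl))]
      ring
    by_cases h5 : p = 5
    · subst h5
      rw [hc, if_pos (E_good hp |>.2 (Or.inr rfl)), hb1, b_five (5 ^ (k + 1)), b_five']
      ring
    · have h20 := me_dvd20 hp h2 h5
      have hg : ¬ ((p : ℤ) ∣ E.Δ) := fun h => (E_good hp |>.1 h).elim h2 h5
      rw [if_neg hg]
      have hh := hecke_coef hp h20 (p ^ (k + 1))
      have hd : p ∣ p ^ (k + 1) := dvd_pow_self p (Nat.succ_ne_zero k)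
      rw [if_pos hd, ← hb1] at hh
      have hq : p ^ (k + 1) / p = p ^ k := by
        rw [pow_succ]
        exact Nat.mul_div_cancel _ hp.pos
      rw [hq] at hh
      have hodd : p % 2 = 1 := by
        rcases hp.eq_two_or_odd with h | h
        · exact absurd h h2
        · exact h
      have hsq := me_chi_sq hodd
      have hbb : b (p ^ (k + 2)) = b p * b (p ^ (k + 1)) - p * b (p ^ k) := by linarith
      rw [hc, hbb, hc1]
      linear_combination (-(p : ℤ) * chi (p ^ k) * b (p ^ k)) * (-hsq)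

private lemma me_peel {p : ℕ} (hp : p.Prime) {m : ℕ} (hm : ¬ p ∣ m) (k : ℕ) :
    b (p ^ k * m) = b (p ^ k) * b m := by
  induction k using Nat.twoStepInduction with
  | zero => rw [pow_zero, one_mul, b_one, one_mul]
  | one =>
    rw [pow_one]
    by_cases h2 : p = 2
    · subst h2
      have h := b_even 1
      rw [b_even, show (2 : ℕ) = 2 * 1 by norm_num, h, zero_mul]
    by_cases h5 : p = 5
    · subst h5
      rw [b_five, b_five']
      ring
    · have hh := hecke_coef hp (me_dvd20 hp h2 h5) m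
      rw [if_neg hm, add_zero] at hh
      exact hh
  | more k ih1 ih2 =>
    have hb1 : p ^ (k + 2) = p * p ^ (k + 1) := pow_succ' _ _
    have hb2 : p ^ (k + 2) * m = p * (p ^ (k + 1) * m) := by rw [hb1, mul_assoc]
    by_cases h2 : p = 2
    · subst h2
      rw [hb2, b_even, hb1, b_even, zero_mul]
    by_cases h5 : p = 5
    · subst h5
      rw [hb2, b_five, hb1, b_five, ih2]
      ring
    · have h20 := me_dvd20 hp h2 h5
      have hd : p ∣ p ^ (k + 1) := dvd_pow_self p (Nat.succ_ne_zero k)
      have hh := hecke_coef hp h20 (p ^ (k + 1))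
      rw [if_pos hd, ← hb1] at hh
      have hq : p ^ (k + 1) / p = p ^ k := by
        rw [pow_succ]
        exact Nat.mul_div_cancel _ hp.pos
      rw [hq] at hh
      have hh2 := hecke_coef hp h20 (p ^ (k + 1) * m)
      rw [if_pos (hd.mul_right m), ← hb2] at hh2
      have hq2 : p ^ (k + 1) * m / p = p ^ k * m := by
        rw [pow_succ, mul_assoc, mul_comm p m, ← mul_assoc]
        exact Nat.mul_div_cancel _ hp.pos
      rw [hq2, ih1, ih2] at hh2
      linear_combination hh2 - b m * hh

private lemma me_b_mul (x : ℕ) : ∀ y : ℕ, Nat.Coprime x y → b (x * y) = b x * b y := by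
  induction x using Nat.strong_induction_on with
  | _ x ih =>
    intro y hxy
    rcases Nat.eq_zero_or_pos x with h0 | h0
    · subst h0
      rw [zero_mul, b_zero, zero_mul]
    by_cases h1 : x = 1
    · subst h1
      rw [one_mul, b_one, one_mul]
    set p := x.minFac with hpdef
    have hp : p.Prime := Nat.minFac_prime h1
    have hpx : p ∣ x := Nat.minFac_dvd x
    obtain ⟨k, x', hx', hxx⟩ := Nat.exists_eq_pow_mul_and_not_dvd h0.ne' p hp.ne_one
    have hk : k ≠ 0 := by
      intro hk
      rw [hk, pow_zero, one_mul] at hxx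
      exact hx' (hxx ▸ hpx)
    have hpk : 1 < p ^ k := Nat.one_lt_pow hk hp.one_lt
    have hx'0 : 0 < x' := by
      rcases Nat.eq_zero_or_pos x' with h | h
      · rw [h, mul_zero] at hxx; omega
      · exact h
    have hlt : x' < x := by
      rw [hxx]
      nlinarith
    have hpy : ¬ p ∣ y := by
      intro h
      have := Nat.dvd_gcd hpx h
      rw [hxy] at this
      exact hp.one_lt.ne' (Nat.dvd_one.1 this)
    have hcop : Nat.Coprime x' y := by
      apply Nat.Coprime.coprime_dvd_left _ hxy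
      exact ⟨p ^ k, by rw [hxx]; ring⟩
    have hpxy : ¬ p ∣ x' * y := by
      rw [hp.dvd_mul]
      tauto
    calc b (x * y) = b (p ^ k * (x' * y)) := by rw [← mul_assoc, ← hxx]
      _ = b (p ^ k) * b (x' * y) := me_peel hp hpxy k
      _ = b (p ^ k) * (b x' * b y) := by rw [ih x' hlt y hcop]
      _ = (b (p ^ k) * b x') * b y := by ring
      _ = b x * b y := by rw [← me_peel hp hx' k, ← hxx]

theorem an_E (n : ℕ) : an E n = chi n * b n := by
  unfold an
  split_ifs with h0
  · rw [h0, b_zero, mul_zero]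
  · have h := Nat.multiplicative_factorization (fun n => chi n * b n)
      (fun x y hxy => by
        rw [me_chi_mul, me_b_mul x y hxy]
        ring) (by rw [me_chi_one, b_one, one_mul]) (n := n) h0
    rw [h, Finsupp.prod, Nat.support_factorization]
    exact Finset.prod_congr rfl fun p hp => me_apow (Nat.prime_of_mem_primeFactors hp) _

end Pool.Agent.MTate
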