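import Pool.Agent.MTate.YB
import Pool.Agent.MTate.Liouville
/-!
# MODULE OneDim (modular forms)
`S_2(Γ_0(20))` is spanned by `f0`.
-/
namespace Pool.Agent.MTate
open Complex Filter Topology

theorem eventually_im_pos_od : ∀ᶠ z : ℂ in imInf, 0 < z.im := by
  rw [imInf, Filter.eventually_comap]
  filter_upwards [Filter.eventually_gt_atTop (0 : ℝ)] with t ht z hz
  rw [hz]; exact ht

theorem tendsto_im_imInf_od : Tendsto (fun z : ℂ => z.im) imInf atTop := tendsto_comap

theorem one_dim (g : ℂ → ℂ) (hg : DifferentiableOn ℂ g HH) (hinv : Inv 20 2 g)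
    (hb : ∃ C : ℝ, ∀ z : ℂ, 0 < z.im → z.im * ‖g z‖ ≤ C) :
    ∃ κ : ℂ, ∀ z : ℂ, 0 < z.im → g z = κ * f0 z := by
  obtain ⟨C, hC⟩ := hb
  have hHH : IsOpen HH := isOpen_lt continuous_const Complex.continuous_im
  have hmain : ∃ κ : ℂ, ∀ z : ℂ, 0 < z.im → (fun z => g z / f0 z) z = κ := by
    refine liouville _ (hg.div f0_diff fun z hz => f0_ne hz) ?_ ?_
    · intro a b c d h hc z hz
      have h1 := hinv a b c d h hc z hz
      have h2 := f0_inv a b c d h hc z hz
      simp only [zpow_zero, one_mul]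
      rw [h1, h2]
      have hne := den_ne h hz
      have h3 : ((c : ℂ) * z + d) ^ (2 : ℤ) ≠ 0 := zpow_ne_zero _ hne
      have h4 := f0_ne hz
      field_simp
    · intro a b c d h
      obtain ⟨κ, hκ, hf⟩ := f0_cusp h
      set G : ℂ → ℂ := fun z => g ((a * z + b) / (c * z + d)) / (c * z + d) ^ (2 : ℤ) with hG
      have hGd : DifferentiableOn ℂ G HH := by
        intro z hz
        have h1 : DifferentiableAt ℂ g ((a * z + b) / (c * z + d)) :=
          hg.differentiableAt (hHH.mem_nhds (im_smul_pos h hz))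
        have h2 : DifferentiableAt ℂ (fun z : ℂ => g ((a * z + b) / (c * z + d))) z :=
          (h1.hasDerivAt.comp z (hasDerivAt_moeb h hz)).differentiableAt
        have h3 : DifferentiableAt ℂ (fun z : ℂ => ((c : ℂ) * z + d) ^ (2 : ℤ)) z := by
          have : (fun z : ℂ => ((c : ℂ) * z + d) ^ (2 : ℤ)) = fun z : ℂ => ((c : ℂ) * z + d) ^ 2 := by
            funext z; norm_cast
          rw [this]
          fun_prop
        exact (h2.div h3 (zpow_ne_zero _ (den_ne h hz))).differentiableWithinAt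
      have hper : ∀ z : ℂ, 0 < z.im → G (z + (MTate.hc c : ℕ)) = G z := by
        intro z hz
        exact cusp_periodic (k := 2) g hinv h z hz
      -- `G → 0`
      have hGbd : ∀ z : ℂ, 0 < z.im → ‖G z‖ ≤ C / z.im := by
        intro z hz
        have hne := den_ne h hz
        have hn : 0 < ‖(c * z + d : ℂ)‖ := norm_pos_iff.2 hne
        have h1 := hC _ (im_smul_pos h hz)
        rw [im_smul h hz] at h1
        rw [le_div_iff₀ hz, hG]
        have h2 : ‖((c : ℂ) * z + d) ^ (2 : ℤ)‖ = ‖(c * z + d : ℂ)‖ ^ 2 := by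
          rw [norm_zpow]; norm_cast
        simp only [norm_div, h2]
        calc ‖g ((a * z + b) / (c * z + d))‖ / ‖(c * z + d : ℂ)‖ ^ 2 * z.im
            = z.im / ‖(c * z + d : ℂ)‖ ^ 2 * ‖g ((a * z + b) / (c * z + d))‖ := by ring
          _ ≤ C := h1
      have hG0 : Tendsto G imInf (𝓝 0) := by
        refine squeeze_zero_norm' (a := fun z : ℂ => C / z.im) ?_ ?_
        · filter_upwards [eventually_im_pos_od] with z hz using hGbd z hz
        · exact tendsto_im_imInf_od.const_div_atTop C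
      obtain ⟨K, hK⟩ := per_zero G (MTate.hc c) (hc_pos c) hGd hper hG0
      have hlow : ∀ᶠ z : ℂ in imInf,
          κ / 2 < ‖f0 ((a * z + b) / (c * z + d))‖ / ‖(c * z + d : ℂ)‖ ^ 2 *
            Real.exp (2 * Real.pi * z.im / MTate.hc c) :=
        hf.eventually_const_lt (by linarith)
      refine ⟨|K| / (κ / 2), ?_⟩
      filter_upwards [hK, eventually_im_pos_od, hlow] with z h1 hz h3
      have hne := den_ne h hz
      set w : ℂ := (a * z + b) / (c * z + d) with hw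
      have hw0 : 0 < w.im := im_smul_pos h hz
      have hf0 : f0 w ≠ 0 := f0_ne hw0
      set E : ℝ := Real.exp (2 * Real.pi * z.im / MTate.hc c) with hE
      have hEpos : 0 < E := Real.exp_pos _
      have hEinv : Real.exp (-(2 * Real.pi * z.im / MTate.hc c)) = E⁻¹ := by rw [Real.exp_neg]
      rw [hEinv] at h1
      have hn : 0 < ‖(c * z + d : ℂ)‖ := norm_pos_iff.2 hne
      have h2 : ‖((c : ℂ) * z + d) ^ (2 : ℤ)‖ = ‖(c * z + d : ℂ)‖ ^ 2 := by
        rw [norm_zpow]; norm_cast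
      have e1 : ‖g w‖ = ‖G z‖ * ‖(c * z + d : ℂ)‖ ^ 2 := by
        have e0 : ‖G z‖ = ‖g w‖ / ‖(c * z + d : ℂ)‖ ^ 2 := by
          rw [hG, norm_div, h2]
        rw [e0, div_mul_cancel₀]
        positivity
      have hfpos : 0 < ‖f0 w‖ := norm_pos_iff.2 hf0
      have h4 : ‖G z‖ ≤ |K| * E⁻¹ :=
        h1.trans (mul_le_mul_of_nonneg_right (le_abs_self K) (inv_nonneg.2 hEpos.le))
      have h5 : κ / 2 * ‖(c * z + d : ℂ)‖ ^ 2 * E⁻¹ ≤ ‖f0 w‖ := by
        have h6 : κ / 2 < ‖f0 w‖ * E / ‖(c * z + d : ℂ)‖ ^ 2 := by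
          have : ‖f0 w‖ / ‖(c * z + d : ℂ)‖ ^ 2 * E = ‖f0 w‖ * E / ‖(c * z + d : ℂ)‖ ^ 2 := by ring
          rw [← this]; exact h3
        rw [lt_div_iff₀ (by positivity)] at h6
        calc κ / 2 * ‖(c * z + d : ℂ)‖ ^ 2 * E⁻¹ ≤ (‖f0 w‖ * E) * E⁻¹ :=
              mul_le_mul_of_nonneg_right h6.le (inv_nonneg.2 hEpos.le)
          _ = ‖f0 w‖ := by field_simp
      change ‖g w / f0 w‖ ≤ _
      rw [norm_div, e1, div_le_div_iff₀ hfpos (by positivity)]
      calc ‖G z‖ * ‖(c * z + d : ℂ)‖ ^ 2 * (κ / 2)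
          ≤ |K| * E⁻¹ * ‖(c * z + d : ℂ)‖ ^ 2 * (κ / 2) := by gcongr
        _ = |K| * (κ / 2 * ‖(c * z + d : ℂ)‖ ^ 2 * E⁻¹) := by ring
        _ ≤ |K| * ‖f0 w‖ := by gcongr
  obtain ⟨κ, hκ⟩ := hmain
  refine ⟨κ, fun z hz => ?_⟩
  have := hκ z hz
  have h4 := f0_ne hz
  simp only at this
  rw [← this]
  field_simp

end Pool.Agent.MTate
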