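import Pool.Agent.MTate.Base
/-!
# MODULE PerDecay (complex analysis)
Exponential decay of periodic holomorphic functions on the upper half plane.

Proof. With `F(z+h) = F(z)` and `F` bounded as `im z → ∞`: Mathlib's
`Function.Periodic.exp_decay_sub_of_bounded_at_inf` (or `UpperHalfPlane.exp_decay_sub_atImInfty`) gives
`‖F z - L‖ ≤ C exp(-2 π im z / h)` for large `im z`; the bound for the derivative follows from the Cauchy
estimate on the disc of radius `1` around `z`
(`Complex.norm_deriv_le_of_forall_mem_sphere_norm_le` for `F - L`).  If `F → 0` then `L = 0`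
(`Function.Periodic.exp_decay_of_zero_at_inf`).  (`F` is only assumed holomorphic and periodic on `im z > 0`;
compose with a cut-off or use the `ofComplex` versions in Mathlib.)
-/
namespace Pool.Agent.MTate
open Complex Filter Topology

/-- the cut-off of a function to the upper half plane -/
noncomputable def cutF (F : ℂ → ℂ) (z : ℂ) : ℂ := by
  classical exact if 0 < z.im then F z else 0

theorem cutF_of_pos (F : ℂ → ℂ) {z : ℂ} (hz : 0 < z.im) : cutF F z = F z := by
  unfold cutF; rw [if_pos hz]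

theorem cutF_periodic (F : ℂ → ℂ) (h : ℕ) (hper : ∀ z : ℂ, 0 < z.im → F (z + h) = F z) :
    Function.Periodic (cutF F) ((h : ℝ) : ℂ) := by
  intro z
  have him : (z + ((h : ℝ) : ℂ)).im = z.im := by simp
  by_cases hz : 0 < z.im
  · rw [cutF_of_pos F hz, cutF_of_pos F (by rw [him]; exact hz)]
    have := hper z hz
    push_cast
    exact this
  · unfold cutF
    rw [if_neg hz, if_neg (by rw [him]; exact hz)]

theorem imInf_pos : ∀ᶠ z : ℂ in imInf, 0 < z.im := by
  rw [imInf, Filter.eventually_comap]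
  filter_upwards [Filter.eventually_gt_atTop (0 : ℝ)] with t ht z hz
  rw [hz]; exact ht

theorem cutF_hol (F : ℂ → ℂ) (hF : DifferentiableOn ℂ F HH) :
    ∀ᶠ z : ℂ in imInf, DifferentiableAt ℂ (cutF F) z := by
  have hHH : IsOpen HH := isOpen_lt continuous_const Complex.continuous_im
  filter_upwards [imInf_pos] with z hz
  refine (hF.differentiableAt (hHH.mem_nhds hz)).congr_of_eventuallyEq ?_
  filter_upwards [hHH.mem_nhds hz] with w hw
  exact cutF_of_pos F hw

/-- an eventual statement for `imInf` holds above some height. -/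
theorem exists_height {p : ℂ → Prop} (hp : ∀ᶠ z : ℂ in imInf, p z) :
    ∃ A : ℝ, ∀ z : ℂ, A ≤ z.im → p z := by
  rw [imInf, Filter.eventually_comap, Filter.eventually_atTop] at hp
  obtain ⟨A, hA⟩ := hp
  exact ⟨A, fun z hz => hA z.im hz z rfl⟩

theorem eventually_height (A : ℝ) : ∀ᶠ z : ℂ in imInf, A ≤ z.im := by
  rw [imInf, Filter.eventually_comap]
  filter_upwards [Filter.eventually_ge_atTop A] with t ht z hz
  rw [hz]; exact ht

theorem per_deriv (F : ℂ → ℂ) (h : ℕ) (hh : 0 < h) (hF : DifferentiableOn ℂ F HH)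
    (hper : ∀ z : ℂ, 0 < z.im → F (z + h) = F z) (M : ℝ) (hb : ∀ᶠ z in imInf, ‖F z‖ ≤ M) :
    ∃ K : ℝ, ∀ᶠ z in imInf, ‖deriv F z‖ ≤ K * Real.exp (-(2 * Real.pi * z.im / h)) := by
  have hh' : (0 : ℝ) < h := by exact_mod_cast hh
  have hHH : IsOpen HH := isOpen_lt continuous_const Complex.continuous_im
  have hbd : BoundedAtFilter imInf (cutF F) := by
    refine Asymptotics.isBigO_iff.2 ⟨M, ?_⟩
    filter_upwards [hb, imInf_pos] with z h1 h2
    rw [cutF_of_pos F h2]
    simpa using h1
  have key := Function.Periodic.exp_decay_sub_of_bounded_at_inf hh' (cutF_periodic F h hper)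
    (cutF_hol F hF) hbd
  obtain ⟨C, hC⟩ := Asymptotics.isBigO_iff.1 key
  set L : ℂ := Function.Periodic.cuspFunction (h : ℝ) (cutF F) 0 with hL
  obtain ⟨A, hA⟩ := exists_height hC
  refine ⟨C * Real.exp (2 * Real.pi / h), ?_⟩
  filter_upwards [eventually_height (max A 1 + 1)] with z hz
  have hA1 : A ≤ max A 1 := le_max_left _ _
  have h11 : 1 ≤ max A 1 := le_max_right _ _
  have hball : Metric.closedBall z 1 ⊆ HH := by
    intro w hw
    rw [Metric.mem_closedBall, dist_eq_norm] at hw
    have h1 : |(w - z).im| ≤ 1 := (Complex.abs_im_le_norm _).trans hw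
    rw [Complex.sub_im, abs_le] at h1
    change 0 < w.im
    linarith [h1.1]
  have hd : DiffContOnCl ℂ (fun w => F w - L) (Metric.ball z 1) := by
    refine DifferentiableOn.diffContOnCl ?_
    rw [closure_ball z one_ne_zero]
    exact (hF.mono hball).sub_const L
  have hsph : ∀ w ∈ Metric.sphere z 1,
      ‖F w - L‖ ≤ C * Real.exp (2 * Real.pi / h) * Real.exp (-(2 * Real.pi * z.im / h)) := by
    intro w hw
    have hw' : ‖w - z‖ = 1 := by rwa [Metric.mem_sphere, dist_eq_norm] at hw
    have h1 : |(w - z).im| ≤ 1 := (Complex.abs_im_le_norm _).trans hw'.le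
    rw [Complex.sub_im, abs_le] at h1
    have hwim : A ≤ w.im := by linarith [h1.1]
    have hwpos : 0 < w.im := by linarith [h1.1]
    have h2 := hA w hwim
    rw [cutF_of_pos F hwpos, Real.norm_eq_abs, abs_of_pos (Real.exp_pos _)] at h2
    have hC0 : 0 ≤ C := by
      by_contra hneg
      push Not at hneg
      have := mul_neg_of_neg_of_pos hneg (Real.exp_pos (-2 * Real.pi * w.im / (h : ℝ)))
      linarith [norm_nonneg (F w - L)]
    refine h2.trans ?_
    rw [mul_assoc C, ← Real.exp_add]
    refine mul_le_mul_of_nonneg_left (Real.exp_le_exp.2 ?_) hC0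
    have e : 2 * Real.pi / (h : ℝ) + -(2 * Real.pi * z.im / h) = (2 * Real.pi / h) * (1 - z.im) := by
      ring
    have e' : -2 * Real.pi * w.im / (h : ℝ) = (2 * Real.pi / h) * (-w.im) := by ring
    rw [e, e']
    exact mul_le_mul_of_nonneg_left (by linarith [h1.1]) (by positivity)
  have h3 := Complex.norm_deriv_le_of_forall_mem_sphere_norm_le one_pos hd hsph
  rw [deriv_sub_const, div_one] at h3
  exact h3

theorem per_zero (F : ℂ → ℂ) (h : ℕ) (hh : 0 < h) (hF : DifferentiableOn ℂ F HH)
    (hper : ∀ z : ℂ, 0 < z.im → F (z + h) = F z) (hb : Tendsto F imInf (𝓝 0)) :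
    ∃ K : ℝ, ∀ᶠ z in imInf, ‖F z‖ ≤ K * Real.exp (-(2 * Real.pi * z.im / h)) := by
  have hh' : (0 : ℝ) < h := by exact_mod_cast hh
  have hz : ZeroAtFilter imInf (cutF F) := by
    refine hb.congr' ?_
    filter_upwards [imInf_pos] with z h2
    rw [cutF_of_pos F h2]
  have key := Function.Periodic.exp_decay_of_zero_at_inf hh' (cutF_periodic F h hper)
    (cutF_hol F hF) hz
  obtain ⟨C, hC⟩ := Asymptotics.isBigO_iff.1 key
  refine ⟨C, ?_⟩
  filter_upwards [hC, imInf_pos] with z h1 h2
  rw [cutF_of_pos F h2, Real.norm_eq_abs, abs_of_pos (Real.exp_pos _)] at h1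
  refine h1.trans (le_of_eq ?_)
  congr 2
  ring

end Pool.Agent.MTate
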