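import Pool.Agent.MTate.Link
import Pool.Agent.MTate.InvF
/-!
# MODULE PhiDef (primitive of f0)
`Phi z = ∑ (b_n/n) q^n` is a primitive of `2 π i f0`, and changes by constants under `Γ_0(20)`.

Proof. `|b_n/n| ≤ |b_n|` and `∑ |b_n| |q|^n < ∞` (`conv_fs`): termwise differentiation
(`q^n` has derivative `2 π i n q^n`; e.g. `hasDerivAt_tsum` on half planes `im z > y0`, or `ev`-type power
series in `q`).  `Phi_le`: `b 0 = 0`, so `|Phi z| ≤ |q| ∑_{n≥1} |b_n| 2^{-(n-1)} ` for `|q| ≤ 1/2`.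
`Phi_per`: `z ↦ Phi(γ z) - Phi(z)` has derivative `2 π i (f0(γz)/(cz+d)^2 - f0(z)) = 0` on the (convex) upper
half plane.
-/
namespace Pool.Agent.MTate
open Complex Filter Topology

theorem qq_hasDerivAt' (z : ℂ) : HasDerivAt qq (qq z * (2 * Real.pi * I)) z := by
  unfold qq
  have h1 : HasDerivAt (fun z : ℂ => 2 * (Real.pi : ℂ) * I * z) (2 * Real.pi * I) z := by
    simpa using (hasDerivAt_id z).const_mul (2 * (Real.pi : ℂ) * I)
  exact h1.cexp

theorem term_hasDerivAt (n : ℕ) (z : ℂ) :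
    HasDerivAt (fun z : ℂ => ((b n : ℂ) / n) * qq z ^ n)
      (2 * Real.pi * I * ((b n : ℂ) * qq z ^ n)) z := by
  rcases Nat.eq_zero_or_pos n with hn | hn
  · subst hn
    have h0 : (b 0 : ℂ) = 0 := by rw [b_zero]; simp
    have h1 : (fun z : ℂ => ((b 0 : ℂ) / (0 : ℕ)) * qq z ^ 0) = fun _ => (0 : ℂ) := by
      funext w; rw [h0]; simp
    rw [h1, h0]
    simpa using hasDerivAt_const z (0 : ℂ)
  · have h1 := ((qq_hasDerivAt' z).pow n).const_mul ((b n : ℂ) / n)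
    have hn' : (n : ℂ) ≠ 0 := by exact_mod_cast hn.ne'
    have e : (b n : ℂ) / n * ((n : ℂ) * qq z ^ (n - 1) * (qq z * (2 * Real.pi * I))) =
        2 * Real.pi * I * ((b n : ℂ) * qq z ^ n) := by
      have e2 : qq z ^ n = qq z ^ (n - 1) * qq z := by
        rw [← pow_succ]; congr 1; omega
      rw [e2]
      field_simp
    rw [e] at h1
    exact h1

theorem summable_b {q : ℂ} (hq : ‖q‖ < 1) : Summable fun n : ℕ => ‖(b n : ℂ)‖ * ‖q‖ ^ n := by
  have h1 := conv_fs q hq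
  refine h1.congr fun n => ?_
  rw [norm_mul, norm_pow]
  rfl

theorem norm_term_le_phi (n : ℕ) (q : ℂ) : ‖((b n : ℂ) / n) * q ^ n‖ ≤ ‖(b n : ℂ)‖ * ‖q‖ ^ n := by
  rw [norm_mul, norm_pow, norm_div]
  have : ‖(b n : ℂ)‖ / ‖(n : ℂ)‖ ≤ ‖(b n : ℂ)‖ := by
    rcases Nat.eq_zero_or_pos n with hn | hn
    · subst hn; simp
    · apply div_le_self (norm_nonneg _)
      rw [Complex.norm_natCast]
      exact_mod_cast hn
  gcongr

theorem convex_HH : Convex ℝ HH := convex_halfSpace_im_gt 0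

theorem isOpen_HH' : IsOpen HH := isOpen_lt continuous_const Complex.continuous_im

theorem Phi_hasDerivAt {z : ℂ} (hz : 0 < z.im) :
    HasDerivAt Phi (2 * Real.pi * I * f0 z) z := by
  set y0 : ℝ := z.im / 2 with hy0
  have hy0p : 0 < y0 := by positivity
  have ht : IsOpen {w : ℂ | y0 < w.im} := isOpen_lt continuous_const Complex.continuous_im
  have htc : IsPreconnected {w : ℂ | y0 < w.im} := (convex_halfSpace_im_gt y0).isPreconnected
  set r : ℝ := Real.exp (-(2 * Real.pi * y0)) with hr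
  have hr1 : ‖(r : ℂ)‖ < 1 := by
    rw [Complex.norm_real, Real.norm_eq_abs, abs_of_pos (Real.exp_pos _)]
    have : 0 < 2 * Real.pi * y0 := by positivity
    rw [← Real.exp_zero]
    exact Real.exp_lt_exp.2 (by linarith)
  have hu : Summable fun n : ℕ => 2 * Real.pi * (‖(b n : ℂ)‖ * ‖(r : ℂ)‖ ^ n) :=
    (summable_b hr1).mul_left _
  have hzmem : z ∈ {w : ℂ | y0 < w.im} := by
    show y0 < z.im
    rw [hy0]; linarith
  have key := hasDerivAt_tsum_of_isPreconnected (𝕜 := ℂ)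
    (g := fun (n : ℕ) (w : ℂ) => ((b n : ℂ) / n) * qq w ^ n)
    (g' := fun (n : ℕ) (w : ℂ) => 2 * Real.pi * I * ((b n : ℂ) * qq w ^ n))
    (u := fun n : ℕ => 2 * Real.pi * (‖(b n : ℂ)‖ * ‖(r : ℂ)‖ ^ n))
    (t := {w : ℂ | y0 < w.im}) (y₀ := z) (y := z) hu ht htc
    (fun n w _ => term_hasDerivAt n w)
    (fun n w hw => by
      have hw' : y0 < w.im := hw
      have e2 : ‖(2 * (Real.pi : ℂ) * I)‖ = 2 * Real.pi := by
        simp [abs_of_pos Real.pi_pos]
      rw [norm_mul, e2, norm_mul, norm_pow]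
      have e3 : ‖qq w‖ ≤ ‖(r : ℂ)‖ := by
        rw [norm_qq, Complex.norm_real, Real.norm_eq_abs, abs_of_pos (Real.exp_pos _)]
        apply Real.exp_le_exp.2
        have := Real.pi_pos
        nlinarith
      have := Real.pi_pos
      gcongr)
    hzmem
    (Summable.of_norm_bounded (summable_b (qq_lt hz)) fun n => norm_term_le_phi n (qq z))
    hzmem
  have e : (∑' n : ℕ, 2 * (Real.pi : ℂ) * I * ((b n : ℂ) * qq z ^ n)) = 2 * Real.pi * I * f0 z :=
    ((f0_hasSum hz).mul_left (2 * (Real.pi : ℂ) * I)).tsum_eq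
  rw [e] at key
  exact key

theorem Phi_le : ∃ K : ℝ, ∀ z : ℂ, 1 ≤ z.im → ‖Phi z‖ ≤ K * Real.exp (-(2 * Real.pi * z.im)) := by
  have hhalf : ‖((1 / 2 : ℝ) : ℂ)‖ = 1 / 2 := by
    rw [Complex.norm_real, Real.norm_eq_abs]; norm_num
  have hS : Summable fun n : ℕ => ‖(b n : ℂ)‖ * (1 / 2 : ℝ) ^ n := by
    have := summable_b (q := ((1 / 2 : ℝ) : ℂ)) (by rw [hhalf]; norm_num)
    rwa [hhalf] at this
  refine ⟨2 * ∑' n : ℕ, ‖(b n : ℂ)‖ * (1 / 2 : ℝ) ^ n, fun z hz => ?_⟩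
  have hq : ‖qq z‖ ≤ 1 / 2 := by
    rw [norm_qq]
    have h1 : Real.exp (-(2 * Real.pi * z.im)) ≤ Real.exp (-1) := by
      apply Real.exp_le_exp.2
      have := Real.pi_gt_three
      nlinarith
    have h2 : Real.exp (-1) ≤ 1 / 2 := by
      rw [Real.exp_neg, ← one_div]
      apply one_div_le_one_div_of_le (by norm_num)
      have := Real.add_one_le_exp (1 : ℝ)
      linarith
    exact h1.trans h2
  have hterm : ∀ n : ℕ, ‖((b n : ℂ) / n) * qq z ^ n‖ ≤
      2 * ‖qq z‖ * (‖(b n : ℂ)‖ * (1 / 2 : ℝ) ^ n) := by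
    intro n
    rcases Nat.eq_zero_or_pos n with hn | hn
    · subst hn
      have h0 : (b 0 : ℂ) = 0 := by rw [b_zero]; simp
      rw [h0]; simp
    · refine (norm_term_le_phi n (qq z)).trans ?_
      have e2 : ‖qq z‖ ^ n = ‖qq z‖ ^ (n - 1) * ‖qq z‖ := by
        rw [← pow_succ]; congr 1; omega
      have e3 : (1 / 2 : ℝ) ^ n = (1 / 2) ^ (n - 1) * (1 / 2) := by
        rw [← pow_succ]; congr 1; omega
      have e4 : ‖qq z‖ ^ (n - 1) ≤ (1 / 2 : ℝ) ^ (n - 1) := by gcongr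
      rw [e2, e3]
      calc ‖(b n : ℂ)‖ * (‖qq z‖ ^ (n - 1) * ‖qq z‖)
          ≤ ‖(b n : ℂ)‖ * ((1 / 2 : ℝ) ^ (n - 1) * ‖qq z‖) := by gcongr
        _ = 2 * ‖qq z‖ * (‖(b n : ℂ)‖ * ((1 / 2 : ℝ) ^ (n - 1) * (1 / 2))) := by ring
  unfold Phi
  calc ‖∑' n : ℕ, ((b n : ℂ) / n) * qq z ^ n‖
      ≤ ∑' n : ℕ, 2 * ‖qq z‖ * (‖(b n : ℂ)‖ * (1 / 2 : ℝ) ^ n) :=
        tsum_of_norm_bounded (hS.mul_left _).hasSum hterm
    _ = 2 * ‖qq z‖ * ∑' n : ℕ, (‖(b n : ℂ)‖ * (1 / 2 : ℝ) ^ n) := tsum_mul_left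
    _ = _ := by rw [norm_qq]; ring

theorem Phi_per {a b c d : ℤ} (h : a * d - b * c = 1) (h20 : (20 : ℤ) ∣ c) :
    ∃ p : ℂ, ∀ z : ℂ, 0 < z.im → Phi ((a * z + b) / (c * z + d)) = Phi z + p := by
  have hder : ∀ z ∈ HH, HasDerivAt (fun z : ℂ => Phi ((a * z + b) / (c * z + d)) - Phi z) 0 z := by
    intro z hz
    have hz' : 0 < z.im := hz
    have hne := den_ne h hz'
    have h1 : HasDerivAt (fun z : ℂ => (a * z + b) / (c * z + d)) (1 / (c * z + d) ^ 2) z := by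
      have e1 : HasDerivAt (fun z : ℂ => (a * z + b : ℂ)) a z := by
        simpa using ((hasDerivAt_id z).const_mul (a : ℂ)).add_const (b : ℂ)
      have e2 : HasDerivAt (fun z : ℂ => (c * z + d : ℂ)) c z := by
        simpa using ((hasDerivAt_id z).const_mul (c : ℂ)).add_const (d : ℂ)
      have e3 := e1.div e2 hne
      have hdet : (a : ℂ) * d - b * c = 1 := by exact_mod_cast h
      have e4 : ((a : ℂ) * (c * z + d) - (a * z + b) * c) / (c * z + d) ^ 2 =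
          1 / (c * z + d) ^ 2 := by
        rw [← hdet]; ring
      rw [e4] at e3
      exact e3
    have h2 := (Phi_hasDerivAt (im_smul_pos h hz')).comp z h1
    have h3 := f0_inv a b c d h h20 z hz'
    have h4 := h2.sub (Phi_hasDerivAt hz')
    have e5 : 2 * (Real.pi : ℂ) * I * f0 ((a * z + b) / (c * z + d)) * (1 / (c * z + d) ^ 2) -
        2 * Real.pi * I * f0 z = 0 := by
      rw [h3]
      have e6 : (c * z + d : ℂ) ^ (2 : ℤ) = (c * z + d : ℂ) ^ (2 : ℕ) := by norm_cast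
      rw [e6]
      field_simp
      ring
    rw [e5] at h4
    exact h4
  have hI : (I : ℂ) ∈ HH := by
    show 0 < I.im
    simp
  refine ⟨Phi ((a * I + b) / (c * I + d)) - Phi I, fun z hz => ?_⟩
  have key := isOpen_HH'.is_const_of_deriv_eq_zero (𝕜 := ℂ) convex_HH.isPreconnected
    (f := fun z : ℂ => Phi ((a * z + b) / (c * z + d)) - Phi z)
    (fun w hw => (hder w hw).differentiableAt.differentiableWithinAt)
    (fun w hw => (hder w hw).deriv) hz hI
  linear_combination key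

end Pool.Agent.MTate
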