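import Pool.Agent.MTate.SerP
/-!
# MODULE SerLog (formal power series)
Logarithmic derivative of the Euler product: `θ P_k = - P_k · ∑_{m ≥ 1, k ∣ m} k σ(m/k) q^m`.

Proof. For the finite product `Q_M = ∏_{n<M} (1 - X^(k(n+1)))` one has, by the product rule,
`θ Q_M · ∏ ... `, i.e. `θ Q_M = - Q_M * ∑_{n<M} k(n+1) X^(k(n+1)) / (1 - X^(k(n+1)))` where the quotient is
the power series `∑_{j≥1} X^(k(n+1) j)`.  The coefficient of `X^m` in
`∑_{n<M} k(n+1) ∑_{j≥1} X^(k(n+1)j)` for `M ≥ m + 1` is `∑_{d ∣ m/k} k d = k σ(m/k)` if `k ∣ m` and `m ≥ 1`,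
else `0`.  Compare coefficients of `X^m` using `coeff_P` (only coefficients `≤ m` of each factor enter).
(`ArithmeticFunction.sigma 1 0 = 0`, so `m = 0` is included in the formula.)
-/
namespace Pool.Agent.MTate
open PowerSeries

/-- `∑_{m, k ∣ m} k σ(m/k) q^m`. -/
noncomputable def sig (k : ℕ) : PowerSeries ℤ :=
  PowerSeries.mk fun m => if k ∣ m then (k : ℤ) * (ArithmeticFunction.sigma 1 (m / k) : ℤ) else 0

namespace SerLogAux

/-- `∑_{i ≥ 1} X^(j i)` -/
noncomputable def Gs (j : ℕ) : PowerSeries ℤ :=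
  PowerSeries.mk fun m => if j ∣ m ∧ m ≠ 0 then 1 else 0

lemma Gs_eq {j : ℕ} (hj : 0 < j) : (1 - X ^ j : PowerSeries ℤ) * Gs j = X ^ j := by
  ext m
  rw [sub_mul, one_mul, map_sub, coeff_X_pow_mul', coeff_X_pow]
  simp only [Gs, coeff_mk]
  by_cases h1 : j ≤ m
  · rw [if_pos h1]
    have e1 : j ∣ m - j ↔ j ∣ m := by
      constructor
      · intro h
        have := Nat.dvd_add h (dvd_refl j)
        rwa [Nat.sub_add_cancel h1] at this
      · intro h
        exact Nat.dvd_sub h (dvd_refl j)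
    simp only [e1]
    by_cases h2 : j ∣ m
    · by_cases h3 : m = j
      · subst h3
        simp [hj.ne']
      · have h4 : m ≠ 0 := by omega
        have h5 : m - j ≠ 0 := by omega
        simp [h2, h3, h4, h5]
    · have h3 : m ≠ j := fun h => h2 (by rw [h])
      simp [h2, h3]
  · rw [if_neg h1]
    have h3 : m ≠ j := by omega
    have h4 : ¬ (j ∣ m ∧ m ≠ 0) := by
      rintro ⟨h5, h6⟩
      exact h1 (Nat.le_of_dvd (Nat.pos_of_ne_zero h6) h5)
    rw [if_neg h3, if_neg h4, sub_zero]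

/-- the finite product -/
noncomputable def Q (k M : ℕ) : PowerSeries ℤ :=
  ∏ n ∈ Finset.range M, (1 - X ^ (k * (n + 1)) : PowerSeries ℤ)

/-- its logarithmic derivative -/
noncomputable def R (k M : ℕ) : PowerSeries ℤ :=
  ∑ n ∈ Finset.range M, ((k * (n + 1) : ℕ) : PowerSeries ℤ) * Gs (k * (n + 1))

lemma th_one_log : th (1 : PowerSeries ℤ) = 0 := by
  ext n
  rw [coeff_th, coeff_one]
  by_cases h : n = 0
  · subst h; simp
  · simp [h]

lemma th_Q {k : ℕ} (hk : 0 < k) (M : ℕ) : th (Q k M) = -(Q k M * R k M) := by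
  induction M with
  | zero =>
    simp only [Q, R, Finset.range_zero, Finset.prod_empty, Finset.sum_empty, mul_zero, neg_zero]
    exact th_one_log
  | succ M ih =>
    have hj : 0 < k * (M + 1) := Nat.mul_pos hk (Nat.succ_pos M)
    have e1 : Q k (M + 1) = Q k M * (1 - X ^ (k * (M + 1))) := by
      unfold Q
      rw [Finset.prod_range_succ]
    have e2 : R k (M + 1) = R k M + ((k * (M + 1) : ℕ) : PowerSeries ℤ) * Gs (k * (M + 1)) := by
      unfold R
      rw [Finset.sum_range_succ]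
    have e3 := Gs_eq hj
    rw [e1, e2, th_mul, ih, th_sub, th_one_log, th_X_pow]
    linear_combination (-(Q k M) * ((k * (M + 1) : ℕ) : PowerSeries ℤ)) * e3.symm * (-1) * (-1)

lemma coeff_R {k : ℕ} (hk : 0 < k) {j m : ℕ} (hjm : j ≤ m) :
    coeff j (R k (m + 1)) = coeff j (sig k) := by
  unfold R sig
  rw [map_sum, coeff_mk]
  have e1 : ∀ n : ℕ, coeff j (((k * (n + 1) : ℕ) : PowerSeries ℤ) * Gs (k * (n + 1))) =
      if k * (n + 1) ∣ j ∧ j ≠ 0 then ((k * (n + 1) : ℕ) : ℤ) else 0 := by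
    intro n
    rw [← map_natCast (C (R := ℤ)), coeff_C_mul, Gs, coeff_mk]
    split_ifs <;> simp
  rw [Finset.sum_congr rfl (fun n _ => e1 n)]
  by_cases hj0 : j = 0
  · subst hj0
    simp
  by_cases hkj : k ∣ j
  · rw [if_pos hkj]
    obtain ⟨j', rfl⟩ := hkj
    have hj' : j' ≠ 0 := fun h => hj0 (by rw [h, mul_zero])
    rw [Nat.mul_div_cancel_left _ hk, ArithmeticFunction.sigma_one_apply, Nat.cast_sum,
      Finset.mul_sum]
    have e2 : ∀ n : ℕ, (if k * (n + 1) ∣ k * j' ∧ k * j' ≠ 0 then ((k * (n + 1) : ℕ) : ℤ) else 0)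
        = if n + 1 ∣ j' then ((k * (n + 1) : ℕ) : ℤ) else 0 := by
      intro n
      have e3 : k * (n + 1) ∣ k * j' ↔ n + 1 ∣ j' := Nat.mul_dvd_mul_iff_left hk
      simp [e3, hj0]
    rw [Finset.sum_congr rfl (fun n _ => e2 n), ← Finset.sum_filter]
    symm
    apply Finset.sum_bij (fun d _ => d - 1)
    · intro d hd
      rw [Nat.mem_divisors] at hd
      have hd0 : 0 < d := Nat.pos_of_dvd_of_pos hd.1 (Nat.pos_of_ne_zero hj')
      rw [Finset.mem_filter, Finset.mem_range, Nat.sub_add_cancel hd0]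
      refine ⟨?_, hd.1⟩
      have h1 : d ≤ j' := Nat.le_of_dvd (Nat.pos_of_ne_zero hj') hd.1
      have h2 : j' ≤ k * j' := Nat.le_mul_of_pos_left j' hk
      omega
    · intro d hd e he h
      rw [Nat.mem_divisors] at hd he
      have hd0 : 0 < d := Nat.pos_of_dvd_of_pos hd.1 (Nat.pos_of_ne_zero hj')
      have he0 : 0 < e := Nat.pos_of_dvd_of_pos he.1 (Nat.pos_of_ne_zero hj')
      omega
    · intro n hn
      rw [Finset.mem_filter] at hn
      exact ⟨n + 1, Nat.mem_divisors.2 ⟨hn.2, hj'⟩, by simp⟩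
    · intro d hd
      rw [Nat.mem_divisors] at hd
      have hd0 : 0 < d := Nat.pos_of_dvd_of_pos hd.1 (Nat.pos_of_ne_zero hj')
      rw [Nat.sub_add_cancel hd0]
      push_cast
      ring
  · rw [if_neg hkj]
    apply Finset.sum_eq_zero
    intro n _
    rw [if_neg]
    rintro ⟨h, -⟩
    exact hkj ((Dvd.intro _ rfl).trans h)

end SerLogAux

open SerLogAux

theorem th_P {k : ℕ} (hk : 0 < k) : th (P k) = -(P k * sig k) := by
  ext m
  have h1 : coeff m (th (P k)) = coeff m (th (Q k (m + 1))) := by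
    rw [coeff_th, coeff_th, coeff_P hk le_rfl]
    rfl
  rw [h1, th_Q hk, map_neg, map_neg, coeff_mul, coeff_mul]
  congr 1
  apply Finset.sum_congr rfl
  intro x hx
  have hx' : x.1 + x.2 = m := Finset.HasAntidiagonal.mem_antidiagonal.1 hx
  have h2 : coeff x.1 (Q k (m + 1)) = coeff x.1 (P k) :=
    (coeff_P hk (by omega : x.1 ≤ m)).symm
  rw [h2, coeff_R hk (by omega : x.2 ≤ m)]

end Pool.Agent.MTate
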