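import Pool.Agent.MTate.Base
/-!
# MODULE SerP (elementary, formal power series)
`P k` is an honest Euler product; `θ` is a derivation; small coefficients.

Proofs. `coeff_P`: for `k ≥ 1` the factor `1 - X^(k(n+1))` with `k (n+1) > m` does not change the
coefficient of `X^m` (multiplying by `1 - X^j`, `j > m`); induction on `M`.
`coeff_P_of_not_dvd`, `coeff_P_mul`: the finite products are the images of the same product for
`k = 1` under `X ↦ X^k` (or directly by induction on the number of factors: all exponents that occur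
are multiples of `k`).  `th_mul`: coefficientwise, `n = i + j` on the antidiagonal.
`b_even`: `fs = X * P 2 ^ 2 * P 10 ^ 2` and in `P 2`, `P 10` only even exponents occur.
-/
namespace Pool.Agent.MTate
open PowerSeries

theorem coeff_mul_one_sub (A : PowerSeries ℤ) {m j : ℕ} (h : m < j) :
    coeff m (A * (1 - X ^ j)) = coeff m A := by
  rw [mul_sub, mul_one, map_sub, coeff_mul_X_pow', if_neg (by omega), sub_zero]

theorem coeff_P {k : ℕ} (hk : 0 < k) {m M : ℕ} (h : m ≤ M) :
    coeff m (P k) =
      coeff m (∏ n ∈ Finset.range (M + 1), (1 - X ^ (k * (n + 1)) : PowerSeries ℤ)) := by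
  induction M, h using Nat.le_induction with
  | base => simp [P]
  | succ M hM ih =>
    rw [Finset.prod_range_succ, coeff_mul_one_sub, ih]
    have : M + 2 ≤ k * (M + 1 + 1) := Nat.le_mul_of_pos_left _ hk
    omega

theorem constantCoeff_P {k : ℕ} (hk : 0 < k) : constantCoeff (P k) = 1 := by
  rw [← coeff_zero_eq_constantCoeff_apply, coeff_P hk (le_refl 0), zero_add,
    Finset.prod_range_one, zero_add, mul_one, map_sub, coeff_X_pow, if_neg (by omega), sub_zero,
    coeff_one, if_pos rfl]

theorem coeff_fin {k : ℕ} (hk : 0 < k) (M : ℕ) :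
    (∀ m, ¬ k ∣ m → coeff m (∏ n ∈ Finset.range M, (1 - X ^ (k * (n + 1)) : PowerSeries ℤ)) = 0) ∧
    ∀ t, coeff (k * t) (∏ n ∈ Finset.range M, (1 - X ^ (k * (n + 1)) : PowerSeries ℤ)) =
      coeff t (∏ n ∈ Finset.range M, (1 - X ^ (1 * (n + 1)) : PowerSeries ℤ)) := by
  induction M with
  | zero =>
    refine ⟨fun m hm => ?_, fun t => ?_⟩
    · rw [Finset.prod_range_zero, coeff_one, if_neg]
      rintro rfl
      exact hm (dvd_zero k)
    · rw [Finset.prod_range_zero, Finset.prod_range_zero, coeff_one, coeff_one]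
      have : k * t = 0 ↔ t = 0 := by
        rw [Nat.mul_eq_zero]
        constructor
        · rintro (h | h)
          · omega
          · exact h
        · exact Or.inr
      simp only [this]
  | succ M ih =>
    obtain ⟨ih1, ih2⟩ := ih
    refine ⟨fun m hm => ?_, fun t => ?_⟩
    · rw [Finset.prod_range_succ, mul_sub, mul_one, map_sub, ih1 m hm, coeff_mul_X_pow', zero_sub,
        neg_eq_zero]
      split_ifs with h
      · apply ih1
        intro hd
        apply hm
        have : m = (m - k * (M + 1)) + k * (M + 1) := by omega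
        rw [this]
        exact dvd_add hd (dvd_mul_right _ _)
      · rfl
    · rw [Finset.prod_range_succ, Finset.prod_range_succ, mul_sub, mul_one, map_sub, ih2 t,
        coeff_mul_X_pow', mul_sub, mul_one, map_sub, coeff_mul_X_pow']
      congr 1
      by_cases h : 1 * (M + 1) ≤ t
      · have h' : k * (M + 1) ≤ k * t := Nat.mul_le_mul_left _ (by omega)
        rw [if_pos h, if_pos h', ← Nat.mul_sub, ih2, one_mul]
      · have h' : ¬ k * (M + 1) ≤ k * t := by
          intro hcon
          have := Nat.le_of_mul_le_mul_left hcon hk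
          omega
        rw [if_neg h, if_neg h']

theorem coeff_P_of_not_dvd {k : ℕ} (hk : 0 < k) {m : ℕ} (h : ¬ k ∣ m) : coeff m (P k) = 0 := by
  rw [coeff_P hk (le_refl m)]
  exact (coeff_fin hk _).1 m h

theorem coeff_P_mul {k : ℕ} (hk : 0 < k) (m : ℕ) : coeff (k * m) (P k) = coeff m (P 1) := by
  rw [coeff_P hk (le_refl (k * m)), coeff_P one_pos (Nat.le_mul_of_pos_left m hk)]
  exact (coeff_fin hk _).2 m

theorem coeff_th {R : Type*} [CommRing R] (a : PowerSeries R) (n : ℕ) :
    coeff n (th a) = (n : R) * coeff n a := by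
  simp [th]

theorem th_add {R : Type*} [CommRing R] (a c : PowerSeries R) : th (a + c) = th a + th c := by
  ext n
  simp only [coeff_th, map_add]
  ring

theorem th_sub {R : Type*} [CommRing R] (a c : PowerSeries R) : th (a - c) = th a - th c := by
  ext n
  simp only [coeff_th, map_sub]
  ring

theorem th_mul {R : Type*} [CommRing R] (a c : PowerSeries R) :
    th (a * c) = th a * c + a * th c := by
  ext n
  rw [coeff_th, map_add, coeff_mul, coeff_mul, coeff_mul, Finset.mul_sum, ← Finset.sum_add_distrib]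
  refine Finset.sum_congr rfl fun p hp => ?_
  rw [coeff_th, coeff_th, ← Finset.HasAntidiagonal.mem_antidiagonal.mp hp]
  push_cast
  ring

theorem th_one {R : Type*} [CommRing R] : th (1 : PowerSeries R) = 0 := by
  ext n
  rw [coeff_th, coeff_one, map_zero]
  split_ifs with h
  · rw [h]; simp
  · simp

theorem th_pow {R : Type*} [CommRing R] (a : PowerSeries R) (n : ℕ) :
    th (a ^ n) = (n : PowerSeries R) * a ^ (n - 1) * th a := by
  induction n with
  | zero => simp [th_one]
  | succ n ih =>
    rw [pow_succ, th_mul, ih, Nat.add_sub_cancel]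
    rcases Nat.eq_zero_or_pos n with h | h
    · subst h
      simp
    · have h1 : a ^ n = a ^ (n - 1) * a := by rw [← pow_succ, Nat.sub_add_cancel h]
      rw [h1]
      push_cast
      ring

theorem th_X {R : Type*} [CommRing R] : th (X : PowerSeries R) = X := by
  ext n
  rw [coeff_th, coeff_X]
  split_ifs with h
  · rw [h]; simp
  · simp

theorem th_X_pow {R : Type*} [CommRing R] (n : ℕ) :
    th (X ^ n : PowerSeries R) = (n : PowerSeries R) * X ^ n := by
  rw [th_pow, th_X]
  rcases Nat.eq_zero_or_pos n with h | h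
  · subst h
    simp
  · rw [mul_assoc, ← pow_succ, Nat.sub_add_cancel h]

theorem th_map {R S : Type*} [CommRing R] [CommRing S] (φ : R →+* S) (a : PowerSeries R) :
    th (PowerSeries.map φ a) = PowerSeries.map φ (th a) := by
  ext n
  simp only [coeff_th, coeff_map, map_mul, map_natCast]

/-- Only even exponents. -/
def OnlyEven (a : PowerSeries ℤ) : Prop := ∀ m, ¬ 2 ∣ m → coeff m a = 0

theorem OnlyEven.mul {a c : PowerSeries ℤ} (ha : OnlyEven a) (hc : OnlyEven c) :
    OnlyEven (a * c) := by
  intro m hm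
  rw [coeff_mul]
  refine Finset.sum_eq_zero fun p hp => ?_
  have := Finset.HasAntidiagonal.mem_antidiagonal.mp hp
  by_cases h : 2 ∣ p.1
  · rw [hc p.2 (by omega), mul_zero]
  · rw [ha p.1 h, zero_mul]

theorem onlyEven_P {k : ℕ} (hk : 0 < k) (h2 : 2 ∣ k) : OnlyEven (P k) :=
  fun _ hm => coeff_P_of_not_dvd hk fun h => hm (h2.trans h)

theorem fs_eq : fs = X * (P 2 ^ 2 * P 10 ^ 2) := by rw [fs, mul_assoc]

theorem b_succ (n : ℕ) : b (n + 1) = coeff n (P 2 ^ 2 * P 10 ^ 2) := by
  rw [b, fs_eq, coeff_succ_X_mul]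

theorem b_even (n : ℕ) : b (2 * n) = 0 := by
  have h2 := onlyEven_P (k := 2) (by norm_num) (by norm_num)
  have h10 := onlyEven_P (k := 10) (by norm_num) (by norm_num)
  rcases Nat.eq_zero_or_pos n with h | h
  · subst h
    rw [b, fs_eq, mul_zero, coeff_zero_X_mul]
  · have h1 : 2 * n = (2 * n - 1) + 1 := by omega
    rw [h1, b_succ, pow_two, pow_two]
    exact ((h2.mul h2).mul (h10.mul h10)) _ (by omega)

theorem b_zero : b 0 = 0 := b_even 0

theorem b_one : b 1 = 1 := by
  rw [show (1 : ℕ) = 0 + 1 from rfl, b_succ, coeff_zero_eq_constantCoeff_apply, map_mul, map_pow,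
    map_pow, constantCoeff_P (by norm_num), constantCoeff_P (by norm_num)]
  norm_num

theorem coeff_one_P1 : coeff 1 (P 1) = -1 := by
  simp [P, Finset.prod_range_succ, coeff_mul, coeff_X_pow, Finset.Nat.antidiagonal_succ, coeff_one,
    coeff_X]

theorem coeff_two_P1 : coeff 2 (P 1) = -1 := by
  simp [P, Finset.prod_range_succ, coeff_mul, coeff_X_pow, Finset.Nat.antidiagonal_succ, coeff_one,
    coeff_X]

theorem coeffs_P2 : coeff 0 (P 2) = 1 ∧ coeff 1 (P 2) = 0 ∧ coeff 2 (P 2) = -1 ∧
    coeff 3 (P 2) = 0 ∧ coeff 4 (P 2) = -1 := by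
  refine ⟨?_, coeff_P_of_not_dvd (by norm_num) (by norm_num), ?_,
    coeff_P_of_not_dvd (by norm_num) (by norm_num), ?_⟩
  · rw [coeff_zero_eq_constantCoeff_apply, constantCoeff_P (by norm_num)]
  · exact (coeff_P_mul (by norm_num) 1).trans coeff_one_P1
  · exact (coeff_P_mul (by norm_num) 2).trans coeff_two_P1

theorem coeffs_P10 : coeff 0 (P 10) = 1 ∧ coeff 1 (P 10) = 0 ∧ coeff 2 (P 10) = 0 ∧
    coeff 3 (P 10) = 0 ∧ coeff 4 (P 10) = 0 := by
  refine ⟨?_, coeff_P_of_not_dvd (by norm_num) (by norm_num),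
    coeff_P_of_not_dvd (by norm_num) (by norm_num),
    coeff_P_of_not_dvd (by norm_num) (by norm_num),
    coeff_P_of_not_dvd (by norm_num) (by norm_num)⟩
  rw [coeff_zero_eq_constantCoeff_apply, constantCoeff_P (by norm_num)]

theorem b_three : b 3 = -2 := by
  obtain ⟨h0, h1, h2, -, -⟩ := coeffs_P2
  obtain ⟨k0, k1, k2, -, -⟩ := coeffs_P10
  rw [show (3 : ℕ) = 2 + 1 from rfl, b_succ]
  simp [pow_two, coeff_mul, Finset.Nat.antidiagonal_succ, h0, h1, h2, k0, k1, k2,
    -coeff_zero_eq_constantCoeff]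

theorem b_five' : b 5 = -1 := by
  obtain ⟨h0, h1, h2, h3, h4⟩ := coeffs_P2
  obtain ⟨k0, k1, k2, k3, k4⟩ := coeffs_P10
  rw [show (5 : ℕ) = 4 + 1 from rfl, b_succ]
  simp [pow_two, coeff_mul, Finset.Nat.antidiagonal_succ, h0, h1, h2, h3, h4, k0, k1, k2, k3, k4,
    -coeff_zero_eq_constantCoeff]

end Pool.Agent.MTate
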