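import Pool.Agent.MTate.ModularE
/-!
# MODULE TwistF (finite Fourier analysis)
`f_E(z) = (1/(i √8)) (f0(z+1/8) + f0(z+3/8) - f0(z+5/8) - f0(z+7/8))`.

Proof. `an E n = χ(n) b n` (`an_E`), and for every `n` with `ζ = exp(2 π i/8) = (1+i)/√2`:
`ζ^n + ζ^{3n} - ζ^{5n} - ζ^{7n} = i √8 χ(n)` (check `n mod 8`).  Sum `f0_hasSum` at the four points
(`qq (z + u/8) = ζ^u qq z`).
-/
namespace Pool.Agent.MTate
open Complex

namespace TwF

/-- primitive eighth root of unity -/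
noncomputable def ze_tw : ℂ := exp (2 * Real.pi * I * (1 / 8))

lemma sq8 : ((√8 : ℝ) : ℂ) ^ 2 = 8 := by
  rw [← Complex.ofReal_pow, Real.sq_sqrt (by norm_num)]
  norm_num

lemma s8_ne : ((√8 : ℝ) : ℂ) ≠ 0 := by
  intro h
  have := sq8
  rw [h] at this
  norm_num at this

lemma ze_eq : ze_tw = ((√8 : ℝ) : ℂ) / 4 * (1 + I) := by
  unfold ze_tw
  have h1 : (2 * Real.pi * I * (1 / 8) : ℂ) = ((Real.pi / 4 : ℝ) : ℂ) * I := by
    push_cast
    ring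
  have h8 : √8 = 2 * √2 := by
    rw [show (8 : ℝ) = 2 ^ 2 * 2 by norm_num, Real.sqrt_mul (by norm_num),
      Real.sqrt_sq (by norm_num)]
  rw [h1, Complex.exp_mul_I, ← Complex.ofReal_cos, ← Complex.ofReal_sin, Real.cos_pi_div_four,
    Real.sin_pi_div_four, h8]
  push_cast
  ring

lemma ze_sq : ze_tw ^ 2 = I := by
  rw [ze_eq]
  have := sq8
  have h2 := Complex.I_sq
  linear_combination ((1 + I) ^ 2 / 16) * this + (1 / 2) * h2

lemma ze_8 : ze_tw ^ 8 = 1 := by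
  have : ze_tw ^ 8 = (ze_tw ^ 2) ^ 4 := by ring
  rw [this, ze_sq, Complex.I_pow_four]

lemma ze_mod (n : ℕ) : ze_tw ^ n = ze_tw ^ (n % 8) := by
  conv_lhs => rw [← Nat.div_add_mod n 8, pow_add, pow_mul, ze_8, one_pow, one_mul]

lemma sum_ze (n : ℕ) : ze_tw ^ n + (ze_tw ^ 3) ^ n - (ze_tw ^ 5) ^ n - (ze_tw ^ 7) ^ n =
    I * ((√8 : ℝ) : ℂ) * (chi n : ℂ) := by
  have e (u : ℕ) : (ze_tw ^ u) ^ n = (ze_tw ^ (n % 8)) ^ u := by
    rw [← pow_mul, mul_comm, pow_mul, ze_mod]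
  rw [e 3, e 5, e 7, ze_mod n]
  have hr : n % 8 < 8 := Nat.mod_lt _ (by norm_num)
  unfold chi
  have h2 := Complex.I_sq
  have hz2 := ze_sq
  have hz : ze_tw * (2 + 2 * I) = I * ((√8 : ℝ) : ℂ) := by
    rw [ze_eq]
    linear_combination (((√8 : ℝ) : ℂ) / 2) * h2
  have i3 : ze_tw ^ 3 = I * ze_tw := by
    rw [pow_succ, hz2]
  have i5 : ze_tw ^ 5 = - ze_tw := by
    rw [show ze_tw ^ 5 = (ze_tw ^ 2) ^ 2 * ze_tw by ring, hz2, h2]
    ring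
  have i7 : ze_tw ^ 7 = - (I * ze_tw) := by
    rw [show ze_tw ^ 7 = (ze_tw ^ 2) ^ 2 * ze_tw ^ 3 by ring, hz2, h2, i3]
    ring
  have i9 : ze_tw ^ 9 = ze_tw := by
    rw [show ze_tw ^ 9 = ze_tw ^ 8 * ze_tw by ring, ze_8, one_mul]
  generalize n % 8 = r at hr ⊢
  interval_cases r
  · norm_num
  · rw [pow_one, i3, i5, i7]
    norm_num
    linear_combination hz
  · rw [hz2]
    rw [show I ^ 3 = I ^ 2 * I by ring, show I ^ 5 = (I ^ 2) ^ 2 * I by ring,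
      show I ^ 7 = (I ^ 2) ^ 3 * I by ring, h2]
    norm_num
  · have j1 : (ze_tw ^ 3) ^ 3 = ze_tw := by rw [← pow_mul]; exact i9
    have j2 : (ze_tw ^ 3) ^ 5 = - (I * ze_tw) := by
      rw [← pow_mul, show ze_tw ^ (3 * 5) = ze_tw ^ 8 * ze_tw ^ 7 by ring, ze_8, one_mul, i7]
    have j3 : (ze_tw ^ 3) ^ 7 = - ze_tw := by
      rw [← pow_mul, show ze_tw ^ (3 * 7) = (ze_tw ^ 8) ^ 2 * ze_tw ^ 5 by ring, ze_8, one_pow, one_mul, i5]
    rw [j1, j2, j3, i3]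
    norm_num
    linear_combination hz
  · have j1 : ze_tw ^ 4 = -1 := by rw [show ze_tw ^ 4 = (ze_tw ^ 2) ^ 2 by ring, hz2, h2]
    rw [j1]
    norm_num
  · have j1 : (ze_tw ^ 5) ^ 3 = - (I * ze_tw) := by
      rw [← pow_mul, show ze_tw ^ (5 * 3) = ze_tw ^ 8 * ze_tw ^ 7 by ring, ze_8, one_mul, i7]
    have j2 : (ze_tw ^ 5) ^ 5 = ze_tw := by
      rw [← pow_mul, show ze_tw ^ (5 * 5) = (ze_tw ^ 8) ^ 3 * ze_tw by ring, ze_8, one_pow, one_mul]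
    have j3 : (ze_tw ^ 5) ^ 7 = I * ze_tw := by
      rw [← pow_mul, show ze_tw ^ (5 * 7) = (ze_tw ^ 8) ^ 4 * ze_tw ^ 3 by ring, ze_8, one_pow, one_mul, i3]
    rw [j1, j2, j3, i5]
    norm_num
    linear_combination (-1 : ℂ) * hz
  · have j1 : ze_tw ^ 6 = -I := by
      rw [show ze_tw ^ 6 = (ze_tw ^ 2) ^ 2 * ze_tw ^ 2 by ring, hz2, h2]
      ring
    rw [j1, show (-I) ^ 3 = - (I ^ 2 * I) by ring, show (-I) ^ 5 = - ((I ^ 2) ^ 2 * I) by ring,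
      show (-I) ^ 7 = - ((I ^ 2) ^ 3 * I) by ring, h2]
    norm_num
  · have j1 : (ze_tw ^ 7) ^ 3 = - ze_tw := by
      rw [← pow_mul, show ze_tw ^ (7 * 3) = (ze_tw ^ 8) ^ 2 * ze_tw ^ 5 by ring, ze_8, one_pow, one_mul, i5]
    have j2 : (ze_tw ^ 7) ^ 5 = I * ze_tw := by
      rw [← pow_mul, show ze_tw ^ (7 * 5) = (ze_tw ^ 8) ^ 4 * ze_tw ^ 3 by ring, ze_8, one_pow, one_mul, i3]
    have j3 : (ze_tw ^ 7) ^ 7 = ze_tw := by
      rw [← pow_mul, show ze_tw ^ (7 * 7) = (ze_tw ^ 8) ^ 6 * ze_tw by ring, ze_8, one_pow, one_mul]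
    rw [j1, j2, j3, i7]
    norm_num
    linear_combination (-1 : ℂ) * hz

lemma qq_shift (z : ℂ) (u : ℕ) : qq (z + u / 8) = qq z * ze_tw ^ u := by
  unfold qq ze_tw
  rw [← Complex.exp_nat_mul, ← Complex.exp_add]
  congr 1
  ring

lemma qq_pow (z : ℂ) (n : ℕ) : exp (2 * Real.pi * I * n * z) = qq z ^ n := by
  unfold qq
  rw [← Complex.exp_nat_mul]
  congr 1
  ring

end TwF

open TwF in
theorem fW_E {z : ℂ} (hz : 0 < z.im) :
    fW E z = (1 / (I * √8)) * (f0 (z + 1 / 8) + f0 (z + 3 / 8) - f0 (z + 5 / 8) - f0 (z + 7 / 8)) := by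
  have him (u : ℝ) : 0 < (z + (u : ℂ)).im := by
    rw [Complex.add_im, Complex.ofReal_im, add_zero]
    exact hz
  have h1 : HasSum (fun n : ℕ => (b n : ℂ) * qq (z + 1 / 8) ^ n) (f0 (z + 1 / 8)) := by
    apply f0_hasSum
    have := him (1 / 8)
    push_cast at this
    exact this
  have h3 : HasSum (fun n : ℕ => (b n : ℂ) * qq (z + 3 / 8) ^ n) (f0 (z + 3 / 8)) := by
    apply f0_hasSum
    have := him (3 / 8)
    push_cast at this
    exact this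
  have h5 : HasSum (fun n : ℕ => (b n : ℂ) * qq (z + 5 / 8) ^ n) (f0 (z + 5 / 8)) := by
    apply f0_hasSum
    have := him (5 / 8)
    push_cast at this
    exact this
  have h7 : HasSum (fun n : ℕ => (b n : ℂ) * qq (z + 7 / 8) ^ n) (f0 (z + 7 / 8)) := by
    apply f0_hasSum
    have := him (7 / 8)
    push_cast at this
    exact this
  have h := (((h1.add h3).sub h5).sub h7).mul_left (1 / (I * ((√8 : ℝ) : ℂ)))
  rw [← h.tsum_eq]
  unfold fW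
  apply tsum_congr
  intro n
  have q1 : qq (z + 1 / 8) = qq z * ze_tw := by
    have := qq_shift z 1
    rw [pow_one] at this
    rw [← this]
    norm_num
  have q3 : qq (z + 3 / 8) = qq z * ze_tw ^ 3 := by
    rw [← qq_shift z 3]
    norm_num
  have q5 : qq (z + 5 / 8) = qq z * ze_tw ^ 5 := by
    rw [← qq_shift z 5]
    norm_num
  have q7 : qq (z + 7 / 8) = qq z * ze_tw ^ 7 := by
    rw [← qq_shift z 7]
    norm_num
  rw [an_E, qq_pow, q1, q3, q5, q7]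
  have hs := sum_ze n
  have hne : I * ((√8 : ℝ) : ℂ) ≠ 0 := mul_ne_zero Complex.I_ne_zero s8_ne
  have e1 : (b n : ℂ) * (qq z * ze_tw) ^ n + (b n : ℂ) * (qq z * ze_tw ^ 3) ^ n -
      (b n : ℂ) * (qq z * ze_tw ^ 5) ^ n - (b n : ℂ) * (qq z * ze_tw ^ 7) ^ n =
      (b n : ℂ) * qq z ^ n * (I * ((√8 : ℝ) : ℂ) * (chi n : ℂ)) := by
    rw [← hs, mul_pow, mul_pow, mul_pow, mul_pow]
    ring
  rw [e1]
  push_cast
  rw [one_div, eq_inv_mul_iff_mul_eq₀ hne]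
  ring

theorem fW_E_periodic {z : ℂ} (hz : 0 < z.im) : fW E (z + 1) = fW E z := by
  unfold fW
  apply tsum_congr
  intro n
  congr 1
  rw [Complex.exp_eq_exp_iff_exists_int]
  refine ⟨n, ?_⟩
  push_cast
  ring

end Pool.Agent.MTate
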