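import Pool.Agent.MTate.Cusp20
import Pool.Agent.MTate.InvF
import Pool.Agent.MTate.PerDecay
import Pool.Agent.MTate.Link
/-!
# MODULE YB (modular forms)
`Y0 = X0'/(4 π i f0)` is `Γ_0(20)`-invariant and bounded at the cusps not equivalent to `i∞`.

Proof. Invariance: differentiate `X0(γz) = X0(z)`: `X0'(γz) = (cz+d)^2 X0'(z)`, and `f0(γz) = (cz+d)^2 f0(z)`.
Boundedness at `σ = (a b; c d)`, `20 ∤ c`: let `F(z) = X0(σz)`.  `F` is holomorphic, bounded (`X0_cusp`) and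
periodic with period `h = hc c = 20/gcd(c^2,20)`, because `σ(z+h) = (σ T^h σ^{-1})(σz)` and
`σ T^h σ^{-1} = (1 - a c h, a^2 h; -c^2 h, 1 + a c h) ∈ Γ_0(20)` as `20 ∣ c^2 h`.  By `per_deriv`,
`‖F'(z)‖ ≤ K exp(-2 π im z/h)`.  Finally `F'(z) = X0'(σz)/(cz+d)^2`, so
`Y0(σz) = F'(z) / (4 π i f0(σz)/(cz+d)^2)` and `‖f0(σz)‖/‖cz+d‖^2 ≥ (κ/2) exp(-2 π im z/h)` by `f0_cusp`.
-/
namespace Pool.Agent.MTate
open Complex Filter Topology

/-- the width is positive -/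
theorem gcd_dvd_twenty (c : ℤ) : Int.gcd (c ^ 2) 20 ∣ 20 := by
  have h : ((Int.gcd (c ^ 2) 20 : ℕ) : ℤ) ∣ ((20 : ℕ) : ℤ) := Int.gcd_dvd_right _ _
  exact Int.natCast_dvd_natCast.1 h

theorem hc_pos (c : ℤ) : 0 < hc c := by
  unfold hc
  refine Nat.div_pos ?_ (Int.gcd_pos_of_ne_zero_right _ (by norm_num))
  exact Nat.le_of_dvd (by norm_num) (gcd_dvd_twenty c)

theorem hc_dvd (c : ℤ) : (20 : ℤ) ∣ c ^ 2 * (hc c : ℤ) := by
  have h1 : ((Int.gcd (c ^ 2) 20 : ℕ) : ℤ) ∣ c ^ 2 := Int.gcd_dvd_left _ _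
  have h2 : Int.gcd (c ^ 2) 20 ∣ 20 := gcd_dvd_twenty c
  have h3 : Int.gcd (c ^ 2) 20 * hc c = 20 := Nat.mul_div_cancel' h2
  obtain ⟨m, hm⟩ := h1
  refine ⟨m, ?_⟩
  have h4 : ((Int.gcd (c ^ 2) 20 : ℕ) : ℤ) * (hc c : ℤ) = 20 := by exact_mod_cast h3
  calc c ^ 2 * (hc c : ℤ) = ((Int.gcd (c ^ 2) 20 : ℕ) : ℤ) * m * (hc c : ℤ) := by rw [← hm]
    _ = (((Int.gcd (c ^ 2) 20 : ℕ) : ℤ) * (hc c : ℤ)) * m := by ring
    _ = 20 * m := by rw [h4]

theorem hasDerivAt_moeb {a b c d : ℤ} (h : a * d - b * c = 1) {z : ℂ} (hz : 0 < z.im) :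
    HasDerivAt (fun z : ℂ => ((a : ℂ) * z + b) / (c * z + d)) (1 / (c * z + d) ^ 2) z := by
  have hne := den_ne h hz
  have h1 : HasDerivAt (fun z : ℂ => (a : ℂ) * z + b) a z := by
    simpa using ((hasDerivAt_id z).const_mul (a : ℂ)).add_const (b : ℂ)
  have h2 : HasDerivAt (fun z : ℂ => (c : ℂ) * z + d) c z := by
    simpa using ((hasDerivAt_id z).const_mul (c : ℂ)).add_const (d : ℂ)
  have h3 := h1.div h2 hne
  have h4 : ((a : ℂ) * (c * z + d) - (a * z + b) * c) = 1 := by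
    have : ((a * d - b * c : ℤ) : ℂ) = 1 := by rw [h]; norm_num
    push_cast at this
    linear_combination this
  rw [h4] at h3
  exact h3

/-- `σ T^h σ^{-1} ∈ Γ_0(20)` : any `Γ_0(20)`-invariant function becomes `hc c`-periodic at the cusp. -/
theorem cusp_periodic {k : ℤ} (u : ℂ → ℂ) (hinv : Inv 20 k u) {a b c d : ℤ} (h : a * d - b * c = 1)
    (z : ℂ) (hz : 0 < z.im) :
    u ((a * (z + hc c) + b) / (c * (z + hc c) + d)) / (c * (z + hc c) + d) ^ k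
      = u ((a * z + b) / (c * z + d)) / (c * z + d) ^ k := by
  have hC : (a : ℂ) * d - b * c = 1 := by exact_mod_cast h
  have hne := den_ne h hz
  have hz' : 0 < (z + (hc c : ℂ)).im := by simpa using hz
  have hne' := den_ne h hz'
  have hdet : (1 - a * c * (hc c : ℤ)) * (1 + a * c * (hc c : ℤ)) -
      (a ^ 2 * (hc c : ℤ)) * (-(c ^ 2 * (hc c : ℤ))) = 1 := by ring
  have hdvd : ((20 : ℕ) : ℤ) ∣ -(c ^ 2 * (hc c : ℤ)) := by
    exact_mod_cast (hc_dvd c).neg_right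
  have key := hinv _ _ _ _ hdet hdvd ((a * z + b) / (c * z + d)) (im_smul_pos h hz)
  push_cast at key
  have hden : (-((c : ℂ) ^ 2 * (hc c : ℂ))) * ((a * z + b) / (c * z + d)) +
      (1 + a * c * (hc c : ℂ)) = (c * (z + hc c) + d) / (c * z + d) := by
    field_simp
    linear_combination ((c : ℂ) * (hc c : ℂ)) * hC
  have hnum : (1 - (a : ℂ) * c * (hc c : ℂ)) * ((a * z + b) / (c * z + d)) +
      (a : ℂ) ^ 2 * (hc c : ℂ) = (a * (z + hc c) + b) / (c * z + d) := by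
    field_simp
    linear_combination ((a : ℂ) * (hc c : ℂ)) * hC
  rw [hden, hnum, div_div_div_cancel_right₀ hne, div_zpow] at key
  rw [key]
  have h5 : ((c : ℂ) * (z + hc c) + d) ^ k ≠ 0 := zpow_ne_zero _ hne'
  have h6 : ((c : ℂ) * z + d) ^ k ≠ 0 := zpow_ne_zero _ hne
  field_simp

theorem deriv_comp_moeb {a b c d : ℤ} (h : a * d - b * c = 1) {z : ℂ} (hz : 0 < z.im) :
    HasDerivAt (fun z : ℂ => X0 ((a * z + b) / (c * z + d)))
      (deriv X0 ((a * z + b) / (c * z + d)) * (1 / (c * z + d) ^ 2)) z := by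
  have h1 := hasDerivAt_moeb h hz
  have hHH : IsOpen HH := isOpen_lt continuous_const Complex.continuous_im
  have h2 : DifferentiableAt ℂ X0 ((a * z + b) / (c * z + d)) :=
    X0_diff.differentiableAt (hHH.mem_nhds (im_smul_pos h hz))
  exact h2.hasDerivAt.comp z h1

theorem Y0_inv : Inv 20 0 Y0 := by
  intro a b c d h hc z hz
  have hHH : IsOpen HH := isOpen_lt continuous_const Complex.continuous_im
  have hne := den_ne h hz
  have h1 := (deriv_comp_moeb h hz).deriv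
  have h2 : (fun z : ℂ => X0 ((a * z + b) / (c * z + d))) =ᶠ[𝓝 z] X0 := by
    filter_upwards [hHH.mem_nhds hz] with w hw
    have := X0_inv a b c d h hc w hw
    simpa using this
  have h3 : deriv X0 z = deriv X0 ((a * z + b) / (c * z + d)) * (1 / (c * z + d) ^ 2) := by
    rw [← h1]; exact h2.deriv_eq.symm
  have h4 := f0_inv a b c d h hc z hz
  have h5 : f0 z ≠ 0 := f0_ne hz
  have h6 : (f0 ((a * z + b) / (c * z + d))) = (c * z + d) ^ 2 * f0 z := by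
    rw [h4]; norm_cast
  simp only [Y0, zpow_zero, one_mul]
  rw [h6, h3]
  have hpi : (Real.pi : ℂ) ≠ 0 := by exact_mod_cast Real.pi_ne_zero
  have hI := Complex.I_ne_zero
  field_simp

theorem Y0_cusp {a b c d : ℤ} (h : a * d - b * c = 1) (hc : ¬ (20 : ℤ) ∣ c) :
    ∃ M : ℝ, ∀ᶠ z in imInf, ‖Y0 ((a * z + b) / (c * z + d))‖ ≤ M := by
  obtain ⟨M, hM⟩ := X0_cusp h hc
  obtain ⟨κ, hκ, hf⟩ := f0_cusp h
  set F : ℂ → ℂ := fun z => X0 ((a * z + b) / (c * z + d)) with hF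
  have hFd : DifferentiableOn ℂ F HH := fun z hz =>
    (deriv_comp_moeb h hz).differentiableAt.differentiableWithinAt
  have hper : ∀ z : ℂ, 0 < z.im → F (z + (MTate.hc c : ℕ)) = F z := by
    intro z hz
    have := cusp_periodic (k := 0) X0 X0_inv h z hz
    simpa using this
  obtain ⟨K, hK⟩ := per_deriv F (MTate.hc c) (hc_pos c) hFd hper M hM
  have hpos : ∀ᶠ z : ℂ in imInf, 0 < z.im := by
    rw [imInf, Filter.eventually_comap]
    filter_upwards [Filter.eventually_gt_atTop (0 : ℝ)] with t ht z hz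
    rw [hz]; exact ht
  have hlow : ∀ᶠ z : ℂ in imInf, κ / 2 < ‖f0 ((a * z + b) / (c * z + d))‖ / ‖(c * z + d : ℂ)‖ ^ 2 *
        Real.exp (2 * Real.pi * z.im / MTate.hc c) :=
    hf.eventually_const_lt (by linarith)
  refine ⟨|K| / (4 * Real.pi * (κ / 2)), ?_⟩
  filter_upwards [hK, hpos, hlow] with z h1 hz h3
  have hne := den_ne h hz
  have hder := (deriv_comp_moeb h hz).deriv
  have e1 : deriv F z = deriv X0 ((a * z + b) / (c * z + d)) * (1 / (c * z + d) ^ 2) := hder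
  set w : ℂ := (a * z + b) / (c * z + d) with hw
  have hw0 : 0 < w.im := im_smul_pos h hz
  have hf0 : f0 w ≠ 0 := f0_ne hw0
  set E : ℝ := Real.exp (2 * Real.pi * z.im / MTate.hc c) with hE
  have hEpos : 0 < E := Real.exp_pos _
  have hEinv : Real.exp (-(2 * Real.pi * z.im / MTate.hc c)) = E⁻¹ := by rw [Real.exp_neg]
  rw [hEinv] at h1
  have hn : 0 < ‖(c * z + d : ℂ)‖ := norm_pos_iff.2 hne
  have e2 : ‖deriv X0 w‖ = ‖deriv F z‖ * ‖(c * z + d : ℂ)‖ ^ 2 := by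
    rw [e1, norm_mul, norm_div, norm_one, norm_pow]
    field_simp
  have hY : ‖Y0 w‖ = ‖deriv F z‖ * ‖(c * z + d : ℂ)‖ ^ 2 / (4 * Real.pi * ‖f0 w‖) := by
    rw [Y0, norm_div, e2]
    congr 1
    rw [norm_mul, norm_mul, norm_mul, Complex.norm_I, Complex.norm_real, Real.norm_eq_abs,
      abs_of_pos Real.pi_pos]
    norm_num
  have hfpos : 0 < ‖f0 w‖ := norm_pos_iff.2 hf0
  have h4 : ‖deriv F z‖ ≤ |K| * E⁻¹ :=
    h1.trans (mul_le_mul_of_nonneg_right (le_abs_self K) (inv_nonneg.2 hEpos.le))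
  have h5 : κ / 2 * ‖(c * z + d : ℂ)‖ ^ 2 * E⁻¹ ≤ ‖f0 w‖ := by
    have h6 : κ / 2 < ‖f0 w‖ * E / ‖(c * z + d : ℂ)‖ ^ 2 := by
      have : ‖f0 w‖ / ‖(c * z + d : ℂ)‖ ^ 2 * E = ‖f0 w‖ * E / ‖(c * z + d : ℂ)‖ ^ 2 := by ring
      rw [← this]; exact h3
    rw [lt_div_iff₀ (by positivity)] at h6
    calc κ / 2 * ‖(c * z + d : ℂ)‖ ^ 2 * E⁻¹ ≤ (‖f0 w‖ * E) * E⁻¹ :=
          mul_le_mul_of_nonneg_right h6.le (inv_nonneg.2 hEpos.le)
      _ = ‖f0 w‖ := by field_simp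
  rw [hY, div_le_div_iff₀ (by positivity) (by positivity)]
  calc ‖deriv F z‖ * ‖(c * z + d : ℂ)‖ ^ 2 * (4 * Real.pi * (κ / 2))
      ≤ |K| * E⁻¹ * ‖(c * z + d : ℂ)‖ ^ 2 * (4 * Real.pi * (κ / 2)) := by gcongr
    _ = |K| * (4 * Real.pi * (κ / 2 * ‖(c * z + d : ℂ)‖ ^ 2 * E⁻¹)) := by ring
    _ ≤ |K| * (4 * Real.pi * ‖f0 w‖) := by gcongr

end Pool.Agent.MTate
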